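import Mathlib
import Pool.Agent.Lib.MP_44a246_ntE.E02
import Pool.Agent.Lib.MP_44a246_ntE.E10
import Pool.Agent.Lib.MP_44a246_ntL.LMain
import Pool.Agent.Lib.MP_44a246_ntE.E12
import Pool.Agent.Lib.MP_44a246_ntSH.LA03

/-!
# Sharp pairs: the conditions which come from the equations and the boundary (paper 669, L3)

`γ` is the point of a curve; the forms `a b` vanish at `γ`, the forms `a' c` do not. The
derivations of a space `S` (combinations of the derivations dual to the coefficients and of `m'`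
others) do not move `γ` and kill `X`. At a boundary place the derivation preserves the fractional
ideals if it kills the value of `X`. So after `#bdry` conditions the logarithmic derivatives of the
forms `a' c` at `γ` are constants, and after `#Λ` more conditions the forms with the coefficients
`c` vanish at `γ`.
-/

namespace Pool.Agent.Lib.MP_44a246_ntSP

open Pool.Agent.Lib.MP_e52354_nt
open Pool.Agent.Lib.MP_44a246_nt
open Pool.Agent.Lib.MP_44a246_ntK
open Pool.Agent.Lib.MP_44a246_ntL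
open Pool.Agent.Lib.MP_44a246_ntR
open Pool.Agent.Lib.MP_44a246_ntS
open Pool.Agent.Lib.MP_44a246_ntE
open Pool.Agent.Lib.MP_44a246_ntSH (bdry bdry_finite)
open WithZero Polynomial Module

/-- the values of the combinations at a family of elements, as a linear map -/
noncomputable def cnv {κ M T ι : Type*} [Field κ] [Field M] [Algebra κ M] [Fintype T]
    (D : T → Derivation ℤ M M) (y : ι → M) : (T → κ) →ₗ[κ] (ι → M) where
  toFun c i := Dc D c (y i)
  map_add' c c' := by
    funext i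
    rw [Pi.add_apply, Dc_apply, Dc_apply, Dc_apply, ← Finset.sum_add_distrib]
    exact Finset.sum_congr rfl fun t _ => by rw [Pi.add_apply, map_add]; ring
  map_smul' r c := by
    funext i
    show Dc D (r • c) (y i) = r • Dc D c (y i)
    rw [Dc_apply, Dc_apply, Finset.smul_sum]
    refine Finset.sum_congr rfl fun t _ => ?_
    rw [Pi.smul_apply, smul_eq_mul, map_mul, Algebra.smul_def]
    ring

theorem cnv_apply {κ M T ι : Type*} [Field κ] [Field M] [Algebra κ M] [Fintype T]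
    (D : T → Derivation ℤ M M) (y : ι → M) (c : T → κ) (i : ι) : cnv D y c i = Dc D c (y i) := rfl

/-- the value of a monomial -/
theorem cn_mon_le {K : Type*} [Field K] (v : Valuation K ℤᵐ⁰) {n d : ℕ} (x : Fin (n + 1) → K)
    {I : Fin (n + 1) →₀ ℕ} (hI : I ∈ expo (Fin (n + 1)) d) : v (mon x I) ≤ vmax v x ^ d := by
  have h4 : I.degree = d := mem_expo.1 hI
  unfold mon
  rw [map_prod]
  calc ∏ j, v (x j ^ I j) ≤ ∏ j, vmax v x ^ I j := by
        refine Finset.prod_le_prod' fun j _ => ?_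
        rw [map_pow]
        exact pow_le_pow_left' (Finset.le_sup (f := fun j => v (x j)) (Finset.mem_univ j)) _
    _ = vmax v x ^ d := by
        rw [Finset.prod_pow_eq_pow_sum, ← Finsupp.degree_eq_sum, h4]

section

variable {κ M : Type*} [Field κ] [IsAlgClosed κ] [CharZero κ] [Field M] [Algebra κ M]
  [Algebra κ[X] M] [IsScalarTower κ κ[X] M]
  [Algebra (RatFunc κ) M] [IsScalarTower κ[X] (RatFunc κ) M]
  [Algebra (Rinf κ) M] [IsScalarTower (Rinf κ) (RatFunc κ) M]
  [FiniteDimensional (RatFunc κ) M]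

/-- the index set of the coefficients -/
abbrev CX (n : ℕ) {J : Type*} (d : J → ℕ) : Type _ := Σ b : J, ↥(expo (Fin (n + 1)) (d b))

/-- **The conditions which come from the equations, with the boundary places.** -/
theorem count_bdry {n m' q : ℕ} {ι Λ : Type*} [Fintype ι] [Fintype Λ] [DecidableEq ι]
    [DecidableEq Λ] {d : ι → ℕ} {a : ι → (Fin (n + 1) →₀ ℕ) → κ} {d' : Λ → ℕ}
    {a' : Λ → (Fin (n + 1) →₀ ℕ) → κ} (W : ι ⊕ Λ → (Fin (n + 1) →₀ ℕ) → Derivation ℤ κ κ)
    (hW : ∀ b, ∀ I ∈ expo (Fin (n + 1)) (Sum.elim d d' b), ∀ b',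
      ∀ J ∈ expo (Fin (n + 1)) (Sum.elim d d' b'),
      W b I (Sum.elim a a' b' J) = if (b, I) = (b', J) then 1 else 0)
    (δ : Fin m' → Derivation ℤ κ κ)
    (hδ : ∀ i b, ∀ I ∈ expo (Fin (n + 1)) (Sum.elim d d' b), δ i (Sum.elim a a' b I) = 0)
    {γ : Fin (n + 1) → M} (hγ : γ ≠ 0)
    (hF : ∀ b, Fval (d b) (fun I => algebraMap κ M (a b I)) γ = 0)
    (hφ : ∀ c, Fval (d' c) (fun I => algebraMap κ M (a' c I)) γ ≠ 0)
    {Dh : CX n (Sum.elim d d') ⊕ Fin m' → Derivation ℤ M M}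
    (hDl : ∀ t, ∀ u : κ, Dh (Sum.inl t) (algebraMap κ M u) = algebraMap κ M (W t.1 t.2.1 u))
    (hDr : ∀ i, ∀ u : κ, Dh (Sum.inr i) (algebraMap κ M u) = algebraMap κ M (δ i u))
    (hDX : ∀ t, Dh t (algebraMap κ[X] M X) = 0)
    {S : Submodule κ (CX n (Sum.elim d d') ⊕ Fin m' → κ)}
    (hq : Fintype.card (CX n (Sum.elim d d') ⊕ Fin m') ≤ finrank κ S + q)
    (hS : ∀ c ∈ S, ∀ j, Dc Dh c (γ j) = 0)
    (hK : ∀ c ∈ S, (∀ t, c (Sum.inl t) = 0) → c = 0) :
    ∑ b, finrank κ ↥(Submodule.span κ (Set.range γ) ^ Sum.elim d d' b) + m' ≤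
      q + (bdry d' a' γ).ncard + Fintype.card Λ := by
  classical
  have htow : IsScalarTower κ (RatFunc κ) M := tower_ratFunc
  have hM : IsFF κ M := isFF_of_ratFunc κ M
  -- the derivation of the constants
  obtain ⟨D₀, hD₀⟩ : ∃ D₀ : CX n (Sum.elim d d') ⊕ Fin m' → Derivation ℤ κ κ,
      D₀ = Sum.elim (fun t => W t.1 t.2.1) δ := ⟨_, rfl⟩
  have hDκ : ∀ t, ∀ u : κ, Dh t (algebraMap κ M u) = algebraMap κ M (D₀ t u) := by
    intro t u
    rw [hD₀]
    rcases t with t | i
    · exact hDl t u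
    · exact hDr i u
  have hc0 : ∀ (c : CX n (Sum.elim d d') ⊕ Fin m' → κ) (u : κ),
      Dc Dh c (algebraMap κ M u) = algebraMap κ M (Dc D₀ c u) := by
    intro c u
    rw [Dc_apply, Dc_apply, map_sum]
    refine Finset.sum_congr rfl fun t _ => ?_
    rw [hDκ, map_mul]
    rfl
  have hcX : ∀ c : CX n (Sum.elim d d') ⊕ Fin m' → κ, Dc Dh c (algebraMap κ[X] M X) = 0 := by
    intro c
    rw [Dc_apply]
    exact Finset.sum_eq_zero fun t _ => by rw [hDX, mul_zero]
  -- the value of a combination at a coefficient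
  have hval : ∀ (c : CX n (Sum.elim d d') ⊕ Fin m' → κ) (b : ι ⊕ Λ)
      (I : ↥(expo (Fin (n + 1)) (Sum.elim d d' b))),
      Dc D₀ c (Sum.elim a a' b I.1) = c (Sum.inl ⟨b, I⟩) := by
    intro c b I
    rw [Dc_apply, Fintype.sum_sum_type, hD₀]
    have h1 : ∀ i : Fin m', algebraMap κ κ (c (Sum.inr i)) *
        (Sum.elim (fun t : CX n (Sum.elim d d') => W t.1 t.2.1) δ (Sum.inr i))
          (Sum.elim a a' b I.1) = 0 := by
      intro i
      show algebraMap κ κ (c (Sum.inr i)) * δ i (Sum.elim a a' b I.1) = 0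
      rw [hδ i b I.1 I.2, mul_zero]
    rw [Finset.sum_eq_zero (s := (Finset.univ : Finset (Fin m'))) fun i _ => h1 i, add_zero,
      Finset.sum_eq_single ⟨b, I⟩]
    · show algebraMap κ κ (c (Sum.inl ⟨b, I⟩)) * W b I.1 (Sum.elim a a' b I.1) = _
      rw [hW b I.1 I.2 b I.1 I.2, if_pos rfl, mul_one]
      rfl
    · intro t _ ht
      show algebraMap κ κ (c (Sum.inl t)) * W t.1 t.2.1 (Sum.elim a a' b I.1) = _
      rw [hW t.1 t.2.1 t.2.2 b I.1 I.2, if_neg, mul_zero]
      intro h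
      apply ht
      rw [Prod.mk.injEq] at h
      obtain ⟨t1, t2⟩ := t
      obtain ⟨h1, h2⟩ := h
      simp only at h1 h2
      subst h1
      congr 1
      exact Subtype.ext h2
    · intro h
      exact absurd (Finset.mem_univ _) h
  -- the derivative of the value of a form
  have hform : ∀ c ∈ S, ∀ b : ι ⊕ Λ,
      Dc Dh c (Fval (Sum.elim d d' b) (fun I => algebraMap κ M (Sum.elim a a' b I)) γ) =
        ∑ I : ↥(expo (Fin (n + 1)) (Sum.elim d d' b)),
          algebraMap κ M (c (Sum.inl ⟨b, I⟩)) * mon γ I.1 := by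
    intro c hc b
    rw [D_Fval]
    have h4 : ∑ k, grad (Sum.elim d d' b) (fun I => algebraMap κ M (Sum.elim a a' b I)) γ k *
        Dc Dh c (γ k) = 0 := Finset.sum_eq_zero fun k _ => by rw [hS c hc, mul_zero]
    rw [h4, add_zero, ← Finset.sum_coe_sort]
    refine Finset.sum_congr rfl fun I _ => ?_
    rw [hc0, hval]
  -- the values of `X`
  have hres : ∀ w : Place κ M, ∃ r : κ, w.1 (algebraMap κ[X] M X) ≤ 1 →
      w.1 (algebraMap κ[X] M X - algebraMap κ M r) < 1 := by
    intro w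
    by_cases h : w.1 (algebraMap κ[X] M X) ≤ 1
    · obtain ⟨r, hr⟩ := place_residue w h
      exact ⟨r, fun _ => hr⟩
    · exact ⟨0, fun h' => absurd h' h⟩
  choose res hres using hres
  have hbf : (bdry d' a' γ).Finite := bdry_finite hγ hφ
  have hbft : Fintype ↥(bdry d' a' γ) := hbf.fintype
  -- first step
  let f₁ : (CX n (Sum.elim d d') ⊕ Fin m' → κ) →ₗ[κ] (↥(bdry d' a' γ) → κ) :=
    cnv D₀ fun w : ↥(bdry d' a' γ) => res w.1
  have h1 := exists_ker S f₁ (F := ⊤) fun _ _ => trivial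
  rw [finrank_top, Module.finrank_fintype_fun_eq_card, ← Nat.card_eq_fintype_card] at h1
  set S₁ := S ⊓ LinearMap.ker f₁ with hS₁
  have hle : ∀ c ∈ S₁, ∀ w ∈ bdry d' a' γ, ∀ y : M, w.1 (Dc Dh c y) ≤ w.1 y := by
    intro c hc w hw y
    obtain ⟨D', hD'κ, hD'X⟩ : ∃ D' : Derivation ℤ M M, (∀ u : κ, D' (algebraMap κ M u) = 0) ∧
        D' (algebraMap κ[X] M X) = 1 := by
      have ht : Transcendental κ (algebraMap κ[X] M X) := by
        rw [← tL_eq]
        exact transcendental_tL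
      obtain ⟨D', h1, h2⟩ := exists_der_ext ht (alg_over_adjoin hM ht) 0 1
      refine ⟨D', fun u => ?_, h2⟩
      rw [h1]
      exact map_zero _
    refine der_le_place w (D₀ := Dc D₀ c) (Dc Dh c) D' (hc0 c) (hcX c) hD'κ hD'X ?_ y
    rcases lt_or_ge 1 (w.1 (algebraMap κ[X] M X)) with h | h
    · exact Or.inl h
    · refine Or.inr ⟨res w, ?_, hres w h⟩
      have h2 : f₁ c = 0 := LinearMap.mem_ker.1 hc.2
      exact congrFun h2 ⟨w, hw⟩
  -- the logarithmic derivatives are constants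
  have hlog : ∀ c ∈ S₁, ∀ e : Λ, ∃ r : κ, Dc Dh c (Fval (d' e)
      (fun I => algebraMap κ M (a' e I)) γ) =
        algebraMap κ M r * Fval (d' e) (fun I => algebraMap κ M (a' e I)) γ := by
    intro c hc e
    set φ := Fval (d' e) (fun I => algebraMap κ M (a' e I)) γ with hφd
    obtain ⟨r, hr⟩ := const_of_rr_zero hM (f := Dc Dh c φ / φ) (by
      intro w
      rw [map_div₀]
      have hw0 : w.1 φ ≠ 0 := w.1.ne_zero_iff.2 (hφ e)
      rw [div_le_one₀ (zero_lt_iff.2 hw0)]
      by_cases hw : w ∈ bdry d' a' γ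
      · exact hle c hc w hw φ
      · have h2 : vmax w.1 γ ^ d' e ≤ w.1 φ := by
          by_contra hcon
          exact hw ⟨e, not_le.1 hcon⟩
        refine le_trans ?_ h2
        have h3 := hform c hc.1 (Sum.inr e)
        have h4 : Dc Dh c φ = ∑ I : ↥(expo (Fin (n + 1)) (Sum.elim d d' (Sum.inr e))),
          algebraMap κ M (c (Sum.inl ⟨Sum.inr e, I⟩)) * mon γ I.1 := h3
        rw [h4]
        refine Valuation.map_sum_le _ fun I _ => ?_
        rw [map_mul]
        calc _ ≤ 1 * vmax w.1 γ ^ d' e := mul_le_mul' (place_const_le w _) ?_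
          _ = _ := one_mul _
        exact cn_mon_le w.1 γ I.2)
    refine ⟨r, ?_⟩
    rw [hr, div_mul_cancel₀ _ (hφ e)]
  -- second step
  let f₂ : (CX n (Sum.elim d d') ⊕ Fin m' → κ) →ₗ[κ] (Λ → M) :=
    cnv Dh fun e => Fval (d' e) (fun I => algebraMap κ M (a' e I)) γ
  let g₂ : (Λ → κ) →ₗ[κ] (Λ → M) :=
    { toFun := fun r e => algebraMap κ M (r e) * Fval (d' e) (fun I => algebraMap κ M (a' e I)) γ
      map_add' := by
        intro r r'
        funext e
        rw [Pi.add_apply, Pi.add_apply, map_add, add_mul]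
      map_smul' := by
        intro t r
        funext e
        show algebraMap κ M (t * r e) * _ = t • (algebraMap κ M (r e) * _)
        rw [map_mul, Algebra.smul_def, mul_assoc] }
  have h2 := exists_ker S₁ f₂ (F := LinearMap.range g₂) (by
    intro c hc
    choose r hr using hlog c hc
    exact ⟨r, funext fun e => (hr e).symm⟩)
  have h3 : finrank κ (LinearMap.range g₂) ≤ Fintype.card Λ := by
    have h4 := LinearMap.finrank_range_le g₂
    rwa [Module.finrank_fintype_fun_eq_card] at h4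
  set S₂ := S₁ ⊓ LinearMap.ker f₂ with hS₂
  -- the forms with the coefficients `c` vanish at `γ`
  choose F hF1 hF2 using fun b : ι ⊕ Λ => finrank_vanish (κ := κ) γ (Sum.elim d d' b)
  have hvan : ∀ c ∈ S₂, ∀ b : ι ⊕ Λ, (fun I => c (Sum.inl ⟨b, I⟩)) ∈ F b := by
    intro c hc b
    rw [hF1]
    have h4 := hform c hc.1.1 b
    rw [← h4]
    rcases b with b | e
    · have h5 : Fval (Sum.elim d d' (Sum.inl b)) (fun I => algebraMap κ M
          (Sum.elim a a' (Sum.inl b) I)) γ = 0 := hF b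
      rw [h5, map_zero]
    · have h5 : f₂ c = 0 := LinearMap.mem_ker.1 hc.2
      exact congrFun h5 e
  let f₃ : S₂ →ₗ[κ] (∀ b, F b) :=
    { toFun := fun c b => ⟨fun I => c.1 (Sum.inl ⟨b, I⟩), hvan c.1 c.2 b⟩
      map_add' := fun c c' => rfl
      map_smul' := fun t c => rfl }
  have hinj : Function.Injective f₃ := by
    rw [injective_iff_map_eq_zero]
    intro c hc
    refine Subtype.ext (hK c.1 c.2.1.1 fun t => ?_)
    have h4 := congrArg Subtype.val (congrFun hc t.1)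
    exact congrFun h4 t.2
  have h4 := LinearMap.finrank_le_finrank_of_injective hinj
  rw [Module.finrank_pi_fintype] at h4
  have h5 : ∑ b, finrank κ (F b) +
      ∑ b, finrank κ ↥(Submodule.span κ (Set.range γ) ^ Sum.elim d d' b) =
        ∑ b, (expo (Fin (n + 1)) (Sum.elim d d' b)).card := by
    rw [← Finset.sum_add_distrib]
    exact Finset.sum_congr rfl fun b _ => hF2 b
  have h6 : Fintype.card (CX n (Sum.elim d d') ⊕ Fin m') =
      ∑ b, (expo (Fin (n + 1)) (Sum.elim d d' b)).card + m' := by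
    rw [Fintype.card_sum, Fintype.card_fin, Fintype.card_sigma]
    congr 1
    exact Finset.sum_congr rfl fun b _ => Fintype.card_coe _
  have h7 : Nat.card ↥(bdry d' a' γ) = (bdry d' a' γ).ncard := rfl
  rw [h7] at h1
  rw [h6] at hq
  omega

end

/-- `count_bdry` without instances -/
theorem count_bdryX {κ M : Type*} [Field κ] [IsAlgClosed κ] [CharZero κ] [Field M] [Algebra κ M]
    (hM : IsFF κ M) {X' : M} (hX : Transcendental κ X') {n m' q : ℕ} {ι Λ : Type*} [Fintype ι]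
    [Fintype Λ] [DecidableEq ι]
    [DecidableEq Λ] {d : ι → ℕ} {a : ι → (Fin (n + 1) →₀ ℕ) → κ} {d' : Λ → ℕ}
    {a' : Λ → (Fin (n + 1) →₀ ℕ) → κ} (W : ι ⊕ Λ → (Fin (n + 1) →₀ ℕ) → Derivation ℤ κ κ)
    (hW : ∀ b, ∀ I ∈ expo (Fin (n + 1)) (Sum.elim d d' b), ∀ b',
      ∀ J ∈ expo (Fin (n + 1)) (Sum.elim d d' b'),
      W b I (Sum.elim a a' b' J) = if (b, I) = (b', J) then 1 else 0)
    (δ : Fin m' → Derivation ℤ κ κ)
    (hδ : ∀ i b, ∀ I ∈ expo (Fin (n + 1)) (Sum.elim d d' b), δ i (Sum.elim a a' b I) = 0)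
    {γ : Fin (n + 1) → M} (hγ : γ ≠ 0)
    (hF : ∀ b, Fval (d b) (fun I => algebraMap κ M (a b I)) γ = 0)
    (hφ : ∀ c, Fval (d' c) (fun I => algebraMap κ M (a' c I)) γ ≠ 0)
    {Dh : CX n (Sum.elim d d') ⊕ Fin m' → Derivation ℤ M M}
    (hDl : ∀ t, ∀ u : κ, Dh (Sum.inl t) (algebraMap κ M u) = algebraMap κ M (W t.1 t.2.1 u))
    (hDr : ∀ i, ∀ u : κ, Dh (Sum.inr i) (algebraMap κ M u) = algebraMap κ M (δ i u))
    (hDX : ∀ t, Dh t X' = 0)
    {S : Submodule κ (CX n (Sum.elim d d') ⊕ Fin m' → κ)}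
    (hq : Fintype.card (CX n (Sum.elim d d') ⊕ Fin m') ≤ finrank κ S + q)
    (hS : ∀ c ∈ S, ∀ j, Dc Dh c (γ j) = 0)
    (hK : ∀ c ∈ S, (∀ t, c (Sum.inl t) = 0) → c = 0) :
    ∑ b, finrank κ ↥(Submodule.span κ (Set.range γ) ^ Sum.elim d d' b) + m' ≤
      q + (bdry d' a' γ).ncard + Fintype.card Λ := by
  refine with_sep hM hX ?_
  intro iA t1 iR t2 iI t3 fd hXf
  exact count_bdry W hW δ hδ hγ hF hφ hDl hDr (fun t => by rw [hXf]; exact hDX t) hq hS hK

/-- the boundary does not depend on the scaling -/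
theorem bdry_smul {κ M : Type*} [Field κ] [Field M] [Algebra κ M] {N : ℕ} {Λ : Type*} {d' : Λ → ℕ}
    {a' : Λ → (Fin N →₀ ℕ) → κ} {γ : Fin N → M} {r : M} (hr : r ≠ 0) :
    bdry d' a' (fun j => r * γ j) = bdry d' a' γ := by
  ext w
  refine exists_congr fun c => ?_
  have hw : 0 < w.1 r ^ d' c := pow_pos (zero_lt_iff.2 (w.1.ne_zero_iff.2 hr)) _
  rw [Fval_smul, vmax_smul, map_mul, map_pow, mul_pow]
  exact mul_lt_mul_iff_right₀ hw

end Pool.Agent.Lib.MP_44a246_ntSP
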