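import Mathlib
import Pool.Agent.Lib.MP_44a246_ntSH.CB01

/-!
# Sharp pairs: parameters and conditions for a curve of any positive genus (paper 669, L3, L4)
-/

namespace Pool.Agent.Lib.MP_44a246_ntSP

open Pool.Agent.Lib.MP_e52354_nt
open Pool.Agent.Lib.MP_44a246_nt
open Pool.Agent.Lib.MP_44a246_ntL
open Pool.Agent.Lib.MP_44a246_ntR
open Pool.Agent.Lib.MP_44a246_ntS
open Pool.Agent.Lib.MP_44a246_ntE
open Pool.Agent.Lib.MP_44a246_ntSH
open WithZero Polynomial Module

section

variable {κ M : Type*} [Field κ] [IsAlgClosed κ] [CharZero κ] [Field M] [Algebra κ M]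

omit [IsAlgClosed κ] [CharZero κ] in
private theorem cn_gen [Algebra (RatFunc κ) M] [IsScalarTower κ (RatFunc κ) M] {X Y : M}
    (hX : tL κ M = X) (hgen : IntermediateField.adjoin κ {X, Y} = ⊤) :
    IntermediateField.adjoin (RatFunc κ) {Y} = ⊤ := by
  rw [eq_top_iff]
  intro x _
  have h1 : x ∈ IntermediateField.adjoin κ {X, Y} := by
    rw [hgen]
    exact IntermediateField.mem_top
  have h2 : IntermediateField.adjoin κ {X, Y} ≤
      (IntermediateField.adjoin (RatFunc κ) {Y}).restrictScalars κ := by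
    rw [IntermediateField.adjoin_le_iff]
    rintro y (rfl | hy)
    · change _ ∈ IntermediateField.adjoin (RatFunc κ) {Y}
      rw [← hX]
      exact (IntermediateField.adjoin (RatFunc κ) {Y}).algebraMap_mem _
    · change y ∈ IntermediateField.adjoin (RatFunc κ) {Y}
      exact IntermediateField.subset_adjoin (RatFunc κ) {Y} hy
  exact h2 h1

omit [IsAlgClosed κ] [CharZero κ] in
private theorem cn_vmax (v : Place κ M) {n : ℕ} {γ : Fin (n + 1) → M} {x : M}
    (hx : x ∈ Submodule.span κ (Set.range γ)) : v.1 x ≤ vmax v.1 γ := by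
  induction hx using Submodule.span_induction with
  | mem x h =>
    obtain ⟨i, rfl⟩ := h
    exact Finset.le_sup (f := fun i => v.1 (γ i)) (Finset.mem_univ i)
  | zero =>
    rw [map_zero]
    exact zero_le
  | add x y _ _ hx hy => exact (v.1.map_add x y).trans (max_le hx hy)
  | smul c x _ hx =>
    rw [Algebra.smul_def, map_mul]
    rcases eq_or_ne c 0 with h | h
    · rw [h, map_zero, map_zero, zero_mul]
      exact zero_le
    · rw [v.2.2 c h, one_mul]
      exact hx

omit [IsAlgClosed κ] [CharZero κ] in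
private theorem cn_pow_le {P : Place κ M →₀ ℤ} {W : Submodule κ M} (hW : W ≤ rr P) (k : ℕ) :
    W ^ k ≤ rr (k • P) := by
  induction k with
  | zero =>
    rw [pow_zero, Submodule.one_le]
    intro v
    rw [map_one, zero_nsmul, Finsupp.zero_apply, exp_zero]
  | succ k ih =>
    rw [pow_succ, Submodule.mul_le]
    intro a ha b hb v
    have h1 := ih ha v
    have h2 := hW hb v
    rw [map_mul, succ_nsmul, Finsupp.add_apply, exp_add]
    exact mul_le_mul' h1 h2

/-- **Parameters and conditions** for a curve of positive genus. `J` bounds the defect of the growth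
of the powers; either `J = 2 ^ i * m` (many coordinates) or `2 * J = m * (m - 1)` (`low`). -/
theorem count_ffB (hM : IsFF κ M) {n R : ℕ} {γ : Fin (n + 1) → M} {z : Fin (R + 3) → M}
    (hz : ∀ l, z l ∈ Submodule.span κ (Set.range γ))
    (hγz : ∀ j, γ j ∈ Submodule.span κ (Set.range z)) (h0 : z 0 = 1)
    (hX : Transcendental κ (z 1))
    (hmax : ∀ w : Place κ M, vmax w.1 γ ≤ max 1 (w.1 (z 1)))
    (hgen : IntermediateField.adjoin κ {z 1, z 2} = ⊤) {T : Type*} [Fintype T]
    {D₀ : T → Derivation ℤ κ κ} {D : T → Derivation ℤ M M}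
    (hD : ∀ t, ∀ u : κ, D t (algebraMap κ M u) = algebraMap κ M (D₀ t u))
    (hDX : ∀ t, D t (z 1) = 0) (hg : 1 ≤ genus κ M) {N i b' : ℕ} (low : Prop)
    (hb : height κ ![1, z 1] ≤ b')
    (hN : ¬ low → N + 1 ≤ finrank κ (Submodule.span κ (Set.range γ)) ∧
      2 ^ i * b' ≤ 3 ^ i * N) :
    ∃ (S : Submodule κ (T → κ)) (m q B J : ℕ), height κ ![1, z 1] = m ∧ 2 ≤ m ∧
      ((low ∧ 2 * J = m * (m - 1)) ∨ (¬ low ∧ J = 2 ^ i * m)) ∧
      Fintype.card T ≤ finrank κ S + q ∧ (∀ c ∈ S, ∀ l, Dc D c (z l) = 0) ∧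
      (∀ e, m * (e + 1) ≤ finrank κ ↥(Submodule.span κ (Set.range γ) ^ e) + J) ∧
      genus κ M + m ≤ J + 1 ∧ (2 * B ≤ m + 2 ∨ genus κ M + B ≤ m + 1) ∧
      q ≤ R * B + (m + 2 * J + 1) := by
  classical
  refine with_sep hM hX ?_
  intro iA t1 iR t2 iI t3 fd hXf
  have htower : IsScalarTower κ (RatFunc κ) M := tower_ratFunc
  have htL : tL κ M = z 1 := by rw [tL_eq, hXf]
  have hmm : (finrank (RatFunc κ) M : ℤ) = height κ ![1, z 1] := by
    rw [finrank_eq_height κ M, htL]
  obtain ⟨P, hP⟩ := exists_pole κ M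
  have hzP : ∀ l, z l ∈ rr P := by
    intro l v
    have h1 : v.1 (z l) ≤ vmax v.1 γ := cn_vmax v (hz l)
    refine (h1.trans (hmax v)).trans (max_le ?_ ?_)
    · rw [← exp_zero, exp_le_exp]
      exact hP.nonneg v
    · refine le_exp_log.trans ?_
      rw [exp_le_exp, hP v, htL]
      exact le_max_right _ _
  have hgen' := cn_gen htL hgen
  obtain ⟨W, hW⟩ : ∃ W : Submodule κ M, W = Submodule.span κ (Set.range z) := ⟨_, rfl⟩
  have hzW : ∀ l, z l ∈ W := fun l => by
    rw [hW]
    exact Submodule.subset_span ⟨l, rfl⟩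
  have hWP : W ≤ rr P := by
    rw [hW, Submodule.span_le]
    rintro _ ⟨l, rfl⟩
    exact hzP l
  have hWγ : W = Submodule.span κ (Set.range γ) := by
    refine le_antisymm ?_ ?_
    · rw [hW, Submodule.span_le]
      rintro _ ⟨l, rfl⟩
      exact hz l
    · rw [hW, Submodule.span_le]
      rintro _ ⟨l, rfl⟩
      exact hγz l
  have hWf : FiniteDimensional κ W := by
    rw [hW]
    exact FiniteDimensional.span_of_finite _ (Set.finite_range z)
  have h1W : (1 : M) ∈ W := h0 ▸ hzW 0
  have htW : tL κ M ∈ W := by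
    rw [htL]
    exact hzW 1
  obtain ⟨s, hs⟩ : ∃ s, finrank κ W = s + 1 := by
    refine ⟨finrank κ W - 1, ?_⟩
    have h2 : 0 < finrank κ W := by
      rw [Module.finrank_pos_iff_exists_ne_zero]
      refine ⟨⟨1, h1W⟩, fun h => ?_⟩
      exact one_ne_zero (congrArg Subtype.val h)
    omega
  have hfinP : FiniteDimensional κ (rr P) := finite_rr hM P
  have hsB : s + 1 ≤ finrank κ (rr P) := by
    rw [← hs]
    exact Submodule.finrank_mono hWP
  have hB2 : 2 ≤ finrank κ (rr P) := by
    have hli : LinearIndependent κ (![⟨1, hWP h1W⟩, ⟨tL κ M, hWP htW⟩] : Fin 2 → rr P) := by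
      rw [LinearIndependent.pair_iff]
      intro a b hab
      have h1 : a • (1 : M) + b • tL κ M = 0 := congrArg Subtype.val hab
      have h2 : algebraMap κ M a + algebraMap κ M b * tL κ M = 0 := by
        rw [← h1, Algebra.smul_def, Algebra.smul_def, mul_one]
      have h3 : b = 0 := by
        by_contra hb0
        have h4 : tL κ M = algebraMap κ M (-a / b) := by
          have h5 : algebraMap κ M b ≠ 0 := (_root_.map_ne_zero _).2 hb0
          rw [map_div₀, map_neg, eq_div_iff h5]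
          linear_combination h2
        apply hX
        rw [← htL, h4]
        exact isAlgebraic_algebraMap _
      refine ⟨?_, h3⟩
      rw [h3, map_zero, zero_mul, add_zero] at h2
      exact (algebraMap κ M).injective (by rw [h2, map_zero])
    have h1 := hli.fintype_card_le_finrank
    rwa [Fintype.card_fin] at h1
  have hcase : 2 * finrank κ (rr P) ≤ finrank (RatFunc κ) M + 2 ∨
      genus κ M + finrank κ (rr P) ≤ finrank (RatFunc κ) M + 1 := by
    rcases Nat.lt_or_ge (finrank (RatFunc κ) M + 2) (2 * finrank κ (rr P)) with h | h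
    · exact Or.inr (exists_adapted_rr hP (hzP 2) hgen' h).2.1
    · exact Or.inl h
  have hm2 : 2 ≤ finrank (RatFunc κ) M := by omega
  have hmb : finrank (RatFunc κ) M ≤ b' := by
    have h1 : (finrank (RatFunc κ) M : ℤ) ≤ b' := by rw [hmm]; exact hb
    exact_mod_cast h1
  -- the adapted basis
  obtain ⟨J, f, j, hf, hfj, hJ, hJ'⟩ : ∃ (J : ℕ) (f : Fin (finrank (RatFunc κ) M) → M)
      (j : Fin (finrank (RatFunc κ) M) → ℕ), LinearIndependent (RatFunc κ) f ∧
      (∀ l, f l ∈ W ^ j l) ∧ J = ∑ l, j l ∧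
      ((low ∧ 2 * J = finrank (RatFunc κ) M * (finrank (RatFunc κ) M - 1)) ∨
        (¬ low ∧ J = 2 ^ i * finrank (RatFunc κ) M)) := by
    by_cases hlow : low
    · have hint : IsIntegral (RatFunc κ) (z 2) := Algebra.IsIntegral.isIntegral (z 2)
      have hdeg : (minpoly (RatFunc κ) (z 2)).natDegree = finrank (RatFunc κ) M := by
        rw [← IntermediateField.adjoin.finrank hint, hgen', IntermediateField.finrank_top']
      have hf := linearIndependent_pow (K := RatFunc κ) (z 2)
      rw [hdeg] at hf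
      refine ⟨∑ l : Fin (finrank (RatFunc κ) M), (l : ℕ), _, fun l => (l : ℕ), hf,
        fun l => Submodule.pow_mem_pow W (hzW 2) _, rfl, Or.inl ⟨hlow, ?_⟩⟩
      rw [Fin.sum_univ_eq_sum_range (fun i => i), mul_comm, Finset.sum_range_id_mul_two]
    · obtain ⟨hN, hi⟩ := hN hlow
      have hNs : N ≤ s := by
        rw [← hWγ, hs] at hN
        omega
      have hi' : 2 ^ i * finrank (RatFunc κ) M ≤ 3 ^ i * s :=
        (Nat.mul_le_mul_left _ hmb).trans (hi.trans (Nat.mul_le_mul_left _ hNs))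
      obtain ⟨f, hf, hfj⟩ := exists_adapted_growth hP h1W htW (hzW 2) hWP hgen' hs hi'
      refine ⟨2 ^ i * finrank (RatFunc κ) M, f, fun _ => 2 ^ i, hf, hfj, ?_, Or.inr ⟨hlow, rfl⟩⟩
      rw [Finset.sum_const, Finset.card_univ, Fintype.card_fin, smul_eq_mul, mul_comm]
  have hJz : ∑ l, (j l : ℤ) = J := by
    rw [hJ]
    push_cast
    rfl
  have hgb := genus_le_basis hP hf (fun l => cn_pow_le hWP (j l) (hfj l))
  have hram := ramDeg_le_basis hP hf (fun l => cn_pow_le hWP (j l) (hfj l))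
  rw [hJz] at hgb hram
  have hram' : ramDeg κ M (RatFunc κ) ≤ 2 * J := by exact_mod_cast hram
  obtain ⟨S, q, hp1, hp2, hs2, hsR, hp3⟩ := exists_killB hP h0 hXf.symm hzP hgen'
    (by rw [← hW, hs]) hD (fun t => by rw [hXf]; exact hDX t) hm2
  refine ⟨S, finrank (RatFunc κ) M, q, finrank κ (rr P), J, hmm.symm, hm2, hJ', hp1, hp2, ?_, ?_,
    hcase, ?_⟩
  · intro e
    have h2 := finrank_pow_ge' h1W htW (j := j) hf hfj e
    rw [hWγ] at h2
    rw [hJ]
    exact h2
  · omega
  · set m := finrank (RatFunc κ) M with hm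
    set B := finrank κ (rr P) with hB
    obtain ⟨u, hu⟩ : ∃ u, R + 2 = s + u := ⟨R + 2 - s, by omega⟩
    obtain ⟨v, hv⟩ : ∃ v, s = v + 2 := ⟨s - 2, by omega⟩
    have e1 : R + 2 - s = u := by omega
    have e2 : s - 2 = v := by omega
    rw [e1, e2] at hp3
    have e3 : R = u + v := by omega
    have h4 : u * (s + 1) ≤ u * B := Nat.mul_le_mul_left _ hsB
    have h6 : R * B = u * B + v * B := by rw [e3]; ring
    omega

end

end Pool.Agent.Lib.MP_44a246_ntSP
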