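import Mathlib
import Pool.Agent.Lib.MP_44a246_ntS.SP9
import Pool.Agent.Lib.MP_44a246_ntE.E14
import Pool.Agent.Lib.MP_44a246_ntU.U10
import Pool.Agent.Lib.MP_44a246_ntU.U11
import Pool.Agent.Lib.MP_44a246_ntSP.CN01
import Pool.Agent.Lib.MP_44a246_ntSP.CN02

/-!
# Sharp pairs: the general point of a pair of general type does not lie on a curve with few
boundary places (paper 669, L3 and L4)
-/

namespace Pool.Agent.Lib.MP_44a246_ntSP

open Pool.Agent.Lib.MP_e52354_nt
open Pool.Agent.Lib.MP_44a246_nt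
open Pool.Agent.Lib.MP_44a246_ntL
open Pool.Agent.Lib.MP_44a246_ntR
open Pool.Agent.Lib.MP_44a246_ntS
open Pool.Agent.Lib.MP_44a246_ntG
open Pool.Agent.Lib.MP_44a246_ntK
open Pool.Agent.Lib.MP_44a246_ntE
open Pool.Agent.Lib.MP_44a246_ntSH (bdry bdry_finite log_adj_genus smooth_of_derL)
open WithZero Polynomial Module

universe u

/-- the numbers of L4 -/
private theorem num_L4 {R r S F m p ι' lam g NG B J q E b' : ℕ} (hp : p = ι' + lam)
    (hr : ι' + (r + 2) = R + 3) (hS : R + 4 ≤ S) (hm2 : 2 ≤ m) (hg1 : 1 ≤ g)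
    (hadj : S * m + 2 ≤ 2 * g + NG + (R + 3) * m) (hNG : NG ≤ 9 * g + 5) (hgJ : g + m ≤ J + 1)
    (hcase : 2 * B ≤ m + 2 ∨ g + B ≤ m + 1) (hq : q ≤ R * B + (m + 2 * J + 1))
    (hcount : F + r ≤ q + NG + lam) (hpow : m * (S + p) ≤ F + p * J)
    (hJ : (2 * J = m * (m - 1) ∧ m ≤ b' ∧ 11 * (p + 11) * b' + 351 * (p + 11) + 16 + p < R + 2) ∨
      (J = E * m ∧ 28 * (p + 11) * E + 16 + p < R + 2)) : False := by
  have h1 : m ≤ 11 * g + 3 := by
    have h2 : (R + 4) * m ≤ S * m := Nat.mul_le_mul_right _ hS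
    have h3 : (R + 4) * m = (R + 3) * m + m := by ring
    omega
  have h11 : 11 * B ≤ 10 * m + 14 := by omega
  have hBm : B ≤ m := by omega
  have h2 : m * (R + 4 + p) ≤ m * (S + p) := Nat.mul_le_mul_left _ (by omega)
  have h3 : m * (R + 4 + p) = R * m + m * (4 + p) := by ring
  have hmain : R * m + m * (12 + p) + R ≤ R * B + (p + 11) * J + 14 + p := by
    have h4 : m * (12 + p) = m * (4 + p) + 8 * m := by ring
    have h5 : (p + 11) * J = p * J + 11 * J := by ring
    omega
  have hRB : R * B ≤ R * m := Nat.mul_le_mul_left _ hBm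
  rcases Nat.lt_or_ge m 28 with hm | hm
  · rcases hJ with ⟨h4, h5, h6⟩ | ⟨h4, h6⟩
    · have h7 : J ≤ 351 := by
        have h8 : m * (m - 1) ≤ 27 * 26 := Nat.mul_le_mul (by omega) (by omega)
        omega
      have h8 : (p + 11) * J ≤ (p + 11) * 351 := Nat.mul_le_mul_left _ h7
      omega
    · have h7 : J ≤ 28 * E := by
        rw [h4, mul_comm]
        exact Nat.mul_le_mul_right _ (by omega)
      have h8 : (p + 11) * J ≤ (p + 11) * (28 * E) := Nat.mul_le_mul_left _ h7
      have h9 : (p + 11) * (28 * E) = 28 * (p + 11) * E := by ring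
      omega
  · have h22 : 22 * B ≤ 21 * m := by omega
    have h4 : R * (22 * B) ≤ R * (21 * m) := Nat.mul_le_mul_left _ h22
    have h5 : R * (22 * B) = 22 * (R * B) := by ring
    have h6 : R * (21 * m) = 21 * (R * m) := by ring
    have h7 : 28 * (12 + p) ≤ m * (12 + p) := Nat.mul_le_mul_right _ hm
    have h8 : R * m ≤ 22 * ((p + 11) * J) := by omega
    rcases hJ with ⟨h9, h10, h12⟩ | ⟨h9, h12⟩
    · have h13 : 2 * (R * m) ≤ 22 * ((p + 11) * (2 * J)) := by
        have h14 : 22 * ((p + 11) * (2 * J)) = 2 * (22 * ((p + 11) * J)) := by ring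
        omega
      rw [h9] at h13
      have h14 : m * (2 * R) ≤ m * (22 * ((p + 11) * (m - 1))) := by
        calc m * (2 * R) = 2 * (R * m) := by ring
          _ ≤ 22 * ((p + 11) * (m * (m - 1))) := h13
          _ = m * (22 * ((p + 11) * (m - 1))) := by ring
      have h15 : 2 * R ≤ 22 * ((p + 11) * (m - 1)) := Nat.le_of_mul_le_mul_left h14 (by omega)
      have h16 : (p + 11) * (m - 1) ≤ (p + 11) * b' := Nat.mul_le_mul_left _ (by omega)
      have h17 : 11 * (p + 11) * b' = 11 * ((p + 11) * b') := by ring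
      omega
    · rw [h9] at h8
      have h14 : m * R ≤ m * (22 * ((p + 11) * E)) := by
        calc m * R = R * m := by ring
          _ ≤ 22 * ((p + 11) * (E * m)) := h8
          _ = m * (22 * ((p + 11) * E)) := by ring
      have h15 : R ≤ 22 * ((p + 11) * E) := Nat.le_of_mul_le_mul_left h14 (by omega)
      have h17 : 28 * (p + 11) * E = 28 * ((p + 11) * E) := by ring
      omega

/-- an intermediate field which contains `X` and `Y` -/
private theorem top_of_mem {κ M : Type*} [Field κ] [Field M] [Algebra κ M] [Algebra κ[X] M]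
    [IsScalarTower κ κ[X] M] [Algebra (RatFunc κ) M] [IsScalarTower κ[X] (RatFunc κ) M] {Y : M}
    (hgen : IntermediateField.adjoin (RatFunc κ) {Y} = ⊤) (F : IntermediateField κ M)
    (hX : algebraMap κ[X] M X ∈ F) (hY : Y ∈ F) : F = ⊤ := by
  have h1 : ∀ g : κ[X], algebraMap κ[X] M g ∈ F := by
    intro g
    have h2 : algebraMap κ[X] M g = aeval (algebraMap κ[X] M X) g := by
      rw [aeval_algebraMap_apply, aeval_X_left_apply]
    rw [h2, aeval_eq_sum_range]
    exact sum_mem fun i _ => F.smul_mem (pow_mem hX i)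
  have h2 : ∀ u : RatFunc κ, algebraMap (RatFunc κ) M u ∈ F := by
    intro u
    obtain ⟨a, b, hb, rfl⟩ := IsFractionRing.div_surjective (A := κ[X]) u
    rw [map_div₀, ← IsScalarTower.algebraMap_apply, ← IsScalarTower.algebraMap_apply]
    exact div_mem (h1 a) (h1 b)
  let G : IntermediateField (RatFunc κ) M := { F.toSubfield with algebraMap_mem' := h2 }
  have h3 : G = ⊤ := by
    rw [eq_top_iff, ← hgen, IntermediateField.adjoin_le_iff, Set.singleton_subset_iff]
    exact hY
  rw [eq_top_iff]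
  intro z _
  have h4 : z ∈ G := by
    rw [h3]
    exact IntermediateField.mem_top
  exact h4

/-- **L3 and L4.** Over the algebraically closed field `κ`: the forms `a` (degrees `d`) and `a'`
(degrees `d'`) have coefficients with dual derivations `W`; the derivations `δ` kill the
coefficients and `x, δ i x` are independent (`x` is a general point of the intersection of the
forms `a`, and the forms `a'` do not vanish at `x`). The curve `A` with the coordinates `Bv` passes
through `x` and lies on the forms `a`. Then the curve has many boundary places (`hSMT` is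
contradictory). `low`: the degree is at most `b'`, with `11 (p + 11) b' + .. < R + 2 = n`;
`¬ low`: the degree is at most `b'` and `N + 1` of the coordinates are independent. -/
theorem no_pair {κ : Type u} [Field κ] [IsAlgClosed κ] [CharZero κ] {R r b' N i p : ℕ}
    {ι Λ : Type*} [Fintype ι] [DecidableEq ι] [Fintype Λ] [DecidableEq Λ]
    (hp : Fintype.card ι + (r + 2) = R + 3) (hp' : p = Fintype.card ι + Fintype.card Λ)
    {d : ι → ℕ} (hd1 : ∀ j, 1 ≤ d j) {d' : Λ → ℕ}
    (hd : R + 4 ≤ ∑ j, d j + ∑ j, d' j)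
    {a : ι → (Fin (R + 3) →₀ ℕ) → κ} {a' : Λ → (Fin (R + 3) →₀ ℕ) → κ}
    (W : ι ⊕ Λ → (Fin (R + 3) →₀ ℕ) → Derivation ℤ κ κ)
    (hW : ∀ b, ∀ I ∈ expo (Fin (R + 3)) (Sum.elim d d' b), ∀ b',
      ∀ J ∈ expo (Fin (R + 3)) (Sum.elim d d' b'),
      W b I (Sum.elim a a' b' J) = if (b, I) = (b', J) then 1 else 0)
    {x : Fin (R + 3) → κ} (δ : Fin (r + 1) → Derivation ℤ κ κ)
    (hδa : ∀ i b, ∀ I ∈ expo (Fin (R + 3)) (Sum.elim d d' b), δ i (Sum.elim a a' b I) = 0)
    (hx : LinearIndependent κ
      (Fin.cons x (fun i k => δ i (x k)) : Fin (r + 2) → Fin (R + 3) → κ))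
    {A : κ[X][X]} {Bv : Fin (R + 3) → κ[X][X]} {ξ₀ ξ₁ ξ₂ : Fin (R + 3) → κ} {c y₁ y : κ}
    (hirr : Irreducible A) (hc : c ≠ 0) (hA : A.evalEval y₁ y = 0)
    (hAY : (derivative A).evalEval y₁ y ≠ 0)
    (hB : ∀ j, (derivative A).evalEval y₁ y * (c * x j) = (Bv j).evalEval y₁ y)
    (hF : ∀ i, A ∣ FB (d i) (a i) Bv) (hφ : ∀ e, Fval (d' e) (a' e) x ≠ 0)
    (h0 : A ∣ ∑ j, C (C (ξ₀ j)) * Bv j - derivative A)
    (h1 : A ∣ ∑ j, C (C (ξ₁ j)) * Bv j - C X * derivative A)
    (h2 : A ∣ ∑ j, C (C (ξ₂ j)) * Bv j - X * derivative A)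
    (hproj : ∀ u : Fin 3 → Fin (R + 3) → ℕ, ∃ P : MvPolynomial (Fin 3) κ, P ≠ 0 ∧
      P.IsHomogeneous b' ∧ A ∣ MvPolynomial.aeval (fun i => ∑ j, C (C (u i j : κ)) * Bv j) P)
    (low : Prop)
    (hlow : low → 11 * (p + 11) * b' + 351 * (p + 11) + 16 + p < R + 2)
    (hhigh : ¬ low → (∃ J : Fin (N + 1) → Fin (R + 3), ∀ v : Fin (N + 1) → κ, v ≠ 0 →
      ¬ A ∣ ∑ i, C (C (v i)) * Bv (J i)) ∧ 2 ^ i * b' ≤ 3 ^ i * N ∧
      28 * (p + 11) * 2 ^ i + 16 + p < R + 2)
    (hSMT : ∀ (M : Type u) (_ : Field M) (_ : Algebra κ M) (X' Y : M), Transcendental κ X' →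
      IntermediateField.adjoin κ {X', Y} = ⊤ →
      (∀ G : κ[X][X], ev (algebraMap κ M) X' Y G = 0 ↔ A ∣ G) →
      (bdry d' a' (fun j => ev (algebraMap κ M) X' Y (Bv j))).ncard ≤ 9 * genus κ M + 5 ∧
      (genus κ M = 0 → (bdry d' a' (fun j => ev (algebraMap κ M) X' Y (Bv j))).ncard ≤ 2)) :
    False := by
  classical
  set α := (derivative A).evalEval y₁ y with hα
  obtain ⟨i₀, hind⟩ := Pool.Agent.Lib.MP_44a246_ntU.indep_atV (β := α * c) hA hAY
    (mul_ne_zero hAY hc) (fun j => by rw [mul_assoc]; exact hB j) h0 h1 δ hx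
  have hf0 : 0 < A.natDegree := by
    by_contra hcon
    have h5 : A.natDegree = 0 := by omega
    obtain ⟨q, hq⟩ : ∃ q, A = C q := ⟨_, eq_C_of_natDegree_eq_zero h5⟩
    apply hAY
    rw [hα, hq, derivative_C, evalEval_zero]
  refine with_curve hirr hf0 ?_
  intro M _ _ _ _ _ _ _ _ _ Y hY hgen hfin ht halg
  set φ := algebraMap κ M with hφd
  set X' : M := algebraMap κ[X] M X with hX'
  have hψ : ∀ G : κ[X][X], ev φ X' Y G = 0 ↔ A ∣ G := by
    intro G
    rw [hX', ev_aeval]
    exact hY G
  -- specialisation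
  have hspec : ∀ G : κ[X][X], evalEvalRingHom y₁ y G ≠ 0 → ev φ X' Y G ≠ 0 := by
    intro G hG h3
    rw [hψ] at h3
    obtain ⟨q, rfl⟩ := h3
    apply hG
    rw [map_mul]
    have h4 : evalEvalRingHom y₁ y A = 0 := hA
    rw [h4, zero_mul]
  have hevA : ∀ G : κ[X][X], A ∣ G → ev φ X' Y G = 0 := fun G hG => (hψ G).2 hG
  have hAP : ev φ X' Y A = 0 := hevA A dvd_rfl
  have hAYP : ev φ X' Y (derivative A) ≠ 0 := hspec _ hAY
  set ω := ev φ X' Y (derivative A) with hω
  set γ : Fin (R + 3) → M := fun j => ev φ X' Y (Bv j) with hγdef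
  -- the derivations
  obtain ⟨D, hDκ, hDX⟩ := exists_der_ext ht halg (0 : Derivation ℤ κ κ) 1
  choose E hEκ hEX using fun i : Fin (r + 1) => exists_der_ext ht halg (δ i) 0
  have hDκ' : ∀ u : κ, D (algebraMap κ M u) = 0 := fun u => by
    rw [hDκ]
    simp
  have hD : ∀ G, ω * D (ev φ X' Y G) = ev φ X' Y (vf A (cX κ) G) := by
    intro G
    rw [ev_vf φ 0 D hDκ hAP G, hX', hDX, one_mul, vf_apply, cE_zero, cE_zero]
    simp
  have hE : ∀ i G, ω * E i (ev φ X' Y G) = ev φ X' Y (vf A (cE (δ i)) G) := by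
    intro i G
    rw [ev_vf φ (δ i) (E i) (hEκ i) hAP G, hX', hEX, zero_mul, add_zero]
  -- the relations between `γ` and the projection
  have hsum : ∀ ξ : Fin (R + 3) → κ, ev φ X' Y (∑ j, C (C (ξ j)) * Bv j) = ∑ j, φ (ξ j) * γ j := by
    intro ξ
    rw [map_sum]
    refine Finset.sum_congr rfl fun j _ => ?_
    rw [map_mul, ev_C_C]
  have r0 : ∑ j, φ (ξ₀ j) * γ j = ω := by
    rw [← hsum, ← sub_eq_zero, hω, ← map_sub]
    exact hevA _ h0
  have r1 : ∑ j, φ (ξ₁ j) * γ j = X' * ω := by
    rw [← hsum, ← sub_eq_zero, hω]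
    have h4 : X' * ev φ X' Y (derivative A) = ev φ X' Y (C X * derivative A) := by
      rw [map_mul, ev_C_X]
    rw [h4, ← map_sub]
    exact hevA _ h1
  have r2 : ∑ j, φ (ξ₂ j) * γ j = Y * ω := by
    rw [← hsum, ← sub_eq_zero, hω]
    have h4 : Y * ev φ X' Y (derivative A) = ev φ X' Y (X * derivative A) := by
      rw [map_mul, ev_X]
    rw [h4, ← map_sub]
    exact hevA _ h2
  have hγ : γ ≠ 0 := by
    intro h3
    apply hAYP
    rw [← r0, h3]
    simp
  -- the values of the forms
  have hFBv : ∀ (e : ℕ) (q : (Fin (R + 3) →₀ ℕ) → κ),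
      ev φ X' Y (FB e q Bv) = Fval e (fun I => algebraMap κ M (q I)) γ := by
    intro e q
    unfold FB Fval mon
    rw [map_sum]
    refine Finset.sum_congr rfl fun I _ => ?_
    rw [map_mul, ev_C_C, map_prod]
    congr 1
    refine Finset.prod_congr rfl fun j _ => ?_
    rw [map_pow]
  have hFγ : ∀ j', Fval (d j') (fun I => algebraMap κ M (a j' I)) γ = 0 := by
    intro j'
    rw [← hFBv]
    exact hevA _ (hF j')
  have hφγ : ∀ e, Fval (d' e) (fun I => algebraMap κ M (a' e I)) γ ≠ 0 := by
    intro e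
    rw [← hFBv]
    apply hspec
    have h3 : evalEvalRingHom y₁ y (FB (d' e) (a' e) Bv) =
        Fval (d' e) (a' e) (fun j => (α * c) * x j) := by
      unfold FB Fval mon
      rw [map_sum]
      refine Finset.sum_congr rfl fun I _ => ?_
      rw [map_mul, map_prod]
      have h4 : evalEvalRingHom y₁ y (C (C (a' e I))) = a' e I := by
        show (C (C (a' e I)) : κ[X][X]).evalEval y₁ y = _
        rw [evalEval_C, eval_C]
      rw [h4]
      congr 1
      refine Finset.prod_congr rfl fun j _ => ?_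
      have h5 : evalEvalRingHom y₁ y (Bv j) = α * c * x j := by
        rw [mul_assoc, hB j]
        rfl
      rw [map_pow, h5]
    rw [h3, Fval_smul]
    exact mul_ne_zero (pow_ne_zero _ (mul_ne_zero hAY hc)) (hφ e)
  -- the independence
  have hindM : LinearIndependent M (Fin.cons γ (Fin.cons (fun k => D (γ k))
      fun i k => E (i₀.succAbove i) (γ k)) : Fin (r + 2) → Fin (R + 3) → M) := by
    have h4 := Pool.Agent.Lib.MP_44a246_ntU.indep_of_spec (evalEvalRingHom y₁ y) (ev φ X' Y) hspec
      (N := (Fin.cons Bv (Fin.cons (fun j => vf A (cX κ) (Bv j))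
        fun i j => vf A (cE (δ (i₀.succAbove i))) (Bv j)) : Fin (r + 2) → Fin (R + 3) → κ[X][X])) (by
        convert hind using 1
        funext i
        refine Fin.cases rfl (fun i => ?_) i
        exact Fin.cases rfl (fun i => rfl) i)
    rw [Fintype.linearIndependent_iff] at h4 ⊢
    intro g hg
    have h5 := h4 (fun i => (Fin.cons 1 (fun _ => ω⁻¹) : Fin (r + 2) → M) i * g i) (by
      rw [← hg]
      refine Finset.sum_congr rfl fun i _ => ?_
      funext j
      simp only [Pi.smul_apply, smul_eq_mul]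
      refine Fin.cases ?_ (fun i => ?_) i
      · simp only [Fin.cons_zero, one_mul]
        rfl
      · refine Fin.cases ?_ (fun i => ?_) i
        · simp only [Fin.cons_succ, Fin.cons_zero]
          rw [← hD (Bv j)]
          show ω⁻¹ * g _ * (ω * D (γ j)) = g _ * D (γ j)
          field_simp
        · simp only [Fin.cons_succ]
          rw [← hE (i₀.succAbove i) (Bv j)]
          show ω⁻¹ * g _ * (ω * E (i₀.succAbove i) (γ j)) = g _ * E (i₀.succAbove i) (γ j)
          field_simp)
    intro i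
    have h6 := h5 i
    refine (mul_eq_zero.1 h6).resolve_left ?_
    refine Fin.cases ?_ (fun i => ?_) i
    · rw [Fin.cons_zero]
      exact one_ne_zero
    · rw [Fin.cons_succ]
      exact inv_ne_zero hAYP
  -- logarithmic adjunction
  have hadj := log_adj_genus hp hd1 (fun S u hu => smooth_of_derL W hW S u hu) D hDκ' hDX
    (fun i => E (i₀.succAbove i))
    (fun i u => ⟨_, hEκ _ u⟩) (fun i => ⟨0, by rw [hEX, map_zero]⟩)
    (fun i j' I hI => by
      have h3 : δ (i₀.succAbove i) (a j' I) = 0 := hδa _ (Sum.inl j') I hI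
      rw [hEκ, h3, map_zero])
    (fun i e I hI => by
      have h3 : δ (i₀.succAbove i) (a' e I) = 0 := hδa _ (Sum.inr e) I hI
      rw [hEκ, h3, map_zero]) hFγ hφγ hindM
  obtain ⟨l, hl⟩ : ∃ l, γ l ≠ 0 := by
    by_contra hcon
    push Not at hcon
    exact hγ (funext hcon)
  have hMff : IsFF κ M := by
    have t : IsScalarTower κ (RatFunc κ) M := by
      refine IsScalarTower.of_algebraMap_eq fun u => ?_
      rw [IsScalarTower.algebraMap_apply κ κ[X] M,
        IsScalarTower.algebraMap_apply κ κ[X] (RatFunc κ),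
        ← IsScalarTower.algebraMap_apply κ[X] (RatFunc κ) M]
    exact (sp5b_isFF κ).of_finite
  -- the number of boundary places
  obtain ⟨hNG, hNG0⟩ := hSMT M _ _ X' Y ht
    (top_of_mem hgen _ (IntermediateField.subset_adjoin κ _ (Set.mem_insert _ _))
      (IntermediateField.subset_adjoin κ _ (Set.mem_insert_of_mem _ rfl))) hψ
  -- the field of the point
  have hgen' : pointField κ γ = ⊤ := by
    have hmem : ∀ ξ : Fin (R + 3) → κ, (∑ j, φ (ξ j) * γ j) / γ l ∈ pointField κ γ := by
      intro ξ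
      rw [Finset.sum_div]
      refine sum_mem fun j _ => ?_
      rw [mul_div_assoc]
      exact mul_mem ((pointField κ γ).algebraMap_mem _)
        (IntermediateField.subset_adjoin _ _ ⟨j, l, rfl⟩)
    refine top_of_mem hgen _ ?_ ?_
    · have h6 : X' = ((∑ j, φ (ξ₁ j) * γ j) / γ l) / ((∑ j, φ (ξ₀ j) * γ j) / γ l) := by
        rw [r0, r1]
        field_simp
      rw [← hX', h6]
      exact div_mem (hmem ξ₁) (hmem ξ₀)
    · have h6 : Y = ((∑ j, φ (ξ₂ j) * γ j) / γ l) / ((∑ j, φ (ξ₀ j) * γ j) / γ l) := by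
        rw [r0, r2]
        field_simp
      rw [h6]
      exact div_mem (hmem ξ₂) (hmem ξ₀)
  -- generic linear forms
  obtain ⟨u, hω₀, hmax, htr, hgen₂, hinj⟩ := exists_lin_forms (n := R + 2) hMff hγ hgen' (R := R)
    (T := ⊤) (by rw [finrank_top, Module.finrank_fin_fun])
  set ω₀ : M := ∑ j, (u 0 j : M) * γ j with hω₀d
  set z : Fin (R + 3) → M := fun i => (∑ j, (u i j : M) * γ j) / ω₀ with hzd
  set γh : Fin (R + 3) → M := fun j => γ j / ω₀ with hγh
  have hzγ : ∀ i, z i = ∑ j, (u i j : κ) • γh j := by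
    intro i
    rw [hzd, hγh]
    simp only
    rw [Finset.sum_div]
    refine Finset.sum_congr rfl fun j _ => ?_
    rw [Algebra.smul_def, map_natCast, mul_div_assoc]
  have hzmem : ∀ i, z i ∈ Submodule.span κ (Set.range γh) := by
    intro i
    rw [hzγ]
    exact Submodule.sum_mem _ fun j _ => Submodule.smul_mem _ _
      (Submodule.subset_span (Set.mem_range_self j))
  have hz0 : z 0 = 1 := by rw [hzd]; exact div_self hω₀
  have hγh' : γh = fun j => ω₀⁻¹ * γ j := by
    funext j
    rw [hγh]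
    simp only
    rw [div_eq_mul_inv, mul_comm]
  have hmax' : ∀ w : Place κ M, vmax w.1 γh ≤ max 1 (w.1 (z 1)) := by
    intro w
    have hw0 : w.1 ω₀ ≠ 0 := w.1.ne_zero_iff.2 hω₀
    rw [hγh', vmax_smul]
    refine (mul_le_mul_right (hmax w) (w.1 ω₀⁻¹)).trans ?_
    rw [mul_max, ← map_mul, ← map_mul, inv_mul_cancel₀ hω₀, map_one]
    refine max_le_max le_rfl (le_of_eq ?_)
    rw [inv_mul_eq_div]
  -- the height
  have hht : height κ γ = height κ ![1, z 1] := by
    have h3 : height κ γ = height κ γh := by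
      rw [hγh', hMff.height_smul (inv_ne_zero hω₀)]
    rw [h3]
    unfold height
    refine finsum_congr fun w => ?_
    congr 1
    refine le_antisymm ?_ ?_
    · rw [Pool.Agent.Lib.MP_44a246_nt.vmax_pair]
      exact hmax' w
    · refine vmax_le _ fun k => ?_
      have h4 : ∀ i, w.1 (z i) ≤ vmax w.1 γh := by
        intro i
        rw [hzγ]
        refine Valuation.map_sum_le _ fun j _ => ?_
        rw [Algebra.smul_def, map_mul]
        calc _ ≤ 1 * w.1 (γh j) := mul_le_mul' (place_const_le w _) le_rfl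
          _ = w.1 (γh j) := one_mul _
          _ ≤ vmax w.1 γh := le_vmax w.1 γh j
      fin_cases k
      · show w.1 1 ≤ _
        rw [← hz0]
        exact h4 0
      · exact h4 1
  -- the matrix of the linear forms is invertible
  have hγz : ∀ j, γh j ∈ Submodule.span κ (Set.range z) := by
    let U : Matrix (Fin (R + 3)) (Fin (R + 3)) κ := Matrix.of fun l j => (u l j : κ)
    have hUinj : Function.Injective U.mulVec := by
      suffices h : ∀ v, U.mulVec v = 0 → v = 0 by
        intro v v' hvv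
        rw [← sub_eq_zero]
        refine h _ ?_
        rw [Matrix.mulVec_sub, sub_eq_zero]
        exact hvv
      intro v hv
      have h3 := hinj (fun j => φ (v j)) trivial (by
        intro l
        have h4 := congrArg φ (congrFun hv l)
        have h5 : U.mulVec v l = ∑ j, (u l j : κ) * v j := rfl
        rw [h5, map_sum, Pi.zero_apply, map_zero] at h4
        rw [← h4]
        refine Finset.sum_congr rfl fun j _ => ?_
        rw [map_mul, map_natCast])
      funext j
      exact φ.injective (by rw [congrFun h3 j, Pi.zero_apply, Pi.zero_apply, map_zero])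
    have hUunit : IsUnit U := Matrix.mulVec_injective_iff_isUnit.1 hUinj
    have hU1 : U⁻¹ * U = 1 := Matrix.nonsing_inv_mul U ((Matrix.isUnit_iff_isUnit_det _).1 hUunit)
    intro j
    have h3 : γh j = ∑ l, U⁻¹ j l • z l := by
      have h4 : ∀ k, ∑ l, U⁻¹ j l * U l k = if j = k then 1 else 0 := by
        intro k
        have h5 := congrFun (congrFun hU1 j) k
        rw [Matrix.mul_apply, Matrix.one_apply] at h5
        exact h5
      calc γh j = ∑ k, (if j = k then (1 : κ) else 0) • γh k := by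
            rw [Finset.sum_eq_single j]
            · rw [if_pos rfl, one_smul]
            · intro k _ hk
              rw [if_neg (Ne.symm hk), zero_smul]
            · intro hcon
              exact absurd (Finset.mem_univ _) hcon
        _ = ∑ k, ∑ l, (U⁻¹ j l * U l k) • γh k := by
            refine Finset.sum_congr rfl fun k _ => ?_
            rw [← h4 k, Finset.sum_smul]
        _ = ∑ l, U⁻¹ j l • z l := by
            rw [Finset.sum_comm]
            refine Finset.sum_congr rfl fun l _ => ?_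
            rw [hzγ l, Finset.smul_sum]
            refine Finset.sum_congr rfl fun k _ => ?_
            rw [mul_smul]
            rfl
    rw [h3]
    exact Submodule.sum_mem _ fun l _ => Submodule.smul_mem _ _
      (Submodule.subset_span (Set.mem_range_self l))
  -- the dimension of the span
  have hspan : ¬ low → N + 1 ≤ finrank κ (Submodule.span κ (Set.range γh)) ∧
      2 ^ i * b' ≤ 3 ^ i * N := by
    intro hlow'
    obtain ⟨⟨J, hJ⟩, hi, -⟩ := hhigh hlow'
    refine ⟨?_, hi⟩
    have hli : LinearIndependent κ (fun i : Fin (N + 1) => γh (J i)) := by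
      rw [Fintype.linearIndependent_iff]
      intro g hg
      by_contra hcon
      push Not at hcon
      obtain ⟨i₁, hi₁⟩ := hcon
      refine hJ g (fun h3 => hi₁ (congrFun h3 i₁)) ?_
      rw [← hψ, map_sum]
      have h3 : ∑ i, ev φ X' Y (C (C (g i)) * Bv (J i)) = ω₀ * ∑ i, g i • γh (J i) := by
        rw [Finset.mul_sum]
        refine Finset.sum_congr rfl fun i _ => ?_
        rw [map_mul, ev_C_C, Algebra.smul_def, hγh]
        simp only
        rw [← hφd]
        field_simp
        rfl
      rw [h3, hg, mul_zero]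
    have h3 := finrank_span_eq_card hli
    rw [Fintype.card_fin] at h3
    rw [← h3]
    have : FiniteDimensional κ (Submodule.span κ (Set.range γh)) :=
      FiniteDimensional.span_of_finite _ (Set.finite_range γh)
    refine Submodule.finrank_mono (Submodule.span_mono ?_)
    rintro _ ⟨i, rfl⟩
    exact Set.mem_range_self _
  -- the degree
  have hdeg : height κ ![1, z 1] ≤ (b' : ℕ) := by
    obtain ⟨Q, hQ0, hQh, hQ⟩ := hproj (fun i => u (Fin.castLE (by omega) i))
    have h3 := hevA _ hQ
    have h4 : ev φ X' Y (MvPolynomial.aeval (fun i : Fin 3 => ∑ j,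
        C (C ((u (Fin.castLE (by omega) i) j : ℕ) : κ)) * Bv j) Q) =
        MvPolynomial.aeval (fun i => ω₀ * (![1, z 1, z 2] : Fin 3 → M) i) Q := by
      rw [MvPolynomial.aeval_def, MvPolynomial.hom_eval₂, MvPolynomial.aeval_def]
      congr 1
      · ext c
        show ev φ X' Y (C (C c)) = _
        rw [ev_C_C]
      · funext i
        have h5 : ∀ i : Fin (R + 3), ω₀ * z i = ∑ j, (u i j : M) * γ j := by
          intro i
          rw [hzd]
          simp only
          rw [mul_div_cancel₀ _ hω₀]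
        have h6 : ∀ i : Fin (R + 3), ev φ X' Y (∑ j, C (C ((u i j : ℕ) : κ)) * Bv j) =
            ω₀ * z i := by
          intro i
          rw [h5, hsum]
          refine Finset.sum_congr rfl fun j _ => ?_
          rw [map_natCast]
        fin_cases i
        · show ev φ X' Y (∑ j, C (C ((u 0 j : ℕ) : κ)) * Bv j) = ω₀ * 1
          rw [h6, hz0]
        · exact h6 1
        · exact h6 2
    rw [h4, Pool.Agent.Lib.MP_44a246_ntU.aeval_eq_Fval hQh, Fval_smul,
      ← Pool.Agent.Lib.MP_44a246_ntU.aeval_eq_Fval hQh] at h3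
    have h5 : MvPolynomial.aeval (![1, z 1, z 2] : Fin 3 → M) Q = 0 :=
      (mul_eq_zero.1 h3).resolve_left (pow_ne_zero _ hω₀)
    exact degree_le_form hMff htr hgen₂ hQ0 hQh h5
  -- the inequality of the adjunction, in natural numbers
  obtain ⟨mm, hmm⟩ : ∃ mm : ℕ, height κ ![1, z 1] = mm :=
    ⟨(height κ ![1, z 1]).toNat, (Int.toNat_of_nonneg (hMff.height_nonneg (by
      intro h
      have := congrFun h 0
      simp at this))).symm⟩
  have hadj' : (∑ j, d j + ∑ j, d' j) * mm + 2 ≤
      2 * genus κ M + (bdry d' a' γ).ncard + (R + 3) * mm := by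
    rw [hht, hmm] at hadj
    have h3 : (((∑ j, d j + ∑ j, d' j) * mm + 2 : ℕ) : ℤ) ≤
        ((2 * genus κ M + (bdry d' a' γ).ncard + (R + 3) * mm : ℕ) : ℤ) := by
      push_cast at hadj ⊢
      linarith
    exact_mod_cast h3
  have hg1 : 1 ≤ genus κ M := by
    by_contra hcon
    have h3 : genus κ M = 0 := by omega
    have h4 : (bdry d' a' γ).ncard ≤ 2 := hNG0 h3
    have h5 : (R + 4) * mm ≤ (∑ j, d j + ∑ j, d' j) * mm := Nat.mul_le_mul_right _ hd
    have h6 : (R + 4) * mm = (R + 3) * mm + mm := by ring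
    have h7 : 0 < mm := by
      have h8 : (0 : ℤ) < height κ ![1, z 1] := by
        refine with_sep hMff htr ?_
        intro iA t1 iR t2 iI t3 fd hXf
        have htower : IsScalarTower κ (RatFunc κ) M := tower_ratFunc
        have htL : tL κ M = z 1 := by rw [tL_eq, hXf]
        have h9 : (finrank (RatFunc κ) M : ℤ) = height κ ![1, z 1] := by
          rw [finrank_eq_height κ M, htL]
        rw [← h9]
        exact_mod_cast Module.finrank_pos (R := RatFunc κ) (M := M)
      rw [hmm] at h8
      exact_mod_cast h8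
    rw [h3] at hadj'
    omega
  -- the derivations of `M` which kill `z 1`
  have hfd : FiniteDimensional (IntermediateField.adjoin κ {z 1}) M := finite_over_adjoin hMff htr
  have halg1 : Algebra.IsAlgebraic (IntermediateField.adjoin κ {z 1}) M := inferInstance
  set D₀ : CX (R + 2) (Sum.elim d d') ⊕ Fin r → Derivation ℤ κ κ :=
    Sum.elim (fun t => W t.1 t.2.1) (fun i => δ (i₀.succAbove i)) with hD₀
  choose Dh hDhκ hDhX using fun t => exists_der_ext htr halg1 (D₀ t) 0
  obtain ⟨S, m, q, B, J, hm, hm2, hJ, hq, hSz, hpow, hgJ, hcase, hqB⟩ := count_ffB hMff (z := z)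
    (γ := γh) (D := Dh) (D₀ := D₀) hzmem hγz hz0 htr hmax' hgen₂ hDhκ hDhX hg1 low hdeg hspan
  have hmmm : mm = m := by
    rw [hmm] at hm
    exact_mod_cast hm
  subst hmmm
  -- the derivations of `S` do not move the point
  have hSγ : ∀ c ∈ S, ∀ j, Dc Dh c (γ j / ω₀) = 0 := by
    intro c hc
    set F := Dc Dh c with hF'
    have h3 : (fun j => F (γ j) - (F ω₀ / ω₀) * γ j) = 0 := by
      refine hinj _ trivial ?_
      intro i
      have h4 : ∑ j, (u i j : M) * γ j = z i * ω₀ := by
        rw [hzd]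
        simp only
        rw [div_mul_cancel₀ _ hω₀]
      have h5 : ∑ j, (u i j : M) * F (γ j) = z i * F ω₀ := by
        have h6 : F (∑ j, (u i j : M) * γ j) = ∑ j, (u i j : M) * F (γ j) := by
          rw [map_sum]
          refine Finset.sum_congr rfl fun j _ => ?_
          rw [Derivation.leibniz, Derivation.map_natCast, smul_zero, add_zero, smul_eq_mul]
        rw [← h6, h4, Derivation.leibniz, hSz c hc i, smul_zero, add_zero, smul_eq_mul]
      have h6 : ∀ j, (u i j : M) * (F (γ j) - (F ω₀ / ω₀) * γ j) =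
          (u i j : M) * F (γ j) - (F ω₀ / ω₀) * ((u i j : M) * γ j) := fun j => by ring
      simp only [h6]
      rw [Finset.sum_sub_distrib, ← Finset.mul_sum, h5, h4]
      field_simp
      ring
    intro j
    have h4 := congrFun h3 j
    have h5 : F (γ j) = (F ω₀ / ω₀) * γ j := sub_eq_zero.1 h4
    have h6 : F (γ j / ω₀ * ω₀) = F (γ j) := by rw [div_mul_cancel₀ _ hω₀]
    rw [Derivation.leibniz, smul_eq_mul, smul_eq_mul, h5] at h6
    have h7 : ω₀ * F (γ j / ω₀) = 0 := by
      have h8 : γ j / ω₀ * F ω₀ = F ω₀ / ω₀ * γ j := by ring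
      rw [h8] at h6
      linear_combination h6
    exact (mul_eq_zero.1 h7).resolve_left hω₀
  -- a combination of the derivations `δ i` which does not move the point vanishes
  have hK : ∀ c ∈ S, (∀ t, c (Sum.inl t) = 0) → c = 0 := by
    intro c hcS h3
    set F := Dc Dh c with hF'
    obtain ⟨G, hG⟩ : ∃ G : Derivation ℤ M M,
        G = F - ∑ i, algebraMap κ M (c (Sum.inr i)) • E (i₀.succAbove i) := ⟨_, rfl⟩
    have hGv : ∀ v, G v = F v - ∑ i, algebraMap κ M (c (Sum.inr i)) * E (i₀.succAbove i) v := by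
      intro v
      have h4 := Dc_apply (κ := κ) (fun i : Fin r => E (i₀.succAbove i))
        (fun i => c (Sum.inr i)) v
      rw [hG, Derivation.sub_apply, ← h4]
      rfl
    have hGκ : ∀ v : κ, G (algebraMap κ M v) = algebraMap κ M ((0 : Derivation ℤ κ κ) v) := by
      intro v
      have h4 : ∀ i, E (i₀.succAbove i) (algebraMap κ M v) =
          algebraMap κ M (δ (i₀.succAbove i) v) := fun i => hEκ _ v
      rw [hGv, hF', Dc_apply, Fintype.sum_sum_type, Finset.sum_eq_zero
        (s := (Finset.univ : Finset (CX (R + 2) (Sum.elim d d')))) (fun t _ => by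
          rw [h3, map_zero, zero_mul]), zero_add, Derivation.zero_apply, map_zero, sub_eq_zero]
      refine Finset.sum_congr rfl fun i _ => ?_
      rw [hDhκ, h4]
      rfl
    have hGγ : ∀ j, G (γ j) = G X' * D (γ j) := by
      intro j
      have h4 := ev_vf φ (0 : Derivation ℤ κ κ) G hGκ hAP (Bv j)
      have h5 : vf A (cE (0 : Derivation ℤ κ κ)) (Bv j) = 0 := by
        rw [vf_apply, cE_zero, cE_zero, mul_zero, zero_mul, sub_zero]
      rw [h5, map_zero, zero_add, ← hD (Bv j)] at h4
      have h6 : ω * (G (γ j) - G X' * D (γ j)) = 0 := by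
        have h7 : ω * G (γ j) = G X' * (ω * D (γ j)) := h4
        linear_combination h7
      exact sub_eq_zero.1 ((mul_eq_zero.1 h6).resolve_left hAYP)
    have hFγ' : ∀ j, F (γ j) = (F ω₀ / ω₀) * γ j := by
      intro j
      have h5 : F (γ j / ω₀ * ω₀) = F (γ j) := by rw [div_mul_cancel₀ _ hω₀]
      rw [Derivation.leibniz, hSγ c hcS j, smul_zero, add_zero, smul_eq_mul] at h5
      rw [← h5]
      ring
    rw [Fintype.linearIndependent_iff] at hindM
    have h5 := hindM (Fin.cons (-(F ω₀ / ω₀)) (Fin.cons (G X')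
      fun i => algebraMap κ M (c (Sum.inr i)))) (by
        funext j
        rw [Fin.sum_univ_succ, Fin.sum_univ_succ, Pi.add_apply, Pi.add_apply, Finset.sum_apply]
        simp only [Fin.cons_zero, Fin.cons_succ, Pi.smul_apply, smul_eq_mul, Pi.zero_apply]
        have h6 := hGγ j
        rw [hGv, hFγ' j] at h6
        linear_combination -h6)
    funext t
    rcases t with t | i
    · exact h3 t
    · have h6 := h5 i.succ.succ
      simp only [Fin.cons_succ] at h6
      exact (algebraMap κ M).injective (by rw [h6, Pi.zero_apply, map_zero])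
  -- the count
  have hγh0 : γh ≠ 0 := by
    intro h3
    apply hl
    have h4 := congrFun h3 l
    have h5 : γ l / ω₀ = 0 := h4
    rcases div_eq_zero_iff.1 h5 with h6 | h6
    · exact h6
    · exact absurd h6 hω₀
  have hcount := count_bdryX hMff htr (n := R + 2) (γ := γh) (a := a) (a' := a') (Dh := Dh) W hW
    (fun i => δ (i₀.succAbove i)) (fun i b I hI => hδa _ b I hI) hγh0
    (fun b => by rw [hγh', Fval_smul, hFγ, mul_zero])
    (fun e => by
      rw [hγh', Fval_smul]
      exact mul_ne_zero (pow_ne_zero _ (inv_ne_zero hω₀)) (hφγ e))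
    (fun t v => hDhκ _ v) (fun i v => hDhκ _ v) hDhX hq hSγ hK
  rw [hγh', bdry_smul (inv_ne_zero hω₀), ← hγh'] at hcount
  have hpowS : mm * ((∑ j, d j + ∑ j, d' j) + p) ≤
      ∑ b, finrank κ ↥(Submodule.span κ (Set.range γh) ^ Sum.elim d d' b) + p * J := by
    have h3 := Finset.sum_le_sum fun b (_ : b ∈ Finset.univ) => hpow (Sum.elim d d' b)
    rw [← Finset.mul_sum, Finset.sum_add_distrib, Finset.sum_add_distrib] at h3
    have h4 : ∑ b, Sum.elim d d' b = ∑ j, d j + ∑ j, d' j := by
      rw [Fintype.sum_sum_type]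
      rfl
    have h5 : Fintype.card (ι ⊕ Λ) = p := by rw [Fintype.card_sum, hp']
    rw [h4, Finset.sum_const, Finset.card_univ, Finset.sum_const, Finset.card_univ, h5] at h3
    simpa using h3
  have hmb : mm ≤ b' := by
    rw [hmm] at hdeg
    exact_mod_cast hdeg
  refine num_L4 (b' := b') (E := 2 ^ i) hp' hp hd hm2 hg1 hadj' hNG hgJ hcase hqB hcount hpowS ?_
  rcases hJ with ⟨h3, h4⟩ | ⟨h3, h4⟩
  · exact Or.inl ⟨h4, hmb, hlow h3⟩
  · exact Or.inr ⟨h4, (hhigh h3).2.2⟩

end Pool.Agent.Lib.MP_44a246_ntSP
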