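import Mathlib
import Pool.Agent.Lib.MP_44a246_ntD.D10
import Pool.Agent.Lib.MP_44a246_ntD.D20
import Pool.Agent.Lib.MP_44a246_ntU.U13
import Pool.Agent.Lib.MP_44a246_ntSP.CN03

/-!
# Sharp pairs: the generic point of a stratum (paper 669, L0)

A sequence of counterexamples which is generic over the countable field of the coefficients, and the
contradiction `no_pair` for `p` forms `Fin p` and the set `A` of the forms which vanish at the point.
-/

namespace Pool.Agent.Lib.MP_44a246_ntSP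

open Pool.Agent.Lib.MP_e52354_nt
open Pool.Agent.Lib.MP_44a246_nt
open Pool.Agent.Lib.MP_44a246_ntD
open Pool.Agent.Lib.MP_44a246_ntK
open Pool.Agent.Lib.MP_44a246_ntL
open Pool.Agent.Lib.MP_44a246_ntR
open Pool.Agent.Lib.MP_44a246_ntS
open Pool.Agent.Lib.MP_44a246_ntG
open Pool.Agent.Lib.MP_44a246_ntE
open Pool.Agent.Lib.MP_44a246_ntU
open Pool.Agent.Lib.MP_44a246_ntSH (bdry)
open WithZero Polynomial Module

universe u

/-- a sequence, with members in given sets, which is generic over a countable field -/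
theorem exists_generic_seqS {k K L : Type*} [Field k] [Countable k] [Field K] [Field L]
    [Algebra k K] [Algebra K L] [Algebra k L] [IsScalarTower k K L] {τ : Type*}
    [Finite τ] {S : ℕ → Set (τ → L)}
    (h : ∀ N, ∀ g : MvPolynomial τ K, g ≠ 0 → ∃ z ∈ S N, MvPolynomial.aeval z g ≠ 0) :
    ∃ z : ℕ → τ → L, (∀ N, z N ∈ S N) ∧
      ∀ H : MvPolynomial τ k, H ≠ 0 → ∃ N₀, ∀ N ≥ N₀, MvPolynomial.aeval (z N) H ≠ 0 := by
  classical
  have hcount : Countable (MvPolynomial τ k) := by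
    rw [← Cardinal.mk_le_aleph0_iff]
    refine MvPolynomial.cardinalMk_le_max_lift.trans (max_le (max_le ?_ ?_) le_rfl)
    · rw [Cardinal.lift_le_aleph0]
      exact Cardinal.mk_le_aleph0
    · rw [Cardinal.lift_le_aleph0]
      exact Cardinal.mk_le_aleph0
  have hne : Nonempty {H : MvPolynomial τ k // H ≠ 0} := ⟨⟨1, one_ne_zero⟩⟩
  obtain ⟨f, hf⟩ := exists_surjective_nat {H : MvPolynomial τ k // H ≠ 0}
  have hmap : ∀ H : MvPolynomial τ k, H ≠ 0 → MvPolynomial.map (algebraMap k K) H ≠ 0 := by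
    intro H hH h0
    apply hH
    apply MvPolynomial.map_injective _ (algebraMap k K).injective
    rw [h0, map_zero]
  have hg : ∀ N, ∏ i ∈ Finset.range (N + 1), MvPolynomial.map (algebraMap k K) (f i).1 ≠ 0 :=
    fun N => Finset.prod_ne_zero_iff.2 fun i _ => hmap _ (f i).2
  choose z hz1 hz2 using fun N => h N _ (hg N)
  refine ⟨z, hz1, fun H hH => ?_⟩
  obtain ⟨i, hi⟩ := hf ⟨H, hH⟩
  refine ⟨i, fun N hN h0 => hz2 N ?_⟩
  rw [map_prod]
  refine Finset.prod_eq_zero (Finset.mem_range.2 (show i < N + 1 by omega)) ?_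
  rw [hi, MvPolynomial.aeval_map_algebraMap]
  exact h0

/-- **The contradiction** for `p` forms; `A` is the set of the forms which vanish at the generic
point `x`. -/
theorem no_pair_point {κ : Type u} [Field κ] [IsAlgClosed κ] [CharZero κ] {R r b' N i p : ℕ}
    {d : Fin p → ℕ} (hd1 : ∀ j, 1 ≤ d j) (hd : R + 4 ≤ ∑ j, d j)
    {k : Type*} [Field k] [CharZero k] [Algebra k κ] {a : Fin p → (Fin (R + 3) →₀ ℕ) → κ}
    (ha : AlgebraicIndependent k (fun s : ↥(jexpo (R + 2) d) => a s.1.1 s.1.2))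
    {k₂ : Type*} [Field k₂] [CharZero k₂] [Algebra k₂ κ]
    {a₂ : Fin p → (Fin (R + 3) →₀ ℕ) → k₂}
    (ha₂ : ∀ j, ∀ I ∈ expo (Fin (R + 3)) (d j), algebraMap k₂ κ (a₂ j I) = a j I)
    {x : Fin (R + 3) → κ} {l : Fin (R + 3)} (hl : x l ≠ 0) {A : Finset (Fin p)}
    (hcard : A.card + (r + 2) = R + 3) {j : Fin (r + 1) → Fin (R + 3)}
    (hind : AlgebraicIndependent k₂ (fun i : Fin (r + 1) => x (j i) / x l))
    {A' : κ[X][X]} {Bv : Fin (R + 3) → κ[X][X]} {ξ₀ ξ₁ ξ₂ : Fin (R + 3) → κ} {c y₁ y : κ}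
    (hirr : Irreducible A') (hc : c ≠ 0) (hA : A'.evalEval y₁ y = 0)
    (hAY : (derivative A').evalEval y₁ y ≠ 0)
    (hB : ∀ j, (derivative A').evalEval y₁ y * (c * x j) = (Bv j).evalEval y₁ y)
    (hF : ∀ j ∈ A, A' ∣ FB (d j) (a j) Bv) (hφ : ∀ j, j ∉ A → Fval (d j) (a j) x ≠ 0)
    (h0 : A' ∣ ∑ j, C (C (ξ₀ j)) * Bv j - derivative A')
    (h1 : A' ∣ ∑ j, C (C (ξ₁ j)) * Bv j - C X * derivative A')
    (h2 : A' ∣ ∑ j, C (C (ξ₂ j)) * Bv j - X * derivative A')
    (hproj : ∀ u : Fin 3 → Fin (R + 3) → ℕ, ∃ P : MvPolynomial (Fin 3) κ, P ≠ 0 ∧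
      P.IsHomogeneous b' ∧ A' ∣ MvPolynomial.aeval (fun i => ∑ j, C (C (u i j : κ)) * Bv j) P)
    (low : Prop)
    (hlow : low → 11 * (p + 11) * b' + 351 * (p + 11) + 16 + p < R + 2)
    (hhigh : ¬ low → (∃ J : Fin (N + 1) → Fin (R + 3), ∀ v : Fin (N + 1) → κ, v ≠ 0 →
      ¬ A' ∣ ∑ i, C (C (v i)) * Bv (J i)) ∧ 2 ^ i * b' ≤ 3 ^ i * N ∧
      28 * (p + 11) * 2 ^ i + 16 + p < R + 2)
    (hSMT : ∀ (M : Type u) (_ : Field M) (_ : Algebra κ M) (X' Y : M), Transcendental κ X' →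
      IntermediateField.adjoin κ {X', Y} = ⊤ →
      (∀ G : κ[X][X], ev (algebraMap κ M) X' Y G = 0 ↔ A' ∣ G) →
      {w : Place κ M | ∃ j, j ∉ A ∧ w.1 (Fval (d j) (fun I => algebraMap κ M (a j I))
        (fun l => ev (algebraMap κ M) X' Y (Bv l))) <
          (vmax w.1 fun l => ev (algebraMap κ M) X' Y (Bv l)) ^ d j}.ncard ≤
            9 * genus κ M + 5 ∧
      (genus κ M = 0 →
        {w : Place κ M | ∃ j, j ∉ A ∧ w.1 (Fval (d j) (fun I => algebraMap κ M (a j I))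
          (fun l => ev (algebraMap κ M) X' Y (Bv l))) <
            (vmax w.1 fun l => ev (algebraMap κ M) X' Y (Bv l)) ^ d j}.ncard ≤ 2)) :
    False := by
  classical
  choose δ hδ using fun i : Fin (r + 1) =>
    exists_der_indepV hind (fun i' => if i = i' then 1 else 0)
  choose W hW using fun I : Fin p × (Fin (R + 3) →₀ ℕ) => exists_der_indepV ha
    (fun J => if I = J.1 then (1 : κ) else 0)
  -- the families
  obtain ⟨e, he⟩ : ∃ e : {j // j ∈ A} ⊕ {j // j ∉ A} → Fin p,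
      e = Sum.elim (fun j => j.1) (fun j => j.1) := ⟨_, rfl⟩
  have hei : Function.Injective e := by
    rw [he]
    rintro (⟨j, hj⟩ | ⟨j, hj⟩) (⟨j', hj'⟩ | ⟨j', hj'⟩) h
    · simp only [Sum.elim_inl] at h
      subst h
      rfl
    · simp only [Sum.elim_inl, Sum.elim_inr] at h
      subst h
      exact absurd hj hj'
    · simp only [Sum.elim_inl, Sum.elim_inr] at h
      subst h
      exact absurd hj' hj
    · simp only [Sum.elim_inr] at h
      subst h
      rfl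
  have hed : ∀ b, Sum.elim (fun j : {j // j ∈ A} => d j.1) (fun j : {j // j ∉ A} => d j.1) b =
      d (e b) := by
    rw [he]
    rintro (b | b) <;> rfl
  have hea : ∀ b, Sum.elim (fun j : {j // j ∈ A} => a j.1) (fun j : {j // j ∉ A} => a j.1) b =
      a (e b) := by
    rw [he]
    rintro (b | b) <;> rfl
  have hsum : ∑ j : {j // j ∈ A}, d j.1 + ∑ j : {j // j ∉ A}, d j.1 = ∑ j, d j := by
    have e1 : ∑ j : {j // j ∈ A}, d j.1 = ∑ j ∈ A, d j := Finset.sum_coe_sort A d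
    have e2 : ∑ j : {j // j ∉ A}, d j.1 = ∑ j ∈ Aᶜ, d j :=
      (Finset.sum_subtype Aᶜ (p := fun j => j ∉ A) (fun j => Finset.mem_compl) d).symm
    rw [e1, e2]
    exact Finset.sum_add_sum_compl A d
  have hcA : Fintype.card {j // j ∈ A} = A.card := Fintype.card_coe A
  have hcc : p = Fintype.card {j // j ∈ A} + Fintype.card {j // j ∉ A} := by
    have h3 := Fintype.card_subtype_compl (fun j : Fin p => j ∈ A)
    have h4 := Fintype.card_subtype_le (fun j : Fin p => j ∈ A)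
    rw [Fintype.card_fin] at h3 h4
    omega
  refine no_pair (i := i) (N := N) (r := r) (b' := b') (d := fun j : {j // j ∈ A} => d j.1)
    (d' := fun j : {j // j ∉ A} => d j.1) (a := fun j : {j // j ∈ A} => a j.1)
    (a' := fun j : {j // j ∉ A} => a j.1) (by rw [hcA]; exact hcard) hcc (fun j => hd1 j.1)
    (by rw [hsum]; exact hd) (fun b I => W (e b, I)) ?_ (x := x) δ ?_
    (indep_pointE (j := j) hl δ fun i i' => (hδ i).2 i') hirr hc hA hAY hB
    (fun j => hF j.1 j.2) (fun j => hφ j.1 j.2) h0 h1 h2 hproj low hlow hhigh ?_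
  · intro b I hI b' J hJ
    rw [hed] at hJ
    have h3 := (hW (e b, I)).2 ⟨(e b', J), mem_jexpo.2 hJ⟩
    rw [hea]
    rw [h3]
    refine if_congr ?_ rfl rfl
    show (e b, I) = (e b', J) ↔ (b, I) = (b', J)
    rw [Prod.mk.injEq, Prod.mk.injEq, hei.eq_iff]
  · intro i b I hI
    rw [hed] at hI
    rw [hea, ← ha₂ (e b) I hI]
    exact (hδ i).1 _
  · intro M iM aM X' Y hX hgen hψ
    obtain ⟨h3, h4⟩ := hSMT M iM aM X' Y hX hgen hψ
    have h5 : bdry (fun j : {j // j ∉ A} => d j.1) (fun j : {j // j ∉ A} => a j.1)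
        (fun l => ev (algebraMap κ M) X' Y (Bv l)) =
        {w : Place κ M | ∃ j, j ∉ A ∧ w.1 (Fval (d j) (fun I => algebraMap κ M (a j I))
        (fun l => ev (algebraMap κ M) X' Y (Bv l))) <
          (vmax w.1 fun l => ev (algebraMap κ M) X' Y (Bv l)) ^ d j} := by
      ext w
      constructor
      · rintro ⟨⟨j, hj⟩, h⟩
        exact ⟨j, hj, h⟩
      · rintro ⟨j, hj, h⟩
        exact ⟨⟨j, hj⟩, h⟩
    rw [h5]
    exact ⟨h3, h4⟩

end Pool.Agent.Lib.MP_44a246_ntSP
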