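import Mathlib
import Pool.Agent.Lib.MP_44a246_ntSH.CW08
import Pool.Agent.Lib.MP_44a246_ntSH.RV10
import Pool.Agent.Lib.MP_44a246_ntK.K03

/-!
SHARP PAIRS (papers 667, 669), the output over the field of the point: the curve with small
coefficients, for the forms which vanish at the point.
-/

namespace Pool.Agent.Lib.MP_44a246_ntSP

open Pool.Agent.Lib.MP_44a246_nt
open Pool.Agent.Lib.MP_44a246_ntL
open Pool.Agent.Lib.MP_44a246_ntS
open Pool.Agent.Lib.MP_44a246_ntX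
open Pool.Agent.Lib.MP_44a246_ntG
open Pool.Agent.Lib.MP_44a246_ntC
open Pool.Agent.Lib.MP_44a246_ntE
open Pool.Agent.Lib.MP_44a246_ntK
open Pool.Agent.Lib.MP_44a246_ntF
open Pool.Agent.Lib.MP_44a246_ntSH
open Pool.Agent.Lib.MP_e52354_nt
open WithZero Module Polynomial

/-- **The curve with small coefficients.** The clauses of the certificate `CertSP` for the forms
among the `a i` which vanish at `x`; moreover the linear forms `ξ` have constant coefficients and
all the coefficients of `A` and of the `B j` have height at most `T`. -/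
def CertN (κ : Type*) {L : Type*} [Field κ] [Field L] [Algebra κ L] {n : ℕ} {ι : Type*}
    (d : ι → ℕ) (a : ι → (Fin (n + 1) →₀ ℕ) → L) (b N : ℕ) (T : ℤ) (x : Fin (n + 1) → L) : Prop :=
  ∃ (A : L[X][X]) (B : Fin (n + 1) → L[X][X]) (ξ₀ ξ₁ ξ₂ : Fin (n + 1) → L) (c y₁ y : L),
    Irreducible A ∧
    Box b A ∧ (∀ j, Box b (B j)) ∧ c ≠ 0 ∧
    ∑ j, ξ₀ j * (c * x j) = 1 ∧ ∑ j, ξ₁ j * (c * x j) = y₁ ∧ ∑ j, ξ₂ j * (c * x j) = y ∧
    A.evalEval y₁ y = 0 ∧ (derivative A).evalEval y₁ y ≠ 0 ∧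
    (∀ j, (derivative A).evalEval y₁ y * (c * x j) = (B j).evalEval y₁ y) ∧
    (∀ i, Fval (d i) (a i) x = 0 → A ∣ FB (d i) (a i) B) ∧
    A ∣ ∑ j, C (C (ξ₀ j)) * B j - derivative A ∧
    A ∣ ∑ j, C (C (ξ₁ j)) * B j - C X * derivative A ∧
    A ∣ ∑ j, C (C (ξ₂ j)) * B j - X * derivative A ∧
    (∀ u : Fin 3 → Fin (n + 1) → ℕ, ∃ P : MvPolynomial (Fin 3) L, P ≠ 0 ∧
      P.IsHomogeneous (2 * b) ∧ A ∣ MvPolynomial.aeval (fun i => ∑ j, C (C (u i j : L)) * B j) P) ∧
    (∃ J : Fin N → Fin (n + 1), ∀ v : Fin N → L, v ≠ 0 → ¬ A ∣ ∑ i, C (C (v i)) * B (J i)) ∧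
    (∃ m₀ : Fin (n + 1) → ℕ, ∀ j, ξ₀ j = (m₀ j : L)) ∧
    (∃ m₁ : Fin (n + 1) → ℕ, ∀ j, ξ₁ j = (m₁ j : L)) ∧
    (∃ z : Fin (n + 1) → κ, ∀ j, ξ₂ j = algebraMap κ L (z j)) ∧
    (∃ i k, (A.coeff i).coeff k = 1) ∧
    (∀ i k, height κ ![1, (A.coeff i).coeff k] ≤ T) ∧
    ∀ j i k, height κ ![1, ((B j).coeff i).coeff k] ≤ T

/-- larger degrees and heights -/
theorem CertN.mono {κ L : Type*} [Field κ] [Field L] [Algebra κ L] {n b b' N : ℕ} {ι : Type*}
    {d : ι → ℕ} {T T' : ℤ} (hb : b ≤ b') (hT : T ≤ T')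
    {a : ι → (Fin (n + 1) →₀ ℕ) → L} {x : Fin (n + 1) → L} (h : CertN κ d a b N T x) :
    CertN κ d a b' N T' x := by
  obtain ⟨A, B, ξ₀, ξ₁, ξ₂, c', y₁, y, h0, h1, h2, h3, h4, h5, h6, h7, h8, h9, h10, h11, h12, h13,
    h14, h15, h16, h17, h18, h19, h20, h21⟩ := h
  refine ⟨A, B, ξ₀, ξ₁, ξ₂, c', y₁, y, h0, ⟨h1.1.trans hb, fun i => (h1.2 i).trans hb⟩,
    fun j => ⟨(h2 j).1.trans hb, fun i => ((h2 j).2 i).trans hb⟩, h3, h4, h5, h6, h7, h8, h9, h10,
    h11, h12, h13, fun u => ?_, h15, h16, h17, h18, h19, fun i k => (h20 i k).trans hT,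
    fun j i k => (h21 j i k).trans hT⟩
  obtain ⟨P, hP0, hPh, hPd⟩ := h14 u
  refine ⟨MvPolynomial.X 0 ^ (2 * b' - 2 * b) * P,
    mul_ne_zero (pow_ne_zero _ (MvPolynomial.X_ne_zero _)) hP0, ?_, ?_⟩
  · have h := (MvPolynomial.isHomogeneous_X_pow (R := L) (0 : Fin 3) (2 * b' - 2 * b)).mul hPh
    have he : 2 * b' - 2 * b + 2 * b = 2 * b' := by omega
    rwa [he] at h
  · rw [map_mul]
    exact dvd_mul_of_dvd_right hPd _

/-- fewer independent coordinates -/
theorem CertN.anti {κ L : Type*} [Field κ] [Field L] [Algebra κ L] {n b N N' : ℕ} {ι : Type*}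
    {d : ι → ℕ} {T : ℤ} (hN : N' ≤ N)
    {a : ι → (Fin (n + 1) →₀ ℕ) → L} {x : Fin (n + 1) → L} (h : CertN κ d a b N T x) :
    CertN κ d a b N' T x := by
  obtain ⟨A, B, ξ₀, ξ₁, ξ₂, c', y₁, y, h0, h1, h2, h3, h4, h5, h6, h7, h8, h9, h10, h11, h12, h13,
    h14, ⟨J, hJ⟩, h16⟩ := h
  refine ⟨A, B, ξ₀, ξ₁, ξ₂, c', y₁, y, h0, h1, h2, h3, h4, h5, h6, h7, h8, h9, h10, h11, h12, h13,
    h14, ⟨fun i => J (Fin.castLE hN i), fun v hv hd => ?_⟩, h16⟩
  obtain ⟨k, rfl⟩ := Nat.exists_eq_add_of_le hN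
  refine hJ (Fin.append v (0 : Fin k → L)) (fun h0 => hv ?_) ?_
  · funext i
    have h1 := congrFun h0 (Fin.castAdd k i)
    rwa [Fin.append_left] at h1
  · rw [Fin.sum_univ_add]
    simp only [Fin.append_left, Fin.append_right, Pi.zero_apply, map_zero, zero_mul,
      Finset.sum_const_zero, add_zero]
    exact hd

/-- `CertN` does not depend on the scaling of the point -/
theorem CertN.of_smul {κ L : Type*} [Field κ] [Field L] [Algebra κ L] {n b N : ℕ} {ι : Type*}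
    {d : ι → ℕ} {T : ℤ} {a : ι → (Fin (n + 1) →₀ ℕ) → L} {x : Fin (n + 1) → L} {r : L}
    (hr : r ≠ 0) (h : CertN κ d a b N T (fun j => r * x j)) : CertN κ d a b N T x := by
  obtain ⟨A, B, ξ₀, ξ₁, ξ₂, c', y₁, y, h0, h1, h2, h3, h4, h5, h6, h7, h8, h9, h10, h11⟩ := h
  simp only [← mul_assoc c' r] at h4 h5 h6 h9
  refine ⟨A, B, ξ₀, ξ₁, ξ₂, c' * r, y₁, y, h0, h1, h2, mul_ne_zero h3 hr, h4, h5, h6, h7, h8, h9,
    fun i hi => h10 i ?_, h11⟩
  rw [Fval_smul, hi, mul_zero]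

/-- the certificate for the forms which vanish at the point -/
theorem CertN.toSP {κ L : Type*} [Field κ] [Field L] [Algebra κ L] {n b N : ℕ} {ι : Type*}
    {d : ι → ℕ} {T : ℤ} {a : ι → (Fin (n + 1) →₀ ℕ) → L} {x : Fin (n + 1) → L}
    (h : CertN κ d a b N T x) :
    CertSP (fun i : {i // Fval (d i) (a i) x = 0} => d i) (fun i => a i) b N x := by
  obtain ⟨A, B, ξ₀, ξ₁, ξ₂, c', y₁, y, h0, h1, h2, h3, h4, h5, h6, h7, h8, h9, h10, h11, h12, h13,
    h14, h15, h16⟩ := h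
  exact ⟨A, B, ξ₀, ξ₁, ξ₂, c', y₁, y, h0, h1, h2, h3, h4, h5, h6, h7, h8, h9,
    fun i => h10 i i.2, h11, h12, h13, h14, h15⟩

/-- the height of a number with few poles -/
theorem height_one_le {κ L : Type*} [Field κ] [IsAlgClosed κ] [CharZero κ] [Field L] [Algebra κ L]
    (h : IsFF κ L) {t : L}
    {e : Place κ L → ℤ} (he : (Function.support e).Finite) (h0 : ∀ w, 0 ≤ e w)
    (ht : ∀ w : Place κ L, w.1 t ≤ exp (e w)) : height κ ![1, t] ≤ ∑ᶠ w, e w := by
  have hx : (![1, t] : Fin 2 → L) ≠ 0 := by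
    intro hc
    have := congrFun hc 0
    simp at this
  unfold height
  refine finsum_mono (h.vmax_support hx) he fun w => ?_
  have h1 : vmax w.1 ![1, t] = max 1 (w.1 t) := by
    unfold vmax
    rw [Fin.univ_succ]
    simp
  have h2 : max 1 (w.1 t) ≠ 0 := (lt_of_lt_of_le zero_lt_one (le_max_left _ _)).ne'
  show log (vmax w.1 ![1, t]) ≤ e w
  rw [h1, log_le_iff_le_exp h2]
  refine max_le ?_ (ht w)
  rw [← exp_zero, exp_le_exp]
  exact h0 w

/-- the coefficients of a curve with a coefficient `1` -/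
theorem height_coeff_le {κ L : Type*} [Field κ] [IsAlgClosed κ] [CharZero κ] [Field L]
    [Algebra κ L] (h : IsFF κ L) {A : L[X][X]} (hA0 : A ≠ 0) (h1 : ∃ i j, (A.coeff i).coeff j = 1) (i k : ℕ) :
    height κ ![1, (A.coeff i).coeff k] ≤ gh κ A := by
  have hg : ∀ w : Place κ L, gg w.1 A ≠ 0 := fun w => by
    rw [Ne, gg_eq_zero]
    exact hA0
  refine height_one_le h (gg_support h hA0) (fun w => ?_) fun w => ?_
  · rw [le_log_iff_exp_le (hg w), exp_zero]
    exact one_le_gg h1 w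
  · rw [exp_log (hg w)]
    exact le_gg w.1 A i k

section

variable {κ L : Type*} [Field κ] [IsAlgClosed κ] [CharZero κ] [Field L] [CharZero L]
  [Algebra κ L] {n d₀ : ℕ} (X : DatG κ (L := L) n d₀) {b : ℕ} {A : L[X][X]} (hA : CrvG X b A)

include hA in
omit [CharZero L] in
/-- the coefficients of the numerators of the coordinates -/
theorem height_coeff_B_le (h : IsFF κ L) (j : Fin (n + 1)) (i k : ℕ) :
    height κ ![1, ((X.B A j).coeff i).coeff k] ≤ 2 * gh κ A + X.Δ := by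
  have hA0 : A ≠ 0 := hA.irr.ne_zero
  have s2 : (Function.support fun w : Place κ L => (X.δ w : ℤ)).Finite := by
    refine X.hδ.subset fun w hw h0 => hw ?_
    simp only
    rw [h0, Nat.cast_zero]
  have s3 := gg_support h hA0
  have s4 : (Function.support fun w : Place κ L => 2 * log (gg w.1 A)).Finite := by
    refine s3.subset fun w hw h0 => hw ?_
    have h0' : log (gg w.1 A) = 0 := h0
    simp only
    rw [h0', mul_zero]
  have hsum : ∑ᶠ w : Place κ L, (2 * log (gg w.1 A) + (X.δ w : ℤ)) = 2 * gh κ A + X.Δ := by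
    rw [finsum_add_distrib s4 s2, ← mul_finsum]
    rfl
  rw [← hsum]
  have hg : ∀ w : Place κ L, gg w.1 A ≠ 0 := fun w => by
    rw [Ne, gg_eq_zero]
    exact hA0
  refine height_one_le h ((s4.union s2).subset (Function.support_add _ _)) (fun w => ?_)
    fun w => ?_
  · have h1 : 0 ≤ log (gg w.1 A) := by
      rw [le_log_iff_exp_le (hg w), exp_zero]
      exact one_le_gg hA.one w
    have : (0 : ℤ) ≤ (X.δ w : ℤ) := Int.natCast_nonneg _
    linarith
  · have h2 := X.B_le hA j w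
    rw [← exp_log (hg w), ← exp_nsmul, ← exp_add, nsmul_eq_mul, Nat.cast_ofNat] at h2
    exact (le_gg w.1 _ i k).trans h2

include hA in
omit [IsAlgClosed κ] [CharZero κ] [CharZero L] in
private theorem lin₂_zero :
    (∑ j, C (C (algebraMap κ L (X.z j))) * X.B A j -
      Polynomial.X * derivative A).evalEval X.y₁ X.y = 0 := by
  have h1 : ∀ j, (C (C (algebraMap κ L (X.z j))) * X.B A j).evalEval X.y₁ X.y =
      (derivative A).evalEval X.y₁ X.y * (algebraMap κ L (X.z j) * X.x j) := by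
    intro j
    rw [evalEval_mul, evalEval_CC, ← X.B_eval hA j]
    ring
  rw [evalEval_sub, evalEval_mul, evalEval_X, ← coe_evalEvalRingHom, map_sum]
  simp only [coe_evalEvalRingHom]
  rw [Finset.sum_congr rfl fun j _ => h1 j, ← Finset.mul_sum]
  have h2 : ∑ j, algebraMap κ L (X.z j) * X.x j = X.y := rfl
  rw [h2]
  ring

include hA in
omit [CharZero L] in
private theorem gh_lin₂ (h : IsFF κ L)
    (hP0 : ∑ j, C (C (algebraMap κ L (X.z j))) * X.B A j - Polynomial.X * derivative A ≠ 0) :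
    gh κ (∑ j, C (C (algebraMap κ L (X.z j))) * X.B A j - Polynomial.X * derivative A) ≤
      2 * gh κ A + X.Δ := by
  have hA0 : A ≠ 0 := hA.irr.ne_zero
  have s2 : (Function.support fun w : Place κ L => (X.δ w : ℤ)).Finite := by
    refine X.hδ.subset fun w hw h0 => hw ?_
    simp only
    rw [h0, Nat.cast_zero]
  have s3 := gg_support h hA0
  have s4 : (Function.support fun w : Place κ L => 2 * log (gg w.1 A)).Finite := by
    refine s3.subset fun w hw h0 => hw ?_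
    have h0' : log (gg w.1 A) = 0 := h0
    simp only
    rw [h0', mul_zero]
  have s5 : (Function.support fun w : Place κ L => 2 * log (gg w.1 A) + (X.δ w : ℤ)).Finite :=
    (s4.union s2).subset (Function.support_add _ _)
  have hsum : ∑ᶠ w : Place κ L, (2 * log (gg w.1 A) + (X.δ w : ℤ)) = 2 * gh κ A + X.Δ := by
    rw [finsum_add_distrib s4 s2, ← mul_finsum]
    rfl
  rw [← hsum]
  refine finsum_mono (gg_support h hP0) s5 fun w => ?_
  have h1 : gg w.1 (∑ j, C (C (algebraMap κ L (X.z j))) * X.B A j -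
      Polynomial.X * derivative A) ≠ 0 := by
    rw [Ne, gg_eq_zero]
    exact hP0
  rw [log_le_iff_le_exp h1]
  have hgA : gg w.1 A ≠ 0 := by
    rw [Ne, gg_eq_zero]
    exact hA0
  have hB : ∀ j, gg w.1 (X.B A j) ≤ exp (2 * log (gg w.1 A) + (X.δ w : ℤ)) := by
    intro j
    have h2 := X.B_le hA j w
    rw [← exp_log hgA, ← exp_nsmul, ← exp_add, nsmul_eq_mul, Nat.cast_ofNat] at h2
    exact h2
  have h2 : gg w.1 A ≤ exp (2 * log (gg w.1 A) + (X.δ w : ℤ)) := by
    have h3 : 0 ≤ log (gg w.1 A) := by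
      rw [le_log_iff_exp_le hgA, exp_zero]
      exact one_le_gg hA.one w
    have h4 : gg w.1 A = exp (log (gg w.1 A)) := (exp_log hgA).symm
    conv_lhs => rw [h4]
    rw [exp_le_exp]
    have : (0 : ℤ) ≤ (X.δ w : ℤ) := Int.natCast_nonneg _
    linarith
  have h3 : gg w.1 (derivative A) ≤ exp (2 * log (gg w.1 A) + (X.δ w : ℤ)) :=
    (gg_derivative_le w.1 A).trans h2
  refine (Valuation.map_sub _ _ _).trans (max_le ?_ ?_)
  · refine Valuation.map_sum_le _ fun j _ => ?_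
    rw [map_mul, gg_CC]
    calc w.1 (algebraMap κ L (X.z j)) * gg w.1 (X.B A j)
        ≤ 1 * exp (2 * log (gg w.1 A) + (X.δ w : ℤ)) := by
          refine mul_le_mul' ?_ (hB j)
          by_cases hz : X.z j = 0
          · rw [hz, map_zero, map_zero]
            exact zero_le
          · exact (w.2.2 _ hz).le
      _ = _ := one_mul _
  · have h4 : gg w.1 (Polynomial.X : L[X][X]) = 1 := gn_X (gv w.1)
    rw [map_mul, h4, one_mul]
    exact h3

omit [CharZero L] in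
private theorem natDegree_sum_le_box {c : Fin (n + 1) → L} {B : Fin (n + 1) → L[X][X]}
    (hB : ∀ j, (B j).natDegree ≤ b) : (∑ j, C (C (c j)) * B j).natDegree ≤ b := by
  refine natDegree_sum_le_of_forall_le _ _ fun j _ => ?_
  exact (natDegree_C_mul_le _ _).trans (hB j)

include hA in
/-- **The curve with small coefficients**, from a curve `CrvG` of small height. -/
theorem stepCN (h : IsFF κ L)
    (hEκ : ∀ j (u : κ), ∃ u' : κ, X.E j (algebraMap κ L u) = algebraMap κ L u')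
    {ι : Type*} {d : ι → ℕ} {a : ι → (Fin (n + 1) →₀ ℕ) → L} {τ : Place κ L → ℕ}
    (hτ : (Function.support τ).Finite)
    (ha : ∀ i, Fval (d i) (a i) X.x = 0 → ∀ I ∈ expo (Fin (n + 1)) (d i), ∀ w : Place κ L,
      w.1 (a i I) ≤ exp (τ w : ℤ))
    {N : ℕ} (hsl : ∀ Q : Submodule L (Fin (n + 1) → L), X.x ∈ Q → 2 * ht κ Q ≤ height κ X.x →
      N ≤ finrank L Q)
    (hspan : 9 * (b : ℤ) * gh κ A + 3 * b * X.Δ < height κ X.x)
    (hh : ∀ i, Fval (d i) (a i) X.x = 0 →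
      (d i : ℤ) * gh κ A + b * ∑ᶠ w, (τ w : ℤ) < height κ X.x)
    (hlin : 2 * ((n : ℤ) + 1) * (3 * gh κ A + X.Δ) ≤ height κ X.x) :
    CertN κ d a b N (2 * gh κ A + X.Δ) X.x := by
  have hgA : 0 ≤ gh κ A := gh_nonneg h hA.irr.ne_zero
  have hΔ : 0 ≤ X.Δ := X.Δ_nonneg
  have hb0 : (0 : ℤ) ≤ b := Int.natCast_nonneg b
  have hb1 : 1 ≤ b := by
    have h1 := hA.box.1
    have h2 := hA.deg
    omega
  have hb1' : (1 : ℤ) ≤ b := by exact_mod_cast hb1
  have hpos : gh κ A < height κ X.x := by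
    refine lt_of_le_of_lt ?_ hspan
    have h1 : 0 ≤ 3 * (b : ℤ) * X.Δ := by positivity
    have h2 : gh κ A ≤ (b : ℤ) * gh κ A := by nlinarith
    nlinarith
  have hlin1 : (b : ℤ) * gh κ A + b * (2 * gh κ A + X.Δ) < height κ X.x := by
    refine lt_of_le_of_lt ?_ hspan
    have h1 := mul_nonneg hb0 hgA
    have h2 := mul_nonneg hb0 hΔ
    nlinarith
  have hAd : (derivative A).natDegree ≤ b :=
    ((natDegree_derivative_le A).trans (Nat.sub_le _ _)).trans hA.box.1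
  have hB : ∀ j, (X.B A j).natDegree ≤ b := fun j => (X.B_box hA j).1
  have hlin' : ((1 : ℕ) * b : ℤ) * gh κ A + b * (2 * gh κ A + X.Δ) < height κ X.x := by
    push_cast
    rwa [one_mul]
  refine ⟨A, X.B A, fun j => (X.ξ₀ j : L), fun j => (X.ξ₁ j : L),
    fun j => algebraMap κ L (X.z j), 1, X.y₁, X.y, hA.irr, hA.box, X.B_box hA, one_ne_zero, ?_, ?_,
    ?_, hA.zero, hA.der, ?_, ?_, ?_, ?_, ?_, fun u => exists_proj_form_dat h X hA hspan u,
    indep_B h X hA hpos hsl hlin, ⟨X.ξ₀, fun _ => rfl⟩, ⟨X.ξ₁, fun _ => rfl⟩, ⟨X.z, fun _ => rfl⟩,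
    hA.one, fun i k => ?_, fun j i k => height_coeff_B_le X hA h j i k⟩
  · simpa only [one_mul] using X.h0
  · simp only [one_mul]
    rfl
  · simp only [one_mul]
    rfl
  · intro j
    rw [one_mul]
    exact X.B_eval hA j
  · exact fun i hi => dvd_FB h X hA hEκ (fun j => dvd_EE X hA h hspan j j) hτ (ha i hi) hi (hh i hi)
  · refine dvd_of_small X hA h (m := 1) ?_ (fun h0 => gh_lin X hA h h0 (Or.inl rfl))
      (lin₀_zero X hA) hlin'
    rw [one_mul]
    exact (natDegree_sub_le_of_le (natDegree_sum_le_box hB) hAd).trans (by rw [max_self])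
  · refine dvd_of_small X hA h (m := 1) ?_ (fun h0 => gh_lin X hA h h0 (Or.inr rfl))
      (lin₁_zero X hA) hlin'
    rw [one_mul]
    exact (natDegree_sub_le_of_le (natDegree_sum_le_box hB)
      ((natDegree_C_mul_le _ _).trans hAd)).trans (by rw [max_self])
  · refine dvd_of_small X hA h (m := 1) ?_ (gh_lin₂ X hA h) (lin₂_zero X hA) hlin'
    rw [one_mul]
    refine (natDegree_sub_le_of_le (natDegree_sum_le_box hB) ?_).trans (by rw [max_self])
    refine natDegree_mul_le.trans ?_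
    rw [natDegree_X]
    have h1 := natDegree_derivative_le A
    have h2 := hA.box.1
    have h3 := Nat.pos_of_ne_zero hA.deg
    omega
  · refine (height_coeff_le h hA.irr.ne_zero hA.one i k).trans ?_
    linarith

end

end Pool.Agent.Lib.MP_44a246_ntSP
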