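import Mathlib
import Pool.Agent.Lib.MP_44a246_ntSP.LV01

/-!
SHARP PAIRS (papers 667, 669), the transfer to the ultraproduct: the clauses of the certificates for
given data, the base change to the algebraic closure.
-/

namespace Pool.Agent.Lib.MP_44a246_ntSP

open Pool.Agent.Lib.MP_44a246_nt
open Pool.Agent.Lib.MP_44a246_ntS
open Pool.Agent.Lib.MP_44a246_ntG
open Pool.Agent.Lib.MP_44a246_ntU
open Pool.Agent.Lib.MP_44a246_ntE
open Pool.Agent.Lib.MP_44a246_ntSH
open Pool.Agent.Lib.MP_e52354_nt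
open Polynomial

/-- The clauses of the certificate `CertSP` for given data and a normalised point; the forms with
an index in `Z` vanish on the curve. -/
structure CertD {L : Type*} [Field L] {n : ℕ} {ι : Type*} (d : ι → ℕ)
    (a : ι → (Fin (n + 1) →₀ ℕ) → L) (b N : ℕ) (Z : Set ι) (x : Fin (n + 1) → L)
    (A : L[X][X]) (B : Fin (n + 1) → L[X][X]) (ξ₀ ξ₁ ξ₂ : Fin (n + 1) → L) (y₁ y : L) : Prop where
  irr : Irreducible A
  boxA : Box b A
  boxB : ∀ j, Box b (B j)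
  e0 : ∑ j, ξ₀ j * x j = 1
  e1 : ∑ j, ξ₁ j * x j = y₁
  e2 : ∑ j, ξ₂ j * x j = y
  zero : A.evalEval y₁ y = 0
  der : (derivative A).evalEval y₁ y ≠ 0
  val : ∀ j, (derivative A).evalEval y₁ y * x j = (B j).evalEval y₁ y
  dvd : ∀ i ∈ Z, A ∣ FB (d i) (a i) B
  lin0 : A ∣ ∑ j, C (C (ξ₀ j)) * B j - derivative A
  lin1 : A ∣ ∑ j, C (C (ξ₁ j)) * B j - C X * derivative A
  lin2 : A ∣ ∑ j, C (C (ξ₂ j)) * B j - X * derivative A
  proj : ∀ u : Fin 3 → Fin (n + 1) → ℕ, ∃ P : MvPolynomial (Fin 3) L, P ≠ 0 ∧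
    P.IsHomogeneous (2 * b) ∧ A ∣ MvPolynomial.aeval (fun i => ∑ j, C (C (u i j : L)) * B j) P
  indep : ∃ J : Fin N → Fin (n + 1), ∀ v : Fin N → L, v ≠ 0 → ¬ A ∣ ∑ i, C (C (v i)) * B (J i)

/-- the data of a curve with small coefficients -/
theorem CertN.exists_data {κ L : Type*} [Field κ] [Field L] [Algebra κ L] {n b N : ℕ} {ι : Type*}
    {d : ι → ℕ} {T : ℤ} {a : ι → (Fin (n + 1) →₀ ℕ) → L} {x : Fin (n + 1) → L}
    (h : CertN κ d a b N T x) :
    ∃ (A : L[X][X]) (B : Fin (n + 1) → L[X][X]) (m₀ m₁ : Fin (n + 1) → ℕ) (z : Fin (n + 1) → κ)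
      (c y₁ y : L), c ≠ 0 ∧ CertD d a b N {i | Fval (d i) (a i) x = 0} (fun j => c * x j) A B
        (fun j => (m₀ j : L)) (fun j => (m₁ j : L)) (fun j => algebraMap κ L (z j)) y₁ y ∧
      (∀ i k, height κ ![1, (A.coeff i).coeff k] ≤ T) ∧
      ∀ j i k, height κ ![1, ((B j).coeff i).coeff k] ≤ T := by
  obtain ⟨A, B, ξ₀, ξ₁, ξ₂, c, y₁, y, h0, h1, h2, h3, h4, h5, h6, h7, h8, h9, h10, h11, h12, h13,
    h14, h15, ⟨m₀, hm₀⟩, ⟨m₁, hm₁⟩, ⟨z, hz⟩, -, h16, h17⟩ := h
  obtain rfl : ξ₀ = fun j => (m₀ j : L) := funext hm₀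
  obtain rfl : ξ₁ = fun j => (m₁ j : L) := funext hm₁
  obtain rfl : ξ₂ = fun j => algebraMap κ L (z j) := funext hz
  exact ⟨A, B, m₀, m₁, z, c, y₁, y, h3, ⟨h0, h1, h2, h4, h5, h6, h7, h8, h9, h10, h11, h12, h13,
    h14, h15⟩, h16, h17⟩

private theorem aeval_eq_FB {L : Type*} [Field L] {D : ℕ} {P : MvPolynomial (Fin 3) L}
    (hP : P.IsHomogeneous D) (g : Fin 3 → L[X][X]) :
    MvPolynomial.aeval g P = FB (n := 2) D (fun I => P.coeff I) g := by
  rw [MvPolynomial.aeval_def, MvPolynomial.eval₂_eq']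
  unfold FB
  have hsub : P.support ⊆ expo (Fin 3) D := by
    intro I hI
    rw [mem_expo]
    by_contra hne
    exact (MvPolynomial.mem_support_iff.1 hI) (hP.coeff_eq_zero hne)
  rw [← Finset.sum_subset hsub]
  · rfl
  · intro I _ hI
    have h0 : P.coeff I = 0 := MvPolynomial.notMem_support_iff.1 hI
    simp only [h0, map_zero, zero_mul]

private theorem m2_lc {R S : Type*} [CommRing R] [CommRing S] (φ : R →+* S) {n : ℕ}
    (u : Fin (n + 1) → ℕ) (B : Fin (n + 1) → R[X][X]) :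
    m2 φ (∑ j, C (C (u j : R)) * B j) = ∑ j, C (C (u j : S)) * m2 φ (B j) := by
  rw [map_sum]
  refine Finset.sum_congr rfl fun j _ => ?_
  rw [map_mul, m2_CC, map_natCast φ]

private theorem FB_congr' {L : Type*} [Field L] {n D : ℕ} {a a' : (Fin (n + 1) →₀ ℕ) → L}
    (h : ∀ I ∈ expo (Fin (n + 1)) D, a I = a' I) {B B' : Fin (n + 1) → L[X][X]}
    (hB : ∀ i, B i = B' i) : FB D a B = FB D a' B' := by
  unfold FB
  refine Finset.sum_congr rfl fun I hI => ?_
  rw [h I hI]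
  congr 1
  refine Finset.prod_congr rfl fun i _ => ?_
  rw [hB i]

/-- **The base change** to an algebraic closure. -/
theorem CertD.mp {L F : Type*} [Field L] [CharZero L] [Field F] [IsAlgClosed F] [Algebra L F]
    [Algebra.IsAlgebraic L F] {n b N : ℕ} {ι : Type*} {d : ι → ℕ}
    {a : ι → (Fin (n + 1) →₀ ℕ) → L} {Z : Set ι} {x : Fin (n + 1) → L} {A : L[X][X]}
    {B : Fin (n + 1) → L[X][X]} {ξ₀ ξ₁ ξ₂ : Fin (n + 1) → L} {y₁ y : L}
    (h : CertD d a b N Z x A B ξ₀ ξ₁ ξ₂ y₁ y) :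
    CertD d (fun i I => algebraMap L F (a i I)) b N Z (fun j => algebraMap L F (x j))
      (m2 (algebraMap L F) A) (fun j => m2 (algebraMap L F) (B j))
      (fun j => algebraMap L F (ξ₀ j)) (fun j => algebraMap L F (ξ₁ j))
      (fun j => algebraMap L F (ξ₂ j)) (algebraMap L F y₁) (algebraMap L F y) := by
  obtain ⟨hirr, hA, hB, h0, h1, h2, he, hd, hj, d1, d2, d3, d4, d5, J, hJ⟩ := h
  obtain ⟨φ, hφ⟩ : ∃ φ : L →+* F, φ = algebraMap L F := ⟨_, rfl⟩
  have hmp : ∀ G : L[X][X], MP_44a246_ntE.mp L F G = m2 φ G := fun G => by rw [hφ]; rfl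
  rw [← hφ]
  refine ⟨?_, hA.m2 φ, fun j => (hB j).m2 φ, ?_, ?_, ?_, ?_, ?_, ?_, ?_, ?_, ?_, ?_, ?_, J, ?_⟩
  · rw [← hmp]
    exact irreducible_mp hirr he hd
  · rw [← map_one φ, ← h0, map_sum]
    simp only [map_mul]
  · rw [← h1, map_sum]
    simp only [map_mul]
  · rw [← h2, map_sum]
    simp only [map_mul]
  · rw [m2_evalEval, he, map_zero]
  · rw [← m2_derivative, m2_evalEval]
    exact (map_ne_zero φ).2 hd
  · intro j
    rw [← m2_derivative, m2_evalEval, m2_evalEval, ← map_mul, hj j]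
  · intro i hi
    rw [← m2_FB]
    exact map_dvd (m2 φ) (d1 i hi)
  · have := map_dvd (m2 φ) d2
    rw [map_sub, map_sum, m2_derivative] at this
    simpa only [map_mul, m2_CC] using this
  · have := map_dvd (m2 φ) d3
    rw [map_sub, map_sum, map_mul, m2_derivative] at this
    have hCX : m2 φ (C X) = C X := by simp [m2]
    rw [hCX] at this
    simpa only [map_mul, m2_CC] using this
  · have := map_dvd (m2 φ) d4
    rw [map_sub, map_sum, map_mul, m2_derivative] at this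
    have hX : m2 φ X = X := by simp [m2]
    rw [hX] at this
    simpa only [map_mul, m2_CC] using this
  · intro u
    obtain ⟨P, hP0, hPh, hPd⟩ := d5 u
    refine ⟨MvPolynomial.map φ P, ?_, hPh.map φ, ?_⟩
    · intro h0
      exact hP0 (MvPolynomial.map_injective φ φ.injective (by rw [h0, map_zero]))
    · rw [aeval_eq_FB hPh] at hPd
      rw [aeval_eq_FB (hPh.map φ)]
      have := map_dvd (m2 φ) hPd
      rw [m2_FB] at this
      rw [FB_congr' (a' := fun I => φ (MvPolynomial.coeff I P))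
        (B' := fun i => m2 φ (∑ j, C (C (u i j : L)) * B j))
        (fun I _ => MvPolynomial.coeff_map φ P I) (fun i => (m2_lc φ (u i) B).symm)]
      exact this
  · intro v hv
    have h3 := indep_mod_mp (F := F) hJ v hv
    simp only [hmp] at h3
    exact h3

end Pool.Agent.Lib.MP_44a246_ntSP
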