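import Mathlib
import Pool.Agent.Lib.MP_44a246_ntSP.TR02
import Pool.Agent.Lib.MP_44a246_ntSH.PJ02
import Pool.Agent.Lib.MP_44a246_ntY.Y37a

/-!
SHARP PAIRS (papers 667, 669), the transfer to the ultraproduct: a sequence of curves with small
coefficients gives a curve over the field `F0` of the germs of small elements.
-/

namespace Pool.Agent.Lib.MP_44a246_ntSP

open Pool.Agent.Lib.MP_e52354_nt
open Pool.Agent.Lib.MP_44a246_nt
open Pool.Agent.Lib.MP_44a246_ntL
open Pool.Agent.Lib.MP_44a246_ntS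
open Pool.Agent.Lib.MP_44a246_ntG
open Pool.Agent.Lib.MP_44a246_ntU
open Pool.Agent.Lib.MP_44a246_ntY
open Pool.Agent.Lib.MP_44a246_ntSH
open Polynomial

/-- polynomials whose coefficients are in a subfield -/
theorem exists_ex_eq {L M : Type*} [Field L] [Field M] [Algebra L M] {P : M[X][X]}
    (h : ∀ i j, (P.coeff i).coeff j ∈ Set.range (algebraMap L M)) :
    ∃ Q : L[X][X], MP_44a246_ntY.ex M Q = P := by
  have h1 : P ∈ lifts (mapRingHom (algebraMap L M)) := by
    rw [lifts_iff_coeff_lifts]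
    intro i
    have h2 : P.coeff i ∈ lifts (algebraMap L M) := by
      rw [lifts_iff_coeff_lifts]
      intro j
      exact h i j
    obtain ⟨q, hq⟩ := (mem_lifts _).1 h2
    exact ⟨q, hq⟩
  obtain ⟨Q, hQ⟩ := (mem_lifts _).1 h1
  exact ⟨Q, hQ⟩

/-- **The transfer.** -/
theorem transfer {κ K Ω : Type*} [Field κ] [IsAlgClosed κ] [CharZero κ] [Field K]
    [Algebra κ K] [Field Ω] [Algebra K Ω] [Algebra κ Ω] [IsScalarTower κ K Ω] (W : Tow κ K Ω)
    [IsAlgClosed Ω] [Algebra.IsAlgebraic K Ω] {n p b N₁ C : ℕ} {d : Fin p → ℕ}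
    {a : Fin p → (Fin (n + 1) →₀ ℕ) → K} {x : ∀ N, Fin (n + 1) → W.L N}
    (hcert : ∀ N, CertN κ d (fun j I => algebraMap K (W.L N) (a j I)) b N₁ (C * (W.T N : ℤ))
      (x N)) :
    ∃ (c y₁ y : ∀ N, W.L N) (A : W.F0[X][X]) (G : Fin (n + 1) → W.F0[X][X])
      (ξ₀ ξ₁ ξ₂ : Fin (n + 1) → UP Ω),
      (∀ N, c N ≠ 0) ∧ Irreducible A ∧
      CertD d (fun j I => constHom (algebraMap K Ω (a j I))) b N₁
        {j | ∀ᶠ N in (Filter.hyperfilter ℕ : Filter ℕ),
          Fval (d j) (fun I => algebraMap K (W.L N) (a j I)) (x N) = 0}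
        (fun l => germHom fun N => ((c N * x N l : W.L N) : Ω)) (MP_44a246_ntY.ex (UP Ω) A)
        (fun l => MP_44a246_ntY.ex (UP Ω) (G l)) ξ₀ ξ₁ ξ₂ (germHom fun N => (y₁ N : Ω))
        (germHom fun N => (y N : Ω)) := by
  have hcΩ : CharZero Ω := charZero_of_injective_algebraMap (algebraMap κ Ω).injective
  have hcL : ∀ N, CharZero (W.L N) := fun N =>
    charZero_of_injective_algebraMap (algebraMap κ (W.L N)).injective
  have halg : ∀ N, Algebra.IsAlgebraic (W.L N) Ω := fun N =>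
    Algebra.IsAlgebraic.tower_top (K := K) (W.L N)
  choose A B m₀ m₁ z c y₁ y hc hD hTA hTB using fun N => (hcert N).exists_data
  have hD' := fun N => (hD N).mp (F := Ω)
  obtain ⟨A', B', hD'', hA', hB'⟩ := CertD.germ (L := Ω) (a := fun j I => algebraMap K Ω (a j I))
    (fun N => hD' N)
  have hA0 : ∀ i j, (A'.coeff i).coeff j ∈ Set.range (algebraMap W.F0 (UP Ω)) := by
    intro i j
    have h1 : germHom (fun N => (((A N).coeff i).coeff j : Ω)) ∈ W.F0 :=
      W.germ_mem_F0' (fun N => ((A N).coeff i).coeff j) (c := C)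
        (Filter.Eventually.of_forall fun N => hTA N i j)
    refine ⟨⟨_, h1⟩, ?_⟩
    rw [hA']
    show germHom _ = germHom _
    congr 1
    funext N
    rw [m2_coeff]
    rfl
  have hB0 : ∀ l i j, ((B' l).coeff i).coeff j ∈ Set.range (algebraMap W.F0 (UP Ω)) := by
    intro l i j
    have h1 : germHom (fun N => (((B N l).coeff i).coeff j : Ω)) ∈ W.F0 :=
      W.germ_mem_F0' (fun N => ((B N l).coeff i).coeff j) (c := C)
        (Filter.Eventually.of_forall fun N => hTB N l i j)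
    refine ⟨⟨_, h1⟩, ?_⟩
    rw [hB']
    show germHom _ = germHom _
    congr 1
    funext N
    rw [m2_coeff]
    rfl
  obtain ⟨A₀, rfl⟩ := exists_ex_eq hA0
  choose G₀ hG₀ using fun l => exists_ex_eq (hB0 l)
  obtain rfl : B' = fun l => MP_44a246_ntY.ex (UP Ω) (G₀ l) := funext fun l => (hG₀ l).symm
  exact ⟨c, y₁, y, A₀, G₀, _, _, _, hc, irreducible_of_ex hD''.irr, hD''⟩

end Pool.Agent.Lib.MP_44a246_ntSP
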