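import Mathlib
import Pool.Agent.Lib.MP_44a246_ntU.U15
import Pool.Agent.Lib.MP_44a246_ntSH.PJ17
import Pool.Agent.Lib.MP_44a246_ntSP.TR03
import Pool.Agent.Lib.MP_44a246_ntSP.GN01

/-!
SHARP PAIRS (papers 667, 669): there is no generic sequence of counterexamples with curves of small
height.
-/

namespace Pool.Agent.Lib.MP_44a246_ntSP

open Pool.Agent.Lib.MP_e52354_nt
open Pool.Agent.Lib.MP_44a246_nt
open Pool.Agent.Lib.MP_44a246_ntL
open Pool.Agent.Lib.MP_44a246_ntR
open Pool.Agent.Lib.MP_44a246_ntS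
open Pool.Agent.Lib.MP_44a246_ntG
open Pool.Agent.Lib.MP_44a246_ntU
open Pool.Agent.Lib.MP_44a246_ntSH
open Pool.Agent.Lib.MP_44a246_ntK (jexpo)
open WithZero Polynomial

universe u v w

/-- the value of a form at a germ -/
theorem fval_germ {κ K Ω : Type*} [Field κ] [Field K] [Algebra κ K] [Field Ω] [Algebra K Ω]
    [Algebra κ Ω] [IsScalarTower κ K Ω] (W : Tow κ K Ω) {n D : ℕ}
    (a : (Fin (n + 1) →₀ ℕ) → K) (x : ∀ N, Fin (n + 1) → W.L N) :
    Fval D (fun I => constHom (algebraMap K Ω (a I))) (fun l => germHom fun N => (x N l : Ω)) =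
      germHom (fun N => ((Fval D (fun I => algebraMap K (W.L N) (a I)) (x N) : W.L N) : Ω)) := by
  have h2 : (fun N => ((Fval D (fun I => algebraMap K (W.L N) (a I)) (x N) : W.L N) : Ω)) =
      ∑ I ∈ expo (Fin (n + 1)) D, (fun _ : ℕ => algebraMap K Ω (a I)) *
        ∏ j, (fun N => (x N j : Ω)) ^ I j := by
    funext N
    have h3 := MP_44a246_ntSH.map_Fval (algebraMap (W.L N) Ω) D (fun I => algebraMap K (W.L N) (a I)) (x N)
    refine h3.trans ?_
    rw [Finset.sum_apply]
    unfold Fval mon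
    refine Finset.sum_congr rfl fun I _ => ?_
    rw [Pi.mul_apply, Finset.prod_apply]
    rfl
  rw [h2, map_sum]
  unfold Fval mon
  refine Finset.sum_congr rfl fun I _ => ?_
  rw [map_mul, map_prod]
  simp only [map_pow]
  rfl

/-- the value of a form at a germ is zero iff the values are zero for almost all indices -/
theorem fval_germ_eq_zero_iff {κ K Ω : Type*} [Field κ] [Field K] [Algebra κ K] [Field Ω]
    [Algebra K Ω] [Algebra κ Ω] [IsScalarTower κ K Ω] (W : Tow κ K Ω) {n D : ℕ}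
    (a : (Fin (n + 1) →₀ ℕ) → K) (x : ∀ N, Fin (n + 1) → W.L N) :
    Fval D (fun I => constHom (algebraMap K Ω (a I))) (fun l => germHom fun N => (x N l : Ω)) = 0 ↔
      ∀ᶠ N in (Filter.hyperfilter ℕ : Filter ℕ),
        Fval D (fun I => algebraMap K (W.L N) (a I)) (x N) = 0 := by
  rw [fval_germ, germHom_eq_zero_iff]
  refine Filter.eventually_congr (Filter.Eventually.of_forall fun N => ?_)
  exact ZeroMemClass.coe_eq_zero

/-- **There is no generic sequence of counterexamples** with curves of small height, if the degrees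
are bounded in terms of the number of the independent coordinates. -/
theorem no_seq {κ : Type u} {K : Type v} {Ω : Type w} [Field κ] [IsAlgClosed κ] [CharZero κ]
    [Field K] [Algebra κ K] [Field Ω] [Algebra K Ω] [Algebra κ Ω] [IsScalarTower κ K Ω]
    (W : Tow κ K Ω) [IsAlgClosed Ω] [Algebra.IsAlgebraic K Ω] {R r b N₁ i p C : ℕ}
    {d : Fin p → ℕ} (hd1 : ∀ j, 1 ≤ d j) (hd : R + 4 ≤ ∑ j, d j)
    {k : Type*} [Field k] [CharZero k] [Algebra k K] {a : Fin p → (Fin (R + 3) →₀ ℕ) → K}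
    (ha : AlgebraicIndependent k (fun s : ↥(jexpo (R + 2) d) => a s.1.1 s.1.2))
    {k₂ : Type*} [Field k₂] [CharZero k₂] [Algebra k₂ K] [Algebra k₂ Ω] [IsScalarTower k₂ K Ω]
    {a₂ : Fin p → (Fin (R + 3) →₀ ℕ) → k₂}
    (ha₂ : ∀ j, ∀ I ∈ expo (Fin (R + 3)) (d j), algebraMap k₂ K (a₂ j I) = a j I)
    {x : ∀ N, Fin (R + 3) → W.L N} {l : Fin (R + 3)} (hxl : ∀ N, x N l = 1)
    {A : Finset (Fin p)} (hcard : A.card + (r + 2) = R + 3)
    (hA : ∀ N j, Fval (d j) (fun I => algebraMap K (W.L N) (a j I)) (x N) = 0 ↔ j ∈ A)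
    {j : Fin (r + 1) → Fin (R + 3)}
    (hgen : ∀ H : MvPolynomial (Fin (r + 1)) k₂, H ≠ 0 →
      ∃ N₀, ∀ N ≥ N₀, MvPolynomial.aeval (fun i => (x N (j i) : Ω)) H ≠ 0)
    {P : ∀ N, Finset (Place κ (W.L N))} (hP : ∀ N, (P N).card ≤ W.T N)
    (hc : ∀ N, ∀ w : Place κ (W.L N), w ∉ P N → ∀ j, j ∉ A →
      w.1 (Fval (d j) (fun I => algebraMap K (W.L N) (a j I)) (x N)) = vmax w.1 (x N) ^ d j)
    (hbig : ∀ C : ℕ, ¬ ∀ᶠ N in (Filter.hyperfilter ℕ : Filter ℕ),
      height κ (x N) ≤ C * (W.T N : ℤ))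
    (hcert : ∀ N, CertN κ d (fun j I => algebraMap K (W.L N) (a j I)) b (N₁ + 1)
      (C * (W.T N : ℤ)) (x N))
    (low : Prop)
    (hlow : low → 11 * (p + 11) * (2 * b) + 351 * (p + 11) + 16 + p < R + 2)
    (hhigh : ¬ low → 2 ^ i * (2 * b) ≤ 3 ^ i * N₁ ∧ 28 * (p + 11) * 2 ^ i + 16 + p < R + 2) :
    False := by
  classical
  have hcΩ : CharZero Ω := charZero_of_injective_algebraMap (algebraMap κ Ω).injective
  have hUP : IsAlgClosed (UP Ω) := isAlgClosed_UP Ω
  have hcUP : CharZero (UP Ω) := charZero_of_injective_ringHom (constHom (L := Ω)).injective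
  have hcK : CharZero K := charZero_of_injective_algebraMap (algebraMap κ K).injective
  obtain ⟨c, y₁, y, A', G, ξ₀, ξ₁, ξ₂, hc0, hA'irr, hD⟩ := transfer W hcert
  have hAset : {j | ∀ᶠ N in (Filter.hyperfilter ℕ : Filter ℕ),
      Fval (d j) (fun I => algebraMap K (W.L N) (a j I)) (x N) = 0} = ↑A := by
    ext j
    rw [Set.mem_ofPred_eq, Finset.mem_coe]
    constructor
    · intro h
      obtain ⟨N, hN⟩ := h.exists
      exact (hA N j).1 hN
    · exact fun h => Filter.Eventually.of_forall fun N => (hA N j).2 h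
  rw [hAset] at hD
  -- the algebra structures
  let _ : Algebra k (UP Ω) :=
    ((constHom (L := Ω)).comp ((algebraMap K Ω).comp (algebraMap k K))).toAlgebra
  let _ : Algebra k₂ (UP Ω) := ((constHom (L := Ω)).comp (algebraMap k₂ Ω)).toAlgebra
  have hxl' : germHom (fun N => (x N l : Ω)) = 1 := by
    have : (fun N => (x N l : Ω)) = 1 := funext fun N => by rw [hxl]; rfl
    rw [this, map_one]
  have hcx : ∀ j, germHom (fun N => ((c N * x N j : W.L N) : Ω)) =
      germHom (fun N => (c N : Ω)) * germHom (fun N => (x N j : Ω)) := by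
    intro j
    rw [← map_mul]
    rfl
  have hcg : germHom (fun N => (c N : Ω)) ≠ 0 := by
    intro h0
    rw [germHom_eq_zero_iff] at h0
    obtain ⟨N, hN⟩ := h0.exists
    exact hc0 N (Subtype.ext hN)
  have hval := hD.val
  simp only [hcx] at hval
  -- the point of the sequence
  have hxne : ∀ N, (fun j => c N * x N j) ≠ 0 := by
    intro N h0
    have h1 := congrFun h0 l
    simp only [hxl, mul_one, Pi.zero_apply] at h1
    exact hc0 N h1
  have hvc : ∀ N (w : Place κ (W.L N)), vmax w.1 (fun j => c N * x N j) =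
      w.1 (c N) * vmax w.1 (x N) := fun N w => vmax_smul w.1 (c N) (x N)
  have hder : derivative (MP_44a246_ntY.ex (UP Ω) A') =
      MP_44a246_ntY.ex (UP Ω) (derivative A') := (MP_44a246_ntY.ex_derivative A').symm
  refine no_pair_point (κ := UP Ω) (r := r) (b' := 2 * b) (N := N₁) (i := i) hd1 hd (k := k)
    (a := fun j I => constHom (algebraMap K Ω (a j I))) ?_ (k₂ := k₂) (a₂ := a₂) ?_
    (x := fun j => germHom fun N => (x N j : Ω)) (l := l) ?_ hcard (j := j) ?_ hD.irr hcg hD.zero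
    hD.der hval (fun j hj => hD.dvd j (Finset.mem_coe.2 hj)) (fun j hj h0 => ?_) hD.lin0 hD.lin1
    hD.lin2 hD.proj low hlow (fun h => ⟨hD.indep, hhigh h⟩) ?_
  · exact ha.map' (f := { (constHom (L := Ω)).comp (algebraMap K Ω) with
      commutes' := fun u => rfl }) ((constHom (L := Ω)).comp (algebraMap K Ω)).injective
  · intro j I hI
    show constHom (algebraMap k₂ Ω (a₂ j I)) = constHom (algebraMap K Ω (a j I))
    rw [IsScalarTower.algebraMap_apply k₂ K Ω, ha₂ j I hI]
  · show germHom (fun N => (x N l : Ω)) ≠ 0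
    rw [hxl']
    exact one_ne_zero
  · have h1 := algIndep_germV (RingHom.id (UP Ω)) (fun u => rfl)
      (z := fun N i => (x N (j i) : Ω)) hgen
    convert h1 using 1
    funext i
    show germHom (fun N => (x N (j i) : Ω)) / germHom (fun N => (x N l : Ω)) = _
    rw [hxl', div_one]
    rfl
  · rw [fval_germ_eq_zero_iff W (a j) x] at h0
    obtain ⟨N, hN⟩ := h0.exists
    exact hj ((hA N j).1 hN)
  · intro M iM aM X' Y hX hg hψ
    have h1 := W.ncard_bdry_le (Λ := {j // j ∉ A}) (d' := fun j => d j.1)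
      (a := fun j => a j.1) (x := fun N j => c N * x N j) hxne hP ?_ ?_ (y₁ := y₁) (y := y)
      (A := A') (R := derivative A') (G := G) hA'irr hD.zero hD.der ?_ ?_ hX hg hψ
    · have h5 : bdry (fun j : {j // j ∉ A} => d j.1)
          (fun (l : {j // j ∉ A}) I => constHom (algebraMap K Ω (a l.1 I)))
          (fun l => ev (algebraMap (UP Ω) M) X' Y (MP_44a246_ntY.ex (UP Ω) (G l))) =
          {w : Place (UP Ω) M | ∃ j, j ∉ A ∧ w.1 (Fval (d j)
            (fun I => algebraMap (UP Ω) M (constHom (algebraMap K Ω (a j I))))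
            (fun l => ev (algebraMap (UP Ω) M) X' Y (MP_44a246_ntY.ex (UP Ω) (G l)))) <
            (vmax w.1 fun l => ev (algebraMap (UP Ω) M) X' Y
              (MP_44a246_ntY.ex (UP Ω) (G l))) ^ d j} := by
        ext w
        constructor
        · rintro ⟨⟨j, hj⟩, h⟩
          exact ⟨j, hj, h⟩
        · rintro ⟨j, hj, h⟩
          exact ⟨⟨j, hj⟩, h⟩
      rw [h5] at h1
      exact h1
    · rintro N w hw ⟨j, hj⟩
      show w.1 (Fval (d j) (fun I => algebraMap K (W.L N) (a j I)) fun j => c N * x N j) =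
        vmax w.1 (fun j => c N * x N j) ^ d j
      rw [Fval_smul, map_mul, map_pow, hc N w hw j hj, hvc, mul_pow]
    · intro C' hC'
      refine hbig C' (hC'.mono fun N hN => ?_)
      have := W.fin N
      rwa [(W.ffL N).height_smul (hc0 N)] at hN
    · rw [← hder]
      exact hD.der
    · intro j
      rw [← hder]
      exact hD.val j

end Pool.Agent.Lib.MP_44a246_ntSP
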