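import Mathlib
import Pool.Agent.Lib.MP_44a246_ntL.LCross

/-!
# SHARP PAIRS: transport to subfields of the algebraic closure

Places, heights and ramification are transported along an isomorphism; every finite extension of
`K` is isomorphic to a subfield of the algebraic closure of `K`.
-/

namespace Pool.Agent.Lib.MP_44a246_ntSP

open Pool.Agent.Lib.MP_e52354_nt
open Pool.Agent.Lib.MP_44a246_nt
open Pool.Agent.Lib.MP_44a246_ntL
open WithZero Module

universe u v w

section Equiv

variable {κ K L L' : Type*} [Field κ] [Field K] [Field L] [Field L'] [Algebra κ L] [Algebra κ L']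
  [Algebra K L] [Algebra K L']

/-- the valuation transported along an isomorphism -/
theorem comap_symm_apply (e : L ≃+* L') (v : Valuation L ℤᵐ⁰) (y : L') :
    (v.comap (e.symm : L' →+* L)) y = v (e.symm y) := rfl

/-- transport of a place along an isomorphism -/
noncomputable def mapPlace (e : L ≃+* L') (he : ∀ c : κ, e (algebraMap κ L c) = algebraMap κ L' c)
    (w : Place κ L) : Place κ L' :=
  ⟨w.1.comap (e.symm : L' →+* L), by
    intro g
    obtain ⟨y, hy⟩ := w.2.1 g
    refine ⟨e y, ?_⟩
    rw [comap_symm_apply, e.symm_apply_apply, hy], by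
    intro c hc
    rw [comap_symm_apply, ← he c, e.symm_apply_apply]
    exact w.2.2 c hc⟩

theorem mapPlace_apply (e : L ≃+* L')
    (he : ∀ c : κ, e (algebraMap κ L c) = algebraMap κ L' c) (w : Place κ L) (u : L) :
    (mapPlace e he w).1 (e u) = w.1 u := by
  show w.1 (e.symm (e u)) = w.1 u
  rw [e.symm_apply_apply]

theorem mapPlace_apply' (e : L ≃+* L')
    (he : ∀ c : κ, e (algebraMap κ L c) = algebraMap κ L' c) (w : Place κ L) (u : L') :
    (mapPlace e he w).1 u = w.1 (e.symm u) := rfl

/-- transport of places as an equivalence -/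
noncomputable def placeEquiv (e : L ≃+* L')
    (he : ∀ c : κ, e (algebraMap κ L c) = algebraMap κ L' c) : Place κ L ≃ Place κ L' where
  toFun := mapPlace e he
  invFun := mapPlace e.symm (fun c => by rw [← he c, e.symm_apply_apply])
  left_inv := by
    intro w
    apply Subtype.ext
    apply Valuation.ext
    intro y
    rw [mapPlace_apply', mapPlace_apply']
    simp
  right_inv := by
    intro w
    apply Subtype.ext
    apply Valuation.ext
    intro y
    rw [mapPlace_apply', mapPlace_apply']
    simp

theorem placeEquiv_apply (e : L ≃+* L')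
    (he : ∀ c : κ, e (algebraMap κ L c) = algebraMap κ L' c) (w : Place κ L) (u : L) :
    (placeEquiv e he w).1 (e u) = w.1 u := mapPlace_apply e he w u

theorem placeEquiv_symm_apply (e : L ≃+* L')
    (he : ∀ c : κ, e (algebraMap κ L c) = algebraMap κ L' c) (w' : Place κ L') (u : L) :
    ((placeEquiv e he).symm w').1 u = w'.1 (e u) := by
  conv_rhs => rw [← (placeEquiv e he).apply_symm_apply w']
  rw [placeEquiv_apply]

theorem vmax_placeEquiv (e : L ≃+* L')
    (he : ∀ c : κ, e (algebraMap κ L c) = algebraMap κ L' c) (w : Place κ L)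
    {σ : Type*} [Fintype σ] (y : σ → L) :
    vmax (placeEquiv e he w).1 (fun i => e (y i)) = vmax w.1 y := by
  unfold vmax
  refine Finset.sup_congr rfl fun i _ => ?_
  exact placeEquiv_apply e he w (y i)

theorem height_placeEquiv (e : L ≃+* L')
    (he : ∀ c : κ, e (algebraMap κ L c) = algebraMap κ L' c)
    {σ : Type*} [Fintype σ] (y : σ → L) :
    height κ (fun i => e (y i)) = height κ y := by
  unfold height
  rw [← finsum_comp_equiv (placeEquiv e he)]
  refine finsum_congr fun w => ?_
  rw [vmax_placeEquiv]

theorem ramIdx_placeEquiv (e : L ≃+* L')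
    (he : ∀ c : κ, e (algebraMap κ L c) = algebraMap κ L' c)
    (heK : ∀ c : K, e (algebraMap K L c) = algebraMap K L' c) (w : Place κ L) :
    ramIdx K (placeEquiv e he w).1 = ramIdx K w.1 := by
  unfold ramIdx
  congr 1
  ext m
  simp only [Set.mem_ofPred_eq]
  refine and_congr Iff.rfl (exists_congr fun s => ?_)
  rw [← heK s, placeEquiv_apply]

theorem ramDeg_placeEquiv (e : L ≃+* L')
    (he : ∀ c : κ, e (algebraMap κ L c) = algebraMap κ L' c)
    (heK : ∀ c : K, e (algebraMap K L c) = algebraMap K L' c) :
    ramDeg κ L' K = ramDeg κ L K := by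
  unfold ramDeg
  rw [← finsum_comp_equiv (placeEquiv e he)]
  refine finsum_congr fun w => ?_
  rw [ramIdx_placeEquiv e he heK]

end Equiv

/-- every finite extension of `K` is isomorphic to a subfield of the algebraic closure of `K`,
with the same places, heights and ramification -/
theorem exists_embed (κ : Type u) (K : Type v) [Field κ] [Field K] [Algebra κ K]
    (L : Type w) [Field L] [Algebra κ L] [Algebra K L] [IsScalarTower κ K L]
    [FiniteDimensional K L] :
    ∃ (L' : IntermediateField K (AlgebraicClosure K)) (_ : FiniteDimensional K L')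
      (e : L ≃ₐ[K] L'),
      (∀ {m : ℕ} (y : Fin m → L), height κ (fun i => e (y i)) = height κ y) ∧
      ramDeg κ L' K = ramDeg κ L K ∧ finrank K L' = finrank K L ∧
      (∀ S : Finset (Place κ L), ∃ S' : Finset (Place κ L'), S'.card = S.card ∧
        ∀ w' ∉ S', ∃ w ∉ S, ∀ u : L, w'.1 (e u) = w.1 u) := by
  classical
  let φ : L →ₐ[K] AlgebraicClosure K := IsAlgClosed.lift
  let L' : IntermediateField K (AlgebraicClosure K) := φ.fieldRange
  let ψ : L →ₐ[K] L' := φ.codRestrict L'.toSubalgebra fun x => ⟨x, rfl⟩
  have hψ : Function.Bijective ψ := by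
    constructor
    · exact ψ.toRingHom.injective
    · rintro ⟨y, x, hx⟩
      exact ⟨x, Subtype.ext hx⟩
  let e : L ≃ₐ[K] L' := AlgEquiv.ofBijective ψ hψ
  have hfin : FiniteDimensional K L' := e.toLinearEquiv.finiteDimensional
  have heκ : ∀ c : κ, (e : L ≃+* L') (algebraMap κ L c) = algebraMap κ L' c := by
    intro c
    rw [IsScalarTower.algebraMap_apply κ K L, IsScalarTower.algebraMap_apply κ K L']
    exact e.commutes _
  have heK : ∀ c : K, (e : L ≃+* L') (algebraMap K L c) = algebraMap K L' c := fun c =>
    e.commutes c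
  refine ⟨L', hfin, e, ?_, ramDeg_placeEquiv (e : L ≃+* L') heκ heK,
    e.toLinearEquiv.finrank_eq.symm, ?_⟩
  · intro m y
    exact height_placeEquiv (e : L ≃+* L') heκ y
  · intro S
    refine ⟨S.map (placeEquiv (e : L ≃+* L') heκ).toEmbedding, Finset.card_map _, ?_⟩
    intro w' hw'
    refine ⟨(placeEquiv (e : L ≃+* L') heκ).symm w', fun h => hw' ?_, fun u => ?_⟩
    · rw [Finset.mem_map]
      exact ⟨_, h, (placeEquiv (e : L ≃+* L') heκ).apply_symm_apply w'⟩
    · exact (placeEquiv_symm_apply (e : L ≃+* L') heκ w' u).symm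

end Pool.Agent.Lib.MP_44a246_ntSP
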