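import Mathlib
import Pool.Agent.Lib.MP_44a246_ntSH.CV13
import Pool.Agent.Lib.MP_44a246_ntL.LPoly
import Pool.Agent.Lib.MP_44a246_ntSP.TP01

/-!
# SHARP PAIRS: the finite set of places

Off a finite set of places, which has at most as many elements as the truncated counting function
plus a constant times the degree, the forms have the largest possible values at the point.
-/

namespace Pool.Agent.Lib.MP_44a246_ntSP

open Pool.Agent.Lib.MP_e52354_nt
open Pool.Agent.Lib.MP_e52354_ntG
open Pool.Agent.Lib.MP_44a246_nt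
open Pool.Agent.Lib.MP_44a246_ntL
open WithZero Module

universe u v w

section

variable {κ : Type u} {K : Type v} [Field κ] [Field K] [Algebra κ K]

/-- the value of a form at a point is at most the power of the maximum at the places at which
its coefficients are integral -/
theorem Fval_le_pow_vmax {L : Type*} [Field L] (v : Valuation L ℤᵐ⁰) {n d : ℕ}
    {b : (Fin (n + 1) →₀ ℕ) → L} {y : Fin (n + 1) → L}
    (hb : ∀ I ∈ expo (Fin (n + 1)) d, v (b I) ≤ 1) :
    v (Fval d b y) ≤ vmax v y ^ d := by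
  have h := Pool.Agent.Lib.MP_44a246_ntSH.Fval_le v (n := n) (d := d) (b := b) (y := y)
    (t := 1) (c := vmax v y) hb (fun j => le_vmax v y j)
  rwa [one_mul] at h

/-- the places of `K` at which a coefficient of one of the forms has a pole -/
def poleSet (κ : Type u) {K : Type v} [Field κ] [Field K] [Algebra κ K] {n p : ℕ}
    (d : Fin p → ℕ) (a : Fin p → (Fin (n + 1) →₀ ℕ) → K) : Set (Place κ K) :=
  {v | ∃ j, ∃ I ∈ expo (Fin (n + 1)) (d j), 1 < v.1 (a j I)}

theorem poleSet_finite [IsAlgClosed κ] [CharZero κ] (hK : IsFF κ K) {n p : ℕ}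
    (d : Fin p → ℕ) (a : Fin p → (Fin (n + 1) →₀ ℕ) → K) : (poleSet κ d a).Finite := by
  have h1 : ∀ j : Fin p, ∀ I : {I // I ∈ expo (Fin (n + 1)) (d j)},
      {v : Place κ K | 1 < v.1 (a j I.1)}.Finite := by
    intro j I
    by_cases h0 : a j I.1 = 0
    · refine Set.Finite.subset Set.finite_empty fun v hv => ?_
      simp only [Set.mem_ofPred_eq] at hv
      rw [h0, map_zero] at hv
      exact absurd hv (not_lt.2 zero_le)
    · refine (hK.place_finite h0).subset fun v hv => ?_
      simp only [Set.mem_ofPred_eq] at hv ⊢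
      exact hv.ne'
  refine (Set.finite_iUnion fun j => Set.finite_iUnion fun I => h1 j I).subset ?_
  rintro v ⟨j, I, hI, hv⟩
  exact Set.mem_iUnion.2 ⟨j, Set.mem_iUnion.2 ⟨⟨I, hI⟩, hv⟩⟩

/-- **The finite set of places.** -/
theorem exists_places [IsAlgClosed κ] [CharZero κ] (hK : IsFF κ K) {n p : ℕ}
    (d : Fin p → ℕ) (a : Fin p → (Fin (n + 1) →₀ ℕ) → K) {S₀ : Set (Place κ K)}
    (hS₀ : S₀.Finite) :
    ∃ C : ℕ, ∀ (L : Type w) [Field L] [Algebra κ L] [Algebra K L] [IsScalarTower κ K L]
      [FiniteDimensional K L] (x : Fin (n + 1) → L), x ≠ 0 →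
      ∃ S : Finset (Place κ L),
        S.card ≤ C * finrank K L + (meetSet (κ := κ) d a S₀ x).ncard ∧
        ∀ w ∉ S, ∀ j, Fval (d j) (fun I => algebraMap K L (a j I)) x ≠ 0 →
          w.1 (Fval (d j) (fun I => algebraMap K L (a j I)) x) = vmax w.1 x ^ d j := by
  classical
  have hT : (S₀ ∪ poleSet κ d a).Finite := hS₀.union (poleSet_finite hK d a)
  refine ⟨(S₀ ∪ poleSet κ d a).ncard, ?_⟩
  intro L _ _ _ _ _ x hx
  obtain ⟨h1, h2⟩ := over_card hK hT (L := L)
  have h3 := meetSet_finite hK d a S₀ hx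
  refine ⟨(h1.union h3).toFinset, ?_, ?_⟩
  · rw [← Set.ncard_eq_toFinset_card _ (h1.union h3)]
    refine (Set.ncard_union_le _ _).trans ?_
    have h4 : {w : Place κ L | below K w ∈ S₀ ∪ poleSet κ d a}.ncard ≤
        (S₀ ∪ poleSet κ d a).ncard * finrank K L := by exact_mod_cast h2
    omega
  · intro w hw j hj
    rw [Set.Finite.mem_toFinset, Set.mem_union, not_or] at hw
    obtain ⟨hw1, hw2⟩ := hw
    simp only [Set.mem_ofPred_eq, Set.mem_union, not_or] at hw1
    have hle : w.1 (Fval (d j) (fun I => algebraMap K L (a j I)) x) ≤ vmax w.1 x ^ d j := by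
      refine Fval_le_pow_vmax w.1 fun I hI => ?_
      rw [below_pow]
      refine pow_le_one' ?_ _
      by_contra hcon
      push Not at hcon
      exact hw1.2 ⟨j, I, hI, hcon⟩
    refine le_antisymm hle ?_
    by_contra hcon
    push Not at hcon
    exact hw2 ⟨hw1.1, j, hj, hcon⟩

/-- the truncated counting function counts the places of `meetSet` -/
theorem truncCount_eq_meetSet {L : Type w} [Field L] [Algebra κ L] [Algebra K L]
    [IsScalarTower κ K L] [FiniteDimensional K L] {n p : ℕ} (d : Fin p → ℕ)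
    (F : Fin p → MvPolynomial (Fin (n + 1)) K) (hF : ∀ i, (F i).IsHomogeneous (d i))
    (S₀ : Set (Place κ K)) (x : Fin (n + 1) → L) :
    truncCount κ F d S₀ x =
      (meetSet (κ := κ) d (fun i I => (F i).coeff I) S₀ x).ncard := by
  have hev : ∀ i, MvPolynomial.aeval x (F i) =
      Fval (d i) (fun I => algebraMap K L ((F i).coeff I)) x := fun i =>
    aeval_eq_Fval (F i) (hF i) x
  unfold truncCount
  congr 1
  ext w
  simp only [meetSet, Set.mem_ofPred_eq, hev]
  refine and_congr ?_ Iff.rfl
  constructor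
  · intro h hb
    exact h _ hb ((below_equiv w _).mpr rfl)
  · intro h v hv hvw
    rw [below_equiv] at hvw
    rw [hvw] at h
    exact h hv

end

end Pool.Agent.Lib.MP_44a246_ntSP
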