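import Mathlib
import Pool.Agent.Lib.MP_44a246_ntSP.TP02

/-!
# SHARP PAIRS: from subfields of the algebraic closure to all finite extensions
-/

namespace Pool.Agent.Lib.MP_44a246_ntSP

open Pool.Agent.Lib.MP_e52354_nt
open Pool.Agent.Lib.MP_44a246_nt
open Pool.Agent.Lib.MP_44a246_ntL
open WithZero Module

universe u v w

section

variable {K L L' : Type*} [Field K] [Field L] [Field L'] [Algebra K L] [Algebra K L']

theorem mon_map {σ : Type*} [Fintype σ] (e : L →+* L') (I : σ →₀ ℕ) (x : σ → L) :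
    mon (fun i => e (x i)) I = e (mon x I) := by
  unfold mon
  rw [map_prod]
  simp only [map_pow]

theorem Fval_map_alg {σ : Type*} [Fintype σ] [DecidableEq σ] (e : L ≃ₐ[K] L') (d : ℕ)
    (a : (σ →₀ ℕ) → K) (x : σ → L) :
    Fval d (fun I => algebraMap K L' (a I)) (fun i => e (x i)) =
      e (Fval d (fun I => algebraMap K L (a I)) x) := by
  unfold Fval
  rw [map_sum]
  refine Finset.sum_congr rfl fun I _ => ?_
  rw [map_mul, e.commutes]
  congr 1
  exact mon_map (e : L →+* L') I x

theorem aeval_map_alg {σ : Type*} (e : L ≃ₐ[K] L') (G : MvPolynomial σ K) (x : σ → L) :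
    MvPolynomial.aeval (fun i => e (x i)) G = e (MvPolynomial.aeval x G) := by
  have h := MvPolynomial.map_aeval x (e : L →+* L') G
  rw [MvPolynomial.aeval_def]
  have h2 : (e : L →+* L').comp (algebraMap K L) = algebraMap K L' := by
    ext c
    exact e.commutes c
  rw [h2] at h
  exact h.symm

end

/-- **From subfields of the algebraic closure to all finite extensions.**  An inequality for the
points over the finite subextensions of the algebraic closure of `K`, with a finite set `S` of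
places, gives the same inequality over all finite extensions, with the truncated counting
function. -/
theorem reduce_to_closure {κ : Type u} {K : Type v} [Field κ] [IsAlgClosed κ] [CharZero κ]
    [Field K] [Algebra κ K] (hK : IsFF κ K) {n p : ℕ} (d : Fin p → ℕ)
    (a : Fin p → (Fin (n + 1) →₀ ℕ) → K) {S₀ : Set (Place κ K)} (hS₀ : S₀.Finite)
    (A : Set (Fin p)) (G : MvPolynomial (Fin (n + 1)) K)
    (h : ∃ C : ℕ, ∀ (L : IntermediateField K (AlgebraicClosure K)) [FiniteDimensional K L]
      (x : Fin (n + 1) → L), x ≠ 0 → ∀ S : Finset (Place κ L),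
      (∀ j, Fval (d j) (fun I => algebraMap K L (a j I)) x = 0 ↔ j ∈ A) →
      (∀ w ∉ S, ∀ j ∉ A,
        w.1 (Fval (d j) (fun I => algebraMap K L (a j I)) x) = vmax w.1 x ^ d j) →
      height κ x ≤ C * ((finrank K L : ℤ) + ramDeg κ L K + S.card) ∨
        MvPolynomial.aeval x G = 0) :
    ∃ C : ℕ, ∀ (L : Type w) [Field L] [Algebra κ L] [Algebra K L] [IsScalarTower κ K L]
      [FiniteDimensional K L] (x : Fin (n + 1) → L), x ≠ 0 →
      (∀ j, Fval (d j) (fun I => algebraMap K L (a j I)) x = 0 ↔ j ∈ A) →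
      height κ x ≤ C * ((finrank K L : ℤ) + ramDeg κ L K + (meetSet (κ := κ) d a S₀ x).ncard) ∨
        MvPolynomial.aeval x G = 0 := by
  classical
  obtain ⟨C₁, h⟩ := h
  obtain ⟨C₂, hC₂⟩ := exists_places.{u, v, w} hK d a hS₀
  refine ⟨C₁ * (C₂ + 1), ?_⟩
  intro L _ _ _ _ _ x hx hA
  obtain ⟨S, hS, hoff⟩ := hC₂ L x hx
  obtain ⟨L', hfin, e, hht, hram, hrank, hpl⟩ := exists_embed κ K L
  obtain ⟨S', hS', hpl⟩ := hpl S
  have hx' : (fun i => e (x i)) ≠ 0 := by
    intro h0
    apply hx
    funext i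
    have h1 : e (x i) = 0 := congrFun h0 i
    exact (map_eq_zero e).1 h1
  have hF : ∀ j, Fval (d j) (fun I => algebraMap K L' (a j I)) (fun i => e (x i)) =
      e (Fval (d j) (fun I => algebraMap K L (a j I)) x) := fun j => Fval_map_alg e (d j) (a j) x
  have hA' : ∀ j, Fval (d j) (fun I => algebraMap K L' (a j I)) (fun i => e (x i)) = 0 ↔
      j ∈ A := by
    intro j
    rw [hF, map_eq_zero, hA]
  have hoff' : ∀ w ∉ S', ∀ j ∉ A, w.1 (Fval (d j) (fun I => algebraMap K L' (a j I))
      (fun i => e (x i))) = vmax w.1 (fun i => e (x i)) ^ d j := by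
    intro w' hw' j hj
    obtain ⟨w, hw, hww⟩ := hpl w' hw'
    rw [hF, hww, hoff w hw j (fun h0 => hj ((hA j).1 h0))]
    congr 1
    unfold vmax
    exact (Finset.sup_congr rfl fun i _ => hww (x i)).symm
  rcases h L' (fun i => e (x i)) hx' S' hA' hoff' with h1 | h1
  · left
    rw [hht, hram, hrank, hS'] at h1
    refine h1.trans ?_
    have h2 : (S.card : ℤ) ≤ C₂ * (finrank K L : ℤ) + ((meetSet (κ := κ) d a S₀ x).ncard : ℤ) := by
      exact_mod_cast hS
    have h3 : (0 : ℤ) ≤ (ramDeg κ L K : ℤ) := by positivity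
    have h4 : (0 : ℤ) ≤ ((meetSet (κ := κ) d a S₀ x).ncard : ℤ) := by positivity
    have h5 : (0 : ℤ) ≤ (C₂ : ℤ) := by positivity
    have h6 : (0 : ℤ) ≤ (C₁ : ℤ) := by positivity
    push_cast
    rw [mul_assoc]
    refine mul_le_mul_of_nonneg_left ?_ h6
    nlinarith [mul_nonneg h5 h3, mul_nonneg h5 h4]
  · right
    rw [aeval_map_alg, map_eq_zero] at h1
    exact h1

end Pool.Agent.Lib.MP_44a246_ntSP
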