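import Mathlib
import Pool.Agent.Lib.MP_44a246_ntSH.CW07
import Pool.Agent.Lib.MP_44a246_ntSP.GN01

/-!
# Sharp pairs: the exceptional form of a stratum from the absence of generic sequences
-/

namespace Pool.Agent.Lib.MP_44a246_ntSP

open Pool.Agent.Lib.MP_e52354_nt
open Pool.Agent.Lib.MP_44a246_nt
open Pool.Agent.Lib.MP_44a246_ntU
open Pool.Agent.Lib.MP_44a246_ntSH
open Pool.Agent.Lib.MP_44a246_ntK (jexpo mem_jexpo)
open MvPolynomial

/-- **The exceptional form of a stratum.** `P N` are sets of points over the algebraically closed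
field `Ω`, stable under scaling (the counterexamples with the constant `N`). If there is no
sequence `x N ∈ P N` which is generic over the countable field `k₂`, then for some `C` all points
of `P C` lie on `G = 0`, for a form `G` which does not vanish on the whole of the complete
intersection of the forms `a`. -/
theorem exists_formS {k k₂ K Ω : Type*} [Field k] [Field k₂] [Countable k₂] [Field K] [CharZero K]
    [Algebra k K] [Algebra k₂ K] [Field Ω] [IsAlgClosed Ω] [Algebra K Ω] [Algebra k Ω]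
    [Algebra k₂ Ω] [IsScalarTower k K Ω] [IsScalarTower k₂ K Ω] {n R q : ℕ}
    (hn : R + 2 + q = n + 1) {d : Fin q → ℕ} (hd : ∀ i, 1 ≤ d i)
    {a : Fin q → (Fin (n + 1) →₀ ℕ) → K}
    (ha : AlgebraicIndependent k (fun s : ↥(jexpo n d) => a s.1.1 s.1.2))
    {j : Fin (R + 1) → Fin (n + 1)} (hj : ∀ i, (j i).1 = i.1 + 1)
    {P : ℕ → Set (Fin (n + 1) → Ω)}
    (hP : ∀ N, ∀ x ∈ P N, ∀ r : Ω, r ≠ 0 → (fun i => r * x i) ∈ P N)
    (hseq : ∀ x : ℕ → Fin (n + 1) → Ω, (∀ N, x N ∈ P N) → (∀ N, x N 0 = 1) →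
      (∀ H : MvPolynomial (Fin (R + 1)) k₂, H ≠ 0 →
        ∃ N₀, ∀ N ≥ N₀, aeval (fun i => x N (j i)) H ≠ 0) → False) :
    ∃ (C : ℕ) (G : MvPolynomial (Fin (n + 1)) K), (∃ E, G.IsHomogeneous E) ∧
      (∃ z : Fin (n + 1) → Ω, z ≠ 0 ∧
        (∀ i, Fval (d i) (fun I => algebraMap K Ω (a i I)) z = 0) ∧ aeval z G ≠ 0) ∧
      ∀ x ∈ P C, aeval x G = 0 := by
  classical
  have hji : Function.Injective j := by
    intro i i' hii
    have h1 := hj i
    rw [hii, hj i'] at h1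
    exact Fin.ext (by omega)
  have hj0 : ∀ i, j i ≠ 0 := by
    intro i h0
    have h1 := hj i
    rw [h0] at h1
    simp at h1
  -- the polynomial
  have key : ∃ (C : ℕ) (g : MvPolynomial (Fin (R + 1)) K), g ≠ 0 ∧
      ∀ z ∈ {z : Fin (R + 1) → Ω | ∃ x ∈ P C, x 0 = 1 ∧ ∀ i, z i = x (j i)}, aeval z g = 0 := by
    by_contra hcon
    push Not at hcon
    obtain ⟨z, hzS, hz⟩ := exists_generic_seqS (k := k₂) (K := K) (L := Ω)
      (S := fun N => {z : Fin (R + 1) → Ω | ∃ x ∈ P N, x 0 = 1 ∧ ∀ i, z i = x (j i)})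
      (fun N g hg => hcon N g hg)
    choose x hx1 hx2 hx3 using hzS
    refine hseq x hx1 hx2 fun H hH => ?_
    obtain ⟨N₀, hN₀⟩ := hz H hH
    refine ⟨N₀, fun N hN => ?_⟩
    have h1 : (fun i => x N (j i)) = z N := funext fun i => (hx3 N i).symm
    rw [h1]
    exact hN₀ N hN
  obtain ⟨C, g, hg0, hg⟩ := key
  obtain ⟨E, G, hGh, hG⟩ := exists_homogV g (0 : Fin (n + 1)) j
  refine ⟨C, G, ⟨E, hGh⟩, ?_, ?_⟩
  · obtain ⟨z, hz0, hzF, hzg⟩ := exists_zero_neΩ (Ω := Ω) hn hd ha hji hj0 hg0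
    refine ⟨z, fun h => ?_, hzF, ?_⟩
    · rw [h] at hz0
      exact zero_ne_one hz0
    · have h1 := (hG z).2 (by rw [hz0]; exact one_ne_zero)
      rw [h1, hz0, one_pow, one_mul]
      simp only [div_one]
      exact hzg
  · intro x hx
    by_cases hx0 : x 0 = 0
    · exact (hG x).1 hx0
    · rw [(hG x).2 hx0, hg, mul_zero]
      exact ⟨fun i => (x 0)⁻¹ * x i, hP C x hx _ (inv_ne_zero hx0), inv_mul_cancel₀ hx0,
        fun i => div_eq_inv_mul _ _⟩

end Pool.Agent.Lib.MP_44a246_ntSP
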