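import Mathlib
import Pool.Agent.Lib.MP_44a246_ntL.LMain
import Pool.Agent.Lib.MP_44a246_ntSH.RV10
import Pool.Agent.Lib.MP_44a246_ntSH.B10

/-!
SHARP PAIRS (paper 667), repair (R1): the data with two other linear forms `ξ₀`, `ξ₁`, the scaling of
the point.
-/

namespace Pool.Agent.Lib.MP_44a246_ntSP

open Pool.Agent.Lib.MP_44a246_nt
open Pool.Agent.Lib.MP_44a246_ntL
open Pool.Agent.Lib.MP_44a246_ntS
open Pool.Agent.Lib.MP_44a246_ntX
open Pool.Agent.Lib.MP_44a246_ntG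
open Pool.Agent.Lib.MP_44a246_ntK
open Pool.Agent.Lib.MP_44a246_ntF
open Pool.Agent.Lib.MP_44a246_ntO
open Pool.Agent.Lib.MP_44a246_ntSH
open Pool.Agent.Lib.MP_44a246_ntR (genus)
open Pool.Agent.Lib.MP_e52354_nt
open WithZero Module

/-- the same data with other linear forms `ξ₀`, `ξ₁` -/
structure SameC {κ L : Type*} [Field κ] [Field L] [Algebra κ L] {n p : ℕ} {d : Fin p → ℕ}
    (X X' : DatSC κ (L := L) n d) : Prop where
  a : X'.a = X.a
  D : X'.D = X.D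
  δ : X'.δ = X.δ
  ρ : X'.ρ = X.ρ
  z : X'.z = X.z
  E : X'.E = X.E
  z' : X'.z' = X.z'
  E' : X'.E' = X.E'
  x : ∃ s : L, s ≠ 0 ∧ X'.x = fun j => s * X.x j

/-- **Other linear forms.** -/
theorem exists_reproj {κ L : Type*} [Field κ] [Field L] [Algebra κ L] {n p : ℕ} {d : Fin p → ℕ}
    (X : DatSC κ (L := L) n d) {ξ₀ ξ₁ : Fin (n + 1) → ℕ} (h0 : ∑ j, (ξ₀ j : L) * X.x j ≠ 0)
    (hmax : ∀ w : Place κ L, vmax w.1 X.x ≤
      max (w.1 (∑ j, (ξ₀ j : L) * X.x j)) (w.1 (∑ j, (ξ₁ j : L) * X.x j))) :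
    ∃ X' : DatSC κ (L := L) n d, SameC X X' ∧ X'.ξ₀ = ξ₀ ∧ X'.ξ₁ = ξ₁ ∧
      X'.x = fun j => (∑ j, (ξ₀ j : L) * X.x j)⁻¹ * X.x j := by
  obtain ⟨s, hs⟩ : ∃ s : L, s = ∑ j, (ξ₀ j : L) * X.x j := ⟨_, rfl⟩
  rw [← hs] at h0 hmax
  have hDs : ∀ D : Derivation ℤ L L, (∀ j, D (X.x j) = 0) → ∀ j, D (s⁻¹ * X.x j) = 0 := by
    intro D hD j
    have h1 : D s = 0 := by
      rw [hs, map_sum]
      refine Finset.sum_eq_zero fun j _ => ?_
      rw [Derivation.leibniz, hD, Derivation.map_natCast, smul_zero, smul_zero, add_zero]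
    rw [Derivation.leibniz, Derivation.leibniz_inv, h1, hD, smul_zero, smul_zero, smul_zero,
      add_zero]
  refine ⟨{ X with
    x := fun j => s⁻¹ * X.x j
    ξ₀ := ξ₀
    ξ₁ := ξ₁
    hEx := fun i => hDs (X.E i) (X.hEx i)
    hE'x := fun i => hDs (X.E' i) (X.hE'x i)
    h0 := ?_
    hmax := ?_ }, ⟨rfl, rfl, rfl, rfl, rfl, rfl, rfl, rfl, s⁻¹, inv_ne_zero h0, rfl⟩, rfl, rfl,
    by rw [← hs]⟩
  · have h1 : ∑ j, (ξ₀ j : L) * (s⁻¹ * X.x j) = s⁻¹ * ∑ j, (ξ₀ j : L) * X.x j := by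
      rw [Finset.mul_sum]
      exact Finset.sum_congr rfl fun j _ => by ring
    rw [h1, ← hs, inv_mul_cancel₀ h0]
  · intro w
    have h1 : ∑ j, (ξ₁ j : L) * (s⁻¹ * X.x j) = s⁻¹ * ∑ j, (ξ₁ j : L) * X.x j := by
      rw [Finset.mul_sum]
      exact Finset.sum_congr rfl fun j _ => by ring
    rw [h1, vmax_smul, map_mul]
    refine (mul_le_mul_right (hmax w) (w.1 s⁻¹)).trans ?_
    rw [mul_max, ← map_mul, inv_mul_cancel₀ h0, map_one]

/-- the monomials of a multiple -/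
theorem xm_smul {L : Type*} [Field L] {n : ℕ} (e : ℕ) (s : L) (x : Fin n → L) :
    xm e (fun j => s * x j) = s ^ e • xm e x := by
  funext I
  have hdeg : ∑ j, I.1 j = e := by
    have := mem_expo.1 I.2
    rwa [Finsupp.degree_eq_sum] at this
  show mon (fun j => s * x j) I.1 = s ^ e * mon x I.1
  unfold mon
  simp only [mul_pow]
  rw [Finset.prod_mul_distrib, Finset.prod_pow_eq_pow_sum, hdeg]

theorem hasSl_smul {κ L : Type*} [Field κ] [Field L] [Algebra κ L] {ι : Type*} [Fintype ι]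
    {μ : ℝ} {ξ : ι → L} {U : Submodule L (ι → L)} {s : L} (hs : s ≠ 0)
    (h : HasSl κ μ (s • ξ) U) : HasSl κ μ ξ U :=
  ⟨(U.smul_mem_iff hs).1 h.mem, fun U' hU' hξ => h.le U' hU' ((U'.smul_mem_iff hs).2 hξ)⟩

/-- the rows do not depend on the scaling of the point -/
theorem RowsP.smul {κ L : Type*} [Field κ] [IsAlgClosed κ] [CharZero κ] [Field L] [Algebra κ L]
    {n p : ℕ} {x : Fin (n + 1) → L} {d : Fin p → ℕ} {c : ℕ} {E : ℝ} (hL : IsFF κ L) {s : L}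
    (hs : s ≠ 0) (h : RowsP κ x d c E) : RowsP κ (fun j => s * x j) d c E := by
  intro Λ Λ' t t' h1 h2 h3 h4 h5
  rw [xm_smul] at h3
  obtain ⟨ν, W, h6, h7, h8, h9⟩ := h Λ Λ' t t' h1 h2 (hasSl_smul (pow_ne_zero _ hs) h3) h4 h5
  refine ⟨ν, W, fun j => ?_, h7, ?_, h9⟩
  · rw [xm_smul]
    exact (W j).smul_mem _ (h6 j)
  · rw [hL.height_smul hs]
    exact h8

/-- the hypotheses on the point do not depend on its scaling -/
theorem HypP.smul {κ L : Type*} [Field κ] [IsAlgClosed κ] [CharZero κ] [Field L] [Algebra κ L]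
    {n p : ℕ} {x : Fin (n + 1) → L} {d : Fin p → ℕ} {c : ℕ} {C₀ M E : ℝ} (hL : IsFF κ L) {s : L}
    (hs : s ≠ 0) (h : HypP κ x d c C₀ M E) : HypP κ (fun j => s * x j) d c C₀ M E := by
  have hh : height κ (fun j => s * x j) = height κ x := hL.height_smul hs
  refine ⟨fun h0 => h.ne ?_, fun Q hQ => ?_, h.pos, ?_, h.hd, h.hd2, RowsP.smul hL hs h.rows, h.hE,
    ?_⟩
  · funext j
    have h1 := congrFun h0 j
    rw [Pi.zero_apply] at h1 ⊢
    exact (mul_eq_zero.1 h1).resolve_left hs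
  · rw [hh]
    refine h.slope Q ?_
    have h1 : (fun j => s * x j) = s • x := rfl
    rw [h1] at hQ
    exact (Q.smul_mem_iff hs).1 hQ
  · rw [hh]
    exact h.small
  · rw [hh]
    exact h.big

end Pool.Agent.Lib.MP_44a246_ntSP
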