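import Mathlib
import Pool.Agent.Lib.MP_44a246_ntSH.CB02
import Pool.Agent.Lib.MP_44a246_ntSH.PR04
import Pool.Agent.Lib.MP_44a246_ntSH.PR07
import Pool.Agent.Lib.MP_44a246_ntE.E04
import Pool.Agent.Lib.MP_44a246_ntE.E21

/-!
SHARP PAIRS (paper 667): the codimensions of the spaces of forms and of deformations, over the
algebraic closure.
-/

namespace Pool.Agent.Lib.MP_44a246_ntSP

open Pool.Agent.Lib.MP_e52354_nt
open Pool.Agent.Lib.MP_44a246_nt
open Pool.Agent.Lib.MP_44a246_ntL
open Pool.Agent.Lib.MP_44a246_ntR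
open Pool.Agent.Lib.MP_44a246_ntS
open Pool.Agent.Lib.MP_44a246_ntF
open Pool.Agent.Lib.MP_44a246_ntO
open Pool.Agent.Lib.MP_44a246_ntW
open Pool.Agent.Lib.MP_44a246_ntE
open Pool.Agent.Lib.MP_44a246_ntSH
open WithZero Polynomial Module

section restrict

variable {L : Type*} [Field L] {T : Type*} [Fintype T]

theorem dF_dF {T' : Type*} [Fintype T'] (D : T → Derivation ℤ L L) (G : T' → T → L) (c : T' → L) :
    dF (fun t => dF D (G t)) c = dF D (∑ t, c t • G t) := by
  ext y
  rw [dF_apply, dF_apply]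
  simp only [dF_apply, Finset.sum_apply, Pi.smul_apply, smul_eq_mul, Finset.sum_mul,
    Finset.mul_sum]
  rw [Finset.sum_comm]
  refine Finset.sum_congr rfl fun s _ => Finset.sum_congr rfl fun t _ => ?_
  ring

/-- the space `ZF` for the derivations which satisfy finitely many linear conditions -/
theorem exists_restrict {n : ℕ} (A : L[X][X]) (B : Fin n → L[X][X]) (D : T → Derivation ℤ L L)
    {J : Type*} [Fintype J] (u : J → L) :
    ∃ (r : ℕ) (D' : Fin r → Derivation ℤ L L), Fintype.card T ≤ r + Fintype.card J ∧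
      (∀ t j, D' t (u j) = 0) ∧ (∀ y : L, (∀ s, D s y = 0) → ∀ t, D' t y = 0) ∧
      finrank L (ZF A B D') ≤ finrank L (ZF A B D) := by
  classical
  obtain ⟨l, hl⟩ : ∃ l : J → (T → L) →ₗ[L] L, ∀ j F, l j F = dF D F (u j) := by
    refine ⟨fun j => ∑ s, D s (u j) • LinearMap.proj (R := L) (φ := fun _ : T => L) s,
      fun j F => ?_⟩
    rw [LinearMap.sum_apply, dF_apply]
    refine Finset.sum_congr rfl fun s _ => ?_
    rw [LinearMap.smul_apply, LinearMap.proj_apply, smul_eq_mul, mul_comm]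
  obtain ⟨V, hV⟩ : ∃ V : Submodule L (T → L), V = ⊤ ⊓ ⨅ j, LinearMap.ker (l j) := ⟨_, rfl⟩
  have h1 := finrank_le_inf_ker (⊤ : Submodule L (T → L)) l
  rw [← hV, finrank_top, Module.finrank_fintype_fun_eq_card] at h1
  let bs := Module.finBasis L V
  let G : Fin (finrank L V) → T → L := fun t => (bs t : T → L)
  have hG : LinearIndependent L G := by
    have := bs.linearIndependent.map' V.subtype V.ker_subtype
    exact this
  refine ⟨finrank L V, fun t => dF D (G t), h1, fun t j => ?_, fun y hy t => ?_, ?_⟩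
  · have h2 : G t ∈ V := (bs t).2
    rw [hV] at h2
    have h3 := (Submodule.mem_iInf _).1 h2.2 j
    rw [LinearMap.mem_ker, hl] at h3
    exact h3
  · rw [dF_apply]
    exact Finset.sum_eq_zero fun s _ => by rw [hy, mul_zero]
  · let φ : (Fin (finrank L V) → L) →ₗ[L] (T → L) := Fintype.linearCombination L G
    have hφ : Function.Injective φ := by
      rw [← LinearMap.ker_eq_bot, LinearMap.ker_eq_bot']
      intro c hc
      have h6 := Fintype.linearIndependent_iff.1 hG c hc
      exact funext h6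
    have h4 : (ZF A B fun t => dF D (G t)).map φ ≤ ZF A B D := by
      rintro _ ⟨c, hc, rfl⟩
      rw [mem_ZF]
      intro j
      have h5 := mem_ZF.1 hc j
      rw [dF_dF] at h5
      exact h5
    calc finrank L (ZF A B fun t => dF D (G t)) =
        finrank L ((ZF A B fun t => dF D (G t)).map φ) :=
          (LinearEquiv.finrank_eq (Submodule.equivMapOfInjective φ hφ _))
      _ ≤ finrank L (ZF A B D) := Submodule.finrank_mono h4

end restrict

section closed

variable {κ M : Type*} [Field κ] [IsAlgClosed κ] [CharZero κ] [Field M] [Algebra κ M]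

/-- `card T ≤ dim ZF + C₁ n ^ 2`, when the third linear form is not constant for the
derivations -/
theorem codim_ZF (hM : IsFF κ M) {A : κ[X][X]} (hA : 2 ≤ A.natDegree) {R : ℕ}
    {B : Fin (R + 3) → κ[X][X]} {X' Y : M}
    (hψ : ∀ G : κ[X][X], ev (algebraMap κ M) X' Y G = 0 ↔ A ∣ G) (hX : Transcendental κ X')
    (hgen : IntermediateField.adjoin κ {X', Y} = ⊤) {γ : Fin (R + 3) → M}
    (hγ : ∀ j, ev (algebraMap κ M) X' Y (B j) = ev (algebraMap κ M) X' Y (derivative A) * γ j)
    (hmax : ∀ w : Place κ M, vmax w.1 γ ≤ max 1 (w.1 X'))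
    {ξ : Fin 3 → Fin (R + 3) → κ}
    (h0 : ∑ j, algebraMap κ M (ξ 0 j) * γ j = 1) (h1 : ∑ j, algebraMap κ M (ξ 1 j) * γ j = X')
    (h2 : ∑ j, algebraMap κ M (ξ 2 j) * γ j = Y)
    {T : Type*} [Fintype T] {D : T → Derivation ℤ κ κ} (hD0 : ∀ t j, D t (ξ 0 j) = 0)
    (hD1 : ∀ t j, D t (ξ 1 j) = 0)
    {N i b' : ℕ} (hN : N + 1 ≤ finrank κ (Submodule.span κ (Set.range γ)))
    (hb : height κ ![1, X'] ≤ b') (hi : 2 ^ i * b' ≤ 3 ^ i * N) (hN2 : 2 ≤ N) :
    ∃ m : ℕ, height κ ![1, X'] = m ∧ N ≤ m ∧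
      Fintype.card T ≤ finrank κ (ZF A B D) +
        (R * (m + 1) + (m + 2 * (2 ^ i * m) + 1) + (R + 3)) := by
  obtain ⟨r, D', hr, hz, hy, hle⟩ := exists_restrict A B D (fun j : Fin (R + 3) => ξ 2 j)
  have hDξ : ∀ t i j, D' t (ξ i j) = 0 := by
    intro t i j
    match i with
    | 0 => exact hy _ (fun s => hD0 s j) t
    | 1 => exact hy _ (fun s => hD1 s j) t
    | 2 => exact hz t j
  obtain ⟨m, hm, hNm, hcard⟩ := card_le_ZF hM hA hψ hX hgen hγ hmax h0 h1 h2 hDξ hN hb hi hN2
  refine ⟨m, hm, hNm, ?_⟩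
  rw [Fintype.card_fin] at hcard hr
  omega

/-- `l (e P) ≤ e m + 1` for the spaces of functions with the poles of `X'` -/
theorem finrank_pow_le (hM : IsFF κ M) {ι : Type*} {X' : M} (hX : Transcendental κ X')
    {γ : ι → M}
    (hmax : ∀ (w : Place κ M) j, w.1 (γ j) ≤ max 1 (w.1 X')) {m : ℕ}
    (hm : height κ ![1, X'] = m) (e : ℕ) :
    finrank κ ↥(Submodule.span κ (Set.range γ) ^ e) ≤ e * m + 1 := by
  refine with_sep hM hX ?_
  intro iA t1 iR t2 iI t3 fd hXf
  obtain ⟨P, hP1, hP2⟩ := exists_poles hM X'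
  have hW : Submodule.span κ (Set.range γ) ≤ rr P := by
    rw [Submodule.span_le]
    rintro _ ⟨j, rfl⟩ v
    refine (hmax v j).trans (max_le ?_ ?_)
    · rw [← exp_zero, exp_le_exp, hP1]
      exact le_max_left _ _
    · refine le_exp_log.trans ?_
      rw [exp_le_exp, hP1]
      exact le_max_right _ _
  have hpow : ∀ k : ℕ, Submodule.span κ (Set.range γ) ^ k ≤ rr (k • P) := by
    intro k
    induction k with
    | zero =>
      rw [pow_zero, Submodule.one_le]
      intro v
      rw [map_one, zero_nsmul, Finsupp.zero_apply, exp_zero]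
    | succ k ih =>
      rw [pow_succ, Submodule.mul_le]
      intro a ha b hb v
      have h1 := ih ha v
      have h2 := hW hb v
      rw [map_mul, succ_nsmul, Finsupp.add_apply, exp_add]
      exact mul_le_mul' h1 h2
  have hdeg : divDeg (e • P) = e * m := by
    have h1 : ∀ k : ℕ, divDeg (k • P) = k * divDeg P := by
      intro k
      induction k with
      | zero =>
        rw [zero_nsmul, Nat.cast_zero, zero_mul]
        simp [divDeg]
      | succ k ih =>
        rw [succ_nsmul, divDeg_add, ih]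
        push_cast
        ring
    rw [h1, hP2, hm]
  have hdeg0 : -1 ≤ divDeg (e • P) := by
    rw [hdeg]
    have : (0 : ℤ) ≤ (e : ℤ) * m := by positivity
    omega
  have h3 := finrank_rr_le_deg hM hdeg0
  rw [hdeg] at h3
  have hfd : FiniteDimensional κ (rr (e • P)) := finite_rr hM _
  have h4 := Submodule.finrank_mono (hpow e)
  have h5 : (finrank κ (rr (e • P)) : ℤ) ≤ ((e * m + 1 : ℕ) : ℤ) := by
    push_cast
    exact h3
  have h6 : finrank κ (rr (e • P)) ≤ e * m + 1 := by exact_mod_cast h5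
  exact h4.trans h6

/-- the codimension of the space of the forms which vanish on the curve -/
theorem codim_VI (hM : IsFF κ M) {n : ℕ} {A : κ[X][X]} {B : Fin (n + 1) → κ[X][X]} {X' Y : M}
    (hX : Transcendental κ X')
    (hψ : ∀ G : κ[X][X], ev (algebraMap κ M) X' Y G = 0 ↔ A ∣ G) (hY : ¬ A ∣ derivative A)
    {γ : Fin (n + 1) → M}
    (hγ : ∀ j, ev (algebraMap κ M) X' Y (B j) = ev (algebraMap κ M) X' Y (derivative A) * γ j)
    (hmax : ∀ (w : Place κ M) j, w.1 (γ j) ≤ max 1 (w.1 X')) {m : ℕ}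
    (hm : height κ ![1, X'] = m) (e : ℕ) :
    Fintype.card (EX (n + 1) e) ≤ finrank κ (VI A B e) + (e * m + 1) := by
  have h1 := finrank_VI_add hψ (fun h => hY ((hψ _).1 h)) hγ e
  have h2 := finrank_pow_le hM hX hmax hm e
  omega

/-- the linear combinations of the functions on the curve -/
theorem exists_B4 {n k : ℕ} {A : κ[X][X]} {B : Fin n → κ[X][X]} {X' Y : M}
    {γ : Fin n → M}
    (hγ : ∀ j, ev (algebraMap κ M) X' Y (B j) = ev (algebraMap κ M) X' Y (derivative A) * γ j)
    (hmax : ∀ (w : Place κ M) j, w.1 (γ j) ≤ max 1 (w.1 X')) (c : Fin k → Fin n → κ) :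
    ∃ γ' : Fin k → M, (∀ i, ev (algebraMap κ M) X' Y (B4 c B i) =
      ev (algebraMap κ M) X' Y (derivative A) * γ' i) ∧
      ∀ (w : Place κ M) i, w.1 (γ' i) ≤ max 1 (w.1 X') := by
  refine ⟨fun i => ∑ j, algebraMap κ M (c i j) * γ j, fun i => ?_, fun w i => ?_⟩
  · unfold B4
    rw [map_sum, Finset.mul_sum]
    refine Finset.sum_congr rfl fun j _ => ?_
    rw [map_mul, ev_C_C, hγ]
    ring
  · refine Valuation.map_sum_le _ fun j _ => ?_
    rw [map_mul]
    have h1 : w.1 (algebraMap κ M (c i j)) ≤ 1 := by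
      by_cases hc : c i j = 0
      · rw [hc, map_zero, map_zero]
        exact zero_le
      · exact (w.2.2 _ hc).le
    calc w.1 (algebraMap κ M (c i j)) * w.1 (γ j) ≤ 1 * max 1 (w.1 X') :=
          mul_le_mul' h1 (hmax w j)
      _ = _ := one_mul _

/-- the linear relations between the functions on the curve -/
theorem finrank_dvS_add {n : ℕ} {A : κ[X][X]} {B : Fin n → κ[X][X]} {X' Y : M}
    (hψ : ∀ G : κ[X][X], ev (algebraMap κ M) X' Y G = 0 ↔ A ∣ G) (hY : ¬ A ∣ derivative A)
    {γ : Fin n → M}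
    (hγ : ∀ j, ev (algebraMap κ M) X' Y (B j) = ev (algebraMap κ M) X' Y (derivative A) * γ j) :
    finrank κ (Submodule.span κ (Set.range γ)) + finrank κ (dvS A B) = n := by
  have hω : ev (algebraMap κ M) X' Y (derivative A) ≠ 0 := fun h => hY ((hψ _).1 h)
  obtain ⟨φ, hφ⟩ : ∃ φ : (Fin n → κ) →ₗ[κ] M, φ = Fintype.linearCombination κ γ := ⟨_, rfl⟩
  have h1 : LinearMap.ker φ = dvS A B := by
    ext c
    rw [LinearMap.mem_ker, mem_dvS, ← hψ, hφ, Fintype.linearCombination_apply, map_sum]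
    have h2 : ∑ j, ev (algebraMap κ M) X' Y (C (C (c j)) * B j) =
        ev (algebraMap κ M) X' Y (derivative A) * ∑ j, c j • γ j := by
      rw [Finset.mul_sum]
      refine Finset.sum_congr rfl fun j _ => ?_
      rw [map_mul, ev_C_C, hγ, Algebra.smul_def]
      ring
    rw [h2, mul_eq_zero]
    exact ⟨fun h => Or.inr h, fun h => h.resolve_left hω⟩
  have h3 := φ.finrank_range_add_finrank_ker
  rw [h1, Module.finrank_fintype_fun_eq_card, Fintype.card_fin] at h3
  have h4 : LinearMap.range φ = Submodule.span κ (Set.range γ) := by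
    rw [hφ, Fintype.range_linearCombination]
  rw [h4] at h3
  exact h3

end closed

end Pool.Agent.Lib.MP_44a246_ntSP
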