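import Mathlib
import Pool.Agent.Lib.MP_e52354_nt.Span

/-!
# The conormal lemma (SHARP PAIRS, paper 664, section 1)

`M` is the function field of a curve with the generic point `γ`, `k = L(X)`. If a derivation `D` with
`D X = 0` maps all the equations of degree `8 j₀` of the curve to equations of the curve, then `D`
kills the generic point `γ`. The proof compares the curve with its first order deformation
`γ + ε D γ` over the dual numbers.
-/

set_option autoImplicit false

namespace Pool.Agent.Lib.MP_44a246_ntSP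

open Module Submodule Polynomial
open Pool.Agent.Lib.MP_e52354_nt

section Lower

variable {L k R : Type*} [Field L] [Field k] [CommRing R] [Algebra L k] [Algebra k R] [Algebra L R]
  [IsScalarTower L k R]

theorem one_mem_pow {G : Submodule L R} (h1 : (1 : R) ∈ G) (t : ℕ) : (1 : R) ∈ G ^ t := by
  have := Submodule.pow_mem_pow G h1 t
  rwa [one_pow] at this

theorem pow_mono_one {G : Submodule L R} (h1 : (1 : R) ∈ G) {i j : ℕ} (hij : i ≤ j) :
    G ^ i ≤ G ^ j := by
  intro g hg
  obtain ⟨t, rfl⟩ := Nat.exists_eq_add_of_le hij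
  rw [pow_add]
  have := Submodule.mul_mem_mul hg (one_mem_pow h1 t)
  rwa [mul_one] at this

/-- If `R = k ⊗ (G ^ j)` then the powers `G ^ e` have large dimension over the constants. -/
theorem finrank_pow_ge_span [FiniteDimensional k R] {G : Submodule L R} (hG : G.FG) {X : k}
    (hX : Transcendental L X) (hXG : algebraMap k R X ∈ G) (h1 : (1 : R) ∈ G) {j e : ℕ}
    (hje : j ≤ e) (hj : Submodule.span k ((G ^ j : Submodule L R) : Set R) = ⊤) :
    (e - j + 1) * finrank k R ≤ finrank L ↥(G ^ e) := by
  obtain ⟨b, hbG, hbs, hbl⟩ := exists_linearIndependent k ((G ^ j : Submodule L R) : Set R)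
  have hbf : b.Finite := LinearIndependent.set_finite_of_isNoetherian hbl
  have : Fintype b := hbf.fintype
  have hcard : Fintype.card b = finrank k R := by
    have h2 : Submodule.span k b = ⊤ := hbs.trans hj
    have h3 := finrank_span_set_eq_card (R := k) (s := b) hbl
    rw [h2, finrank_top, Set.toFinset_card] at h3
    exact h3.symm
  have hpow : LinearIndependent L (fun t : Fin (e - j + 1) => X ^ (t : ℕ)) := by
    have h4 : LinearIndependent L (fun t : ℕ => X ^ t) := by
      rw [transcendental_iff_injective] at hX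
      rw [linearIndependent_iff_injective_finsuppLinearCombination]
      intro f g hfg
      have h5 : ∀ f : ℕ →₀ L, Finsupp.linearCombination L (fun t : ℕ => X ^ t) f =
          aeval X (⟨AddMonoidAlgebra.ofCoeff f⟩ : L[X]) := by
        intro f
        rw [Polynomial.aeval_def, Polynomial.eval₂_eq_sum, Finsupp.linearCombination_apply]
        simp only [Polynomial.sum_def, Finsupp.sum, Algebra.smul_def]
        rfl
      rw [h5, h5] at hfg
      have h6 := hX hfg
      simpa using h6
    exact h4.comp _ Fin.val_injective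
  have hind : LinearIndependent L
      (fun p : Fin (e - j + 1) × b => (X ^ (p.1 : ℕ)) • (p.2 : R)) := linearIndependent_smul hpow hbl
  have : Module.Finite L ↥(G ^ e) := Module.Finite.iff_fg.2 (hG.pow e)
  have hmem : ∀ p : Fin (e - j + 1) × b, (X ^ (p.1 : ℕ)) • (p.2 : R) ∈ G ^ e := by
    intro p
    have h5 : (algebraMap k R X) ^ (p.1 : ℕ) ∈ G ^ (p.1 : ℕ) := Submodule.pow_mem_pow G hXG _
    have h6 := Submodule.mul_mem_mul h5 (hbG p.2.2)
    rw [← pow_add, ← map_pow, ← Algebra.smul_def] at h6
    exact pow_mono_one h1 (by omega) h6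
  have hind2 : LinearIndependent L (fun p : Fin (e - j + 1) × b => (⟨_, hmem p⟩ : ↥(G ^ e))) := by
    apply LinearIndependent.of_comp (Submodule.subtype _)
    exact hind
  have := hind2.fintype_card_le_finrank
  rw [Fintype.card_prod, Fintype.card_fin, hcard] at this
  exact this

end Lower

section Main

variable {L k M : Type*} [Field L] [Field k] [Field M] [Algebra L k] [Algebra k M] [Algebra L M]
  [IsScalarTower L k M]

/-- the ring homomorphism `u ↦ u + ε D u` to the dual numbers -/
def dualHom (D : Derivation ℤ M M) : M →+* DualNumber M where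
  toFun u := TrivSqZeroExt.inl u + TrivSqZeroExt.inr (D u)
  map_one' := by simp
  map_zero' := by simp
  map_add' a b := by
    ext <;> simp
  map_mul' a b := by
    ext <;> simp [mul_comm]

theorem fst_dualHom (D : Derivation ℤ M M) (u : M) : (dualHom D u).fst = u := by
  simp [dualHom]

theorem snd_dualHom (D : Derivation ℤ M M) (u : M) : (dualHom D u).snd = D u := by
  simp [dualHom]

theorem finrank_dual [FiniteDimensional k M] : finrank k (DualNumber M) = 2 * finrank k M := by
  let e : DualNumber M ≃ₗ[k] M × M :=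
    { toFun := fun x => (x.fst, x.snd)
      invFun := fun x => TrivSqZeroExt.inl x.1 + TrivSqZeroExt.inr x.2
      map_add' := fun x y => by simp
      map_smul' := fun c x => by simp
      left_inv := fun x => TrivSqZeroExt.inl_fst_add_inr_snd_eq x
      right_inv := fun x => by simp }
  rw [e.finrank_eq, Module.finrank_prod, two_mul]

instance [FiniteDimensional k M] : FiniteDimensional k (DualNumber M) := by
  let e : DualNumber M ≃ₗ[k] M × M :=
    { toFun := fun x => (x.fst, x.snd)
      invFun := fun x => TrivSqZeroExt.inl x.1 + TrivSqZeroExt.inr x.2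
      map_add' := fun x y => by simp
      map_smul' := fun c x => by simp
      left_inv := fun x => TrivSqZeroExt.inl_fst_add_inr_snd_eq x
      right_inv := fun x => by simp }
  exact Module.Finite.equiv e.symm

theorem mon_mem_pow {n : ℕ} (γ : Fin (n + 1) → M) (I : Fin (n + 1) →₀ ℕ) :
    mon γ I ∈ Submodule.span L (Set.range γ) ^ I.degree := by
  classical
  have h : ∀ s : Finset (Fin (n + 1)), ∏ j ∈ s, γ j ^ I j ∈
      Submodule.span L (Set.range γ) ^ (∑ j ∈ s, I j) := by
    intro s
    induction s using Finset.induction_on with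
    | empty => simp
    | insert a s ha ih =>
      rw [Finset.prod_insert ha, Finset.sum_insert ha, pow_add]
      have h2 : γ a ∈ Submodule.span L (Set.range γ) := Submodule.subset_span ⟨a, rfl⟩
      exact Submodule.mul_mem_mul (Submodule.pow_mem_pow _ h2 _) ih
  have := h Finset.univ
  rwa [← Finsupp.degree_eq_sum] at this

/-- **The conormal lemma.** -/
theorem conormal [CharZero k] [FiniteDimensional k M] {n : ℕ} {γ : Fin (n + 1) → M}
    {D : Derivation ℤ M M} {X : k} (hX : Transcendental L X) {ξ₀ ξ₁ : Fin (n + 1) → L}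
    (h0 : ∑ j, ξ₀ j • γ j = 1) (h1 : ∑ j, ξ₁ j • γ j = algebraMap k M X)
    (d0 : ∀ j, D (algebraMap L M (ξ₀ j)) = 0) (d1 : ∀ j, D (algebraMap L M (ξ₁ j)) = 0)
    (dX : D (algebraMap k M X) = 0) {j₀ : ℕ} (hj0 : 1 ≤ j₀)
    (hj : Submodule.span k ((Submodule.span L (Set.range γ) ^ j₀ : Submodule L M) : Set M) = ⊤)
    (hd : finrank L ↥(Submodule.span L (Set.range γ) ^ (8 * j₀)) ≤ 8 * j₀ * finrank k M + 1)
    (hv : ∀ v : ↥(expo (Fin (n + 1)) (8 * j₀)) → L, ∑ I, v I • mon γ I.1 = 0 →
      ∑ I, D (algebraMap L M (v I)) * mon γ I.1 = 0) (l : Fin (n + 1)) :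
    D (γ l) = 0 := by
  classical
  obtain ⟨W, hW⟩ : ∃ W : Submodule L M, W = Submodule.span L (Set.range γ) := ⟨_, rfl⟩
  rw [← hW] at hj hd
  obtain ⟨φ, hφ⟩ : ∃ φ, φ = dualHom D := ⟨_, rfl⟩
  have φf : ∀ u, (φ u).fst = u := fun u => by rw [hφ, fst_dualHom]
  have φs : ∀ u, (φ u).snd = D u := fun u => by rw [hφ, snd_dualHom]
  obtain ⟨G, hG⟩ : ∃ G : Submodule L (DualNumber M),
    G = Submodule.span L (Set.range fun l => φ (γ l)) := ⟨_, rfl⟩
  have hGfg : G.FG := by
    rw [hG]
    exact Submodule.fg_span (Set.finite_range _)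
  have hlin : ∀ c : Fin (n + 1) → L, (∀ j, D (algebraMap L M (c j)) = 0) → ∀ u : M,
      ∑ j, c j • γ j = u → φ u ∈ G := by
    intro c hc u hu
    have h2 : φ u = ∑ j, c j • φ (γ j) := by
      rw [← hu, map_sum]
      refine Finset.sum_congr rfl fun j _ => ?_
      ext
      · rw [φf, TrivSqZeroExt.fst_smul, φf]
      · rw [φs, TrivSqZeroExt.snd_smul, φs, Algebra.smul_def, Derivation.leibniz, hc j, smul_zero,
          add_zero, smul_eq_mul, Algebra.smul_def]
    rw [h2, hG]
    exact Submodule.sum_mem _ fun j _ => Submodule.smul_mem _ _ (Submodule.subset_span ⟨j, rfl⟩)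
  have h1G : (1 : DualNumber M) ∈ G := by
    have := hlin ξ₀ d0 1 h0
    rwa [map_one] at this
  have hXG : algebraMap k (DualNumber M) X ∈ G := by
    have h2 := hlin ξ₁ d1 _ h1
    have h3 : φ (algebraMap k M X) = algebraMap k (DualNumber M) X := by
      ext
      · rw [φf]
        rfl
      · rw [φs, dX]
        rfl
    rwa [h3] at h2
  -- the projection of `G ^ j` is `W ^ j`
  have hmap : ∀ j : ℕ, (G ^ j).map (TrivSqZeroExt.fstHom L M M).toLinearMap = W ^ j := by
    intro j
    rw [Submodule.map_pow, hG, hW, Submodule.map_span]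
    congr 2
    ext y
    constructor
    · rintro ⟨_, ⟨l, rfl⟩, rfl⟩
      exact ⟨l, (φf _).symm⟩
    · rintro ⟨l, rfl⟩
      exact ⟨_, ⟨l, rfl⟩, φf _⟩
  -- `G ^ d` is spanned by the monomials
  have hspan : ∀ d : ℕ, G ^ d ≤ Submodule.span L
      (Set.range fun I : ↥(expo (Fin (n + 1)) d) => φ (mon γ I.1)) := by
    intro d
    induction d with
    | zero =>
      rw [pow_zero, Submodule.one_le]
      refine Submodule.subset_span ⟨⟨0, mem_expo.2 (by simp)⟩, ?_⟩
      show φ (mon γ 0) = 1
      rw [mon_zero, map_one]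
    | succ d ih =>
      rw [pow_succ]
      refine (mul_le_mul' ih le_rfl).trans ?_
      rw [hG, Submodule.span_mul_span, Submodule.span_le]
      rintro _ ⟨_, ⟨I, rfl⟩, _, ⟨l, rfl⟩, rfl⟩
      refine Submodule.subset_span ⟨⟨I.1 + Finsupp.single l 1, ?_⟩, ?_⟩
      · rw [mem_expo, map_add, mem_expo.1 I.2, Finsupp.degree_single]
      · show φ (mon γ (I.1 + Finsupp.single l 1)) = φ (mon γ I.1) * φ (γ l)
        rw [mon_add, mon_single, pow_one, map_mul]
  -- the projection is injective on `G ^ (8 j₀)`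
  have hinj : ∀ y ∈ G ^ (8 * j₀), y.fst = 0 → y = 0 := by
    intro y hy hy0
    obtain ⟨v, hv1⟩ := Submodule.mem_span_range_iff_exists_fun L |>.1 (hspan _ hy)
    have h2 : ∑ I, v I • mon γ I.1 = 0 := by
      rw [← hy0, ← hv1, TrivSqZeroExt.fst_sum]
      refine Finset.sum_congr rfl fun I _ => ?_
      rw [TrivSqZeroExt.fst_smul, φf]
    have h3 := hv v h2
    have h4 : ∑ I, v I • D (mon γ I.1) = 0 := by
      have h5 := congrArg D h2
      rw [map_sum, map_zero] at h5
      have h6 : ∀ I : ↥(expo (Fin (n + 1)) (8 * j₀)), D (v I • mon γ I.1) =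
          v I • D (mon γ I.1) + D (algebraMap L M (v I)) * mon γ I.1 := by
        intro I
        rw [Algebra.smul_def, Derivation.leibniz, smul_eq_mul, smul_eq_mul, Algebra.smul_def]
        ring
      simp only [h6] at h5
      rw [Finset.sum_add_distrib, h3, add_zero] at h5
      exact h5
    ext
    · exact hy0
    · rw [← hv1, TrivSqZeroExt.snd_sum, TrivSqZeroExt.snd_zero, ← h4]
      refine Finset.sum_congr rfl fun I _ => ?_
      rw [TrivSqZeroExt.snd_smul, φs]
  have hfinle : finrank L ↥(G ^ (8 * j₀)) ≤ finrank L ↥(W ^ (8 * j₀)) := by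
    rw [← hmap (8 * j₀)]
    refine (LinearEquiv.ofInjective ((TrivSqZeroExt.fstHom L M M).toLinearMap.comp
      (G ^ (8 * j₀)).subtype) ?_).finrank_eq.trans_le ?_
    · rw [← LinearMap.ker_eq_bot, LinearMap.ker_eq_bot']
      rintro ⟨y, hy⟩ hy0
      exact Subtype.ext (hinj y hy hy0)
    · rw [LinearMap.range_comp, Submodule.range_subtype]
  -- the spaces `A j`
  obtain ⟨A, hA⟩ : ∃ A : ℕ → Submodule k (DualNumber M),
    ∀ j, A j = Submodule.span k ((G ^ j : Submodule L (DualNumber M)) : Set (DualNumber M)) :=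
    ⟨_, fun _ => rfl⟩
  have hAmono : ∀ i j, i ≤ j → A i ≤ A j := by
    intro i j hij
    rw [hA, hA]
    exact Submodule.span_mono (pow_mono_one h1G hij)
  have hAmul : ∀ i j a b, a ∈ A i → b ∈ A j → a * b ∈ A (i + j) := by
    intro i j a b ha hb
    have h2 := Submodule.mul_mem_mul ha hb
    rw [hA, hA, Submodule.span_mul_span] at h2
    rw [hA]
    refine Submodule.span_mono ?_ h2
    rintro _ ⟨x, hx, y, hy, rfl⟩
    rw [pow_add]
    exact Submodule.mul_mem_mul hx hy
  have hAonto : ∀ j, j₀ ≤ j → ∀ u : M, ∃ a ∈ A j, a.fst = u := by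
    intro j hjj u
    have h2 : (A j₀).map (TrivSqZeroExt.fstHom k M M).toLinearMap = ⊤ := by
      rw [hA, Submodule.map_span, ← hj, ← hmap j₀]
      rfl
    have h3 : u ∈ (A j₀).map (TrivSqZeroExt.fstHom k M M).toLinearMap := by
      rw [h2]
      trivial
    obtain ⟨a, ha, rfl⟩ := h3
    exact ⟨a, hAmono _ _ hjj ha, rfl⟩
  have hm : 0 < finrank k M := finrank_pos
  -- the first case: the dual numbers are generated
  have hcase : ∀ c : M, TrivSqZeroExt.inr c ∈ A (2 * j₀) → c = 0 := by
    intro c hc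
    by_contra hc0
    have h2 : ∀ u : M, TrivSqZeroExt.inr u ∈ A (4 * j₀) := by
      intro u
      obtain ⟨a, ha, ha2⟩ := hAonto (2 * j₀) (by omega) (u / c)
      have h3 := hAmul _ _ _ _ ha hc
      rw [show 2 * j₀ + 2 * j₀ = 4 * j₀ by ring] at h3
      have h4 : a * TrivSqZeroExt.inr c = TrivSqZeroExt.inr u := by
        ext
        · simp
        · simp only [TrivSqZeroExt.snd_mul, ha2, TrivSqZeroExt.snd_inr, TrivSqZeroExt.fst_inr,
            smul_eq_mul, MulOpposite.op_zero, zero_smul, add_zero]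
          exact div_mul_cancel₀ u hc0
      rwa [h4] at h3
    have h3 : A (4 * j₀) = ⊤ := by
      rw [eq_top_iff]
      intro y _
      obtain ⟨a, ha, ha2⟩ := hAonto (4 * j₀) (by omega) y.fst
      have h4 : y = a + TrivSqZeroExt.inr (y.snd - a.snd) := by
        ext
        · simp [ha2]
        · simp
      rw [h4]
      exact Submodule.add_mem _ ha (h2 _)
    rw [hA] at h3
    have h4 := finrank_pow_ge_span (L := L) (k := k) hGfg hX hXG h1G
      (show 4 * j₀ ≤ 8 * j₀ by omega) h3
    rw [finrank_dual] at h4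
    have h5 : 8 * j₀ - 4 * j₀ + 1 = 4 * j₀ + 1 := by omega
    rw [h5] at h4
    nlinarith
  have hdown : ∀ y ∈ A (2 * j₀), y ∈ A j₀ := by
    intro y hy
    obtain ⟨a, ha, ha2⟩ := hAonto j₀ le_rfl y.fst
    have h2 : y - a ∈ A (2 * j₀) := Submodule.sub_mem _ hy (hAmono _ _ (by omega) ha)
    have h3 : y - a = TrivSqZeroExt.inr (y.snd - a.snd) := by
      ext
      · simp [ha2]
      · simp
    rw [h3] at h2
    have h4 := hcase _ h2
    rw [h4, TrivSqZeroExt.inr_zero, sub_eq_zero] at h3
    rw [h3]
    exact ha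
  -- the powers of the generic point
  have hz1 : φ (γ l) ∈ A j₀ := by
    refine hAmono 1 _ hj0 ?_
    rw [hA, pow_one]
    refine Submodule.subset_span ?_
    rw [SetLike.mem_coe, hG]
    exact Submodule.subset_span ⟨l, rfl⟩
  have hz : ∀ t : ℕ, φ (γ l) ^ t ∈ A j₀ := by
    intro t
    induction t with
    | zero =>
      rw [pow_zero, hA]
      exact Submodule.subset_span (one_mem_pow h1G _)
    | succ t ih =>
      rw [pow_succ]
      apply hdown
      rw [two_mul]
      exact hAmul _ _ _ _ ih hz1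
  have hint : IsIntegral k (γ l) := Algebra.IsIntegral.isIntegral _
  obtain ⟨p, hp⟩ : ∃ p, p = minpoly k (γ l) := ⟨_, rfl⟩
  have hp0 : aeval (γ l) p = 0 := by rw [hp, minpoly.aeval]
  have hpd : aeval (γ l) (derivative p) ≠ 0 := by
    have h2 : p.Separable := by
      rw [hp]
      exact (minpoly.irreducible hint).separable
    exact h2.aeval_derivative_ne_zero hp0
  have hpz : aeval (φ (γ l)) p ∈ A j₀ := by
    rw [aeval_eq_sum_range]
    exact Submodule.sum_mem _ fun t _ => Submodule.smul_mem _ _ (hz t)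
  have hdec : φ (γ l) = TrivSqZeroExt.inl (γ l) + TrivSqZeroExt.inr (D (γ l)) := by
    ext
    · rw [φf]; simp
    · rw [φs]; simp
  have hinl : ∀ q : k[X], aeval (TrivSqZeroExt.inl (γ l) : DualNumber M) q =
      TrivSqZeroExt.inl (aeval (γ l) q) := by
    intro q
    exact aeval_algHom_apply (TrivSqZeroExt.inlAlgHom k M M) (γ l) q
  have hexp : aeval (φ (γ l)) p = TrivSqZeroExt.inr (aeval (γ l) (derivative p) * D (γ l)) := by
    rw [hdec, aeval_add_of_sq_eq_zero _ _ _ (by rw [sq, TrivSqZeroExt.inr_mul_inr]), hinl, hinl,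
      hp0, TrivSqZeroExt.inl_zero, zero_add, TrivSqZeroExt.inl_mul_inr]
    rfl
  rw [hexp] at hpz
  have h2 := hcase _ (hAmono _ _ (by omega) hpz)
  exact (mul_eq_zero.1 h2).resolve_left hpd

end Main

end Pool.Agent.Lib.MP_44a246_ntSP
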