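import Mathlib
import Pool.Agent.Lib.MP_44a246_ntS.SP1b
import Pool.Agent.Lib.MP_44a246_ntS.SP7
import Pool.Agent.Lib.MP_44a246_ntSH.PR01b
import Pool.Agent.Lib.MP_44a246_ntSP.Conormal

/-!
# The conormal lemma for the polynomials of a plane model (SHARP PAIRS, paper 667, section 1)

`A = 0` is a plane curve over `κ`, `M` its function field, `γ j = B j / A_Y` a space model. If a
derivation `D` of `κ` maps the forms of degree `8 j₀` which vanish on the curve to forms which vanish
on the curve, then `D` kills `γ` (extended by `D X = 0`).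
-/

set_option autoImplicit false

namespace Pool.Agent.Lib.MP_44a246_ntSP

open Module Polynomial
open Pool.Agent.Lib.MP_e52354_nt
open Pool.Agent.Lib.MP_44a246_nt
open Pool.Agent.Lib.MP_44a246_ntS
open Pool.Agent.Lib.MP_44a246_ntF
open Pool.Agent.Lib.MP_44a246_ntO
open Pool.Agent.Lib.MP_44a246_ntW
open Pool.Agent.Lib.MP_44a246_ntE
open Pool.Agent.Lib.MP_44a246_ntSH

section

variable {κ M : Type*} [Field κ] [Field M] [Algebra κ M] [Algebra κ[X] M]
  [IsScalarTower κ κ[X] M]

theorem cE_eq_cqd (D : Derivation ℤ κ κ) (P : κ[X][X]) : cE D P = cqd D P := by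
  ext i j
  rw [cqd_coeff]
  exact (congrArg (fun q : κ[X] => q.coeff j) (mc_coeff (mc D) P i)).trans (mc_coeff D _ j)

/-- the derivation `nab` on the curve -/
theorem aeval_nab {A : κ[X][X]} {Y : M} (hA : aeval Y A = 0) {D : Derivation ℤ κ κ}
    {E : Derivation ℤ M M} (hE : ∀ u, E (algebraMap κ M u) = algebraMap κ M (D u))
    (hX : E (algebraMap κ[X] M X) = 0) (P : κ[X][X]) :
    aeval Y (nab A D P) = aeval Y (derivative A) * E (aeval Y P) := by
  have hch : ∀ G : κ[X][X], E (aeval Y G) = aeval Y (cqd D G) + aeval Y (derivative G) * E Y := by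
    intro G
    have h1 := ev_chain (algebraMap κ M) D E hE (algebraMap κ[X] M X) Y G
    rw [ev_aeval, ev_aeval, ev_aeval, ev_aeval, hX, mul_zero, add_zero, cE_eq_cqd, cY_apply] at h1
    exact h1
  have h2 := hch A
  rw [hA, map_zero] at h2
  rw [nab_apply, map_sub, map_mul, map_mul, hch P]
  linear_combination (aeval Y (derivative P)) * h2

/-- the numerator `wr` on the curve -/
theorem aeval_wr {A : κ[X][X]} {Y : M} (hA : aeval Y A = 0) {D : Derivation ℤ κ κ}
    {E : Derivation ℤ M M} (hE : ∀ u, E (algebraMap κ M u) = algebraMap κ M (D u))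
    (hX : E (algebraMap κ[X] M X) = 0) {P : κ[X][X]} {g : M}
    (hg : g * aeval Y (derivative A) = aeval Y P) :
    aeval Y (wr A D P) = aeval Y (derivative A) ^ 3 * E g := by
  unfold wr
  rw [map_sub, map_mul, map_mul, aeval_nab hA hE hX, aeval_nab hA hE hX, ← hg,
    Derivation.leibniz, smul_eq_mul, smul_eq_mul]
  ring

/-- the value of a form on the curve -/
theorem aeval_form {n e : ℕ} {A : κ[X][X]} {Y : M} {B : Fin (n + 1) → κ[X][X]}
    {γ : Fin (n + 1) → M} (hγ : ∀ j, γ j * aeval Y (derivative A) = aeval Y (B j))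
    (f : EX (n + 1) e → κ) :
    aeval Y (MvPolynomial.aeval B (pf f)) =
      aeval Y (derivative A) ^ e * ∑ K, f K • mon γ K.1 := by
  rw [aeval_pf, map_sum, Finset.mul_sum]
  refine Finset.sum_congr rfl fun K _ => ?_
  have h1 : (aeval Y) (C (C (f K)) : κ[X][X]) = algebraMap κ M (f K) := by
    rw [aeval_C, IsScalarTower.algebraMap_apply κ κ[X] M]
    rfl
  have h2 : (aeval Y) (∏ j, B j ^ K.1 j) = aeval Y (derivative A) ^ e * mon γ K.1 := by
    have hdeg : ∑ j, K.1 j = e := by
      have := mem_expo.1 K.2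
      rwa [Finsupp.degree_eq_sum] at this
    have h3 : aeval Y (derivative A) ^ e = ∏ j, aeval Y (derivative A) ^ K.1 j := by
      rw [Finset.prod_pow_eq_pow_sum, hdeg]
    rw [map_prod, h3]
    unfold mon
    rw [← Finset.prod_mul_distrib]
    refine Finset.prod_congr rfl fun j _ => ?_
    rw [map_pow, ← hγ j, mul_pow, mul_comm]
  rw [map_mul, h1, h2, Algebra.smul_def]
  ring

variable [Algebra (RatFunc κ) M] [IsScalarTower κ[X] (RatFunc κ) M]

theorem tower_ratFunc : IsScalarTower κ (RatFunc κ) M := by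
  refine IsScalarTower.of_algebraMap_eq fun u => ?_
  rw [IsScalarTower.algebraMap_apply κ κ[X] M,
    IsScalarTower.algebraMap_apply κ κ[X] (RatFunc κ),
    ← IsScalarTower.algebraMap_apply κ[X] (RatFunc κ) M]

/-- **The conormal lemma**, on the function field `M` of the curve `A = 0` over `κ`. -/
theorem conormal_curve [CharZero κ] [FiniteDimensional (RatFunc κ) M] {A : κ[X][X]} {Y : M}
    (hev : ∀ G : κ[X][X], aeval Y G = 0 ↔ A ∣ G)
    (ht : Transcendental κ (algebraMap κ[X] M X))
    (halg : Algebra.IsAlgebraic (IntermediateField.adjoin κ {algebraMap κ[X] M X}) M)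
    (hY : ¬ A ∣ derivative A) {n : ℕ} {B : Fin (n + 1) → κ[X][X]} {ξ₀ ξ₁ : Fin (n + 1) → κ}
    (r0 : A ∣ ∑ j, C (C (ξ₀ j)) * B j - derivative A)
    (r1 : A ∣ ∑ j, C (C (ξ₁ j)) * B j - C X * derivative A)
    {γ : Fin (n + 1) → M} (hγ : ∀ j, γ j * aeval Y (derivative A) = aeval Y (B j))
    {j₀ : ℕ} (hj0 : 1 ≤ j₀) (hgrow : Submodule.span (RatFunc κ) (Set.range γ) ^ j₀ = ⊤)
    (hdim : finrank κ ↥(Submodule.span κ (Set.range γ) ^ (8 * j₀)) ≤
      8 * j₀ * finrank (RatFunc κ) M + 1)
    {D : Derivation ℤ κ κ} (d0 : ∀ j, D (ξ₀ j) = 0) (d1 : ∀ j, D (ξ₁ j) = 0)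
    (h : ∀ f ∈ VI A B (8 * j₀), (fun K => D (f K)) ∈ VI A B (8 * j₀)) (j : Fin (n + 1)) :
    A ∣ wr A D (B j) := by
  classical
  have hA : aeval Y A = 0 := (hev A).2 dvd_rfl
  have hω : aeval Y (derivative A) ≠ 0 := fun h0 => hY ((hev _).1 h0)
  obtain ⟨E, hE, hEX⟩ := exists_der_ext ht halg D 0
  have t1 : IsScalarTower κ (RatFunc κ) M := tower_ratFunc
  have hXM : algebraMap (RatFunc κ) M RatFunc.X = algebraMap κ[X] M X := by
    rw [← RatFunc.algebraMap_X, ← IsScalarTower.algebraMap_apply κ[X] (RatFunc κ) M]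
  have hCC : ∀ c : κ, (aeval Y) (C (C c) : κ[X][X]) = algebraMap κ M c := by
    intro c
    rw [aeval_C, IsScalarTower.algebraMap_apply κ κ[X] M]
    rfl
  have hlin : ∀ (ξ : Fin (n + 1) → κ) (R : κ[X][X]), A ∣ ∑ j, C (C (ξ j)) * B j - R →
      (∑ j, ξ j • γ j) * aeval Y (derivative A) = aeval Y R := by
    intro ξ R hR
    have h1 := (hev _).2 hR
    rw [map_sub, sub_eq_zero, map_sum] at h1
    rw [← h1, Finset.sum_mul]
    refine Finset.sum_congr rfl fun j _ => ?_
    rw [map_mul, hCC, ← hγ j, Algebra.smul_def, mul_assoc]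
  have h0 : ∑ j, ξ₀ j • γ j = 1 := by
    have h1 := hlin ξ₀ _ r0
    exact mul_right_cancel₀ hω (by rw [h1, one_mul])
  have h1 : ∑ j, ξ₁ j • γ j = algebraMap (RatFunc κ) M RatFunc.X := by
    have h1 := hlin ξ₁ _ r1
    refine mul_right_cancel₀ hω ?_
    rw [h1, hXM, map_mul, aeval_C]
  have htR : Transcendental κ (RatFunc.X : RatFunc κ) := by
    intro halg'
    apply ht
    rw [← hXM]
    exact halg'.algebraMap
  have hspan : Submodule.span (RatFunc κ)
      ((Submodule.span κ (Set.range γ) ^ j₀ : Submodule κ M) : Set M) = ⊤ := by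
    rw [← hgrow, Submodule.span_pow, Submodule.span_pow, Submodule.span_span_of_tower]
  have key : ∀ f : EX (n + 1) (8 * j₀) → κ, f ∈ VI A B (8 * j₀) ↔ ∑ K, f K • mon γ K.1 = 0 := by
    intro f
    rw [mem_VI, ← hev, aeval_form hγ, mul_eq_zero, or_iff_right (pow_ne_zero _ hω)]
  have hD := conormal (L := κ) (k := RatFunc κ) (D := E) htR h0 h1
    (fun j => by rw [hE, d0, map_zero]) (fun j => by rw [hE, d1, map_zero])
    (by rw [hXM]; exact hEX) hj0 hspan hdim (fun v hv => by
      have h2 := (key _).1 (h v ((key v).2 hv))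
      rw [← h2]
      refine Finset.sum_congr rfl fun K _ => ?_
      rw [hE, Algebra.smul_def]) j
  rw [← hev, aeval_wr hA hE hEX (hγ j), hD, mul_zero]

/-- The form in which the conormal lemma is used: a deformation of the equations which moves the
curve does not preserve the forms of degree `8 j₀` which vanish on the curve. -/
theorem hcon_curve [CharZero κ] [FiniteDimensional (RatFunc κ) M] {A : κ[X][X]} {Y : M}
    (hev : ∀ G : κ[X][X], aeval Y G = 0 ↔ A ∣ G)
    (ht : Transcendental κ (algebraMap κ[X] M X))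
    (halg : Algebra.IsAlgebraic (IntermediateField.adjoin κ {algebraMap κ[X] M X}) M)
    (hY : ¬ A ∣ derivative A) {n : ℕ} {B : Fin (n + 1) → κ[X][X]} {ξ₀ ξ₁ : Fin (n + 1) → κ}
    (r0 : A ∣ ∑ j, C (C (ξ₀ j)) * B j - derivative A)
    (r1 : A ∣ ∑ j, C (C (ξ₁ j)) * B j - C X * derivative A)
    {γ : Fin (n + 1) → M} (hγ : ∀ j, γ j * aeval Y (derivative A) = aeval Y (B j))
    {j₀ : ℕ} (hj0 : 1 ≤ j₀) (hgrow : Submodule.span (RatFunc κ) (Set.range γ) ^ j₀ = ⊤)
    (hdim : finrank κ ↥(Submodule.span κ (Set.range γ) ^ (8 * j₀)) ≤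
      8 * j₀ * finrank (RatFunc κ) M + 1)
    {T : Type*} [Fintype T] {D : T → Derivation ℤ κ κ} (d0 : ∀ t j, D t (ξ₀ j) = 0)
    (d1 : ∀ t j, D t (ξ₁ j) = 0) {F : T → κ} (hF : F ∉ ZF A B D) :
    ∃ f ∈ VI A B (8 * j₀), (fun K => dF D F (f K)) ∉ VI A B (8 * j₀) := by
  by_contra hcon
  push Not at hcon
  apply hF
  rw [mem_ZF]
  have h0 : ∀ j, dF D F (ξ₀ j) = 0 := by
    intro j
    rw [dF_apply]
    exact Finset.sum_eq_zero fun t _ => by rw [d0, mul_zero]
  have h1 : ∀ j, dF D F (ξ₁ j) = 0 := by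
    intro j
    rw [dF_apply]
    exact Finset.sum_eq_zero fun t _ => by rw [d1, mul_zero]
  exact fun j => conormal_curve hev ht halg hY r0 r1 hγ hj0 hgrow hdim h0 h1 hcon j

end

section descend

variable {L F : Type*} [Field L] [Field F] [Algebra L F]

theorem mem_of_am_mem_bc {T : Type*} [Fintype T] {A : Submodule L (T → L)} {c : T → L}
    (hc : (fun t => algebraMap L F (c t)) ∈ bc F A) : c ∈ A := (am_mem_bc_iff (L := F)).1 hc

/-- The conclusion of the conormal lemma descends to a smaller field. -/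
theorem hcon_descend {n e : ℕ} {T : Type*} [Fintype T] {D : T → Derivation ℤ L L}
    {D' : T → Derivation ℤ F F}
    (h : ∀ t, ∀ y : L, D' t (algebraMap L F y) = algebraMap L F (D t y)) {A : L[X][X]}
    {B : Fin n → L[X][X]}
    (hcon : ∀ G : T → F, G ∉ ZF (mp L F A) (fun j => mp L F (B j)) D' →
      ∃ f ∈ VI (mp L F A) (fun j => mp L F (B j)) e,
        (fun K => dF D' G (f K)) ∉ VI (mp L F A) (fun j => mp L F (B j)) e)
    {G : T → L} (hG : G ∉ ZF A B D) :
    ∃ f ∈ VI A B e, (fun K => dF D G (f K)) ∉ VI A B e := by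
  by_contra hc
  push Not at hc
  have h1 : (fun t => algebraMap L F (G t)) ∉ ZF (mp L F A) (fun j => mp L F (B j)) D' := by
    rw [ZF_mp h]
    exact fun h2 => hG (mem_of_am_mem_bc h2)
  obtain ⟨f, hf, hf2⟩ := hcon _ h1
  apply hf2
  clear hf2
  rw [VI_mp] at hf ⊢
  have hd : ∀ y : L, dF D' (fun t => algebraMap L F (G t)) (algebraMap L F y) =
      algebraMap L F (dF D G y) := by
    intro y
    rw [dF_apply, dF_apply, map_sum]
    exact Finset.sum_congr rfl fun t _ => by rw [h, map_mul]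
  unfold bc at hf
  induction hf using Submodule.span_induction with
  | mem f hf =>
    obtain ⟨g, hg, rfl⟩ := hf
    have h3 := am_mem_bc (L := F) (hc g hg)
    have h4 : (fun K => dF D' (fun t => algebraMap L F (G t)) (algebraMap L F (g K))) =
        fun K => algebraMap L F (dF D G (g K)) := funext fun K => hd (g K)
    show (fun K => dF D' (fun t => algebraMap L F (G t)) (algebraMap L F (g K))) ∈ _
    rw [h4]
    exact h3
  | zero =>
    have h4 : (fun K : EX n e => dF D' (fun t => algebraMap L F (G t)) ((0 : EX n e → F) K)) = 0 := by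
      funext K
      rw [Pi.zero_apply, map_zero]
    rw [h4]
    exact Submodule.zero_mem _
  | add f g hf hg hf2 hg2 =>
    have h4 : (fun K : EX n e => dF D' (fun t => algebraMap L F (G t)) ((f + g) K)) =
        (fun K => dF D' (fun t => algebraMap L F (G t)) (f K)) +
          fun K => dF D' (fun t => algebraMap L F (G t)) (g K) := by
      funext K
      rw [Pi.add_apply, map_add]
      rfl
    rw [h4]
    exact Submodule.add_mem _ hf2 hg2
  | smul c f hf hf2 =>
    have h4 : (fun K : EX n e => dF D' (fun t => algebraMap L F (G t)) ((c • f) K)) =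
        c • (fun K => dF D' (fun t => algebraMap L F (G t)) (f K)) +
          dF D' (fun t => algebraMap L F (G t)) c • f := by
      funext K
      rw [Pi.smul_apply, smul_eq_mul, Derivation.leibniz]
      simp only [Pi.add_apply, Pi.smul_apply, smul_eq_mul]
      ring
    rw [h4]
    exact Submodule.add_mem _ (Submodule.smul_mem _ _ hf2) (Submodule.smul_mem _ _ hf)

end descend

end Pool.Agent.Lib.MP_44a246_ntSP
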