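import Mathlib
import Pool.Agent.Lib.MP_44a246_ntE.E09
import Pool.Agent.Lib.MP_44a246_ntS.SJ3b
import Pool.Agent.Lib.MP_44a246_ntSH.CV15

/-!
SHARP PAIRS (paper 667), repair (R1): two linear forms which are generic for two points, over two
fields of functions; the form obtained by the substitution of linear forms.
-/

namespace Pool.Agent.Lib.MP_44a246_ntSP

open Pool.Agent.Lib.MP_e52354_nt
open Pool.Agent.Lib.MP_44a246_nt
open Pool.Agent.Lib.MP_44a246_ntL
open Pool.Agent.Lib.MP_44a246_ntS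
open Pool.Agent.Lib.MP_44a246_ntE
open WithZero Module

/-- **Two linear forms** with natural coefficients, generic for two points. -/
theorem exists_forms₂ {κ L F M : Type*} [Field κ] [IsAlgClosed κ] [CharZero κ] [Field L]
    [Algebra κ L] [Field F] [IsAlgClosed F] [CharZero F] [Field M] [Algebra F M]
    (hL : IsFF κ L) (hM : IsFF F M) {n : ℕ} {x : Fin (n + 1) → L} (hx : x ≠ 0)
    {γ : Fin (n + 1) → M} (hγ : γ ≠ 0) (hgen : pointField F γ = ⊤) :
    ∃ ξ₀ ξ₁ : Fin (n + 1) → ℕ, ∑ j, (ξ₀ j : L) * x j ≠ 0 ∧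
      (∀ w : Place κ L, vmax w.1 x ≤
        max (w.1 (∑ j, (ξ₀ j : L) * x j)) (w.1 (∑ j, (ξ₁ j : L) * x j))) ∧
      ∑ j, (ξ₀ j : M) * γ j ≠ 0 ∧
      (∀ w : Place F M, vmax w.1 γ ≤
        max (w.1 (∑ j, (ξ₀ j : M) * γ j)) (w.1 (∑ j, (ξ₁ j : M) * γ j))) ∧
      Transcendental F ((∑ j, (ξ₁ j : M) * γ j) / ∑ j, (ξ₀ j : M) * γ j) := by
  classical
  have hLc : CharZero L := charZero_of_injective_algebraMap (algebraMap κ L).injective
  have hMc : CharZero M := charZero_of_injective_algebraMap (algebraMap F M).injective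
  -- `t 0`
  obtain ⟨t₀, ht₀⟩ := ((finite_pow_zero hx).union (finite_pow_zero hγ)).exists_notMem
  rw [Set.mem_union, not_or] at ht₀
  obtain ⟨hη₀, hω₀⟩ := ht₀
  rw [Set.mem_ofPred_eq] at hη₀ hω₀
  set η₀ : L := ∑ j : Fin (n + 1), ((t₀ ^ (j : ℕ) : ℕ) : L) * x j with hη₀d
  set ω₀ : M := ∑ j : Fin (n + 1), ((t₀ ^ (j : ℕ) : ℕ) : M) * γ j with hω₀d
  -- `t 1`
  have hbadL : ({w : Place κ L | w.1 η₀ ≠ 1} ∪ {w : Place κ L | vmax w.1 x ≠ 1}).Finite :=
    (hL.place_finite hη₀).union (hL.vmax_finite hx)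
  have hbadM : ({w : Place F M | w.1 ω₀ ≠ 1} ∪ {w : Place F M | vmax w.1 γ ≠ 1}).Finite :=
    (hM.place_finite hω₀).union (hM.vmax_finite hγ)
  have hfinL : (⋃ w ∈ {w : Place κ L | w.1 η₀ ≠ 1} ∪ {w : Place κ L | vmax w.1 x ≠ 1},
      {t : ℕ | w.1 (∑ j : Fin (n + 1), ((t ^ (j : ℕ) : ℕ) : L) * x j) ≠ vmax w.1 x}).Finite :=
    hbadL.biUnion fun w _ => finite_bad hL hx w
  have hfinM : (⋃ w ∈ {w : Place F M | w.1 ω₀ ≠ 1} ∪ {w : Place F M | vmax w.1 γ ≠ 1},
      {t : ℕ | w.1 (∑ j : Fin (n + 1), ((t ^ (j : ℕ) : ℕ) : M) * γ j) ≠ vmax w.1 γ}).Finite :=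
    hbadM.biUnion fun w _ => finite_bad hM hγ w
  obtain ⟨t₁, ht₁⟩ := (hfinL.union hfinM).exists_notMem
  rw [Set.mem_union, not_or] at ht₁
  obtain ⟨ht₁, ht₁'⟩ := ht₁
  set ω₁ : M := ∑ j : Fin (n + 1), ((t₁ ^ (j : ℕ) : ℕ) : M) * γ j with hω₁d
  have hmaxL : ∀ w : Place κ L, vmax w.1 x ≤ max (w.1 η₀)
      (w.1 (∑ j : Fin (n + 1), ((t₁ ^ (j : ℕ) : ℕ) : L) * x j)) := by
    intro w
    by_cases hw : w ∈ {w : Place κ L | w.1 η₀ ≠ 1} ∪ {w : Place κ L | vmax w.1 x ≠ 1}
    · have h1 : w.1 (∑ j : Fin (n + 1), ((t₁ ^ (j : ℕ) : ℕ) : L) * x j) = vmax w.1 x := by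
        by_contra hne
        exact ht₁ (Set.mem_biUnion hw hne)
      rw [← h1]
      exact le_max_right _ _
    · simp only [Set.mem_union, Set.mem_ofPred_eq, not_or, not_not] at hw
      have h2 : vmax w.1 x ≤ w.1 η₀ := by rw [hw.2]; exact hw.1.ge
      exact h2.trans (le_max_left _ _)
  have hmax : ∀ w : Place F M, vmax w.1 γ ≤ max (w.1 ω₀) (w.1 ω₁) := by
    intro w
    by_cases hw : w ∈ {w : Place F M | w.1 ω₀ ≠ 1} ∪ {w : Place F M | vmax w.1 γ ≠ 1}
    · have h1 : w.1 ω₁ = vmax w.1 γ := by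
        by_contra hne
        exact ht₁' (Set.mem_biUnion hw hne)
      rw [← h1]
      exact le_max_right _ _
    · simp only [Set.mem_union, Set.mem_ofPred_eq, not_or, not_not] at hw
      have h2 : vmax w.1 γ ≤ w.1 ω₀ := by rw [hw.2]; exact hw.1.ge
      exact h2.trans (le_max_left _ _)
  -- transcendence
  have hX : Transcendental F (ω₁ / ω₀) := by
    intro halg
    obtain ⟨c, hc⟩ : ∃ c : F, algebraMap F M c = ω₁ / ω₀ := by
      have h1 : IsIntegral F (ω₁ / ω₀) := halg.isIntegral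
      have h2 := IsAlgClosed.degree_eq_one_of_irreducible F (minpoly.irreducible h1)
      exact minpoly.mem_range_of_degree_eq_one F _ h2
    have hle : ∀ w : Place F M, vmax w.1 γ ≤ w.1 ω₀ := by
      intro w
      refine (hmax w).trans (max_le le_rfl ?_)
      have h1 : ω₁ = algebraMap F M c * ω₀ := by rw [hc, div_mul_cancel₀ _ hω₀]
      rw [h1, map_mul]
      rcases eq_or_ne c 0 with h0 | h0
      · rw [h0, map_zero, map_zero, zero_mul]
        exact zero_le
      · rw [w.2.2 c h0, one_mul]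
    have hconst : ∀ j, ∃ a : F, algebraMap F M a = γ j / ω₀ := by
      intro j
      refine Pool.Agent.Lib.MP_44a246_ntR.const_of_rr_zero hM fun w => ?_
      rw [map_div₀]
      exact div_le_one_of_le₀ ((le_vmax w.1 γ j).trans (hle w)) zero_le
    have hbot : pointField F γ ≤ ⊥ := by
      unfold pointField
      rw [IntermediateField.adjoin_le_iff]
      rintro z ⟨i, j, rfl⟩
      obtain ⟨a, ha⟩ := hconst i
      obtain ⟨b, hb⟩ := hconst j
      have h1 : γ i / γ j = (γ i / ω₀) / (γ j / ω₀) := by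
        rw [div_div_div_cancel_right₀ hω₀]
      rw [h1, ← ha, ← hb, ← map_div₀]
      exact IntermediateField.algebraMap_mem _ _
    rw [hgen] at hbot
    obtain ⟨s, hs, -⟩ := hM
    have h1 : s ∈ (⊥ : IntermediateField F M) := hbot trivial
    rw [IntermediateField.mem_bot] at h1
    obtain ⟨a, ha⟩ := h1
    exact hs (ha ▸ isAlgebraic_algebraMap a)
  exact ⟨fun j => t₀ ^ (j : ℕ), fun j => t₁ ^ (j : ℕ), hη₀, hmaxL, hω₀, hmax, hX⟩

section form

variable {L : Type*} [Field L]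

/-- the coefficients of a product -/
private theorem coeff_mul_le (v : Valuation L ℤᵐ⁰) {σ : Type*} {P Q : MvPolynomial σ L}
    (hP : ∀ I, v (P.coeff I) ≤ 1) (hQ : ∀ I, v (Q.coeff I) ≤ 1) (I : σ →₀ ℕ) :
    v ((P * Q).coeff I) ≤ 1 := by
  classical
  rw [MvPolynomial.coeff_mul]
  refine Valuation.map_sum_le _ fun J _ => ?_
  rw [map_mul]
  exact mul_le_one' (hP _) (hQ _)

private theorem coeff_one_le (v : Valuation L ℤᵐ⁰) {σ : Type*} (I : σ →₀ ℕ) :
    v ((1 : MvPolynomial σ L).coeff I) ≤ 1 := by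
  classical
  rw [MvPolynomial.coeff_one]
  split_ifs
  · rw [map_one]
  · rw [map_zero]
    exact zero_le

private theorem coeff_pow_le (v : Valuation L ℤᵐ⁰) {σ : Type*} {P : MvPolynomial σ L}
    (hP : ∀ I, v (P.coeff I) ≤ 1) (k : ℕ) (I : σ →₀ ℕ) : v ((P ^ k).coeff I) ≤ 1 := by
  induction k generalizing I with
  | zero =>
    rw [pow_zero]
    exact coeff_one_le v I
  | succ k ih =>
    rw [pow_succ]
    exact coeff_mul_le v ih hP I

private theorem coeff_prod_le (v : Valuation L ℤᵐ⁰) {σ τ : Type*} (s : Finset τ)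
    {P : τ → MvPolynomial σ L} (hP : ∀ t I, v ((P t).coeff I) ≤ 1) (I : σ →₀ ℕ) :
    v ((∏ t ∈ s, P t).coeff I) ≤ 1 := by
  classical
  induction s using Finset.induction_on generalizing I with
  | empty =>
    rw [Finset.prod_empty]
    exact coeff_one_le v I
  | insert a s ha ih =>
    rw [Finset.prod_insert ha]
    exact coeff_mul_le v (hP a) ih I

/-- the coefficients after the substitution of forms with integral coefficients -/
theorem coeff_aeval_le (v : Valuation L ℤᵐ⁰) {σ τ : Type*} [Fintype τ]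
    {l : τ → MvPolynomial σ L} (hl : ∀ t I, v ((l t).coeff I) ≤ 1) (P : MvPolynomial τ L)
    (I : σ →₀ ℕ) : v ((MvPolynomial.aeval l P).coeff I) ≤ nrm v P := by
  classical
  rw [MvPolynomial.aeval_def, MvPolynomial.eval₂_eq', MvPolynomial.coeff_sum]
  refine Valuation.map_sum_le _ fun J hJ => ?_
  have h1 : algebraMap L (MvPolynomial σ L) (P.coeff J) = MvPolynomial.C (P.coeff J) := rfl
  rw [h1, MvPolynomial.coeff_C_mul, map_mul]
  calc v (P.coeff J) * v ((∏ t, l t ^ J t).coeff I) ≤ nrm v P * 1 :=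
        mul_le_mul' (le_nrm v P J)
          (coeff_prod_le v Finset.univ (fun t => coeff_pow_le v (hl t) (J t)) I)
    _ = nrm v P := mul_one _

/-- **The form** obtained by the substitution of linear forms. -/
theorem exists_subst {n e : ℕ} {P : MvPolynomial (Fin 3) L} (hP : P.IsHomogeneous e)
    (l : Fin 3 → Fin (n + 1) → L) : ∃ a : (Fin (n + 1) →₀ ℕ) → L,
      (∀ (v : Valuation L ℤᵐ⁰), (∀ k j, v (l k j) ≤ 1) → ∀ I, v (a I) ≤ nrm v P) ∧
      (∀ (S : Type _) [CommRing S] (φ : L →+* S) (x : Fin (n + 1) → S),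
        ∑ I ∈ expo (Fin (n + 1)) e, φ (a I) * ∏ j, x j ^ I j =
          MvPolynomial.eval₂ φ (fun k => ∑ j, φ (l k j) * x j) P) := by
  classical
  set lf : Fin 3 → MvPolynomial (Fin (n + 1)) L := fun k =>
    ∑ j, MvPolynomial.C (l k j) * MvPolynomial.X j with hlf
  set G : MvPolynomial (Fin (n + 1)) L := MvPolynomial.aeval lf P with hG
  have hlh : ∀ k, (lf k).IsHomogeneous 1 := by
    intro k
    refine MvPolynomial.IsHomogeneous.sum _ _ _ fun j _ => ?_
    have h1 := (MvPolynomial.isHomogeneous_C (Fin (n + 1)) (l k j)).mul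
      (MvPolynomial.isHomogeneous_X L j)
    rwa [zero_add] at h1
  have hGh : G.IsHomogeneous e := by
    rw [hG, MvPolynomial.aeval_def, MvPolynomial.eval₂_eq']
    refine MvPolynomial.IsHomogeneous.sum _ _ _ fun J hJ => ?_
    have h1 : (∏ k, lf k ^ J k).IsHomogeneous (∑ k, J k) := by
      refine MvPolynomial.IsHomogeneous.prod _ _ _ fun k _ => ?_
      have h2 := (hlh k).pow (J k)
      rwa [one_mul] at h2
    have h2 : ∑ k, J k = e := by
      have h3 := hP (MvPolynomial.mem_support_iff.mp hJ)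
      rw [← Finsupp.degree_eq_sum, ← h3, Finsupp.degree_eq_weight_one]
      rfl
    rw [h2] at h1
    have h4 := (MvPolynomial.isHomogeneous_C (Fin (n + 1)) (P.coeff J)).mul h1
    rwa [zero_add] at h4
  refine ⟨fun I => G.coeff I, fun v hv I => ?_, fun S _ φ x => ?_⟩
  · refine coeff_aeval_le v (fun k I => ?_) P I
    rw [hlf]
    simp only
    rw [MvPolynomial.coeff_sum]
    refine Valuation.map_sum_le _ fun j _ => ?_
    rw [MvPolynomial.coeff_C_mul, map_mul, MvPolynomial.coeff_X]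
    split_ifs
    · rw [map_one, mul_one]
      exact hv k j
    · rw [map_zero, mul_zero]
      exact zero_le
  · have h1 : MvPolynomial.eval₂ φ x G =
        ∑ I ∈ expo (Fin (n + 1)) e, φ (G.coeff I) * ∏ j, x j ^ I j := by
      rw [MvPolynomial.eval₂_eq']
      apply Finset.sum_subset
      · intro I hI
        rw [mem_expo]
        have h1 := hGh (MvPolynomial.mem_support_iff.mp hI)
        rw [← h1, Finsupp.degree_eq_weight_one]
        rfl
      · intro I _ hI
        rw [MvPolynomial.notMem_support_iff.mp hI, map_zero, zero_mul]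
    rw [← h1, hG, ← MvPolynomial.coe_eval₂Hom, ← MvPolynomial.coe_eval₂Hom,
      MvPolynomial.aeval_def, ← MvPolynomial.coe_eval₂Hom, ← RingHom.comp_apply]
    congr 1
    apply MvPolynomial.ringHom_ext
    · intro c
      rw [RingHom.comp_apply, MvPolynomial.eval₂Hom_C, MvPolynomial.eval₂Hom_C]
      exact MvPolynomial.eval₂Hom_C _ _ _
    · intro k
      rw [RingHom.comp_apply, MvPolynomial.eval₂Hom_X', MvPolynomial.eval₂Hom_X', hlf]
      simp only
      rw [map_sum]
      refine Finset.sum_congr rfl fun j _ => ?_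
      rw [map_mul, MvPolynomial.eval₂Hom_C, MvPolynomial.eval₂Hom_X']

end form

end Pool.Agent.Lib.MP_44a246_ntSP
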