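import Mathlib
import Pool.Agent.Lib.MP_44a246_ntPC.E2

/-!
SHARP PAIRS (paper 667), repair (R1): functions with the poles of `X`, their integral equations.
-/

namespace Pool.Agent.Lib.MP_44a246_ntSP

open Pool.Agent.Lib.MP_e52354_nt
open Pool.Agent.Lib.MP_44a246_nt
open Pool.Agent.Lib.MP_44a246_ntL
open Pool.Agent.Lib.MP_44a246_ntR
open Pool.Agent.Lib.MP_44a246_ntS
open Pool.Agent.Lib.MP_44a246_ntE
open Pool.Agent.Lib.MP_44a246_ntPC
open WithZero Polynomial Module

section

variable {κ M : Type*} [Field κ] [IsAlgClosed κ] [CharZero κ] [Field M] [Algebra κ M]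
  [Algebra κ[X] M] [IsScalarTower κ κ[X] M]
  [Algebra (RatFunc κ) M] [IsScalarTower κ[X] (RatFunc κ) M]
  [Algebra (Rinf κ) M] [IsScalarTower (Rinf κ) (RatFunc κ) M]
  [FiniteDimensional (RatFunc κ) M]

/-- **The integral equation.** -/
theorem exists_int_eq {Y : M} (hY : ∀ w : Place κ M, w.1 Y ≤ max 1 (w.1 (algebraMap κ[X] M X))) :
    ∃ (r : ℕ) (c : ℕ → κ[X]), c 0 = 1 ∧ (∀ i, (c i).natDegree ≤ i) ∧
      ∑ i ∈ Finset.range (r + 1), algebraMap κ[X] M (c i) * Y ^ (r - i) = 0 := by
  classical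
  set x : M := algebraMap κ[X] M X with hx
  set a : RatFunc κ := algebraMap κ[X] (RatFunc κ) X with ha
  have hXne : (X : κ[X]) ≠ 0 := X_ne_zero
  have ha0 : a ≠ 0 := fun h => hXne (IsFractionRing.injective κ[X] (RatFunc κ)
    (h.trans (map_zero _).symm))
  have hxa : algebraMap (RatFunc κ) M a = x := by
    rw [ha, hx, IsScalarTower.algebraMap_apply κ[X] (RatFunc κ) M]
  have hf := faithful_RL κ[X] (RatFunc κ) M
  have htf : Module.IsTorsionFree κ[X] M := inferInstance
  -- integrality
  have h1 : IsIntegral κ[X] Y := by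
    refine isIntegral_of_places (κ := κ) (RatFunc κ) fun v hv => ?_
    have h3 := (place_poly_iff v).1 hv
    exact (hY v).trans (max_le le_rfl h3)
  let _ : Algebra κ (Rinf κ) := (constRinf κ).toAlgebra
  have ht : IsScalarTower κ (Rinf κ) M := by
    refine IsScalarTower.of_algebraMap_eq fun c => ?_
    rw [IsScalarTower.algebraMap_apply (Rinf κ) (RatFunc κ) M,
      IsScalarTower.algebraMap_apply κ κ[X] M,
      IsScalarTower.algebraMap_apply κ[X] (RatFunc κ) M]
    rfl
  have h2 : IsIntegral (Rinf κ) (algebraMap (RatFunc κ) M a⁻¹ * Y) := by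
    refine isIntegral_of_places (κ := κ) (RatFunc κ) fun v hv => ?_
    have h3 := (place_rinf_iff v).1 hv
    push Not at h3
    have h4 := (hY v).trans (max_le h3.le le_rfl)
    rw [map_inv₀, hxa, map_mul, map_inv₀]
    have h5 : 0 < v.1 x := zero_lt_one.trans h3
    rw [mul_comm, ← div_eq_mul_inv]
    exact div_le_one_of_le₀ h4 h5.le
  -- the degrees
  have hgen' : IntermediateField.adjoin (RatFunc κ) {algebraMap (RatFunc κ) M a⁻¹ * Y} =
      IntermediateField.adjoin (RatFunc κ) {Y} := by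
    refine le_antisymm ?_ ?_
    · rw [IntermediateField.adjoin_le_iff, Set.singleton_subset_iff]
      exact mul_mem (IntermediateField.algebraMap_mem _ _)
        (IntermediateField.mem_adjoin_simple_self (RatFunc κ) Y)
    · rw [IntermediateField.adjoin_le_iff, Set.singleton_subset_iff]
      have h3 : Y = algebraMap (RatFunc κ) M a * (algebraMap (RatFunc κ) M a⁻¹ * Y) := by
        rw [← mul_assoc, ← map_mul, mul_inv_cancel₀ ha0, map_one, one_mul]
      have h4 := mul_mem (IntermediateField.algebraMap_mem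
          (IntermediateField.adjoin (RatFunc κ) {algebraMap (RatFunc κ) M a⁻¹ * Y}) a)
        (IntermediateField.mem_adjoin_simple_self (RatFunc κ) (algebraMap (RatFunc κ) M a⁻¹ * Y))
      rw [← h3] at h4
      exact h4
  have hdeg : (minpoly (RatFunc κ) (algebraMap (RatFunc κ) M a⁻¹ * Y)).natDegree =
      (minpoly (RatFunc κ) Y).natDegree := by
    have h3 := IntermediateField.adjoin.finrank (K := RatFunc κ) (x := Y)
      (IsIntegral.of_finite (RatFunc κ) Y)
    have h4 := IntermediateField.adjoin.finrank (K := RatFunc κ)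
      (x := algebraMap (RatFunc κ) M a⁻¹ * Y) (IsIntegral.of_finite (RatFunc κ) _)
    rw [hgen', h3] at h4
    exact h4.symm
  have e1 := minpoly.isIntegrallyClosed_eq_field_fractions' (RatFunc κ) h1
  have e2 := minpoly.isIntegrallyClosed_eq_field_fractions' (RatFunc κ) h2
  set A := minpoly κ[X] Y with hA
  have hAm : A.Monic := minpoly.monic h1
  have hAd : (minpoly (RatFunc κ) Y).natDegree = A.natDegree := by
    rw [e1, hAm.natDegree_map]
  obtain ⟨r, hr⟩ : ∃ r, r = A.natDegree := ⟨_, rfl⟩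
  -- the polynomial with the scaled roots
  set B := scaleRoots (minpoly (RatFunc κ) Y) a⁻¹ with hB
  have hBm : B.Monic := by
    rw [hB, monic_scaleRoots_iff]
    exact minpoly.monic (IsIntegral.of_finite (RatFunc κ) Y)
  have hB0 : aeval (algebraMap (RatFunc κ) M a⁻¹ * Y) B = 0 :=
    scaleRoots_aeval_eq_zero (minpoly.aeval _ _)
  have hBe : minpoly (RatFunc κ) (algebraMap (RatFunc κ) M a⁻¹ * Y) = B := by
    refine (eq_of_monic_of_dvd_of_natDegree_le
      (minpoly.monic (IsIntegral.of_finite (RatFunc κ) _)) hBm (minpoly.dvd _ _ hB0) ?_).symm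
    rw [hdeg, hB, natDegree_scaleRoots]
  have hcoef : ∀ i, i ≤ r → (A.coeff i).natDegree + i ≤ r := by
    intro i hir
    by_cases hAi : A.coeff i = 0
    · rw [hAi, natDegree_zero]
      omega
    have h3 : B.coeff i = algebraMap (Rinf κ) (RatFunc κ)
        ((minpoly (Rinf κ) (algebraMap (RatFunc κ) M a⁻¹ * Y)).coeff i) := by
      rw [← hBe, e2, coeff_map]
    have h4 : (B.coeff i).intDegree ≤ 0 := by
      rw [h3]
      exact (mem_Rinf κ).mp ((minpoly (Rinf κ) (algebraMap (RatFunc κ) M a⁻¹ * Y)).coeff i).2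
    rw [hB, coeff_scaleRoots, hAd, e1, coeff_map, ← hr] at h4
    have h5 : algebraMap κ[X] (RatFunc κ) (A.coeff i) ≠ 0 := fun h =>
      hAi (IsFractionRing.injective κ[X] (RatFunc κ) (h.trans (map_zero _).symm))
    have h6 : ∀ n : ℕ, (a⁻¹ ^ n).intDegree = -(n : ℤ) := by
      intro n
      induction n with
      | zero => simp
      | succ n ih =>
        rw [pow_succ, RatFunc.intDegree_mul (pow_ne_zero _ (inv_ne_zero ha0)) (inv_ne_zero ha0),
          ih, RatFunc.intDegree_inv, ha, RatFunc.intDegree_polynomial, natDegree_X]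
        push_cast
        ring
    rw [RatFunc.intDegree_mul h5 (pow_ne_zero _ (inv_ne_zero ha0)), h6,
      RatFunc.intDegree_polynomial] at h4
    omega
  refine ⟨r, fun i => if i ≤ r then A.coeff (r - i) else 0, ?_, fun i => ?_, ?_⟩
  · show (if 0 ≤ r then A.coeff (r - 0) else 0) = 1
    rw [if_pos (Nat.zero_le _), Nat.sub_zero, hr]
    exact hAm
  · dsimp only
    split_ifs with h
    · have := hcoef (r - i) (by omega)
      omega
    · rw [natDegree_zero]
      exact Nat.zero_le _
  · have h3 : aeval Y A = 0 := minpoly.aeval _ _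
    rw [aeval_eq_sum_range, ← hr] at h3
    rw [← h3, ← Finset.sum_range_reflect]
    refine Finset.sum_congr rfl fun i hi => ?_
    rw [Finset.mem_range] at hi
    have e : r + 1 - 1 - i = r - i := by omega
    dsimp only
    rw [e, if_pos (Nat.sub_le _ _), Nat.sub_sub_self (by omega), Algebra.smul_def]

end

/-- The integral equation bounds the values. -/
theorem val_le_of_eq {κ M : Type*} [Field κ] [Field M] (φ : κ →+* M) {x g : M} {r : ℕ}
    {c : ℕ → κ[X]} (h0 : c 0 = 1) (hc : ∀ i, (c i).natDegree ≤ i)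
    (h : ∑ i ∈ Finset.range (r + 1), (c i).eval₂ φ x * g ^ (r - i) = 0)
    (v : Valuation M ℤᵐ⁰) (hv : ∀ u : κ, v (φ u) ≤ 1) : v g ≤ max 1 (v x) := by
  by_contra hcon
  push Not at hcon
  have hm : ∀ i, v ((c i).eval₂ φ x) ≤ max 1 (v x) ^ i := by
    intro i
    rw [eval₂_eq_sum_range]
    refine Valuation.map_sum_le _ fun k hk => ?_
    rw [Finset.mem_range] at hk
    rw [map_mul, map_pow]
    calc v (φ ((c i).coeff k)) * v x ^ k ≤ 1 * max 1 (v x) ^ k :=
          mul_le_mul' (hv _) (pow_le_pow_left' (le_max_right _ _) k)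
      _ = max 1 (v x) ^ k := one_mul _
      _ ≤ max 1 (v x) ^ i := pow_le_pow_right' (le_max_left _ _) (by have := hc i; omega)
  have hg0 : v g ≠ 0 := by
    intro h1
    rw [h1] at hcon
    exact absurd hcon not_lt_zero
  have hmax0 : (0 : ℤᵐ⁰) < max 1 (v x) := zero_lt_one.trans_le (le_max_left _ _)
  rw [Finset.sum_range_succ'] at h
  have h1 : (c 0).eval₂ φ x * g ^ (r - 0) = g ^ r := by
    rw [h0, eval₂_one, one_mul, Nat.sub_zero]
  rw [h1] at h
  have h2 : g ^ r = -∑ i ∈ Finset.range r, (c (i + 1)).eval₂ φ x * g ^ (r - (i + 1)) := by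
    linear_combination h
  have h3 : v (g ^ r) < v g ^ r := by
    rw [h2, Valuation.map_neg]
    refine Valuation.map_sum_lt _ (pow_ne_zero _ hg0) fun i hi => ?_
    rw [Finset.mem_range] at hi
    rw [map_mul, map_pow]
    calc v ((c (i + 1)).eval₂ φ x) * v g ^ (r - (i + 1)) ≤
        max 1 (v x) ^ (i + 1) * v g ^ (r - (i + 1)) := mul_le_mul' (hm _) le_rfl
      _ < v g ^ (i + 1) * v g ^ (r - (i + 1)) := by
          refine mul_lt_mul_of_pos_right ?_ (pow_pos (zero_lt_iff.2 hg0) _)
          exact pow_lt_pow_left₀ hcon hmax0.le (Nat.succ_ne_zero i)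
      _ = v g ^ r := by
          rw [← pow_add]
          congr 1
          omega
  rw [map_pow] at h3
  exact lt_irrefl _ h3

end Pool.Agent.Lib.MP_44a246_ntSP
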