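import Mathlib
import Pool.Agent.Lib.MP_44a246_ntE.E22
import Pool.Agent.Lib.MP_44a246_ntG.G14
import Pool.Agent.Lib.MP_44a246_ntPC.E8

/-!
SHARP PAIRS (paper 667), repair (R1): the field of functions of the curve over an algebraic closure,
with the derivations.
-/

namespace Pool.Agent.Lib.MP_44a246_ntSP

open Pool.Agent.Lib.MP_e52354_nt
open Pool.Agent.Lib.MP_44a246_nt
open Pool.Agent.Lib.MP_44a246_ntL
open Pool.Agent.Lib.MP_44a246_ntR
open Pool.Agent.Lib.MP_44a246_ntS
open Pool.Agent.Lib.MP_44a246_ntE
open Pool.Agent.Lib.MP_44a246_ntG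
open WithZero Polynomial Module

universe u v

/-- `L` in an extension of its algebraic closure -/
noncomputable def psi (L M : Type*) [Field L] [Field M] [Algebra (AlgebraicClosure L) M] :
    L →+* M :=
  (algebraMap (AlgebraicClosure L) M).comp (algebraMap L (AlgebraicClosure L))

/-- evaluation after the base change -/
theorem ev_mp {L F S : Type*} [Field L] [Field F] [Algebra L F] [CommRing S] (φ : F →+* S)
    (s t : S) (G : L[X][X]) : ev φ s t (mp L F G) = ev (φ.comp (algebraMap L F)) s t G := by
  have h1 : (eval₂RingHom φ s).comp (mapRingHom (algebraMap L F)) =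
      eval₂RingHom (φ.comp (algebraMap L F)) s := by
    apply Polynomial.ringHom_ext
    · intro c
      rw [RingHom.comp_apply, coe_mapRingHom, map_C, coe_eval₂RingHom, coe_eval₂RingHom, eval₂_C,
        eval₂_C]
      rfl
    · rw [RingHom.comp_apply, coe_mapRingHom, map_X, coe_eval₂RingHom, coe_eval₂RingHom, eval₂_X,
        eval₂_X]
  unfold mp
  rw [ev_apply, ev_apply, coe_mapRingHom, eval₂_map, h1]

/-- **The field of functions of the curve**, over an algebraic closure. -/
theorem with_fld {κ : Type v} {L : Type u} [Field κ] [IsAlgClosed κ] [CharZero κ] [Field L]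
    [CharZero L] [Algebra κ L] (h : IsFF κ L) {n d₀ : ℕ} (Z : DatG κ (L := L) n d₀) {b : ℕ}
    {A : L[X][X]} (hA : CrvG Z b A)
    (hspan : 9 * (b : ℤ) * gh κ A + 3 * b * Z.Δ < height κ Z.x) {P : Prop}
    (H : ∀ (M : Type u) (_ : Field M) (_ : Algebra (AlgebraicClosure L) M) (x y : M)
      (γ : Fin (n + 1) → M) (D : Fin (n + 1) → Derivation ℤ M M), IsFF (AlgebraicClosure L) M →
      IntermediateField.adjoin (AlgebraicClosure L) {x, y} = ⊤ →
      (∀ G : L[X][X], A ∣ G → ev (psi L M) x y G = 0) →
      ev (psi L M) x y (derivative A) ≠ 0 →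
      (∀ j, ev (psi L M) x y (Z.B A j) = ev (psi L M) x y (derivative A) * γ j) →
      (∀ j c, D j (psi L M c) = psi L M (Z.E j c)) → (∀ i j, D j (γ i) = 0) → P) : P := by
  classical
  set F := AlgebraicClosure L with hFd
  have hchar : CharZero F := charZero_of_injective_algebraMap (algebraMap L F).injective
  set f : F[X][X] := mp L F A with hfd
  have hf : Irreducible f := irreducible_mp hA.irr hA.zero hA.der
  have hder : ∀ G : L[X][X], mp L F (derivative G) = derivative (mp L F G) := by
    intro G
    unfold mp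
    rw [coe_mapRingHom, derivative_map]
  have hnd : ∀ G : L[X][X], (mp L F G).natDegree = G.natDegree := by
    intro G
    unfold mp
    rw [coe_mapRingHom]
    refine natDegree_map_eq_of_injective ?_ G
    rw [coe_mapRingHom]
    exact map_injective _ (algebraMap L F).injective
  have hfdeg : f.natDegree ≠ 0 := by rw [hfd, hnd]; exact hA.deg
  refine with_curve hf (Nat.pos_of_ne_zero hfdeg) ?_
  intro M i1 i2 i3 i4 i5 i6 i7 i8 i9 Y hker hgen hfr htr halg
  have hfY : aeval Y f = 0 := (hker f).2 dvd_rfl
  have hIs : IsScalarTower F (RatFunc F) M := by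
    refine IsScalarTower.of_algebraMap_eq fun u => ?_
    rw [IsScalarTower.algebraMap_apply F F[X] M, IsScalarTower.algebraMap_apply F F[X] (RatFunc F),
      ← IsScalarTower.algebraMap_apply F[X] (RatFunc F) M]
  have hM : IsFF F M := isFF_of_ratFunc F M
  -- the structure over `L[X]`
  let iLX : Algebra L[X] M := ((algebraMap F[X] M).comp (mapRingHom (algebraMap L F))).toAlgebra
  have hLX : ∀ p : L[X], algebraMap L[X] M p = algebraMap F[X] M (p.map (algebraMap L F)) :=
    fun p => rfl
  have hae : ∀ G : L[X][X], aeval Y G = aeval Y (mp L F G) := by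
    intro G
    unfold mp
    rw [aeval_def, aeval_def, coe_mapRingHom, eval₂_map]
    rfl
  have hev : ∀ G : L[X][X], ev (psi L M) (algebraMap F[X] M X) Y G = aeval Y G := by
    intro G
    have h1 := ev_mp (algebraMap F M) (algebraMap F[X] M X) Y G
    rw [ev_aeval, ← hae] at h1
    exact h1.symm
  have hmY : aeval Y (derivative A) ≠ 0 := by
    intro h0
    rw [hae, hker, hder] at h0
    have h1 : f ∣ derivative f := h0
    have h2 : derivative f ≠ 0 := by
      intro h3
      exact hfdeg (natDegree_eq_zero_of_derivative_eq_zero h3)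
    have h3 := natDegree_le_of_dvd h1 h2
    have h4 := natDegree_derivative_lt hfdeg
    omega
  have hA0 : aeval Y A = 0 := by rw [hae]; exact hfY
  -- extension of derivations
  have hext : ∀ D : Derivation ℤ L L, ∃ (D' : Derivation ℤ M M),
      (∀ c, D' (psi L M c) = psi L M (D c)) ∧
      ∀ p : L[X], D' (algebraMap L[X] M p) = algebraMap L[X] M (MP_44a246_ntW.cp D p) := by
    intro D
    obtain ⟨D₀, hD₀⟩ := exists_extension (L := F) D
    obtain ⟨D', hD', hX'⟩ := exists_der_ext htr halg D₀ 0
    refine ⟨D', fun c => ?_, fun p => ?_⟩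
    · show D' (algebraMap F M (algebraMap L F c)) = algebraMap F M (algebraMap L F (D c))
      rw [hD', hD₀]
    induction p using Polynomial.induction_on' with
    | add p q hp hq => rw [map_add, map_add, hp, hq, MP_44a246_ntW.cp_add, map_add]
    | monomial n a =>
      have e1 : MP_44a246_ntW.cp D (monomial n a) = monomial n (D a) := by
        ext j
        rw [MP_44a246_ntW.cp_coeff, coeff_monomial, coeff_monomial]
        split_ifs
        · rfl
        · exact map_zero D
      have e2 : ∀ c : L, algebraMap L[X] M (monomial n c) =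
          algebraMap F M (algebraMap L F c) * algebraMap F[X] M X ^ n := by
        intro c
        rw [hLX, map_monomial, ← C_mul_X_pow_eq_monomial, map_mul, map_pow,
          IsScalarTower.algebraMap_apply F F[X] M, algebraMap_eq]
      rw [e1, e2, e2, Derivation.leibniz, Derivation.leibniz_pow, hX', hD', hD₀]
      simp only [smul_eq_mul, mul_zero, zero_add, smul_zero]
      ring
  choose D' hD'1 hD'2 using fun j => hext (Z.E j)
  refine H M i1 i2 (algebraMap F[X] M X) Y (fun i => MP_44a246_ntW.yv (Z.E i) A Y) D' hM ?_ ?_ ?_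
    ?_ hD'1 ?_
  · exact Pool.Agent.Lib.MP_44a246_ntPC.top_of_mem hgen _
      (IntermediateField.subset_adjoin _ _ (Set.mem_insert _ _))
      (IntermediateField.subset_adjoin _ _ (Set.mem_insert_of_mem _ (Set.mem_singleton _)))
  · intro G hG
    rw [hev]
    obtain ⟨Q, rfl⟩ := hG
    rw [map_mul, hA0, zero_mul]
  · rw [hev]
    exact hmY
  · intro j
    rw [hev, hev]
    show aeval Y (-cd (Z.E j) A) = aeval Y (derivative A) *
      (aeval Y (-MP_44a246_ntW.cq (Z.E j) A) / aeval Y (derivative A))
    rw [mul_div_cancel₀ _ hmY]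
    rfl
  · intro i j
    exact MP_44a246_ntW.D_yv (hD'2 j) hA0 hmY (dvd_EE Z hA h hspan i j)

end Pool.Agent.Lib.MP_44a246_ntSP
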