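import Mathlib
import Pool.Agent.Lib.MP_44a246_ntSP.NP02
import Pool.Agent.Lib.MP_44a246_ntSP.NP04

/-!
SHARP PAIRS (paper 667), repair (R1): the curve in the generic coordinates. The part in the field of
functions over the algebraic closure.
-/

namespace Pool.Agent.Lib.MP_44a246_ntSP

open Pool.Agent.Lib.MP_e52354_nt
open Pool.Agent.Lib.MP_44a246_nt
open Pool.Agent.Lib.MP_44a246_ntL
open Pool.Agent.Lib.MP_44a246_ntR
open Pool.Agent.Lib.MP_44a246_ntS
open Pool.Agent.Lib.MP_44a246_ntE
open Pool.Agent.Lib.MP_44a246_ntPC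
open WithZero Polynomial Module

universe u v

/-- the values of the polynomials lie in the field generated by the coordinates -/
private theorem ev_mem {L F M : Type*} [Field L] [Field F] [Field M] [Algebra F M]
    (φ : L →+* M) (K : IntermediateField F M) {s t : M} (hφ : ∀ c, φ c ∈ K) (hs : s ∈ K)
    (ht : t ∈ K) (G : L[X][X]) : ev φ s t G ∈ K := by
  induction G using Polynomial.induction_on' with
  | add p q hp hq =>
    rw [map_add]
    exact add_mem hp hq
  | monomial n a =>
    rw [ev_apply, eval₂_monomial]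
    refine mul_mem ?_ (pow_mem ht n)
    rw [coe_eval₂RingHom, eval₂_eq_sum_range]
    exact sum_mem fun i _ => mul_mem (hφ _) (pow_mem hs i)

private theorem exists_fn' (L F : Type*) [Field L] [Field F] [Algebra L F] :
    ∃ φ : F →ₗ[L] L, φ 1 = 1 := by
  have h1 : ¬ ∀ φ : Module.Dual L F, φ 1 = 0 := by
    rw [Module.forall_dual_apply_eq_zero_iff]
    exact one_ne_zero
  push Not at h1
  obtain ⟨φ, hφ⟩ := h1
  refine ⟨(φ 1)⁻¹ • φ, ?_⟩
  rw [LinearMap.smul_apply, smul_eq_mul, inv_mul_cancel₀ hφ]

private theorem fn_sum {L F : Type*} [Field L] [Field F] [Algebra L F] (φ : F →ₗ[L] L)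
    {ι : Type*} (s : Finset ι) (P : ι → F[X][X]) : fn φ (∑ i ∈ s, P i) = ∑ i ∈ s, fn φ (P i) := by
  ext i j
  rw [fn_coeff, finsetSum_coeff, finsetSum_coeff, finsetSum_coeff, finsetSum_coeff, map_sum]
  exact Finset.sum_congr rfl fun k _ => (fn_coeff φ (P k) i j).symm

/-- the functional applied to the coefficients of a polynomial in one variable -/
private theorem fn_C {L F : Type*} [Field L] [Field F] [Algebra L F] (φ : F →ₗ[L] L)
    (p : F[X]) : fn φ (C p) = C ((fn φ (C p)).coeff 0) := by
  ext i j
  rw [fn_coeff, coeff_C, coeff_C]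
  split_ifs with h
  · rw [fn_coeff, coeff_C_zero]
  · rw [coeff_zero, coeff_zero, map_zero]

private theorem fn_C_coeff {L F : Type*} [Field L] [Field F] [Algebra L F] (φ : F →ₗ[L] L)
    (p : F[X]) (j : ℕ) : ((fn φ (C p)).coeff 0).coeff j = φ (p.coeff j) := by
  rw [fn_coeff, coeff_C_zero]

/-- **The part in the field of functions.** -/
theorem field_part {L M : Type u} [Field L] [CharZero L] [Field M]
    [Algebra (AlgebraicClosure L) M] (hM : IsFF (AlgebraicClosure L) M) {A : L[X][X]}
    (hirr : Irreducible (mp L (AlgebraicClosure L) A)) (hdeg : A.natDegree ≠ 0) {s t : M}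
    (hs : Transcendental (AlgebraicClosure L) s) (hA : ev (psi L M) s t A = 0) {N : Type*}
    {B : N → L[X][X]} {g : N → M}
    (hB : ∀ j, ev (psi L M) s t (B j) = ev (psi L M) s t (derivative A) * g j)
    (hgen : (∀ j, g j ∈ IntermediateField.adjoin (AlgebraicClosure L) {s, t}) →
      IntermediateField.adjoin (AlgebraicClosure L) {s, t} = ⊤)
    (hg : ∀ j (w : Place (AlgebraicClosure L) M), w.1 (g j) ≤ max 1 (w.1 s))
    (ht : ∀ w : Place (AlgebraicClosure L) M, w.1 t ≤ max 1 (w.1 s)) :
    (∃ c : L, A.leadingCoeff = C c) ∧ Tot A.natDegree A ∧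
      ∀ j, ∃ (r : ℕ) (c : ℕ → L[X]), c 0 = 1 ∧ (∀ i, (c i).natDegree ≤ i) ∧
        A ∣ ∑ i ∈ Finset.range (r + 1), C (c i) * B j ^ (r - i) * derivative A ^ i := by
  classical
  set F := AlgebraicClosure L with hFd
  have hchar : CharZero F := charZero_of_injective_algebraMap (algebraMap L F).injective
  set f : F[X][X] := mp L F A with hfd
  have hder : mp L F (derivative A) = derivative f := by
    rw [hfd]
    unfold mp
    rw [coe_mapRingHom, derivative_map]
  have hnd : f.natDegree = A.natDegree := by
    rw [hfd]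
    unfold mp
    rw [coe_mapRingHom]
    refine natDegree_map_eq_of_injective ?_ A
    rw [coe_mapRingHom]
    exact map_injective _ (algebraMap L F).injective
  have hfdeg : f.natDegree ≠ 0 := by rw [hnd]; exact hdeg
  refine with_sep hM hs ?_
  intro iA t1 iR t2 iI t3 fd hXs
  have hIs : IsScalarTower F (RatFunc F) M := by
    refine IsScalarTower.of_algebraMap_eq fun u => ?_
    rw [IsScalarTower.algebraMap_apply F F[X] M, IsScalarTower.algebraMap_apply F F[X] (RatFunc F),
      ← IsScalarTower.algebraMap_apply F[X] (RatFunc F) M]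
  have hae : ∀ G : L[X][X], ev (psi L M) s t G = aeval t (mp L F G) := by
    intro G
    have h1 := ev_mp (algebraMap F M) s t G
    rw [← hXs, ev_aeval, hXs] at h1
    exact h1.symm
  have hf0 : aeval t f = 0 := by rw [hfd, ← hae]; exact hA
  -- the derivative
  have hinj : Function.Injective (algebraMap F[X] (RatFunc F)) := IsFractionRing.injective _ _
  have hprim : f.IsPrimitive := hirr.isPrimitive hfdeg
  have hgirr : Irreducible (f.map (algebraMap F[X] (RatFunc F))) :=
    (hprim.irreducible_iff_irreducible_map_fraction_map (K := RatFunc F)).mp hirr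
  have haeR : ∀ G : F[X][X], aeval t (G.map (algebraMap F[X] (RatFunc F))) = aeval t G := fun G =>
    aeval_map_algebraMap (RatFunc F) t G
  have hm : ev (psi L M) s t (derivative A) ≠ 0 := by
    rw [hae, hder, ← haeR, ← derivative_map]
    exact hgirr.separable.aeval_derivative_ne_zero (by rw [haeR, hf0])
  set m : M := ev (psi L M) s t (derivative A) with hmd
  -- the generators
  have hpsi : ∀ c, psi L M c ∈ IntermediateField.adjoin F {s, t} := fun c =>
    IntermediateField.algebraMap_mem _ (algebraMap L F c)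
  have hsm : s ∈ IntermediateField.adjoin F {s, t} :=
    IntermediateField.subset_adjoin _ _ (Set.mem_insert _ _)
  have htm : t ∈ IntermediateField.adjoin F {s, t} :=
    IntermediateField.subset_adjoin _ _ (Set.mem_insert_of_mem _ (Set.mem_singleton _))
  have hgm : ∀ j, g j ∈ IntermediateField.adjoin F {s, t} := by
    intro j
    have h1 : g j = ev (psi L M) s t (B j) / m := by
      rw [hB, mul_div_cancel_left₀ _ hm]
    rw [h1]
    exact div_mem (ev_mem _ _ hpsi hsm htm _) (ev_mem _ _ hpsi hsm htm _)
  have htop := hgen hgm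
  have htop' : IntermediateField.adjoin (RatFunc F) {t} = ⊤ := by
    rw [eq_top_iff]
    intro z _
    have h1 : z ∈ IntermediateField.adjoin F {s, t} := by
      rw [htop]
      exact IntermediateField.mem_top
    have h2 : IntermediateField.adjoin F {s, t} ≤
        (IntermediateField.adjoin (RatFunc F) {t}).restrictScalars F := by
      rw [IntermediateField.adjoin_le_iff]
      rintro y (rfl | hy)
      · change y ∈ IntermediateField.adjoin (RatFunc F) {t}
        have h3 : y = algebraMap (RatFunc F) M (algebraMap F[X] (RatFunc F) X) := by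
          rw [← IsScalarTower.algebraMap_apply F[X] (RatFunc F) M, hXs]
        rw [h3]
        exact (IntermediateField.adjoin (RatFunc F) {t}).algebraMap_mem _
      · change y ∈ IntermediateField.adjoin (RatFunc F) {t}
        exact IntermediateField.subset_adjoin (RatFunc F) {t} hy
    exact h2 h1
  -- the equation
  obtain ⟨T, hT1, hT2, hT3, -, hT5, hT6⟩ := exists_eqT (Y := t) htop' (by
    intro w
    rw [hXs]
    exact ht w)
  have hTf : T ∣ f := (hT5 f).1 hf0
  obtain ⟨U, hU⟩ : Associated T f := hT2.associated_of_dvd hirr hTf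
  obtain ⟨c, hc0, hc⟩ : ∃ c : F, c ≠ 0 ∧ f = C (C c) * T := by
    obtain ⟨r, hr, hrU⟩ := Polynomial.isUnit_iff.1 U.isUnit
    obtain ⟨c, hc, hcr⟩ := Polynomial.isUnit_iff.1 hr
    refine ⟨c, hc.ne_zero, ?_⟩
    rw [← hU, ← hrU, ← hcr, mul_comm]
  have hfT : f ∣ T := by
    rw [← hU]
    exact (Associated.symm ⟨U, rfl⟩).dvd
  have hTd : T.natDegree = A.natDegree := by
    rw [← hnd, hc, natDegree_C_mul]
    exact fun h1 => hc0 (C_eq_zero.1 h1)
  refine ⟨?_, ?_, fun j => ?_⟩
  · -- the leading coefficient
    have h1 : (f.coeff A.natDegree) = C c := by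
      rw [hc, coeff_C_mul, ← hTd, coeff_natDegree, hT1, mul_one]
    have h2 : ∀ k, k ≠ 0 → A.leadingCoeff.coeff k = 0 := by
      intro k hk
      have h3 := congrArg (fun p : F[X] => p.coeff k) h1
      rw [hfd, mp_coeff, coeff_C, if_neg hk] at h3
      exact (algebraMap L F).injective (by rw [map_zero]; exact h3)
    refine ⟨A.leadingCoeff.coeff 0, ?_⟩
    ext k
    rw [coeff_C]
    split_ifs with h3
    · rw [h3]
    · exact h2 k h3
  · -- the total degree
    intro i k hik
    have h1 : (f.coeff i).coeff k ≠ 0 := by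
      rw [hfd, mp_coeff]
      exact fun h2 => hik ((algebraMap L F).injective (by rw [map_zero]; exact h2))
    rw [hc, coeff_C_mul, coeff_C_mul] at h1
    have h2 := hT6 i k (right_ne_zero_of_mul h1)
    rw [← hT3, hTd] at h2
    exact h2
  · -- the integral equation
    obtain ⟨r, c', hc0', hc1, hc2⟩ := exists_int_eq (κ := F) (Y := g j) (by
      intro w
      rw [hXs]
      exact hg j w)
    obtain ⟨φ, hφ⟩ := exists_fn' L F
    have h1 : aeval t (∑ i ∈ Finset.range (r + 1),
        mp L F (B j ^ (r - i) * derivative A ^ i) * C (c' i)) = 0 := by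
      rw [map_sum]
      have h2 : ∀ i ∈ Finset.range (r + 1),
          aeval t (mp L F (B j ^ (r - i) * derivative A ^ i) * C (c' i)) =
            m ^ r * (algebraMap F[X] M (c' i) * g j ^ (r - i)) := by
        intro i hi
        rw [Finset.mem_range] at hi
        rw [map_mul, ← hae, map_mul, map_pow, map_pow, hB, aeval_C, ← hmd, mul_pow]
        have h3 : m ^ r = m ^ (r - i) * m ^ i := by
          rw [← pow_add]
          congr 1
          omega
        rw [h3]
        ring
      rw [Finset.sum_congr rfl h2, ← Finset.mul_sum, hc2, mul_zero]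
    have h2 := dvd_fn φ (hfT.trans ((hT5 _).1 h1))
    rw [fn_sum] at h2
    refine ⟨r, fun i => (fn φ (C (c' i))).coeff 0, ?_, fun i => ?_, ?_⟩
    · ext k
      rw [fn_C_coeff, hc0', coeff_one, coeff_one]
      split_ifs
      · exact hφ
      · exact map_zero φ
    · rw [natDegree_le_iff_coeff_eq_zero]
      intro k hk
      rw [fn_C_coeff, coeff_eq_zero_of_natDegree_lt ((hc1 i).trans_lt hk), map_zero]
    · refine h2.trans (dvd_of_eq (Finset.sum_congr rfl fun i _ => ?_))
      rw [fn_mul, fn_C]
      ring

end Pool.Agent.Lib.MP_44a246_ntSP
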