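import Mathlib
import Pool.Agent.Lib.MP_44a246_ntSH.PR00

/-!
SHARP PAIRS (paper 667), repair (R1): the structure `CrvE` from a plane curve of small height.
-/

namespace Pool.Agent.Lib.MP_44a246_ntSP

open Pool.Agent.Lib.MP_44a246_nt
open Pool.Agent.Lib.MP_44a246_ntL
open Pool.Agent.Lib.MP_44a246_ntS
open Pool.Agent.Lib.MP_44a246_ntX
open Pool.Agent.Lib.MP_44a246_ntG
open Pool.Agent.Lib.MP_44a246_ntE
open Pool.Agent.Lib.MP_44a246_ntSH
open Pool.Agent.Lib.MP_e52354_nt
open WithZero Module Polynomial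

section

variable {κ L : Type*} [Field κ] [IsAlgClosed κ] [CharZero κ] [Field L] [CharZero L]
  [Algebra κ L] {n d₀ : ℕ} (Z : DatG κ (L := L) n d₀) {b : ℕ} {A : L[X][X]} (hA : CrvG Z b A)

omit [IsAlgClosed κ] [CharZero κ] [CharZero L] in
include hA in
private theorem lin₂_zero :
    (∑ j, C (C (algebraMap κ L (Z.z j))) * Z.B A j -
      Polynomial.X * derivative A).evalEval Z.y₁ Z.y = 0 := by
  have h1 : ∀ j, (C (C (algebraMap κ L (Z.z j))) * Z.B A j).evalEval Z.y₁ Z.y =
      (derivative A).evalEval Z.y₁ Z.y * (algebraMap κ L (Z.z j) * Z.x j) := by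
    intro j
    rw [evalEval_mul, evalEval_CC, ← Z.B_eval hA j]
    ring
  rw [evalEval_sub, evalEval_mul, evalEval_X, ← coe_evalEvalRingHom, map_sum]
  simp only [coe_evalEvalRingHom]
  rw [Finset.sum_congr rfl fun j _ => h1 j, ← Finset.mul_sum]
  have h2 : ∑ j, algebraMap κ L (Z.z j) * Z.x j = Z.y := rfl
  rw [h2]
  ring

omit [CharZero L] in
include hA in
private theorem gh_lin₂ (h : IsFF κ L)
    (hP0 : ∑ j, C (C (algebraMap κ L (Z.z j))) * Z.B A j - Polynomial.X * derivative A ≠ 0) :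
    gh κ (∑ j, C (C (algebraMap κ L (Z.z j))) * Z.B A j - Polynomial.X * derivative A) ≤
      2 * gh κ A + Z.Δ := by
  have hA0 : A ≠ 0 := hA.irr.ne_zero
  have s2 : (Function.support fun w : Place κ L => (Z.δ w : ℤ)).Finite := by
    refine Z.hδ.subset fun w hw h0 => hw ?_
    simp only
    rw [h0, Nat.cast_zero]
  have s3 := gg_support h hA0
  have s4 : (Function.support fun w : Place κ L => 2 * log (gg w.1 A)).Finite := by
    refine s3.subset fun w hw h0 => hw ?_
    have h0' : log (gg w.1 A) = 0 := h0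
    simp only
    rw [h0', mul_zero]
  have s5 : (Function.support fun w : Place κ L => 2 * log (gg w.1 A) + (Z.δ w : ℤ)).Finite :=
    (s4.union s2).subset (Function.support_add _ _)
  have hsum : ∑ᶠ w : Place κ L, (2 * log (gg w.1 A) + (Z.δ w : ℤ)) = 2 * gh κ A + Z.Δ := by
    rw [finsum_add_distrib s4 s2, ← mul_finsum]
    rfl
  rw [← hsum]
  refine finsum_mono (gg_support h hP0) s5 fun w => ?_
  have h1 : gg w.1 (∑ j, C (C (algebraMap κ L (Z.z j))) * Z.B A j -
      Polynomial.X * derivative A) ≠ 0 := by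
    rw [Ne, gg_eq_zero]
    exact hP0
  rw [log_le_iff_le_exp h1]
  have hgA : gg w.1 A ≠ 0 := by
    rw [Ne, gg_eq_zero]
    exact hA0
  have hB : ∀ j, gg w.1 (Z.B A j) ≤ exp (2 * log (gg w.1 A) + (Z.δ w : ℤ)) := by
    intro j
    have h2 := Z.B_le hA j w
    rw [← exp_log hgA, ← exp_nsmul, ← exp_add, nsmul_eq_mul, Nat.cast_ofNat] at h2
    exact h2
  have h2 : gg w.1 A ≤ exp (2 * log (gg w.1 A) + (Z.δ w : ℤ)) := by
    have h3 : 0 ≤ log (gg w.1 A) := by
      rw [le_log_iff_exp_le hgA, exp_zero]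
      exact one_le_gg hA.one w
    have h4 : gg w.1 A = exp (log (gg w.1 A)) := (exp_log hgA).symm
    conv_lhs => rw [h4]
    rw [exp_le_exp]
    have : (0 : ℤ) ≤ (Z.δ w : ℤ) := Int.natCast_nonneg _
    linarith
  have h3 : gg w.1 (derivative A) ≤ exp (2 * log (gg w.1 A) + (Z.δ w : ℤ)) :=
    (gg_derivative_le w.1 A).trans h2
  refine (Valuation.map_sub _ _ _).trans (max_le ?_ ?_)
  · refine Valuation.map_sum_le _ fun j _ => ?_
    rw [map_mul, gg_CC]
    calc w.1 (algebraMap κ L (Z.z j)) * gg w.1 (Z.B A j)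
        ≤ 1 * exp (2 * log (gg w.1 A) + (Z.δ w : ℤ)) := by
          refine mul_le_mul' ?_ (hB j)
          by_cases hz : Z.z j = 0
          · rw [hz, map_zero, map_zero]
            exact zero_le
          · exact (w.2.2 _ hz).le
      _ = _ := one_mul _
  · have h4 : gg w.1 (Polynomial.X : L[X][X]) = 1 := gn_X (gv w.1)
    rw [map_mul, h4, one_mul]
    exact h3

omit [IsAlgClosed κ] [CharZero κ] [Algebra κ L] [CharZero L] in
private theorem natDegree_sum_le_box {c : Fin (n + 1) → L} {B : Fin (n + 1) → L[X][X]}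
    (hB : ∀ j, (B j).natDegree ≤ b) : (∑ j, C (C (c j)) * B j).natDegree ≤ b := by
  refine natDegree_sum_le_of_forall_le _ _ fun j _ => ?_
  exact (natDegree_C_mul_le _ _).trans (hB j)

include hA in
/-- the structure `CrvE` from a plane curve of small height -/
theorem crvE_of_small (h : IsFF κ L)
    (hEκ : ∀ j (u : κ), ∃ u' : κ, Z.E j (algebraMap κ L u) = algebraMap κ L u')
    (hspan : 9 * (b : ℤ) * gh κ A + 3 * b * Z.Δ < height κ Z.x) : CrvE Z b A := by
  have hgA : 0 ≤ gh κ A := gh_nonneg h hA.irr.ne_zero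
  have hΔ : 0 ≤ Z.Δ := Z.Δ_nonneg
  have hb0 : (0 : ℤ) ≤ b := Int.natCast_nonneg b
  have hlin1 : (b : ℤ) * gh κ A + b * (2 * gh κ A + Z.Δ) < height κ Z.x := by
    refine lt_of_le_of_lt ?_ hspan
    have h1 := mul_nonneg hb0 hgA
    have h2 := mul_nonneg hb0 hΔ
    nlinarith
  have hAd : (derivative A).natDegree ≤ b :=
    ((natDegree_derivative_le A).trans (Nat.sub_le _ _)).trans hA.box.1
  have hB : ∀ j, (Z.B A j).natDegree ≤ b := fun j => (Z.B_box hA j).1
  have hlin' : ((1 : ℕ) * b : ℤ) * gh κ A + b * (2 * gh κ A + Z.Δ) < height κ Z.x := by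
    push_cast
    rwa [one_mul]
  refine ⟨hA, hEκ, fun j => dvd_EE Z hA h hspan j j, ?_, ?_, ?_⟩
  · refine dvd_of_small Z hA h (m := 1) ?_ (fun h0 => gh_lin Z hA h h0 (Or.inl rfl))
      (lin₀_zero Z hA) hlin'
    rw [one_mul]
    exact (natDegree_sub_le_of_le (natDegree_sum_le_box hB) hAd).trans (by rw [max_self])
  · refine dvd_of_small Z hA h (m := 1) ?_ (fun h0 => gh_lin Z hA h h0 (Or.inr rfl))
      (lin₁_zero Z hA) hlin'
    rw [one_mul]
    exact (natDegree_sub_le_of_le (natDegree_sum_le_box hB)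
      ((natDegree_C_mul_le _ _).trans hAd)).trans (by rw [max_self])
  · refine dvd_of_small Z hA h (m := 1) ?_ (gh_lin₂ Z hA h) (lin₂_zero Z hA) hlin'
    rw [one_mul]
    refine (natDegree_sub_le_of_le (natDegree_sum_le_box hB) ?_).trans (by rw [max_self])
    refine natDegree_mul_le.trans ?_
    rw [natDegree_X]
    have h1 := natDegree_derivative_le A
    have h2 := hA.box.1
    have h3 := Nat.pos_of_ne_zero hA.deg
    omega

end

end Pool.Agent.Lib.MP_44a246_ntSP
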