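import Mathlib
import Pool.Agent.Lib.MP_44a246_ntSP.NP03
import Pool.Agent.Lib.MP_44a246_ntSP.NP05
import Pool.Agent.Lib.MP_44a246_ntSP.NP06

/-!
SHARP PAIRS (paper 667), repair (R1): two projections of the same point; the curve of the second one
in the field of functions of the first one.
-/

namespace Pool.Agent.Lib.MP_44a246_ntSP

open Pool.Agent.Lib.MP_e52354_nt
open Pool.Agent.Lib.MP_44a246_nt
open Pool.Agent.Lib.MP_44a246_ntL
open Pool.Agent.Lib.MP_44a246_ntS
open Pool.Agent.Lib.MP_44a246_ntE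
open Pool.Agent.Lib.MP_44a246_ntG
open Pool.Agent.Lib.MP_44a246_ntSH
open Pool.Agent.Lib.MP_44a246_ntPC (Tot)
open WithZero Polynomial Module

universe u v

/-- the evaluation of a dehomogenised form -/
theorem ev_deh {L S : Type*} [Field L] [CommRing S] (φ : L →+* S) (s t : S)
    (P : MvPolynomial (Fin 3) L) : ev φ s t (deh P) = MvPolynomial.eval₂ φ ![1, s, t] P := by
  have h1 : (ev φ s t).comp
      (MvPolynomial.aeval (R := L) (![1, C X, X] : Fin 3 → L[X][X])).toRingHom =
      MvPolynomial.eval₂Hom φ ![1, s, t] := by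
    apply MvPolynomial.ringHom_ext
    · intro c
      rw [RingHom.comp_apply, MvPolynomial.eval₂Hom_C]
      have h2 : (MvPolynomial.aeval (R := L) (![1, C X, X] : Fin 3 → L[X][X])).toRingHom
          (MvPolynomial.C c) = C (C c) := MvPolynomial.aeval_C _ _
      rw [h2, ev_C_C]
    · intro k
      rw [RingHom.comp_apply, MvPolynomial.eval₂Hom_X']
      have h2 : (MvPolynomial.aeval (R := L) (![1, C X, X] : Fin 3 → L[X][X])).toRingHom
          (MvPolynomial.X k) = (![1, C X, X] : Fin 3 → L[X][X]) k := MvPolynomial.aeval_X _ _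
      rw [h2]
      fin_cases k
      · exact map_one _
      · exact ev_C_X _ _ _
      · exact ev_X _ _ _
  exact congrArg (fun f : MvPolynomial (Fin 3) L →+* S => f P) h1

/-- forms are homogeneous -/
theorem eval₂_mul_hom {L S : Type*} [Field L] [CommRing S] (φ : L →+* S) {e : ℕ}
    {P : MvPolynomial (Fin 3) L} (hP : P.IsHomogeneous e) (c : S) (q : Fin 3 → S) :
    MvPolynomial.eval₂ φ (fun k => c * q k) P = c ^ e * MvPolynomial.eval₂ φ q P := by
  rw [MvPolynomial.eval₂_eq', MvPolynomial.eval₂_eq', Finset.mul_sum]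
  refine Finset.sum_congr rfl fun J hJ => ?_
  have h2 : ∑ k, J k = e := by
    have h3 := hP (MvPolynomial.mem_support_iff.mp hJ)
    rw [← Finsupp.degree_eq_sum, ← h3, Finsupp.degree_eq_weight_one]
    rfl
  simp only [mul_pow]
  rw [Finset.prod_mul_distrib, Finset.prod_pow_eq_pow_sum, h2]
  ring

/-- the same point with other linear forms -/
structure SameG {κ L : Type*} [Field κ] [Field L] [Algebra κ L] {n d₀ : ℕ}
    (Z Z' : DatG κ (L := L) n d₀) : Prop where
  δ : Z'.δ = Z.δ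
  z : Z'.z = Z.z
  E : Z'.E = Z.E
  x : ∃ s : L, s ≠ 0 ∧ Z'.x = fun j => s * Z.x j

/-- the linear forms which define the projection -/
noncomputable def lf {κ L : Type*} [Field κ] [Field L] [Algebra κ L] {n d₀ : ℕ}
    (Z : DatG κ (L := L) n d₀) : Fin 3 → Fin (n + 1) → L :=
  ![fun j => (Z.ξ₀ j : L), fun j => (Z.ξ₁ j : L), fun j => algebraMap κ L (Z.z j)]

section

variable {κ L : Type*} [Field κ] [IsAlgClosed κ] [CharZero κ] [Field L] [CharZero L]
  [Algebra κ L] {n d₀ : ℕ}

/-- **The form**: a plane curve through the second projection of the point gives a form which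
vanishes on the first curve. -/
theorem exists_dvd_form (h : IsFF κ L) {Z Z' : DatG κ (L := L) n d₀} (hZ : SameG Z Z')
    {b b' e : ℕ} {A A' : L[X][X]} (hA : CrvG Z b A) (hA' : CrvG Z' b' A')
    {P : MvPolynomial (Fin 3) L} (hP : P.IsHomogeneous e) (hPA : deh P = A')
    (hEκ : ∀ j (u : κ), ∃ u' : κ, Z.E j (algebraMap κ L u) = algebraMap κ L u')
    (hspan : 9 * (b : ℤ) * gh κ A + 3 * b * Z.Δ < height κ Z.x)
    (hform : (e : ℤ) * gh κ A + b * gh κ A' < height κ Z.x) :
    A ∣ MvPolynomial.eval₂ (C.comp C) (fun k => ∑ j, C (C (lf Z' k j)) * Z.B A j) P := by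
  classical
  have hA0' : A' ≠ 0 := hA'.irr.ne_zero
  obtain ⟨a, ha1, ha2⟩ := exists_subst hP (lf Z')
  -- the absolute values
  have hval : ∀ (w : Place κ L) k j, w.1 (lf Z' k j) ≤ 1 := by
    intro w k j
    have hnat : ∀ m : ℕ, w.1 (m : L) ≤ 1 := fun m => natCast_mem w.1.integer m
    fin_cases k
    · exact hnat _
    · exact hnat _
    · show w.1 (algebraMap κ L (Z'.z j)) ≤ 1
      by_cases hz : Z'.z j = 0
      · rw [hz, map_zero, map_zero]
        exact zero_le
      · exact (w.2.2 _ hz).le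
  have hgA : ∀ w : Place κ L, gg w.1 A' ≠ 0 := by
    intro w
    rw [Ne, gg_eq_zero]
    exact hA0'
  have hlog : ∀ w : Place κ L, 0 ≤ log (gg w.1 A') := by
    intro w
    rw [le_log_iff_exp_le (hgA w), exp_zero]
    exact one_le_gg hA'.one w
  obtain ⟨τ, hτd⟩ : ∃ τ : Place κ L → ℕ, ∀ w, (τ w : ℤ) = log (gg w.1 A') :=
    ⟨fun w => (log (gg w.1 A')).toNat, fun w => Int.toNat_of_nonneg (hlog w)⟩
  have hτs : (Function.support τ).Finite := by
    refine (gg_support h hA0').subset fun w hw h0 => hw ?_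
    have h1 : log (gg w.1 A') = 0 := h0
    rw [← hτd] at h1
    exact_mod_cast h1
  have hτsum : ∑ᶠ w, (τ w : ℤ) = gh κ A' := by
    unfold gh
    exact finsum_congr hτd
  have hv : ∀ I ∈ expo (Fin (n + 1)) e, ∀ w : Place κ L, w.1 (a I) ≤ exp (τ w : ℤ) := by
    intro I _ w
    refine (ha1 w.1 (hval w) I).trans ?_
    rw [← gg_deh w.1 hP, hPA, hτd, exp_log (hgA w)]
  -- the form vanishes at the point
  obtain ⟨s, hs0, hs⟩ := hZ.x
  have hz0 : Fval e a Z.x = 0 := by
    have h1 := ha2 L (RingHom.id L) Z.x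
    have h2 : Fval e a Z.x = ∑ I ∈ expo (Fin (n + 1)) e,
        (RingHom.id L) (a I) * ∏ j, Z.x j ^ I j := rfl
    rw [h2, h1]
    have h3 := hA'.zero
    rw [← hPA, deh_eval] at h3
    have h4 : (![1, Z'.y₁, Z'.y] : Fin 3 → L) =
        fun k => s * ∑ j, (RingHom.id L) (lf Z' k j) * Z.x j := by
      funext k
      rw [Finset.mul_sum]
      fin_cases k
      · show (1 : L) = ∑ j, s * ((Z'.ξ₀ j : L) * Z.x j)
        rw [← Z'.h0, hs]
        exact Finset.sum_congr rfl fun j _ => by ring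
      · show Z'.y₁ = ∑ j, s * ((Z'.ξ₁ j : L) * Z.x j)
        unfold DatG.y₁
        rw [hs]
        exact Finset.sum_congr rfl fun j _ => by ring
      · show Z'.y = ∑ j, s * (algebraMap κ L (Z'.z j) * Z.x j)
        unfold DatG.y
        rw [hs]
        exact Finset.sum_congr rfl fun j _ => by ring
    rw [h4] at h3
    have h5 := eval₂_mul_hom (RingHom.id L) hP s
      (fun k => ∑ j, (RingHom.id L) (lf Z' k j) * Z.x j)
    have h6 : MvPolynomial.eval (fun k => s * ∑ j, (RingHom.id L) (lf Z' k j) * Z.x j) P =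
      MvPolynomial.eval₂ (RingHom.id L) (fun k => s * ∑ j, (RingHom.id L) (lf Z' k j) * Z.x j) P :=
      rfl
    rw [h6, h5] at h3
    exact (mul_eq_zero.1 h3).resolve_left (pow_ne_zero _ hs0)
  have h1 := dvd_FB h Z hA hEκ (fun j => dvd_EE Z hA h hspan j j) hτs hv hz0 (by
    rw [hτsum]
    exact hform)
  have h2 : FB e a (Z.B A) =
      MvPolynomial.eval₂ (C.comp C) (fun k => ∑ j, C (C (lf Z' k j)) * Z.B A j) P :=
    ha2 L[X][X] (C.comp C) (Z.B A)
  rwa [h2] at h1

end

/-- **The two projections.** -/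
theorem two_proj {κ : Type v} {L : Type u} [Field κ] [IsAlgClosed κ] [CharZero κ] [Field L]
    [CharZero L] [Algebra κ L] (h : IsFF κ L) {n d₀ : ℕ} {Z Z' : DatG κ (L := L) n d₀}
    (hZ : SameG Z Z') {b b' e : ℕ} {A A' : L[X][X]} (hA : CrvG Z b A) (hA' : CrvG Z' b' A')
    {P : MvPolynomial (Fin 3) L} (hP : P.IsHomogeneous e) (hPA : deh P = A')
    (hEκ : ∀ j (u : κ), ∃ u' : κ, Z.E j (algebraMap κ L u) = algebraMap κ L u')
    (hspan : 9 * (b : ℤ) * gh κ A + 3 * b * Z.Δ < height κ Z.x)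
    (hform : (e : ℤ) * gh κ A + b * gh κ A' < height κ Z.x)
    {M : Type u} [Field M] [Algebra (AlgebraicClosure L) M] {x y : M} {γ : Fin (n + 1) → M}
    {D : Fin (n + 1) → Derivation ℤ M M} (hM : IsFF (AlgebraicClosure L) M)
    (hxy : IntermediateField.adjoin (AlgebraicClosure L) {x, y} = ⊤)
    (c1 : ∀ G : L[X][X], A ∣ G → ev (psi L M) x y G = 0)
    (c2 : ev (psi L M) x y (derivative A) ≠ 0)
    (c3 : ∀ j, ev (psi L M) x y (Z.B A j) = ev (psi L M) x y (derivative A) * γ j)
    (c4 : ∀ j c, D j (psi L M c) = psi L M (Z.E j c)) (c5 : ∀ i j, D j (γ i) = 0)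
    (hu : ∑ j, (Z'.ξ₀ j : M) * γ j ≠ 0)
    (hmax : ∀ w : Place (AlgebraicClosure L) M, vmax w.1 γ ≤
      max (w.1 (∑ j, (Z'.ξ₀ j : M) * γ j)) (w.1 (∑ j, (Z'.ξ₁ j : M) * γ j)))
    (htr : Transcendental (AlgebraicClosure L)
      ((∑ j, (Z'.ξ₁ j : M) * γ j) / ∑ j, (Z'.ξ₀ j : M) * γ j)) :
    (∃ c : L, A'.leadingCoeff = C c) ∧ Tot A'.natDegree A' ∧
      ∀ j, ∃ (r : ℕ) (c : ℕ → L[X]), c 0 = 1 ∧ (∀ i, (c i).natDegree ≤ i) ∧
        A' ∣ ∑ i ∈ Finset.range (r + 1), C (c i) * Z'.B A' j ^ (r - i) * derivative A' ^ i := by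
  classical
  set F := AlgebraicClosure L with hFd
  have hcF : CharZero F := charZero_of_injective_algebraMap (algebraMap L F).injective
  have hcM : CharZero M := charZero_of_injective_algebraMap (algebraMap F M).injective
  have hE := crvE_of_small Z hA h hEκ hspan
  set m : M := ev (psi L M) x y (derivative A) with hm
  -- the three relations
  have r0 : ∑ j, (Z.ξ₀ j : M) * γ j = 1 := by
    have h1 := c1 _ hE.r0
    rw [map_sub, sub_eq_zero, map_sum] at h1
    have h2 : ∑ j, ev (psi L M) x y (C (C (Z.ξ₀ j : L)) * Z.B A j) =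
        m * ∑ j, (Z.ξ₀ j : M) * γ j := by
      rw [Finset.mul_sum]
      refine Finset.sum_congr rfl fun j _ => ?_
      rw [map_mul, ev_C_C, map_natCast, c3]
      ring
    rw [h2] at h1
    exact mul_left_cancel₀ c2 (h1.trans (mul_one _).symm)
  have r1 : ∑ j, (Z.ξ₁ j : M) * γ j = x := by
    have h1 := c1 _ hE.r1
    rw [map_sub, sub_eq_zero, map_sum, map_mul, ev_C_X] at h1
    have h2 : ∑ j, ev (psi L M) x y (C (C (Z.ξ₁ j : L)) * Z.B A j) =
        m * ∑ j, (Z.ξ₁ j : M) * γ j := by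
      rw [Finset.mul_sum]
      refine Finset.sum_congr rfl fun j _ => ?_
      rw [map_mul, ev_C_C, map_natCast, c3]
      ring
    rw [h2, mul_comm x] at h1
    exact mul_left_cancel₀ c2 h1
  have r2 : ∑ j, psi L M (algebraMap κ L (Z.z j)) * γ j = y := by
    have h1 := c1 _ hE.r2
    rw [map_sub, sub_eq_zero, map_sum, map_mul, ev_X] at h1
    have h2 : ∑ j, ev (psi L M) x y (C (C (algebraMap κ L (Z.z j))) * Z.B A j) =
        m * ∑ j, psi L M (algebraMap κ L (Z.z j)) * γ j := by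
      rw [Finset.mul_sum]
      refine Finset.sum_congr rfl fun j _ => ?_
      rw [map_mul, ev_C_C, c3]
      ring
    rw [h2, mul_comm y] at h1
    exact mul_left_cancel₀ c2 h1
  set u₀ : M := ∑ j, (Z'.ξ₀ j : M) * γ j with hu₀
  set u₁ : M := ∑ j, (Z'.ξ₁ j : M) * γ j with hu₁
  -- the derivations
  have hDnat : ∀ (j : Fin (n + 1)) (q : Fin (n + 1) → ℕ), D j (∑ i, (q i : M) * γ i) = 0 := by
    intro j q
    rw [map_sum]
    refine Finset.sum_eq_zero fun i _ => ?_
    rw [Derivation.leibniz, c5, Derivation.map_natCast, smul_zero, smul_zero, add_zero]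
  have hDu0 : ∀ j, D j u₀ = 0 := fun j => hDnat j _
  have hDu1 : ∀ j, D j u₁ = 0 := fun j => hDnat j _
  have hDinv : ∀ j, D j u₀⁻¹ = 0 := by
    intro j
    rw [Derivation.leibniz_inv, hDu0, smul_zero]
  have hDy : ∀ j, D j y = γ j := by
    intro j
    rw [← r2, map_sum, Finset.sum_eq_single j]
    · rw [Derivation.leibniz, c5, c4, Z.hEz, if_pos rfl, map_one, smul_zero, zero_add, smul_eq_mul,
        mul_one]
    · intro i _ hij
      rw [Derivation.leibniz, c5, c4, Z.hEz, if_neg (Ne.symm hij), map_zero, smul_zero, smul_zero,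
        add_zero]
    · intro h1
      exact absurd (Finset.mem_univ _) h1
  have hDs : ∀ j, D j (u₁ / u₀) = 0 := by
    intro j
    rw [div_eq_mul_inv, Derivation.leibniz, hDu1, hDinv, smul_zero, smul_zero, add_zero]
  have hDt : ∀ j, D j (y / u₀) = γ j / u₀ := by
    intro j
    rw [div_eq_mul_inv, Derivation.leibniz, hDy, hDinv, smul_zero, zero_add, smul_eq_mul,
      div_eq_mul_inv, mul_comm]
  -- the curve
  have hz0 : MvPolynomial.eval₂ (psi L M) (fun k => m * ∑ j, psi L M (lf Z' k j) * γ j) P = 0 := by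
    have h1 := c1 _ (exists_dvd_form h hZ hA hA' hP hPA hEκ hspan hform)
    rw [MvPolynomial.hom_eval₂] at h1
    have h2 : (ev (psi L M) x y).comp (C.comp C) = psi L M := by
      ext c
      exact ev_C_C _ _ _ _
    have h3 : (fun k => ev (psi L M) x y (∑ j, C (C (lf Z' k j)) * Z.B A j)) =
        fun k => m * ∑ j, psi L M (lf Z' k j) * γ j := by
      funext k
      rw [map_sum, Finset.mul_sum]
      refine Finset.sum_congr rfl fun j _ => ?_
      rw [map_mul, ev_C_C, c3]
      ring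
    rw [h2, h3] at h1
    exact h1
  rw [eval₂_mul_hom _ hP] at hz0
  have hz1 := (mul_eq_zero.1 hz0).resolve_left (pow_ne_zero _ c2)
  have hq : (fun k => ∑ j, psi L M (lf Z' k j) * γ j) =
      fun k => u₀ * (![1, u₁ / u₀, y / u₀] : Fin 3 → M) k := by
    funext k
    fin_cases k
    · show ∑ j, psi L M (Z'.ξ₀ j : L) * γ j = u₀ * 1
      rw [mul_one, hu₀]
      exact Finset.sum_congr rfl fun j _ => by rw [map_natCast]
    · show ∑ j, psi L M (Z'.ξ₁ j : L) * γ j = u₀ * (u₁ / u₀)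
      rw [mul_div_cancel₀ _ hu, hu₁]
      exact Finset.sum_congr rfl fun j _ => by rw [map_natCast]
    · show ∑ j, psi L M (algebraMap κ L (Z'.z j)) * γ j = u₀ * (y / u₀)
      rw [mul_div_cancel₀ _ hu, hZ.z]
      exact r2
  rw [hq, eval₂_mul_hom _ hP] at hz1
  have hz2 := (mul_eq_zero.1 hz1).resolve_left (pow_ne_zero _ hu)
  rw [← ev_deh, hPA] at hz2
  -- the parametrisation
  have hB' : ∀ j, ev (psi L M) (u₁ / u₀) (y / u₀) (Z'.B A' j) =
      ev (psi L M) (u₁ / u₀) (y / u₀) (derivative A') * (γ j / u₀) := by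
    intro j
    have h1 := ev_chain (psi L M) (Z.E j) (D j) (c4 j) (u₁ / u₀) (y / u₀) A'
    rw [hz2, map_zero, hDs, mul_zero, add_zero, hDt] at h1
    have h2 : Z'.B A' j = -cE (Z.E j) A' := by
      unfold DatG.B
      rw [hZ.E]
      congr 1
      ext i k
      rw [cd_coeff]
      rfl
    rw [h2, map_neg]
    have h3 : cY L A' = derivative A' := rfl
    rw [h3] at h1
    linear_combination h1
  -- the places
  have hw0 : ∀ w : Place F M, w.1 u₀ ≠ 0 := fun w => (Valuation.ne_zero_iff _).2 hu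
  have hg : ∀ j (w : Place F M), w.1 (γ j / u₀) ≤ max 1 (w.1 (u₁ / u₀)) := by
    intro j w
    rw [map_div₀, map_div₀]
    have h1 := (le_vmax w.1 γ j).trans (hmax w)
    have h2 : max 1 (w.1 u₁ / w.1 u₀) = max (w.1 u₀) (w.1 u₁) / w.1 u₀ := by
      rcases le_total (w.1 u₀) (w.1 u₁) with h3 | h3
      · rw [max_eq_right h3, max_eq_right]
        rwa [one_le_div₀ (zero_lt_iff.2 (hw0 w))]
      · rw [max_eq_left h3, div_self (hw0 w), max_eq_left]
        exact div_le_one_of_le₀ h3 zero_le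
    rw [h2]
    exact div_le_div_of_nonneg_right h1 zero_le
  refine field_part hM (irreducible_mp hA'.irr hA'.zero hA'.der) hA'.deg htr hz2 hB' ?_ hg ?_
  · intro hK
    set K := IntermediateField.adjoin F {u₁ / u₀, y / u₀} with hKd
    have hnat : ∀ (q : Fin (n + 1) → ℕ) (g : Fin (n + 1) → M), (∀ j, g j ∈ K) →
        ∑ j, (q j : M) * g j ∈ K := fun q g hgK =>
      sum_mem fun j _ => mul_mem (natCast_mem K _) (hgK j)
    have h1 : u₀⁻¹ ∈ K := by
      have h2 : u₀⁻¹ = ∑ j, (Z.ξ₀ j : M) * (γ j / u₀) := by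
        have h3 : ∑ j, (Z.ξ₀ j : M) * (γ j / u₀) = (∑ j, (Z.ξ₀ j : M) * γ j) / u₀ := by
          rw [Finset.sum_div]
          exact Finset.sum_congr rfl fun j _ => by rw [mul_div_assoc]
        rw [h3, r0, one_div]
      rw [h2]
      exact hnat _ _ hK
    have h2 : u₀ ∈ K := by
      have h3 := inv_mem h1
      rwa [inv_inv] at h3
    have h3 : ∀ j, γ j ∈ K := by
      intro j
      have h4 : γ j = (γ j / u₀) * u₀ := (div_mul_cancel₀ _ hu).symm
      rw [h4]
      exact mul_mem (hK j) h2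
    have h4 : x ∈ K := by
      rw [← r1]
      exact hnat _ _ h3
    have h5 : y ∈ K := by
      have h6 : y / u₀ ∈ K := IntermediateField.subset_adjoin _ _
        (Set.mem_insert_of_mem _ (Set.mem_singleton _))
      have h7 : y = (y / u₀) * u₀ := (div_mul_cancel₀ _ hu).symm
      rw [h7]
      exact mul_mem h6 h2
    rw [eq_top_iff, ← hxy, IntermediateField.adjoin_le_iff]
    rintro z (rfl | rfl)
    · exact h4
    · exact h5
  · intro w
    have h1 : y / u₀ = ∑ j, psi L M (algebraMap κ L (Z.z j)) * (γ j / u₀) := by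
      conv_lhs => rw [← r2]
      rw [Finset.sum_div]
      exact Finset.sum_congr rfl fun j _ => by rw [mul_div_assoc]
    rw [h1]
    refine Valuation.map_sum_le _ fun j _ => ?_
    rw [map_mul]
    have h2 : w.1 (psi L M (algebraMap κ L (Z.z j))) ≤ 1 := by
      show w.1 (algebraMap F M (algebraMap L F (algebraMap κ L (Z.z j)))) ≤ 1
      by_cases hz : algebraMap L F (algebraMap κ L (Z.z j)) = 0
      · rw [hz, map_zero, map_zero]
        exact zero_le
      · exact (w.2.2 _ hz).le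
    calc _ ≤ 1 * w.1 (γ j / u₀) := mul_le_mul_left h2 _
      _ = w.1 (γ j / u₀) := one_mul _
      _ ≤ _ := hg j w

end Pool.Agent.Lib.MP_44a246_ntSP
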