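import Mathlib
import Pool.Agent.Lib.MP_44a246_ntC.C06
import Pool.Agent.Lib.MP_44a246_ntSP.NP01
import Pool.Agent.Lib.MP_44a246_ntSP.NP07

/-!
SHARP PAIRS (paper 667), repair (R1): **the normalised plane curve**. After a change of the linear
forms `ξ₀`, `ξ₁` the equation of the curve is monic in `Y`, of total degree `deg_Y`, and all the
`γ j = B j / A_Y` have no poles outside of the poles of `X`.
-/

namespace Pool.Agent.Lib.MP_44a246_ntSP

open Pool.Agent.Lib.MP_e52354_nt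
open Pool.Agent.Lib.MP_44a246_nt
open Pool.Agent.Lib.MP_44a246_ntL
open Pool.Agent.Lib.MP_44a246_ntS
open Pool.Agent.Lib.MP_44a246_ntE
open Pool.Agent.Lib.MP_44a246_ntG
open Pool.Agent.Lib.MP_44a246_ntK
open Pool.Agent.Lib.MP_44a246_ntC
open Pool.Agent.Lib.MP_44a246_ntSH
open Pool.Agent.Lib.MP_44a246_ntPC (Tot)
open WithZero Polynomial Module

universe u v

/-- A moving curve of small height through the point, in general position: all pairs of the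
derivations preserve the parametrisation, the equation is monic in `Y` and of total degree `deg_Y A`,
and `B j / A_Y` is integral over the polynomials in `X`, with an equation which shows that its
poles are poles of `X`, of at most the same order. -/
structure CrvN {κ L : Type*} [Field κ] [Field L] [Algebra κ L] {n d₀ : ℕ}
    (Z : DatG κ (L := L) n d₀) (b : ℕ) (A : L[X][X]) : Prop extends CrvE Z b A where
  EE' : ∀ i j, A ∣ MP_44a246_ntW.EE (Z.E i) (Z.E j) A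
  monic : A.Monic
  tot : Tot A.natDegree A
  int : ∀ j, ∃ (r : ℕ) (c : ℕ → L[X]), c 0 = 1 ∧ (∀ i, (c i).natDegree ≤ i) ∧
    A ∣ ∑ i ∈ Finset.range (r + 1), C (c i) * Z.B A j ^ (r - i) * derivative A ^ i

namespace CrvN

variable {κ L : Type*} [Field κ] [Field L] [Algebra κ L] {n d₀ : ℕ}
  {Z : DatG κ (L := L) n d₀} {b : ℕ} {A : L[X][X]} (hA : CrvN Z b A)

include hA

/-- **No other poles**: for every point of the curve over every field, at every valuation which is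
trivial on `L`. -/
theorem val_le {M : Type*} [Field M] (φ : L →+* M) {x y : M} (h0 : ev φ x y A = 0)
    (h1 : ev φ x y (derivative A) ≠ 0) (v : Valuation M ℤᵐ⁰) (hv : ∀ a : L, v (φ a) ≤ 1)
    (j : Fin (n + 1)) :
    v (ev φ x y (Z.B A j) / ev φ x y (derivative A)) ≤ max 1 (v x) := by
  obtain ⟨r, c, hc0, hc, hd⟩ := hA.int j
  refine val_le_of_eq φ hc0 hc (r := r) ?_ v hv
  obtain ⟨Q, hQ⟩ := hd
  have h2 := congrArg (ev φ x y) hQ
  rw [map_mul, h0, zero_mul, map_sum] at h2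
  have h3 : ∑ i ∈ Finset.range (r + 1), (c i).eval₂ φ x *
      (ev φ x y (Z.B A j) / ev φ x y (derivative A)) ^ (r - i) =
      (ev φ x y (derivative A) ^ r)⁻¹ * ∑ i ∈ Finset.range (r + 1),
        ev φ x y (C (c i) * Z.B A j ^ (r - i) * derivative A ^ i) := by
    rw [Finset.mul_sum]
    refine Finset.sum_congr rfl fun i hi => ?_
    rw [Finset.mem_range] at hi
    have e1 : ev φ x y (C (c i)) = (c i).eval₂ φ x := by
      rw [ev_apply, eval₂_C, coe_eval₂RingHom]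
    have e2 : ev φ x y (derivative A) ^ r =
        ev φ x y (derivative A) ^ (r - i) * ev φ x y (derivative A) ^ i := by
      rw [← pow_add]
      congr 1
      omega
    rw [map_mul, map_mul, map_pow, map_pow, e1, div_pow, e2]
    have e3 := pow_ne_zero (r - i) h1
    have e4 := pow_ne_zero i h1
    field_simp
  rw [h3, h2, mul_zero]

/-- the same for the second coordinate -/
theorem val_y_le {M : Type*} [Field M] (φ : L →+* M) {x y : M} (h0 : ev φ x y A = 0)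
    (h1 : ev φ x y (derivative A) ≠ 0) (v : Valuation M ℤᵐ⁰) (hv : ∀ a : L, v (φ a) ≤ 1) :
    v y ≤ max 1 (v x) := by
  obtain ⟨Q, hQ⟩ := hA.r2
  have h2 := congrArg (ev φ x y) hQ
  rw [map_mul, h0, zero_mul, map_sub, sub_eq_zero, map_sum, map_mul, ev_X] at h2
  have h3 : y = ∑ j, φ (algebraMap κ L (Z.z j)) *
      (ev φ x y (Z.B A j) / ev φ x y (derivative A)) := by
    have h4 : ∑ j, φ (algebraMap κ L (Z.z j)) *
        (ev φ x y (Z.B A j) / ev φ x y (derivative A)) =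
        (∑ j, ev φ x y (C (C (algebraMap κ L (Z.z j))) * Z.B A j)) /
          ev φ x y (derivative A) := by
      rw [Finset.sum_div]
      refine Finset.sum_congr rfl fun j _ => ?_
      rw [map_mul, ev_C_C, mul_div_assoc]
    rw [h4, h2, mul_div_cancel_right₀ _ h1]
  rw [h3]
  refine Valuation.map_sum_le _ fun j _ => ?_
  rw [map_mul]
  calc v (φ (algebraMap κ L (Z.z j))) *
        v (ev φ x y (Z.B A j) / ev φ x y (derivative A)) ≤ 1 * max 1 (v x) :=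
        mul_le_mul' (hv _) (hA.val_le φ h0 h1 v hv j)
    _ = _ := one_mul _

end CrvN

theorem SameC.refl {κ L : Type*} [Field κ] [Field L] [Algebra κ L] {n p : ℕ} {d : Fin p → ℕ}
    (X : DatSC κ (L := L) n d) : SameC X X :=
  ⟨rfl, rfl, rfl, rfl, rfl, rfl, rfl, rfl, 1, one_ne_zero, by simp⟩

/-- the functions `γ j` generate the field -/
private theorem pointField_top {F M : Type*} [Field F] [Field M] [Algebra F M] {n : ℕ}
    {γ : Fin (n + 1) → M} {x y : M} {q₀ q₁ q₂ : Fin (n + 1) → F}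
    (h0 : ∑ j, algebraMap F M (q₀ j) * γ j = 1) (h1 : ∑ j, algebraMap F M (q₁ j) * γ j = x)
    (h2 : ∑ j, algebraMap F M (q₂ j) * γ j = y)
    (hxy : IntermediateField.adjoin F {x, y} = ⊤) : pointField F γ = ⊤ := by
  have hg : ∀ i j, γ i / γ j ∈ pointField F γ := fun i j =>
    IntermediateField.subset_adjoin _ _ ⟨i, j, rfl⟩
  have hi : ∀ i, γ i ∈ pointField F γ := by
    intro i
    by_cases hz : γ i = 0
    · rw [hz]
      exact zero_mem _
    have h3 : (γ i)⁻¹ = ∑ j, algebraMap F M (q₀ j) * (γ j / γ i) := by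
      have h4 : ∑ j, algebraMap F M (q₀ j) * (γ j / γ i) =
          (∑ j, algebraMap F M (q₀ j) * γ j) / γ i := by
        rw [Finset.sum_div]
        exact Finset.sum_congr rfl fun j _ => by rw [mul_div_assoc]
      rw [h4, h0, one_div]
    have h4 : (γ i)⁻¹ ∈ pointField F γ := by
      rw [h3]
      exact sum_mem fun j _ => mul_mem (IntermediateField.algebraMap_mem _ _) (hg j i)
    have h5 := inv_mem h4
    rwa [inv_inv] at h5
  rw [eq_top_iff, ← hxy, IntermediateField.adjoin_le_iff]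
  rintro z (rfl | rfl)
  · rw [← h1]
    exact sum_mem fun j _ => mul_mem (IntermediateField.algebraMap_mem _ _) (hi j)
  · rw [← h2]
    exact sum_mem fun j _ => mul_mem (IntermediateField.algebraMap_mem _ _) (hi j)

/-- the relations in the field of functions -/
private theorem rel_fld {L M : Type*} [Field L] [Field M] {n : ℕ} {φ : L →+* M} {x y : M}
    {A : L[X][X]} {B : Fin (n + 1) → L[X][X]} {γ : Fin (n + 1) → M}
    (c1 : ∀ G : L[X][X], A ∣ G → ev φ x y G = 0) (c2 : ev φ x y (derivative A) ≠ 0)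
    (c3 : ∀ j, ev φ x y (B j) = ev φ x y (derivative A) * γ j) {q : Fin (n + 1) → L}
    {R : L[X][X]} (hR : A ∣ ∑ j, C (C (q j)) * B j - R * derivative A) :
    ∑ j, φ (q j) * γ j = ev φ x y R := by
  have h1 := c1 _ hR
  rw [map_sub, sub_eq_zero, map_sum, map_mul] at h1
  have h2 : ∑ j, ev φ x y (C (C (q j)) * B j) =
      ev φ x y (derivative A) * ∑ j, φ (q j) * γ j := by
    rw [Finset.mul_sum]
    refine Finset.sum_congr rfl fun j _ => ?_
    rw [map_mul, ev_C_C, c3]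
    ring
  rw [h2, mul_comm (ev φ x y R)] at h1
  exact mul_left_cancel₀ c2 h1

/-- the plane curve through the projection of a point -/
private theorem crv_key {κ : Type v} {L : Type u} [Field κ] [IsAlgClosed κ] [CharZero κ] [Field L]
    [CharZero L] [Algebra κ L] (h : IsFF κ L) {n d₀ : ℕ} (Z : DatG κ (L := L) n d₀) {a b : ℕ}
    {α : ℤ} (ha : a ≤ b) {P : MvPolynomial (Fin 3) L} (hP0 : P ≠ 0) (hP : P.IsHomogeneous a)
    (hPe : MvPolynomial.eval Z.p P = 0) (hPα : polyHeight κ P ≤ α)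
    (hsm : 9 * (b : ℤ) * α + 3 * b * Z.Δ < height κ Z.x) :
    ∃ (b' : ℕ) (A : L[X][X]) (P : MvPolynomial (Fin 3) L), b' ≤ b ∧
      CrvG Z b' A ∧ A.leadingCoeff.Monic ∧ P.IsHomogeneous b' ∧ deh P = A ∧
      gh κ A ≤ α ∧ 0 ≤ gh κ A ∧ 9 * (b' : ℤ) * gh κ A + 3 * b' * Z.Δ < height κ Z.x := by
  have hΔ : 0 ≤ Z.Δ := Z.Δ_nonneg
  have hb0 : (0 : ℤ) ≤ b := Int.natCast_nonneg b
  have hα0 : 0 ≤ α := (polyHeight_nonneg h hP0).trans hPα
  have ha' : (a : ℤ) ≤ b := by exact_mod_cast ha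
  have h9 : 0 ≤ (b : ℤ) * α := mul_nonneg hb0 hα0
  have h10 : 0 ≤ (b : ℤ) * Z.Δ := mul_nonneg hb0 hΔ
  obtain ⟨b', A, P', h1, h2, h3, h4, h5, -, h7, h8⟩ := exists_curve_hom h Z hP0 hP hPe (by
    refine lt_of_le_of_lt ?_ hsm
    have h1 : (a : ℤ) * polyHeight κ P ≤ b * α :=
      mul_le_mul ha' hPα (polyHeight_nonneg h hP0) hb0
    nlinarith)
  have hgA : 0 ≤ gh κ A := gh_nonneg h h3.irr.ne_zero
  have hgα : gh κ A ≤ α := h8.trans hPα
  refine ⟨b', A, P', h2.trans ha, h3, h4, h5, h7, hgα, hgA, ?_⟩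
  refine lt_of_le_of_lt ?_ hsm
  have hb' : (b' : ℤ) ≤ b := by exact_mod_cast h2.trans ha
  have h11 : (b' : ℤ) * gh κ A ≤ b * α := mul_le_mul hb' hgα hgA hb0
  have h12 : (b' : ℤ) * Z.Δ ≤ b * Z.Δ := mul_le_mul_of_nonneg_right hb' hΔ
  nlinarith

/-- the main step, for one block -/
private theorem exists_crvN' {κ : Type v} {L : Type u} [Field κ] [IsAlgClosed κ] [CharZero κ]
    [Field L] [CharZero L] [Algebra κ L] (h : IsFF κ L) {n d₀ : ℕ} (Z : DatG κ (L := L) n d₀)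
    (hEκ : ∀ j (u : κ), ∃ u' : κ, Z.E j (algebraMap κ L u) = algebraMap κ L u')
    {b : ℕ} {α : ℤ} {P : MvPolynomial (Fin 3) L} {a : ℕ} (ha : a ≤ b) (hP0 : P ≠ 0)
    (hP : P.IsHomogeneous a) (hPe : MvPolynomial.eval Z.p P = 0) (hPα : polyHeight κ P ≤ α)
    (hsm : 9 * (b : ℤ) * α + 3 * b * Z.Δ < height κ Z.x) {Q : DatG κ (L := L) n d₀ → Prop}
    (hpl : ∀ ξ₀ ξ₁ : Fin (n + 1) → ℕ, ∑ j, (ξ₀ j : L) * Z.x j ≠ 0 →
      (∀ w : Place κ L, vmax w.1 Z.x ≤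
        max (w.1 (∑ j, (ξ₀ j : L) * Z.x j)) (w.1 (∑ j, (ξ₁ j : L) * Z.x j))) →
      ∃ Z' : DatG κ (L := L) n d₀, Q Z' ∧ SameG Z Z' ∧ Z'.ξ₀ = ξ₀ ∧ Z'.ξ₁ = ξ₁ ∧
        ∃ (a : ℕ) (P : MvPolynomial (Fin 3) L), a ≤ b ∧ P ≠ 0 ∧ P.IsHomogeneous a ∧
          MvPolynomial.eval Z'.p P = 0 ∧ polyHeight κ P ≤ α) :
    ∃ (Z' : DatG κ (L := L) n d₀) (b' : ℕ) (A : L[X][X]), Q Z' ∧ b' ≤ b ∧ CrvN Z' b' A ∧
      gh κ A ≤ α := by
  classical
  have hΔ : 0 ≤ Z.Δ := Z.Δ_nonneg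
  have hb0 : (0 : ℤ) ≤ b := Int.natCast_nonneg b
  -- the first curve
  obtain ⟨b₁, A₁, P₁, hb₁, hA₁, -, -, -, hα₁, hg₁, hsp₁⟩ := crv_key h Z ha hP0 hP hPe hPα hsm
  have hE₁ := crvE_of_small Z hA₁ h hEκ hsp₁
  have hx : Z.x ≠ 0 := by
    intro h0
    have h1 := Z.h0
    rw [h0] at h1
    simp at h1
  refine with_fld h Z hA₁ hsp₁ ?_
  intro M i1 i2 x y γ D hM hxy c1 c2 c3 c4 c5
  have hcF : CharZero (AlgebraicClosure L) :=
    charZero_of_injective_algebraMap (algebraMap L (AlgebraicClosure L)).injective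
  -- the relations
  have q0 : ∑ j, psi L M (Z.ξ₀ j : L) * γ j = 1 := by
    have h1 := rel_fld c1 c2 c3 (q := fun j => (Z.ξ₀ j : L)) (R := 1) (by
      rw [one_mul]
      exact hE₁.r0)
    rw [map_one] at h1
    exact h1
  have q1 : ∑ j, psi L M (Z.ξ₁ j : L) * γ j = x := by
    have h1 := rel_fld c1 c2 c3 (q := fun j => (Z.ξ₁ j : L)) (R := C Polynomial.X) hE₁.r1
    rw [ev_C_X] at h1
    exact h1
  have q2 : ∑ j, psi L M (algebraMap κ L (Z.z j)) * γ j = y := by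
    have h1 := rel_fld c1 c2 c3 (q := fun j => algebraMap κ L (Z.z j)) (R := Polynomial.X) hE₁.r2
    rw [ev_X] at h1
    exact h1
  have hγ : γ ≠ 0 := by
    intro h0
    rw [h0] at q0
    simp at q0
  have hgen : pointField (AlgebraicClosure L) γ = ⊤ := pointField_top
    (q₀ := fun j => algebraMap L (AlgebraicClosure L) (Z.ξ₀ j : L))
    (q₁ := fun j => algebraMap L (AlgebraicClosure L) (Z.ξ₁ j : L))
    (q₂ := fun j => algebraMap L (AlgebraicClosure L) (algebraMap κ L (Z.z j))) q0 q1 q2 hxy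
  -- the second projection
  obtain ⟨ξ₀, ξ₁, g1, g2, g3, g4, g5⟩ := exists_forms₂ h hM hx hγ hgen
  obtain ⟨Z', hQ, hS, hξ₀, hξ₁, a', P', ha', hP0', hP', hPe', hPα'⟩ := hpl ξ₀ ξ₁ g1 g2
  have hht : height κ Z'.x = height κ Z.x := by
    obtain ⟨s, hs0, hs⟩ := hS.x
    rw [hs]
    exact h.height_smul hs0
  have hΔ' : Z'.Δ = Z.Δ := by
    show ∑ᶠ w, (Z'.δ w : ℤ) = ∑ᶠ w, (Z.δ w : ℤ)
    rw [hS.δ]
  obtain ⟨b₂, A₂, P₂, hb₂, hA₂, hmon, hP₂, hPA₂, hα₂, hg₂, hsp₂⟩ :=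
    crv_key h Z' ha' hP0' hP' hPe' hPα' (by rw [hΔ', hht]; exact hsm)
  have hform : (b₂ : ℤ) * gh κ A₁ + b₁ * gh κ A₂ < height κ Z.x := by
    refine lt_of_le_of_lt ?_ hsm
    have h1 : (b₂ : ℤ) * gh κ A₁ ≤ b * α :=
      mul_le_mul (by exact_mod_cast hb₂) hα₁ hg₁ hb0
    have h2 : (b₁ : ℤ) * gh κ A₂ ≤ b * α :=
      mul_le_mul (by exact_mod_cast hb₁) hα₂ hg₂ hb0
    have h9 : 0 ≤ (b : ℤ) * α := mul_nonneg hb0 (hg₁.trans hα₁)
    have h10 : 0 ≤ (b : ℤ) * Z.Δ := mul_nonneg hb0 hΔ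
    nlinarith
  have e0 : ∑ j, (Z'.ξ₀ j : M) * γ j = ∑ j, (ξ₀ j : M) * γ j := by rw [hξ₀]
  have e1 : ∑ j, (Z'.ξ₁ j : M) * γ j = ∑ j, (ξ₁ j : M) * γ j := by rw [hξ₁]
  obtain ⟨⟨c, hc⟩, htot, hint⟩ := two_proj h hS hA₁ hA₂ hP₂ hPA₂ hEκ hsp₁ hform hM hxy c1 c2 c3
    c4 c5 (by rw [e0]; exact g3) (by rw [e0, e1]; exact g4) (by rw [e0, e1]; exact g5)
  have hEκ' : ∀ j (u : κ), ∃ u' : κ, Z'.E j (algebraMap κ L u) = algebraMap κ L u' := by
    rw [hS.E]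
    exact hEκ
  refine ⟨Z', b₂, A₂, hQ, hb₂, ⟨crvE_of_small _ hA₂ h hEκ' hsp₂,
    dvd_EE _ hA₂ h hsp₂, ?_, htot, hint⟩, hα₂⟩
  unfold Monic
  rw [hc] at hmon ⊢
  have h1 : (C c : L[X]).leadingCoeff = 1 := hmon
  rw [leadingCoeff_C] at h1
  rw [h1, C_1]

/-- **The normalised plane curve** (repair (R1) of paper 667). -/
theorem exists_crvN {κ : Type v} {L : Type u} [Field κ] [IsAlgClosed κ] [CharZero κ] [Field L]
    [CharZero L] [Algebra κ L] (h : IsFF κ L) {n p : ℕ} {d : Fin p → ℕ}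
    (X : DatSC κ (L := L) n d) (j₀ : Fin p) {b : ℕ} {α : ℤ}
    (hpl : ∀ X' : DatSC κ (L := L) n d, SameC X X' →
      ∃ (a : ℕ) (P : MvPolynomial (Fin 3) L), a ≤ b ∧ P ≠ 0 ∧ P.IsHomogeneous a ∧
        MvPolynomial.eval X'.toDatC.pt P = 0 ∧ polyHeight κ P ≤ α)
    (hsm : 9 * (b : ℤ) * α + 3 * b * X.toDatC.Δ < height κ X.x) :
    ∃ (X' : DatSC κ (L := L) n d) (b' : ℕ) (A : L[X][X]), SameC X X' ∧ b' ≤ b ∧
      CrvN (X'.toDatC.blk j₀) b' A ∧ gh κ A ≤ α := by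
  obtain ⟨a, P, ha, hP0, hP, hPe, hPα⟩ := hpl X (SameC.refl X)
  obtain ⟨Z', b', A, ⟨X', hS, rfl⟩, h1, h2, h3⟩ := exists_crvN' h (X.toDatC.blk j₀) X.hEκ ha hP0
    hP hPe hPα hsm (Q := fun Z' => ∃ X' : DatSC κ (L := L) n d, SameC X X' ∧
      Z' = X'.toDatC.blk j₀) (by
    intro ξ₀ ξ₁ g1 g2
    obtain ⟨X', hS, hξ₀, hξ₁, -⟩ := exists_reproj X g1 g2
    exact ⟨X'.toDatC.blk j₀, ⟨X', hS, rfl⟩, ⟨hS.δ, hS.z, hS.E, hS.x⟩, hξ₀, hξ₁, hpl X' hS⟩)
  exact ⟨X', b', A, hS, h1, h2, h3⟩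

end Pool.Agent.Lib.MP_44a246_ntSP
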