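import Mathlib
import Pool.Agent.Lib.MP_44a246_ntSP.CD01
import Pool.Agent.Lib.MP_44a246_ntSP.NP08
import Pool.Agent.Lib.MP_44a246_ntSP.Hcon
import Pool.Agent.Lib.MP_44a246_ntE.E22

/-!
SHARP PAIRS (paper 667): the codimensions of the spaces of forms and of deformations, over the
field `L` of the point.
-/

namespace Pool.Agent.Lib.MP_44a246_ntSP

open Pool.Agent.Lib.MP_e52354_nt
open Pool.Agent.Lib.MP_44a246_nt
open Pool.Agent.Lib.MP_44a246_ntL
open Pool.Agent.Lib.MP_44a246_ntR
open Pool.Agent.Lib.MP_44a246_ntS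
open Pool.Agent.Lib.MP_44a246_ntF
open Pool.Agent.Lib.MP_44a246_ntO
open Pool.Agent.Lib.MP_44a246_ntW
open Pool.Agent.Lib.MP_44a246_ntE
open Pool.Agent.Lib.MP_44a246_ntG
open Pool.Agent.Lib.MP_44a246_ntSH
open WithZero Polynomial Module

universe u v

section base

variable {L F : Type*} [Field L] [Field F] [Algebra L F]

theorem mp_CC (c : L) : mp L F (C (C c)) = C (C (algebraMap L F c)) := by
  unfold mp
  rw [coe_mapRingHom, map_C, coe_mapRingHom, map_C]

theorem mp_CX : mp L F (C X) = C X := by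
  unfold mp
  rw [coe_mapRingHom, map_C, coe_mapRingHom, map_X]

theorem mp_X : mp L F X = X := by
  unfold mp
  rw [coe_mapRingHom, map_X]

theorem mp_lin {n : ℕ} (c : Fin n → L) (B : Fin n → L[X][X]) :
    mp L F (∑ j, C (C (c j)) * B j) = ∑ j, C (C (algebraMap L F (c j))) * mp L F (B j) := by
  rw [map_sum]
  exact Finset.sum_congr rfl fun j _ => by rw [map_mul, mp_CC]

theorem mp_B4 {k n : ℕ} (c : Fin k → Fin n → L) (B : Fin n → L[X][X]) (i : Fin k) :
    mp L F (B4 c B i) = B4 (fun i j => algebraMap L F (c i j)) (fun j => mp L F (B j)) i :=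
  mp_lin _ _

end base

/-- **The codimensions.** -/
theorem codims_crvN {κ : Type v} {L : Type u} [Field κ] [Field L] [CharZero L]
    [Algebra κ L] {R d₀ b : ℕ} {Z : DatG κ (L := L) (R + 2) d₀} {A : L[X][X]}
    (hA : CrvN Z b A) {N i : ℕ}
    (hN : N + 1 + finrank L (dvS A (Z.B A)) ≤ R + 3)
    (hi : 2 ^ i * A.natDegree ≤ 3 ^ i * N) (hN2 : 2 ≤ N) :
    N ≤ A.natDegree ∧
    (∀ e, Fintype.card (EX (R + 3) e) ≤
      finrank L (VI A (Z.B A) e) + (e * A.natDegree + 1)) ∧
    (∀ (k : ℕ) (c : Fin (k + 1) → Fin (R + 3) → L) (e : ℕ), Fintype.card (EX (k + 1) e) ≤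
      finrank L (VI A (B4 c (Z.B A)) e) + (e * A.natDegree + 1)) ∧
    (∀ (T : Type) (_ : Fintype T) (D : T → Derivation ℤ L L), Fintype.card T ≤
      finrank L (ZF A (Z.B A) D) + (R * (A.natDegree + 1) + (A.natDegree +
        2 * (2 ^ i * A.natDegree) + 1) + (R + 3))) ∧
    (∀ (T : Type) (_ : Fintype T) (D : T → Derivation ℤ L L) (G : T → L),
      G ∉ ZF A (Z.B A) D → ∃ g ∈ VI A (Z.B A) (8 * 2 ^ i),
        (fun K => dF D G (g K)) ∉ VI A (Z.B A) (8 * 2 ^ i)) := by
  classical
  set F := AlgebraicClosure L with hFd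
  have hchar : CharZero F := charZero_of_injective_algebraMap (algebraMap L F).injective
  obtain ⟨f, hfd⟩ : ∃ f : F[X][X], f = mp L F A := ⟨_, rfl⟩
  have hf : Irreducible f := by rw [hfd]; exact irreducible_mp hA.irr hA.zero hA.der
  have hnd : ∀ G : L[X][X], (mp L F G).natDegree = G.natDegree := by
    intro G
    unfold mp
    rw [coe_mapRingHom]
    refine natDegree_map_eq_of_injective ?_ G
    rw [coe_mapRingHom]
    exact map_injective _ (algebraMap L F).injective
  have hfdeg : f.natDegree = A.natDegree := by rw [hfd, hnd]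
  have hA0 : A.natDegree ≠ 0 := hA.deg
  have hfY : ¬ f ∣ derivative f := by
    intro h
    have h1 : derivative f ≠ 0 := by
      intro h2
      have h3 : mp L F (derivative A) = 0 := by rw [← mp_derivative', ← hfd, h2]
      have h4 : derivative A = 0 := mp_injective (by rw [h3, map_zero])
      have h5 := hA.der
      rw [h4, evalEval_zero] at h5
      exact h5 rfl
    have h2 := natDegree_le_of_dvd h h1
    have h3 := natDegree_derivative_lt (p := f) (by omega)
    omega
  refine with_curve hf (by omega) ?_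
  intro M i1 i2 i3 i4 i5 i6 i7 i8 i9 Y hker hgen hfr htr halg
  have hIs : IsScalarTower F (RatFunc F) M := by
    refine IsScalarTower.of_algebraMap_eq fun u => ?_
    rw [IsScalarTower.algebraMap_apply F F[X] M, IsScalarTower.algebraMap_apply F F[X] (RatFunc F),
      ← IsScalarTower.algebraMap_apply F[X] (RatFunc F) M]
  have hM : IsFF F M := isFF_of_ratFunc F M
  obtain ⟨X', hX'⟩ : ∃ X' : M, X' = algebraMap F[X] M X := ⟨_, rfl⟩
  rw [← hX'] at htr
  have hψ : ∀ G : F[X][X], ev (algebraMap F M) X' Y G = 0 ↔ f ∣ G := by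
    intro G
    rw [hX', ev_aeval]
    exact hker G
  have hht : height F ![1, X'] = A.natDegree := by
    have h1 := finrank_eq_height F M
    rw [tL_eq, ← hX', hfr, hfdeg] at h1
    exact h1.symm
  have hgen' : IntermediateField.adjoin F {X', Y} = ⊤ := by
    rw [hX']
    exact Pool.Agent.Lib.MP_44a246_ntPC.top_of_mem hgen _
      (IntermediateField.subset_adjoin _ _ (Set.mem_insert _ _))
      (IntermediateField.subset_adjoin _ _ (Set.mem_insert_of_mem _ (Set.mem_singleton _)))
  have hω : ev (algebraMap F M) X' Y (derivative f) ≠ 0 := fun h => hfY ((hψ _).1 h)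
  -- the functions
  obtain ⟨γ, hγd⟩ : ∃ γ : Fin (R + 3) → M, γ = fun j =>
      ev (algebraMap F M) X' Y (mp L F (Z.B A j)) /
        ev (algebraMap F M) X' Y (derivative f) := ⟨_, rfl⟩
  have hγ : ∀ j, ev (algebraMap F M) X' Y (mp L F (Z.B A j)) =
      ev (algebraMap F M) X' Y (derivative f) * γ j := by
    intro j
    rw [hγd]
    field_simp
  have hmax : ∀ (w : Place F M) j, w.1 (γ j) ≤ max 1 (w.1 X') := by
    intro w j
    rw [hγd]
    have e1 : derivative f = mp L F (derivative A) := by rw [hfd, mp_derivative']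
    simp only [e1, ev_mp]
    refine hA.val_le ((algebraMap F M).comp (algebraMap L F)) ?_ ?_ w.1 ?_ j
    · rw [← ev_mp, ← hfd]
      exact (hψ f).2 dvd_rfl
    · rw [← ev_mp, ← e1]
      exact hω
    · intro a
      rw [RingHom.comp_apply]
      by_cases ha : algebraMap L F a = 0
      · rw [ha, map_zero, map_zero]
        exact zero_le
      · exact (w.2.2 _ ha).le
  have hmax' : ∀ w : Place F M, vmax w.1 γ ≤ max 1 (w.1 X') := fun w => vmax_le w.1 (hmax w)
  have hdv : finrank F (dvS f (fun j => mp L F (Z.B A j))) = finrank L (dvS A (Z.B A)) := by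
    rw [hfd, dvS_mp, finrank_bc]
  have hspan := finrank_dvS_add hψ hfY hγ
  rw [hdv] at hspan
  have hNs : N + 1 ≤ finrank F (Submodule.span F (Set.range γ)) := by omega
  -- the relations
  obtain ⟨ξ, hξ⟩ : ∃ ξ : Fin 3 → Fin (R + 3) → F, ξ = ![fun j => algebraMap L F (Z.ξ₀ j : L),
      fun j => algebraMap L F (Z.ξ₁ j : L),
      fun j => algebraMap L F (algebraMap κ L (Z.z j))] := ⟨_, rfl⟩
  have hrel : ∀ (q : Fin (R + 3) → L) (S : L[X][X]),
      A ∣ ∑ j, C (C (q j)) * Z.B A j - S * derivative A →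
      ∑ j, algebraMap F M (algebraMap L F (q j)) * γ j =
        ev (algebraMap F M) X' Y (mp L F S) := by
    intro q S hS
    have h1 : f ∣ mp L F (∑ j, C (C (q j)) * Z.B A j - S * derivative A) := by
      rw [hfd]
      exact _root_.map_dvd (mp L F) hS
    rw [← hψ, map_sub, map_mul, mp_lin, ← mp_derivative', ← hfd, map_sub, map_mul, map_sum,
      sub_eq_zero] at h1
    have h2 : ∑ j, ev (algebraMap F M) X' Y (C (C (algebraMap L F (q j))) * mp L F (Z.B A j)) =
        ev (algebraMap F M) X' Y (derivative f) *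
          ∑ j, algebraMap F M (algebraMap L F (q j)) * γ j := by
      rw [Finset.mul_sum]
      refine Finset.sum_congr rfl fun j _ => ?_
      rw [map_mul, ev_C_C, hγ]
      ring
    rw [h2, mul_comm (ev (algebraMap F M) X' Y (mp L F S))] at h1
    exact mul_left_cancel₀ hω h1
  have h0 : ∑ j, algebraMap F M (ξ 0 j) * γ j = 1 := by
    have h1 := hrel (fun j => (Z.ξ₀ j : L)) 1 (by rw [one_mul]; exact hA.r0)
    rw [map_one, map_one] at h1
    rw [hξ]
    exact h1
  have h1 : ∑ j, algebraMap F M (ξ 1 j) * γ j = X' := by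
    have h1 := hrel (fun j => (Z.ξ₁ j : L)) (C X) hA.r1
    rw [mp_CX, ev_apply, eval₂_C, coe_eval₂RingHom, eval₂_X] at h1
    rw [hξ]
    exact h1
  have h2 : ∑ j, algebraMap F M (ξ 2 j) * γ j = Y := by
    have h1 := hrel (fun j => algebraMap κ L (Z.z j)) X hA.r2
    rw [mp_X, ev_apply, eval₂_X] at h1
    rw [hξ]
    exact h1
  -- `N ≤ m`
  have hNm : N ≤ A.natDegree := by
    have h3 := finrank_pow_le hM htr hmax hht 1
    rw [pow_one, one_mul] at h3
    omega
  have hdeg : 2 ≤ A.natDegree := by omega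
  refine ⟨hNm, fun e => ?_, fun k c e => ?_, fun T _ D => ?_, fun T _ D G hG => ?_⟩
  · have h3 := codim_VI hM htr hψ hfY hγ hmax hht e
    have h4 : finrank F (VI f (fun j => mp L F (Z.B A j)) e) = finrank L (VI A (Z.B A) e) := by
      rw [hfd, VI_mp, finrank_bc]
    rw [h4] at h3
    exact h3
  · obtain ⟨γ', hγ', hmax2⟩ := exists_B4 hγ hmax (fun i j => algebraMap L F (c i j))
    have h3 := codim_VI hM htr hψ hfY hγ' hmax2 hht e
    have h4 : finrank F (VI f (B4 (fun i j => algebraMap L F (c i j))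
        (fun j => mp L F (Z.B A j))) e) = finrank L (VI A (B4 c (Z.B A)) e) := by
      have h5 : B4 (fun i j => algebraMap L F (c i j)) (fun j => mp L F (Z.B A j)) =
          fun i => mp L F (B4 c (Z.B A) i) := by
        funext i
        rw [mp_B4]
      rw [h5, hfd, VI_mp, finrank_bc]
    rw [h4] at h3
    exact h3
  · have h3 : ∀ t, ∃ D' : Derivation ℤ F F, ∀ y, D' (algebraMap L F y) =
        algebraMap L F (D t y) := fun t => exists_extension (D t)
    choose D' hD' using h3
    have hnat : ∀ t (q : ℕ), D' t (algebraMap L F (q : L)) = 0 := by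
      intro t q
      rw [hD', Derivation.map_natCast, map_zero]
    obtain ⟨m, hm, -, hcard⟩ := codim_ZF hM (by omega) hψ htr hgen' hγ hmax' h0 h1 h2
      (D := D') (fun t j => by rw [hξ]; exact hnat t _) (fun t j => by rw [hξ]; exact hnat t _) hNs
      (b' := A.natDegree) (by rw [hht]) hi hN2
    rw [hht] at hm
    have h4 : A.natDegree = m := by exact_mod_cast hm
    have h5 : finrank F (ZF f (fun j => mp L F (Z.B A j)) D') = finrank L (ZF A (Z.B A) D) := by
      rw [hfd, ZF_mp hD', finrank_bc]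
    rw [← h4, h5] at hcard
    exact hcard
  · -- the conormal lemma
    have h3 : ∀ t, ∃ D' : Derivation ℤ F F, ∀ y, D' (algebraMap L F y) =
        algebraMap L F (D t y) := fun t => exists_extension (D t)
    choose D' hD' using h3
    have hnat : ∀ t (q : ℕ), D' t (algebraMap L F (q : L)) = 0 := by
      intro t q
      rw [hD', Derivation.map_natCast, map_zero]
    obtain ⟨W, hWd⟩ : ∃ W : Submodule F M, W = Submodule.span F (Set.range γ) := ⟨_, rfl⟩
    have hγW : ∀ j, γ j ∈ W := fun j => by
      rw [hWd]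
      exact Submodule.subset_span ⟨j, rfl⟩
    have hlin : ∀ q : Fin (R + 3) → F, ∑ j, algebraMap F M (q j) * γ j ∈ W := by
      intro q
      refine Submodule.sum_mem _ fun j _ => ?_
      rw [← Algebra.smul_def]
      exact Submodule.smul_mem _ _ (hγW j)
    have h1W : (1 : M) ∈ W := h0 ▸ hlin _
    have hXW : tL F M ∈ W := by
      rw [tL_eq, ← hX', ← h1]
      exact hlin _
    have hYW : Y ∈ W := by
      have h4 := hlin (ξ 2)
      rwa [h2] at h4
    have hWf : FiniteDimensional F W := by
      rw [hWd]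
      exact FiniteDimensional.span_of_finite _ (Set.finite_range γ)
    obtain ⟨P, hP⟩ := exists_pole F M
    have hWP : W ≤ rr P := by
      rw [hWd, Submodule.span_le]
      rintro _ ⟨j, rfl⟩ v
      refine (hmax v j).trans (max_le ?_ ?_)
      · rw [← exp_zero, exp_le_exp]
        exact hP.nonneg v
      · refine le_exp_log.trans ?_
        rw [exp_le_exp, hP v, tL_eq, ← hX']
        exact le_max_right _ _
    obtain ⟨s, hs⟩ : ∃ s, finrank F W = s + 1 := ⟨finrank F W - 1, by rw [hWd]; omega⟩
    have hsN : N ≤ s := by rw [hWd] at hs; omega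
    obtain ⟨b₁, hb₁, hb₁W⟩ := exists_adapted_growth hP h1W hXW hYW hWP hgen hs (i := i)
      (by rw [hfr, hfdeg]; exact hi.trans (Nat.mul_le_mul_left _ hsN))
    have hpow : ∀ (k : ℕ) (y : M), y ∈ W ^ k →
        y ∈ Submodule.span (RatFunc F) (Set.range γ) ^ k := by
      intro k
      induction k with
      | zero =>
        intro y hy
        rw [pow_zero] at hy ⊢
        obtain ⟨c, rfl⟩ := Submodule.mem_one.1 hy
        refine Submodule.mem_one.2 ⟨algebraMap F (RatFunc F) c, ?_⟩
        rw [← IsScalarTower.algebraMap_apply]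
      | succ k ih =>
        intro y hy
        rw [pow_succ] at hy ⊢
        refine Submodule.mul_induction_on hy (fun a ha b hb => ?_) (fun a b ha hb => ?_)
        · refine Submodule.mul_mem_mul (ih a ha) ?_
          rw [hWd] at hb
          exact Submodule.span_subset_span F (RatFunc F) (Set.range γ) hb
        · exact Submodule.add_mem _ ha hb
    have hne : Nonempty (Fin (finrank (RatFunc F) M)) := ⟨⟨0, by rw [hfr]; omega⟩⟩
    have hgrow : Submodule.span (RatFunc F) (Set.range γ) ^ (2 ^ i) = ⊤ := by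
      rw [eq_top_iff, ← hb₁.span_eq_top_of_card_eq_finrank (by rw [Fintype.card_fin]),
        Submodule.span_le]
      rintro _ ⟨l, rfl⟩
      exact hpow _ _ (hb₁W l)
    have hdim : finrank F ↥(Submodule.span F (Set.range γ) ^ (8 * 2 ^ i)) ≤
        8 * 2 ^ i * finrank (RatFunc F) M + 1 := by
      rw [hfr, hfdeg]
      exact finrank_pow_le hM htr hmax hht _
    have hγ' : ∀ j, γ j * aeval Y (derivative f) = aeval Y (mp L F (Z.B A j)) := by
      intro j
      have h4 := hγ j
      rw [hX', ev_aeval, ev_aeval] at h4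
      rw [h4, mul_comm]
    have hr : ∀ (q : Fin (R + 3) → L) (S : L[X][X]),
        A ∣ ∑ j, C (C (q j)) * Z.B A j - S * derivative A →
        f ∣ ∑ j, C (C (algebraMap L F (q j))) * mp L F (Z.B A j) - mp L F S * derivative f := by
      intro q S hS
      have h4 : f ∣ mp L F (∑ j, C (C (q j)) * Z.B A j - S * derivative A) := by
        rw [hfd]
        exact _root_.map_dvd (mp L F) hS
      rwa [map_sub, map_mul, mp_lin, ← mp_derivative', ← hfd] at h4
    have hr0 := hr (fun j => (Z.ξ₀ j : L)) 1 (by rw [one_mul]; exact hA.r0)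
    have hr1 := hr (fun j => (Z.ξ₁ j : L)) (C X) hA.r1
    rw [map_one, one_mul] at hr0
    rw [mp_CX] at hr1
    refine hcon_descend hD' (fun G' hG' => ?_) hG
    rw [← hfd] at hG' ⊢
    exact hcon_curve hker (hX' ▸ htr) halg hfY hr0 hr1 hγ' (Nat.one_le_two_pow) hgrow hdim
      (fun t j => hnat t _) (fun t j => hnat t _) hG'

end Pool.Agent.Lib.MP_44a246_ntSP
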