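import Mathlib
import Pool.Agent.Lib.MP_44a246_ntSP.CD02
import Pool.Agent.Lib.MP_44a246_ntSH.PR09

/-!
SHARP PAIRS (paper 667): the height of the space of the linear relations between the functions on
the curve; the number of independent functions; the forms which vanish at the point vanish on the
curve.
-/

namespace Pool.Agent.Lib.MP_44a246_ntSP

open Pool.Agent.Lib.MP_e52354_nt
open Pool.Agent.Lib.MP_44a246_nt
open Pool.Agent.Lib.MP_44a246_ntL
open Pool.Agent.Lib.MP_44a246_ntR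
open Pool.Agent.Lib.MP_44a246_ntS
open Pool.Agent.Lib.MP_44a246_ntA
open Pool.Agent.Lib.MP_44a246_ntF
open Pool.Agent.Lib.MP_44a246_ntO
open Pool.Agent.Lib.MP_44a246_ntW
open Pool.Agent.Lib.MP_44a246_ntE
open Pool.Agent.Lib.MP_44a246_ntG
open Pool.Agent.Lib.MP_44a246_ntK
open Pool.Agent.Lib.MP_44a246_ntSH
open WithZero Polynomial Module

section linear

variable {L : Type*} [Field L] {n : ℕ}

/-- a linear form -/
noncomputable def l1 (c : Fin n → L) : MvPolynomial (Fin n) L :=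
  ∑ j, MvPolynomial.C (c j) * MvPolynomial.X j

theorem l1_hom (c : Fin n → L) : (l1 c).IsHomogeneous 1 := by
  refine MvPolynomial.IsHomogeneous.sum _ _ _ fun j _ => ?_
  have h1 := (MvPolynomial.isHomogeneous_C (Fin n) (c j)).mul (MvPolynomial.isHomogeneous_X L j)
  simpa using h1

/-- the coefficients of a linear form -/
noncomputable def v1 (c : Fin n → L) : EX n 1 → L := fun K => (l1 c).coeff K.1

theorem pf_v1 (c : Fin n → L) : pf (v1 c) = l1 c := pf_coeff (l1_hom c)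

theorem v1_sub (c c' : Fin n → L) : v1 (c - c') = v1 c - v1 c' := by
  funext K
  unfold v1 l1
  rw [Pi.sub_apply, ← MvPolynomial.coeff_sub, ← Finset.sum_sub_distrib]
  congr 1
  refine Finset.sum_congr rfl fun j _ => ?_
  rw [Pi.sub_apply, map_sub, sub_mul]

theorem v1_le (v : Valuation L ℤᵐ⁰) {c : Fin n → L} {g : ℤᵐ⁰} (hc : ∀ j, v (c j) ≤ g)
    (K : EX n 1) : v (v1 c K) ≤ g := by
  unfold v1 l1
  rw [MvPolynomial.coeff_sum]
  refine Valuation.map_sum_le _ fun j _ => ?_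
  rw [MvPolynomial.coeff_C_mul, map_mul]
  have h1 : v ((MvPolynomial.X j : MvPolynomial (Fin n) L).coeff K.1) ≤ 1 := by
    classical
    rw [MvPolynomial.coeff_X]
    split_ifs
    · rw [map_one]
    · rw [map_zero]
      exact zero_le
  calc v (c j) * v ((MvPolynomial.X j : MvPolynomial (Fin n) L).coeff K.1) ≤ g * 1 :=
        mul_le_mul' (hc j) h1
    _ = g := mul_one g

theorem v1_mem_VI {A : L[X][X]} {B : Fin n → L[X][X]} {c : Fin n → L} :
    v1 c ∈ VI A B 1 ↔ c ∈ dvS A B := by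
  rw [mem_VI, pf_v1, mem_dvS]
  have h1 : MvPolynomial.aeval B (l1 c) = ∑ j, C (C (c j)) * B j := by
    unfold l1
    rw [map_sum]
    refine Finset.sum_congr rfl fun j _ => ?_
    rw [map_mul, MvPolynomial.aeval_X, MvPolynomial.aeval_C]
    rfl
  rw [h1]

end linear

section main

variable {κ L : Type*} [Field κ] [IsAlgClosed κ] [CharZero κ] [Field L] [CharZero L]
  [Algebra κ L]

/-- the height of the space of the linear relations between the functions on the curve -/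
theorem ht_dvS_le (h : IsFF κ L) {n d₀ b : ℕ} (Z : DatG κ (L := L) n d₀) {A : L[X][X]}
    (hA : CrvE Z b A) (hpos : 0 < height κ Z.x) :
    (A.natDegree : ℤ) * ht κ (dvS A (Z.B A)) ≤
      (((n : ℤ) + 1) - finrank L (dvS A (Z.B A))) * (gh κ A + A.natDegree * (genus κ L + 1)) := by
  have h1 := ht_ge_of_dist h (le_top : dvS A (Z.B A) ≤ ⊤) (c := -(((1 : ℕ) : ℤ) * gh κ A))
    (m := A.natDegree) (fun v _ hv g hg => by
      refine bezout_ge h Z hA hpos (fun h0 => hv (v1_mem_VI.1 h0)) ⟨hg.1, fun w => ?_⟩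
      obtain ⟨u, hu1, hu2⟩ := hg.2 w
      refine ⟨v1 u, ?_, v1_le w.1 hu2⟩
      rw [← v1_sub]
      exact v1_mem_VI.2 hu1)
  rw [finrank_top, Module.finrank_fintype_fun_eq_card, Fintype.card_fin, ht_top h] at h1
  push_cast at h1
  linarith

/-- the point satisfies the linear relations -/
theorem mem_orth_dvS {n d₀ b : ℕ} {Z : DatG κ (L := L) n d₀} {A : L[X][X]}
    (hA : CrvG Z b A) : Z.x ∈ orth (dvS A (Z.B A)) := by
  rw [mem_orth]
  intro c hc
  have hB : ∀ j, (Z.B A j).evalEval Z.y₁ Z.y = (derivative A).evalEval Z.y₁ Z.y * Z.x j :=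
    fun j => (Z.B_eval hA j).symm
  obtain ⟨Q, hQ⟩ := mem_dvS.1 hc
  have h1 := congrArg (evalEvalRingHom Z.y₁ Z.y) hQ
  rw [map_sum, map_mul] at h1
  have h2 : evalEvalRingHom Z.y₁ Z.y A = 0 := hA.zero
  rw [h2, zero_mul] at h1
  have h3 : ∑ j, evalEvalRingHom Z.y₁ Z.y (C (C (c j)) * Z.B A j) =
      (derivative A).evalEval Z.y₁ Z.y * ∑ j, Z.x j * c j := by
    rw [Finset.mul_sum]
    refine Finset.sum_congr rfl fun j _ => ?_
    rw [map_mul]
    have e1 : evalEvalRingHom Z.y₁ Z.y (C (C (c j))) = c j := by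
      change (C (C (c j)) : L[X][X]).evalEval Z.y₁ Z.y = c j
      rw [evalEval_C, eval_C]
    have e2 : evalEvalRingHom Z.y₁ Z.y (Z.B A j) = (derivative A).evalEval Z.y₁ Z.y * Z.x j :=
      hB j
    rw [e1, e2]
    ring
  rw [h3] at h1
  exact (mul_eq_zero.1 h1).resolve_left hA.der

/-- **The number of independent functions.** -/
theorem indep_crv (h : IsFF κ L) {n d₀ b C₀ : ℕ} {Z : DatG κ (L := L) n d₀} {A : L[X][X]}
    (hA : CrvE Z b A) (hpos : 0 < height κ Z.x) (hC₀ : 0 < C₀)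
    (hsl : ∀ Q : Submodule L (Fin (n + 1) → L), Z.x ∈ Q →
      n * ((height κ Z.x : ℝ) - ht κ Q) ≤ C₀ * height κ Z.x * ((finrank L Q : ℝ) - 1))
    (hsm : 2 * (((n : ℤ) + 1) * (gh κ A + (genus κ L + 1))) ≤ height κ Z.x) :
    n / (2 * C₀) + 1 + finrank L (dvS A (Z.B A)) ≤ n + 1 := by
  obtain ⟨V, hV⟩ : ∃ V, V = dvS A (Z.B A) := ⟨_, rfl⟩
  have h1 := ht_dvS_le h Z hA hpos
  have h2 := hsl _ (mem_orth_dvS hA.toCrvG)
  rw [ht_orth h] at h2
  have h3 := finrank_orth V
  rw [Fintype.card_fin] at h3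
  rw [← hV] at h1 h2 ⊢
  have hm : (1 : ℤ) ≤ A.natDegree := by
    have := Nat.pos_of_ne_zero hA.deg
    exact_mod_cast this
  have hg : 0 ≤ gh κ A := gh_nonneg h hA.irr.ne_zero
  have hγ : (0 : ℤ) ≤ genus κ L + 1 := by positivity
  have h4 : (A.natDegree : ℤ) * ht κ V ≤
      A.natDegree * (((n : ℤ) + 1) * (gh κ A + (genus κ L + 1))) := by
    have e1 : (((n : ℤ) + 1) - finrank L V) ≤ (n : ℤ) + 1 := by
      have : (0 : ℤ) ≤ finrank L V := Int.natCast_nonneg _
      linarith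
    have e2 : (0 : ℤ) ≤ gh κ A + A.natDegree * (genus κ L + 1) := by positivity
    have e3 := mul_le_mul_of_nonneg_right e1 e2
    have e4 : gh κ A ≤ A.natDegree * gh κ A := le_mul_of_one_le_left hg hm
    have e5 : (0 : ℤ) ≤ (n : ℤ) + 1 := by positivity
    nlinarith [mul_le_mul_of_nonneg_left e4 e5]
  have h5 : ht κ V ≤ ((n : ℤ) + 1) * (gh κ A + (genus κ L + 1)) :=
    le_of_mul_le_mul_left h4 (by linarith)
  have h6 : 2 * (ht κ V : ℝ) ≤ height κ Z.x := by
    have : 2 * ht κ V ≤ height κ Z.x := by linarith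
    exact_mod_cast this
  have hH : (0 : ℝ) < height κ Z.x := by exact_mod_cast hpos
  obtain ⟨q, hq⟩ : ∃ q : ℕ, q = finrank L (orth V) := ⟨_, rfl⟩
  rw [← hq] at h2 h3
  have h7 : (n : ℝ) ≤ 2 * C₀ * ((q : ℝ) - 1) := by
    have h8 : (n : ℝ) * (height κ Z.x : ℝ) ≤ (2 * C₀ * ((q : ℝ) - 1)) * height κ Z.x := by
      have h9 : (0 : ℝ) ≤ n := Nat.cast_nonneg n
      nlinarith [mul_le_mul_of_nonneg_left h6 h9]
    exact le_of_mul_le_mul_right h8 hH
  have h8 : n + 2 * C₀ ≤ 2 * C₀ * q := by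
    have : (n : ℝ) + 2 * C₀ ≤ 2 * C₀ * q := by linarith
    exact_mod_cast this
  have h9 : 2 * C₀ * (n / (2 * C₀)) ≤ n := Nat.mul_div_le n (2 * C₀)
  have h10 : 2 * C₀ * (n / (2 * C₀) + 1) ≤ 2 * C₀ * q := by
    rw [mul_add, mul_one]
    omega
  have h11 : n / (2 * C₀) + 1 ≤ q := Nat.le_of_mul_le_mul_left h10 (by omega)
  omega

/-- a form with small coefficients which vanishes at the point vanishes on the curve -/
theorem mem_VI_of_zero (h : IsFF κ L) {n d₀ b : ℕ} {Z : DatG κ (L := L) n d₀} {A : L[X][X]}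
    (hA : CrvE Z b A) (hpos : 0 < height κ Z.x) {e : ℕ} {f : EX (n + 1) e → L}
    (hz : Fval e (ex f) Z.x = 0) {τ : Place κ L → ℕ} (hτ : (Function.support τ).Finite)
    (hf : ∀ (w : Place κ L) K, w.1 (f K) ≤ exp (τ w : ℤ))
    (hsm : (e : ℤ) * gh κ A + A.natDegree * ∑ᶠ w, (τ w : ℤ) < height κ Z.x) :
    f ∈ VI A (Z.B A) e := by
  by_contra hcon
  have h1 := bezout_ge_zero h Z hA hpos hcon hz (g := fun w => (τ w : ℤ)) ⟨by
    refine hτ.subset fun w hw h0 => hw ?_
    simp only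
    rw [h0, Nat.cast_zero], fun w => ⟨f, by rw [sub_self]; exact Submodule.zero_mem _,
      fun K => hf w K⟩⟩
  linarith

end main

end Pool.Agent.Lib.MP_44a246_ntSP
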