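import Mathlib
import Pool.Agent.Lib.MP_44a246_ntSP.GH01

/-!
SHARP PAIRS (paper 667): the final form of section 4. The height of the plane curve is bounded by
the errors.
-/

namespace Pool.Agent.Lib.MP_44a246_ntSP

open Pool.Agent.Lib.MP_e52354_nt
open Pool.Agent.Lib.MP_44a246_nt
open Pool.Agent.Lib.MP_44a246_ntL
open Pool.Agent.Lib.MP_44a246_ntR
open Pool.Agent.Lib.MP_44a246_ntS
open Pool.Agent.Lib.MP_44a246_ntA
open Pool.Agent.Lib.MP_44a246_ntF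
open Pool.Agent.Lib.MP_44a246_ntO
open Pool.Agent.Lib.MP_44a246_ntW
open Pool.Agent.Lib.MP_44a246_ntE
open Pool.Agent.Lib.MP_44a246_ntG
open Pool.Agent.Lib.MP_44a246_ntK
open Pool.Agent.Lib.MP_44a246_ntSH
open WithZero Polynomial Module

universe u v

section numerics

theorem two_three (i : ℕ) : 2 ^ i * (2 + i) ≤ 2 * 3 ^ i := by
  induction i with
  | zero => norm_num
  | succ i ih =>
    have h1 : 2 ^ i ≤ 3 ^ i := Nat.pow_le_pow_left (by norm_num) i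
    rw [pow_succ, pow_succ]
    nlinarith

theorem exists_exp (M : ℕ) : ∃ i : ℕ, M * 2 ^ i ≤ 3 ^ i := by
  refine ⟨2 * M, ?_⟩
  have h1 := two_three (2 * M)
  nlinarith [Nat.zero_le (2 ^ (2 * M))]

/-- a small height -/
theorem num_F1 {K C₈ n : ℕ} {g H : ℤ} (hn : 0 < n) (hK : K * C₈ ≤ n) (hH : 0 ≤ H) (hg : 0 ≤ g)
    (h : g * (n : ℤ) ^ 2 ≤ C₈ * H) {k : ℕ} (hk : 2 * k ≤ K) : 2 * (k * (n * g)) ≤ H := by
  have hn' : (0 : ℤ) < n := by exact_mod_cast hn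
  have hK' : (K : ℤ) * C₈ ≤ n := by exact_mod_cast hK
  have hk' : 2 * (k : ℤ) ≤ K := by exact_mod_cast hk
  have h1 : (n : ℤ) * (2 * (k * (n * g))) ≤ n * H := by
    calc (n : ℤ) * (2 * (k * (n * g))) = (2 * k) * (g * (n : ℤ) ^ 2) := by ring
      _ ≤ K * (g * (n : ℤ) ^ 2) := mul_le_mul_of_nonneg_right hk' (by positivity)
      _ ≤ K * (C₈ * H) := mul_le_mul_of_nonneg_left h (Int.natCast_nonneg _)
      _ = (K * C₈) * H := by ring
      _ ≤ n * H := mul_le_mul_of_nonneg_right hK' hH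
  exact le_of_mul_le_mul_left h1 hn'

theorem num_F2 {c : ℕ} {E H : ℤ} (hE : 0 ≤ E) (h : (c : ℤ) * E < H) {l : ℕ} (hl : 2 * l ≤ c) :
    2 * (l * E) < H := by
  have hl' : 2 * (l : ℤ) ≤ c := by exact_mod_cast hl
  have h1 := mul_le_mul_of_nonneg_right hl' hE
  linarith

end numerics

section data

variable {κ L : Type*} [Field κ] [IsAlgClosed κ] [CharZero κ] [Field L] [CharZero L]
  [Algebra κ L]

omit [IsAlgClosed κ] [CharZero κ] [CharZero L] in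
/-- the derivations of the coefficients, with a bound for their poles -/
theorem poleBound_D {n p : ℕ} {d : Fin p → ℕ} (X : DatSC κ (L := L) n d)
    {δ : Place κ L → ℕ} (hδ : ∀ w, X.δ w + X.ρ w ≤ δ w) (s : Σ j, EX (n + 1) (d j)) :
    PoleBound κ (X.D (s.1, s.2.1)) δ := by
  intro w y hy
  have h1 := X.hD w 1 (fun _ => (s.1, s.2.1)) (fun _ => y) (fun _ => s.2.2) (fun _ => hy)
  rw [Matrix.det_fin_one, Matrix.of_apply, one_mul] at h1
  refine h1.trans ?_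
  rw [exp_le_exp]
  exact_mod_cast hδ w

omit [IsAlgClosed κ] [CharZero κ] in
theorem not_dvd_der {n d₀ b : ℕ} {Z : DatG κ (L := L) n d₀} {A : L[X][X]} (hA : CrvG Z b A) :
    ¬ A ∣ derivative A := by
  rintro ⟨Q, hQ⟩
  apply hA.der
  rw [hQ, evalEval_mul, hA.zero, zero_mul]

end data

/-- **Section 4 of the paper 667.** -/
theorem gh_le_sec4 (p C₀ C₈ : ℕ) (hC₀ : 0 < C₀) : ∃ n₀ : ℕ, ∀ (n : ℕ) (d : Fin p → ℕ), n₀ ≤ n →
    n + 2 ≤ ∑ j, d j → ∑ j, d j ≤ 2 * n → ∃ c : ℕ,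
    ∀ (κ : Type v) (L : Type u) [Field κ] [IsAlgClosed κ] [CharZero κ] [Field L] [CharZero L]
      [Algebra κ L], IsFF κ L → ∀ (X : DatSC κ (L := L) n d) (b : ℕ) (A : L[X][X]),
      (∀ j, CrvN (X.toDatC.blk j) b A) → b ≤ 1664 * n →
      (∀ Q : Submodule L (Fin (n + 1) → L), X.x ∈ Q →
        n * ((height κ X.x : ℝ) - ht κ Q) ≤ C₀ * height κ X.x * ((finrank L Q : ℝ) - 1)) →
      gh κ A * (n : ℤ) ^ 2 ≤ C₈ * height κ X.x →
      ∀ τ : Place κ L → ℕ, (Function.support τ).Finite →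
      (∀ (w : Place κ L) j, ∀ I ∈ expo (Fin (n + 1)) (d j), w.1 (X.a j I) ≤ exp (τ w : ℤ)) →
      ∀ S : Finset (Place κ L), (∀ w ∉ S, ∀ j, X.toDatC.v j ≠ 0 →
        vmax w.1 X.x ^ d j ≤ w.1 (X.toDatC.v j)) →
      c * (X.toDatC.Δ + X.toDatC.R + ∑ᶠ w, (τ w : ℤ) + S.card + genus κ L + 1) <
        height κ X.x →
      gh κ A ≤ c * (X.toDatC.Δ + X.toDatC.R + ∑ᶠ w, (τ w : ℤ) + genus κ L + 1) ∧
      (∀ j, X.toDatC.v j = 0 →
        (fun K : EX (n + 1) (d j) => X.a j K.1) ∈ VI A ((X.toDatC.blk j).B A) (d j)) ∧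
      ∀ j, n / (2 * C₀) + 1 + finrank L (dvS A ((X.toDatC.blk j).B A)) ≤ n + 1 := by
  obtain ⟨i, hi⟩ := exists_exp (1664 * (4 * C₀))
  obtain ⟨e, he⟩ : ∃ e : ℕ, e = 8 * 2 ^ i := ⟨_, rfl⟩
  obtain ⟨q, hq⟩ : ∃ q : ℕ, q = 2 ^ i := ⟨_, rfl⟩
  obtain ⟨Kw, hKw⟩ : ∃ Kw : ℕ, Kw = 1665 + ((1 + 2 * q) * 1664 + 1) + 2 := ⟨_, rfl⟩
  obtain ⟨M₁, hM₁⟩ : ∃ M₁ : ℕ, M₁ = Kw * p ^ 2 + 1664 * p + 1 := ⟨_, rfl⟩
  obtain ⟨bs, hbs⟩ : ∃ bs : ℕ, bs = 12 * M₁ := ⟨_, rfl⟩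
  obtain ⟨N₄, hN₄⟩ : ∃ N₄ : ℕ, N₄ = Fintype.card (EX 4 bs) := ⟨_, rfl⟩
  obtain ⟨M₂, hM₂⟩ : ∃ M₂ : ℕ, M₂ = 48 * (8 * C₀ * Kw * (e + 1) ^ 2 * p + 8) := ⟨_, rfl⟩
  obtain ⟨K, hK⟩ : ∃ K : ℕ, K = 2 * (4 + 2 + (bs + 1664 * N₄ * bs) + 4 * N₄ ^ 2 * bs + 4 +
    8 * C₀ * Kw * (e + 1) ^ 2) := ⟨_, rfl⟩
  refine ⟨K * C₈ + p * (42 * M₁) + p * M₂ + 2 * C₀ * (p + 1) + 4 * C₀ + 2 * C₀ * N₄ + 2,
    fun n d hn hd1 hd2 => ?_⟩
  -- the degrees
  have hp0 : 0 < p := by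
    rcases Nat.eq_zero_or_pos p with h | h
    · subst h
      simp at hd1
    · exact h
  have : Nonempty (Fin p) := ⟨⟨0, hp0⟩⟩
  obtain ⟨j₀, -, hj₀⟩ := Finset.exists_max_image Finset.univ d Finset.univ_nonempty
  have hdj : ∀ j, d j ≤ d j₀ := fun j => hj₀ j (Finset.mem_univ _)
  have hdle : ∀ j, d j ≤ 2 * n := fun j =>
    (Finset.single_le_sum (fun i _ => Nat.zero_le (d i)) (Finset.mem_univ j)).trans hd2
  have hnp : n ≤ p * d j₀ := by
    have h1 : ∑ j, d j ≤ ∑ _j : Fin p, d j₀ := Finset.sum_le_sum fun j _ => hdj j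
    rw [Finset.sum_const, Finset.card_univ, Fintype.card_fin, smul_eq_mul] at h1
    omega
  obtain ⟨D', hD'⟩ : ∃ D' : ℕ, D' = d j₀ := ⟨_, rfl⟩
  rw [← hD'] at hnp
  have hD42 : 42 * M₁ ≤ D' := by
    have h1 : p * (42 * M₁) ≤ p * D' := by omega
    exact Nat.le_of_mul_le_mul_left h1 hp0
  have hDM₂ : M₂ ≤ D' := by
    have h1 : p * M₂ ≤ p * D' := by omega
    exact Nat.le_of_mul_le_mul_left h1 hp0
  have hM₁1 : 1 ≤ M₁ := by omega
  have hD1 : 1 ≤ D' := by omega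
  obtain ⟨w, hw⟩ : ∃ w : ℕ, w = Kw * n ^ 2 := ⟨_, rfl⟩
  obtain ⟨W, hW⟩ : ∃ W : ℕ, W = 2 * C₀ * Kw * n := ⟨_, rfl⟩
  obtain ⟨cf, hcf⟩ : ∃ cf : ℕ, cf = 48 * (4 * W * (e + 1) * (1664 * n) + w + 8 * (1664 * n) +
    Fintype.card (EX 4 D')) := ⟨_, rfl⟩
  refine ⟨2 * (4 * n + 1664 * n + 1664 * n * (N₄ + 1) + (4 * N₄ * (N₄ + 1) + 2 * N₄) + 6656 * n +
    (4 * W * (e + 1) * (1664 * n) + w + 1)) + cf, ?_⟩
  intro κ L _ _ _ _ _ _ hL X b A hA hb hsl hsmall τ hτ hτa S hS hbig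
  obtain ⟨c, hc⟩ : ∃ c : ℕ, c = 2 * (4 * n + 1664 * n + 1664 * n * (N₄ + 1) +
    (4 * N₄ * (N₄ + 1) + 2 * N₄) + 6656 * n + (4 * W * (e + 1) * (1664 * n) + w + 1)) + cf :=
    ⟨_, rfl⟩
  rw [← hc] at hbig ⊢
  -- the curve
  have hAj := hA j₀
  obtain ⟨m, hm⟩ : ∃ m : ℕ, m = A.natDegree := ⟨_, rfl⟩
  have hm0 : 0 < m := by rw [hm]; exact Nat.pos_of_ne_zero hAj.deg
  have hm1 : m ≤ 1664 * n := by
    rw [hm]
    exact hAj.box.1.trans hb
  obtain ⟨g, hg⟩ : ∃ g : ℤ, g = gh κ A := ⟨_, rfl⟩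
  have hg0 : 0 ≤ g := by rw [hg]; exact gh_nonneg hL hAj.irr.ne_zero
  obtain ⟨H, hH⟩ : ∃ H : ℤ, H = height κ X.x := ⟨_, rfl⟩
  -- the errors
  obtain ⟨γ, hγ⟩ : ∃ γ : ℤ, γ = (genus κ L : ℤ) + 1 := ⟨_, rfl⟩
  have hγ0 : 1 ≤ γ := by
    rw [hγ]
    have : (0 : ℤ) ≤ genus κ L := Int.natCast_nonneg _
    linarith
  obtain ⟨T, hT⟩ : ∃ T : ℤ, T = ∑ᶠ w, (τ w : ℤ) := ⟨_, rfl⟩
  have hT0 : 0 ≤ T := by rw [hT]; exact finsum_nonneg fun w => Int.natCast_nonneg _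
  obtain ⟨Δ, hΔ⟩ : ∃ Δ : ℤ, Δ = X.toDatC.Δ := ⟨_, rfl⟩
  obtain ⟨R', hR'⟩ : ∃ R' : ℤ, R' = X.toDatC.R := ⟨_, rfl⟩
  have hΔ0 : 0 ≤ Δ := by rw [hΔ]; exact X.toDatC.Δ_nonneg
  have hR0 : 0 ≤ R' := by rw [hR']; exact X.toDatC.R_nonneg
  obtain ⟨s, hs⟩ : ∃ s : ℤ, s = S.card := ⟨_, rfl⟩
  have hs0 : 0 ≤ s := by rw [hs]; exact Int.natCast_nonneg _
  rw [← hΔ, ← hR', ← hT] at hbig ⊢
  rw [← hs, add_assoc _ (genus κ L : ℤ) 1, ← hγ, ← hH] at hbig
  rw [add_assoc _ (genus κ L : ℤ) 1, ← hγ, ← hg]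
  rw [← hg, ← hH] at hsmall
  obtain ⟨E, hE⟩ : ∃ E : ℤ, E = Δ + R' + T + s + γ := ⟨_, rfl⟩
  rw [← hE] at hbig
  have hE0 : 0 ≤ E := by rw [hE]; positivity
  have hH0 : 0 < H := lt_of_le_of_lt (mul_nonneg (Int.natCast_nonneg _) hE0) hbig
  have hn0 : 0 < n := by omega
  have hKn : K * C₈ ≤ n := by omega
  have F1 : ∀ k : ℕ, 2 * k ≤ K → 2 * ((k : ℤ) * (n * g)) ≤ H := fun k hk =>
    num_F1 hn0 hKn hH0.le hg0 hsmall hk
  have F2 : ∀ l : ℕ, 2 * l ≤ c → 2 * ((l : ℤ) * E) < H := fun l hl => num_F2 hE0 hbig hl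
  have F12 : ∀ k l : ℕ, 2 * k ≤ K → 2 * l ≤ c → (k : ℤ) * (n * g) + l * E < H := by
    intro k l hk hl
    have h1 := F1 k hk
    have h2 := F2 l hl
    linarith
  have hpos : 0 < height κ (X.toDatC.blk j₀).x := by rw [DatC.blk_x, ← hH]; exact hH0
  have hn' : (1 : ℤ) ≤ n := by exact_mod_cast hn0
  have hm' : (m : ℤ) ≤ 1664 * n := by exact_mod_cast hm1
  have hm0' : (0 : ℤ) ≤ m := Int.natCast_nonneg _
  have hTE : T ≤ E := by rw [hE]; linarith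
  have hγE : γ ≤ E := by rw [hE]; linarith
  have hΔE : Δ ≤ E := by rw [hE]; linarith
  have hng : g ≤ n * g := le_mul_of_one_le_left hg0 hn'
  -- the number of independent functions
  have hind : n / (2 * C₀) + 1 + finrank L (dvS A ((X.toDatC.blk j₀).B A)) ≤ n + 1 := by
    refine indep_crv hL hAj.toCrvE hpos hC₀ hsl ?_
    rw [DatC.blk_x, ← hH, ← hg, ← hγ]
    have h1 := F12 4 (4 * n) (by omega) (by omega)
    push_cast at h1
    have h2 : ((n : ℤ) + 1) * (g + γ) ≤ (2 * n) * (g + E) :=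
      mul_le_mul (by linarith) (by linarith) (by linarith) (by linarith)
    linarith
  have hVI : ∀ j, X.toDatC.v j = 0 →
      (fun K : EX (n + 1) (d j) => X.a j K.1) ∈ VI A ((X.toDatC.blk j).B A) (d j) := by
    intro j hj
    refine mem_VI_of_zero hL (hA j).toCrvE hpos ?_ hτ (fun w K => hτa w j K.1 K.2) ?_
    · refine Eq.trans ?_ hj
      unfold DatC.v Fval
      refine Finset.sum_congr rfl fun I hI => ?_
      rw [ex_of_mem _ hI]
      rfl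
    · rw [DatC.blk_x, ← hH, ← hg, ← hm, ← hT]
      have h1 := F12 2 (1664 * n) (by omega) (by omega)
      push_cast at h1
      have h2 : (d j : ℤ) * g ≤ (2 * n) * g :=
        mul_le_mul_of_nonneg_right (by exact_mod_cast hdle j) hg0
      have h3 : (m : ℤ) * T ≤ (1664 * n) * E := mul_le_mul hm' hTE hT0 (by positivity)
      linarith
  refine ⟨?_, hVI, fun j => hind⟩
  -- the codimensions
  obtain ⟨R, rfl⟩ : ∃ R, n = R + 2 := ⟨n - 2, by omega⟩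
  obtain ⟨N, hN⟩ : ∃ N : ℕ, N = (R + 2) / (2 * C₀) := ⟨_, rfl⟩
  rw [← hN] at hind
  have hN1 : R + 2 < 2 * C₀ * (N + 1) := by
    rw [hN]
    exact Nat.lt_mul_div_succ _ (by omega)
  have hN2 : 2 ≤ N := by
    rw [hN, Nat.le_div_iff_mul_le (by omega)]
    omega
  have hNp : p + 1 ≤ N := by
    rw [hN, Nat.le_div_iff_mul_le (by omega)]
    have : (p + 1) * (2 * C₀) = 2 * C₀ * (p + 1) := by ring
    omega
  have hiN : 2 ^ i * A.natDegree ≤ 3 ^ i * N := by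
    rw [← hm]
    have h1 : m ≤ 1664 * (4 * C₀) * N := by
      have h2 : 2 * C₀ * (N + 1) ≤ 4 * C₀ * N := by
        calc 2 * C₀ * (N + 1) ≤ 2 * C₀ * (2 * N) := Nat.mul_le_mul_left _ (by omega)
          _ = 4 * C₀ * N := by ring
      calc m ≤ 1664 * (R + 2) := hm1
        _ ≤ 1664 * (4 * C₀ * N) := Nat.mul_le_mul_left _ (by omega)
        _ = 1664 * (4 * C₀) * N := by ring
    calc 2 ^ i * m ≤ 2 ^ i * (1664 * (4 * C₀) * N) := Nat.mul_le_mul_left _ h1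
      _ = (1664 * (4 * C₀) * 2 ^ i) * N := by ring
      _ ≤ 3 ^ i * N := Nat.mul_le_mul_right _ hi
  obtain ⟨hNm, hcod1, hcod2, hcod3, hcon⟩ := codims_crvN hAj (N := N) (i := i)
    (by omega) hiN hN2
  rw [← hm] at hNm hcod1 hcod2 hcod3
  -- the data
  obtain ⟨δ, hδ⟩ : ∃ δ : Place κ L → ℕ, δ = fun w => X.δ w + X.ρ w + τ w := ⟨_, rfl⟩
  have hδf : (Function.support δ).Finite := by
    refine ((X.hδ.union X.hρ).union hτ).subset fun w hw => ?_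
    rw [hδ] at hw
    simp only [Function.mem_support, Set.mem_union] at hw ⊢
    omega
  have hδsum : ∑ᶠ w, (δ w : ℤ) = Δ + R' + T := by
    have s1 : (Function.support fun w : Place κ L => (X.δ w : ℤ)).Finite := by
      refine X.hδ.subset fun w hw h0 => hw ?_
      simp only
      rw [h0, Nat.cast_zero]
    have s2 : (Function.support fun w : Place κ L => (X.ρ w : ℤ)).Finite := by
      refine X.hρ.subset fun w hw h0 => hw ?_
      simp only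
      rw [h0, Nat.cast_zero]
    have s3 : (Function.support fun w : Place κ L => (τ w : ℤ)).Finite := by
      refine hτ.subset fun w hw h0 => hw ?_
      simp only
      rw [h0, Nat.cast_zero]
    rw [hΔ, hR', hT, DatC.Δ, DatC.R, ← finsum_add_distrib s1 s2, ← finsum_add_distrib
      ((s1.union s2).subset (Function.support_add _ _)) s3, hδ]
    exact finsum_congr fun w => by push_cast; ring
  obtain ⟨v, hv⟩ : ∃ v : ℕ, v = D' * m + 1 := ⟨_, rfl⟩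
  obtain ⟨v', hv'⟩ : ∃ v' : ℕ, v' = (e + 1) * m + 1 := ⟨_, rfl⟩
  obtain ⟨cc, hcc⟩ : ∃ cc : Fin 4 → Fin (R + 3) → κ, cc = ![X.z', fun j => (X.ξ₀ j : κ),
    fun j => (X.ξ₁ j : κ), X.z] := ⟨_, rfl⟩
  have hnat1 : 1 ≤ R + 2 := by omega
  have hsq : R + 2 ≤ (R + 2) ^ 2 := Nat.le_self_pow (by norm_num) _
  -- numbers
  have hwle : R * (m + 1) + (m + 2 * (2 ^ i * m) + 1) + (R + 3) ≤ w := by
    rw [hw, hKw, ← hq]
    have h1 : R * (m + 1) ≤ 1665 * (R + 2) ^ 2 := by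
      calc R * (m + 1) ≤ (R + 2) * (1665 * (R + 2)) := Nat.mul_le_mul (by omega) (by omega)
        _ = _ := by ring
    have h2 : m + 2 * (q * m) + 1 ≤ ((1 + 2 * q) * 1664 + 1) * (R + 2) ^ 2 := by
      calc m + 2 * (q * m) + 1 = (1 + 2 * q) * m + 1 := by ring
        _ ≤ (1 + 2 * q) * (1664 * (R + 2) ^ 2) + (R + 2) ^ 2 := by
            refine add_le_add (Nat.mul_le_mul_left _ (hm1.trans ?_)) (by omega)
            exact Nat.mul_le_mul_left _ hsq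
        _ = _ := by ring
    have h3 : R + 3 ≤ 2 * (R + 2) ^ 2 := by omega
    calc _ ≤ 1665 * (R + 2) ^ 2 + ((1 + 2 * q) * 1664 + 1) * (R + 2) ^ 2 + 2 * (R + 2) ^ 2 :=
          add_le_add (add_le_add h1 h2) h3
      _ = _ := by ring
  have hwD : w ≤ Kw * p ^ 2 * D' ^ 2 := by
    rw [hw]
    calc Kw * (R + 2) ^ 2 ≤ Kw * (p * D') ^ 2 :=
          Nat.mul_le_mul_left _ (Nat.pow_le_pow_left hnp 2)
      _ = _ := by ring
  have hvD : v ≤ (1664 * p + 1) * D' ^ 2 := by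
    rw [hv]
    have h1 : D' * m ≤ D' * (1664 * (p * D')) :=
      Nat.mul_le_mul_left _ (hm1.trans (Nat.mul_le_mul_left _ hnp))
    have h2 : 1 ≤ D' ^ 2 := Nat.one_le_pow _ _ hD1
    calc D' * m + 1 ≤ D' * (1664 * (p * D')) + D' ^ 2 := add_le_add h1 h2
      _ = _ := by ring
  have hwv : w + v ≤ M₁ * D' ^ 2 := by
    rw [hM₁]
    calc w + v ≤ Kw * p ^ 2 * D' ^ 2 + (1664 * p + 1) * D' ^ 2 := add_le_add hwD hvD
      _ = _ := by ring
  have hc1 : 12 * (w + v) ≤ (bs + 1) * D' ^ 2 := by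
    rw [hbs]
    calc 12 * (w + v) ≤ 12 * (M₁ * D' ^ 2) := Nat.mul_le_mul_left _ hwv
      _ = (12 * M₁) * D' ^ 2 := by ring
      _ ≤ (12 * M₁ + 1) * D' ^ 2 := Nat.mul_le_mul_right _ (Nat.le_succ _)
  have hc2 : 42 * (w + v) ≤ D' ^ 3 := by
    calc 42 * (w + v) ≤ 42 * (M₁ * D' ^ 2) := Nat.mul_le_mul_left _ hwv
      _ = (42 * M₁) * D' ^ 2 := by ring
      _ ≤ D' * D' ^ 2 := Nat.mul_le_mul_right _ hD42
      _ = D' ^ 3 := by ring
  have hc3 : 48 * (4 * W * (e + 1) ^ 2 + 8 * D') ≤ D' ^ 2 := by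
    have h1 : 4 * W * (e + 1) ^ 2 ≤ 8 * C₀ * Kw * (e + 1) ^ 2 * p * D' := by
      rw [hW]
      calc 4 * (2 * C₀ * Kw * (R + 2)) * (e + 1) ^ 2 =
            (8 * C₀ * Kw * (e + 1) ^ 2) * (R + 2) := by ring
        _ ≤ (8 * C₀ * Kw * (e + 1) ^ 2) * (p * D') := Nat.mul_le_mul_left _ hnp
        _ = _ := by ring
    calc 48 * (4 * W * (e + 1) ^ 2 + 8 * D') ≤
          48 * (8 * C₀ * Kw * (e + 1) ^ 2 * p * D' + 8 * D') :=
            Nat.mul_le_mul_left _ (Nat.add_le_add_right h1 _)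
      _ = M₂ * D' := by rw [hM₂]; ring
      _ ≤ D' * D' := Nat.mul_le_mul_right _ hDM₂
      _ = D' ^ 2 := by ring
  have hwW : w ≤ W * (N + 1) := by
    rw [hw, hW]
    calc Kw * (R + 2) ^ 2 = (Kw * (R + 2)) * (R + 2) := by ring
      _ ≤ (Kw * (R + 2)) * (2 * C₀ * (N + 1)) := Nat.mul_le_mul_left _ hN1.le
      _ = _ := by ring
  have hv'm : v' ≤ 2 * (e + 1) * m := by
    rw [hv']
    have h1 : 1 ≤ (e + 1) * m := Nat.mul_pos (Nat.succ_pos e) hm0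
    calc (e + 1) * m + 1 ≤ (e + 1) * m + (e + 1) * m := Nat.add_le_add_left h1 _
      _ = 2 * (e + 1) * m := by ring
  have hW' : (W : ℤ) = 2 * C₀ * Kw * ((R + 2 : ℕ) : ℤ) := by rw [hW]; push_cast; ring
  -- the main inequality
  have key := gh_le_errors hL (X.toDatC.blk j₀) hAj.toCrvE (not_dvd_der hAj.toCrvG) hpos
    (d := d) (a := fun s => X.a s.1 s.2.1) (D := fun s => X.D (s.1, s.2.1))
    (fun s t => by
      rw [X.hDa (s.1, s.2.1) s.2.2 (t.1, t.2.1) t.2.2]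
      refine if_congr ?_ rfl rfl
      obtain ⟨s1, s2⟩ := s
      obtain ⟨t1, t2⟩ := t
      constructor
      · intro h1
        rw [Prod.mk.injEq] at h1
        obtain ⟨h2, h3⟩ := h1
        simp only at h2
        subst h2
        have h4 : s2 = t2 := Subtype.ext h3
        rw [h4]
      · intro h1
        rw [h1])
    hδf (fun s => poleBound_D X (fun w => by rw [hδ]; exact Nat.le_add_right _ _) s)
    (fun s w => (hτa w s.1 s.2.1 s.2.2).trans (by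
      rw [exp_le_exp, hδ]
      push_cast
      have : (0 : ℤ) ≤ X.δ w := Int.natCast_nonneg _
      have : (0 : ℤ) ≤ X.ρ w := Int.natCast_nonneg _
      linarith))
    (fun j hj => by
      have h1 : bval (X.toDatC.blk j₀).x j (fun s : (Σ j, EX (R + 3) (d j)) => X.a s.1 s.2.1) =
          X.toDatC.v j := by
        rw [bval_apply]
        unfold DatC.v Fval
        refine Finset.sum_congr rfl fun I hI => ?_
        rw [ex_of_mem _ hI]
        rfl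
      rw [h1] at hj
      exact hVI j hj)
    S (fun w hw j hj => by
      have h1 : bval (X.toDatC.blk j₀).x j (fun s : (Σ j, EX (R + 3) (d j)) => X.a s.1 s.2.1) =
          X.toDatC.v j := by
        rw [bval_apply]
        unfold DatC.v Fval
        refine Finset.sum_congr rfl fun I hI => ?_
        rw [ex_of_mem _ hI]
        rfl
      rw [h1] at hj ⊢
      exact hS w hw j hj)
    j₀ hdj (by rw [← hD']; exact hD1) X.toP rfl rfl rfl rfl (c := cc) (by rw [hcc]; rfl)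
    (fun j => by rw [hcc]; rfl) (fun j => by rw [hcc]; rfl) (by rw [hcc]; rfl)
    (e := e) (by
      rw [he]
      exact fun F hF => hcon _ _ _ F hF)
    (ρ₀ := N + 1) (w := w) (v := v) (v' := v') (W := W) (by omega) (by omega)
    ((hcod3 _ _ _).trans (Nat.add_le_add_left hwle _)) (by
      rw [hv, hD']
      exact hcod2 3 _ _) (by
      rw [hv']
      exact hcod1 _)
    hwW (by rw [← hm]; exact hv'm) (by rw [← hm]; omega)
    (N := N₄) (bs := bs) (C₀ := (C₀ : ℝ)) hN₄.ge (Nat.cast_nonneg _) hsl (by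
      have h1 : 2 * C₀ * N₄ < R + 2 := by omega
      exact_mod_cast h1) (β := N₄ * (bs * gh κ A + genus κ L + 1) + genus κ L + 1) rfl
    (by
      rw [DatC.blk_x, ← hH, ← hg, ← hm, add_assoc ((bs : ℤ) * g), ← hγ, add_assoc _
        (genus κ L : ℤ) 1, ← hγ]
      have h1 := F12 (bs + 1664 * N₄ * bs) (1664 * (R + 2) * (N₄ + 1)) (by omega) (by omega)
      have h2 : (bs : ℤ) * g ≤ bs * (((R + 2 : ℕ) : ℤ) * g) :=
        mul_le_mul_of_nonneg_left hng (Int.natCast_nonneg _)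
      have h3 : (m : ℤ) * (N₄ * (bs * g + γ) + γ) ≤
          (1664 * ((R + 2 : ℕ) : ℤ)) * (N₄ * (bs * g + E) + E) := by
        refine mul_le_mul hm' ?_ (by positivity) (by positivity)
        have h4 : (N₄ : ℤ) * (bs * g + γ) ≤ N₄ * (bs * g + E) :=
          mul_le_mul_of_nonneg_left (by linarith) (Int.natCast_nonneg _)
        linarith
      push_cast at h1 h2 h3 ⊢
      linarith)
    (by
      rw [DatC.blk_x, ← hH, ← hg, add_assoc ((bs : ℤ) * g), ← hγ, add_assoc _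
        (genus κ L : ℤ) 1, ← hγ]
      have h1 := F12 (4 * N₄ ^ 2 * bs) (4 * N₄ * (N₄ + 1) + 2 * N₄) (by omega) (by omega)
      have h5 : X.toP.Δ = Δ := by rw [hΔ]; rfl
      rw [h5]
      have h2 : (N₄ : ℤ) * (bs * g + γ) ≤ N₄ * (bs * (((R + 2 : ℕ) : ℤ) * g) + E) :=
        mul_le_mul_of_nonneg_left (add_le_add
          (mul_le_mul_of_nonneg_left hng (Int.natCast_nonneg _)) hγE) (Int.natCast_nonneg _)
      have h3 : 2 * ((N₄ : ℤ) * (bs * g + γ) + γ) + Δ ≤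
          2 * (N₄ * (bs * (((R + 2 : ℕ) : ℤ) * g) + E) + E) + E := by linarith
      have h4 := mul_le_mul_of_nonneg_left h3 (Int.natCast_nonneg N₄)
      have h6 : 2 * ((N₄ : ℤ) * (2 * (N₄ * (bs * (((R + 2 : ℕ) : ℤ) * g) + E) + E) + E)) =
        4 * N₄ ^ 2 * bs * (((R + 2 : ℕ) : ℤ) * g) + (4 * N₄ * (N₄ + 1) + 2 * N₄) * E := by ring
      push_cast at h1 h4 h6 ⊢
      linarith)
    (by rw [← hD']; exact hc1) (by rw [← hD']; exact hc2) (by rw [← hD']; exact hc3)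
    (by
      rw [DatC.blk_x, ← hH, ← hg, ← hm, hδsum, ← hs, ← hγ, ← hD']
      have h1 := F12 4 (6656 * (R + 2)) (by omega) (by omega)
      have h2 : (D' : ℤ) * g ≤ (2 * ((R + 2 : ℕ) : ℤ)) * g := by
        refine mul_le_mul_of_nonneg_right ?_ hg0
        have := hdle j₀
        rw [← hD'] at this
        exact_mod_cast this
      have h3 : (m : ℤ) * (2 * (Δ + R' + T) + s + γ) ≤ (1664 * ((R + 2 : ℕ) : ℤ)) * (2 * E) := by
        refine mul_le_mul hm' ?_ (by positivity) (by positivity)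
        rw [hE]
        linarith
      push_cast at h1 h2 h3 ⊢
      linarith)
    (by
      rw [DatC.blk_x, ← hH, ← hg, ← hm, hδsum, ← hγ]
      have h1 := F12 (8 * C₀ * Kw * (e + 1) ^ 2)
        (4 * W * (e + 1) * (1664 * (R + 2)) + w + 1) (by omega) (by omega)
      have h2 : (m : ℤ) * γ ≤ (1664 * ((R + 2 : ℕ) : ℤ)) * E :=
        mul_le_mul hm' hγE (by linarith) (by positivity)
      have h3 : (4 * (W : ℤ) * (e + 1)) * (m * γ) ≤
          (4 * (W : ℤ) * (e + 1)) * ((1664 * ((R + 2 : ℕ) : ℤ)) * E) :=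
        mul_le_mul_of_nonneg_left h2 (by positivity)
      have h4 : (w : ℤ) * (Δ + R' + T + γ) ≤ w * E :=
        mul_le_mul_of_nonneg_left (by rw [hE]; linarith) (Int.natCast_nonneg _)
      have h5 : Δ + R' + T ≤ E := by rw [hE]; linarith
      have h6 : (4 * (W : ℤ) * (e + 1)) * ((e + 1) * g) =
          8 * C₀ * Kw * (e + 1) ^ 2 * (((R + 2 : ℕ) : ℤ) * g) := by
        rw [hW']
        ring
      push_cast at h1 h3 h6 ⊢
      linarith)
  rw [← hg, ← hD', ← hm, hδsum, ← hγ] at key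
  have hD1' : (1 : ℤ) ≤ (D' : ℤ) ^ 2 := by
    have : 1 ≤ D' ^ 2 := Nat.one_le_pow _ _ hD1
    exact_mod_cast this
  have h1 : g ≤ (D' : ℤ) ^ 2 * g := le_mul_of_one_le_left hg0 hD1'
  have hcfc : (cf : ℤ) ≤ c := by
    have : cf ≤ c := by omega
    exact_mod_cast this
  have hq0 : (0 : ℤ) ≤ Δ + R' + T + γ := by linarith
  have h2 : (48 : ℤ) * (4 * W * (e + 1) * m + w + 8 * m + Fintype.card (EX 4 D')) ≤ cf := by
    rw [hcf]
    push_cast
    have h3 : (4 * (W : ℤ) * (e + 1)) * m ≤ (4 * (W : ℤ) * (e + 1)) * (1664 * (R + 2)) := by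
      refine mul_le_mul_of_nonneg_left ?_ (by positivity)
      have := hm'
      push_cast at this
      exact this
    have h4 := hm'
    push_cast at h4
    linarith
  have h3 := mul_le_mul_of_nonneg_right (h2.trans hcfc) hq0
  linarith

end Pool.Agent.Lib.MP_44a246_ntSP
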