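import Mathlib
import Pool.Agent.Lib.MP_44a246_ntD.D10
import Pool.Agent.Lib.MP_44a246_ntSP.GN02
import Pool.Agent.Lib.MP_44a246_ntSP.TR04

/-!
SHARP PAIRS (papers 667, 669): the exceptional form of a stratum for the points with a curve of small
height.
-/

namespace Pool.Agent.Lib.MP_44a246_ntSP

open Pool.Agent.Lib.MP_e52354_nt
open Pool.Agent.Lib.MP_44a246_nt
open Pool.Agent.Lib.MP_44a246_ntL
open Pool.Agent.Lib.MP_44a246_ntS
open Pool.Agent.Lib.MP_44a246_ntU
open Pool.Agent.Lib.MP_44a246_ntSH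
open Pool.Agent.Lib.MP_44a246_ntD (countable_adjoin)
open Pool.Agent.Lib.MP_44a246_ntK (jexpo mem_jexpo)
open MvPolynomial Module

universe u v

/-- no generic sequence of counterexamples, for one type of curves -/
private theorem seq_false {κ : Type u} {K : Type v} {Ω : Type v} [Field κ] [IsAlgClosed κ]
    [CharZero κ] [Field K] [Algebra κ K] [Field Ω] [Algebra K Ω] [Algebra κ Ω]
    [IsScalarTower κ K Ω] [IsAlgClosed Ω] [Algebra.IsAlgebraic K Ω] (hK : IsFF κ K)
    {R r b N₁ i p C : ℕ} {d : Fin p → ℕ} (hd1 : ∀ j, 1 ≤ d j) (hd : R + 4 ≤ ∑ j, d j)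
    {k : Type*} [Field k] [CharZero k] [Algebra k K] {a : Fin p → (Fin (R + 3) →₀ ℕ) → K}
    (ha : AlgebraicIndependent k (fun s : ↥(jexpo (R + 2) d) => a s.1.1 s.1.2))
    {k₂ : Type*} [Field k₂] [CharZero k₂] [Algebra k₂ K] [Algebra k₂ Ω] [IsScalarTower k₂ K Ω]
    {a₂ : Fin p → (Fin (R + 3) →₀ ℕ) → k₂}
    (ha₂ : ∀ j, ∀ I ∈ expo (Fin (R + 3)) (d j), algebraMap k₂ K (a₂ j I) = a j I)
    {L : ℕ → IntermediateField K Ω} (hL : ∀ N, FiniteDimensional K (L N))
    {x : ∀ N, Fin (R + 3) → L N} (hx0 : ∀ N, x N 0 = 1)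
    {A : Finset (Fin p)} (hcard : A.card + (r + 2) = R + 3)
    (hA : ∀ N j, Fval (d j) (fun I => algebraMap K (L N) (a j I)) (x N) = 0 ↔ j ∈ A)
    {j : Fin (r + 1) → Fin (R + 3)}
    (hgen : ∀ H : MvPolynomial (Fin (r + 1)) k₂, H ≠ 0 →
      ∃ N₀, ∀ N ≥ N₀, MvPolynomial.aeval (fun i => (x N (j i) : Ω)) H ≠ 0)
    {S : ∀ N, Finset (Place κ (L N))}
    (hc : ∀ N, ∀ w : Place κ (L N), w ∉ S N → ∀ j, j ∉ A →
      w.1 (Fval (d j) (fun I => algebraMap K (L N) (a j I)) (x N)) = vmax w.1 (x N) ^ d j)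
    (hlarge : ∀ N : ℕ, N * ((finrank K (L N) : ℤ) + ramDeg κ (L N) K + (S N).card) <
      height κ (x N))
    (hcert : ∀ N, CertN κ d (fun j I => algebraMap K (L N) (a j I)) b (N₁ + 1)
      (C * ((finrank K (L N) : ℤ) + ramDeg κ (L N) K + (S N).card)) (x N))
    (low : Prop)
    (hlow : low → 11 * (p + 11) * (2 * b) + 351 * (p + 11) + 16 + p < R + 2)
    (hhigh : ¬ low → 2 ^ i * (2 * b) ≤ 3 ^ i * N₁ ∧ 28 * (p + 11) * 2 ^ i + 16 + p < R + 2) :
    False := by
  have hpos : ∀ N, 1 ≤ finrank K (L N) := fun N => Module.finrank_pos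
  let W : Tow κ K Ω := {
    L := L
    T := fun N => finrank K (L N) + ramDeg κ (L N) K + (S N).card
    ff := hK
    fin := hL
    one_le := fun N => (hpos N).trans ((Nat.le_add_right _ _).trans (Nat.le_add_right _ _))
    deg := fun N => (Nat.le_add_right _ _).trans (Nat.le_add_right _ _)
    ram := fun N => (Nat.le_add_left _ _).trans (Nat.le_add_right _ _) }
  have hT : ∀ N, (W.T N : ℤ) = (finrank K (L N) : ℤ) + ramDeg κ (L N) K + (S N).card := by
    intro N
    show ((finrank K (L N) + ramDeg κ (L N) K + (S N).card : ℕ) : ℤ) = _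
    push_cast
    rfl
  refine no_seq W (b := b) (N₁ := N₁) (i := i) (C := C) hd1 hd ha ha₂ (x := x) hx0 hcard hA hgen
    (P := S) (fun N => Nat.le_add_left _ _) hc (fun C' hC' => ?_) (fun N => ?_) low hlow hhigh
  · obtain ⟨N, hN1, hN2⟩ := (hC'.and (Filter.Eventually.filter_mono
      Nat.hyperfilter_le_atTop (Filter.eventually_ge_atTop C'))).exists
    have h1 := hlarge N
    rw [← hT] at h1
    have h2 : (C' : ℤ) * (W.T N : ℤ) ≤ N * (W.T N : ℤ) :=
      mul_le_mul_of_nonneg_right (by exact_mod_cast hN2) (Int.natCast_nonneg _)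
    linarith
  · rw [hT]
    exact hcert N

/-- `x` (a point over `Ω`) is a counterexample with the constant `N` in the stratum `A`, up to
scaling: the points of a finite extension `L` with a curve of small height, and of large height. -/
def Cex (κ : Type*) {K Ω : Type*} [Field κ] [Field K] [Algebra κ K] [Field Ω] [Algebra K Ω]
    [Algebra κ Ω] [IsScalarTower κ K Ω] {n p : ℕ} (d : Fin p → ℕ)
    (a : Fin p → (Fin (n + 1) →₀ ℕ) → K) (A : Finset (Fin p)) (b₁ N₁ b₂ N₂ C₂ N : ℕ) :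
    Set (Fin (n + 1) → Ω) :=
  {x | ∃ (L : IntermediateField K Ω) (_ : FiniteDimensional K L) (y : Fin (n + 1) → L)
    (S : Finset (Place κ L)) (s : Ω), s ≠ 0 ∧ (∀ i, x i = s * (y i : Ω)) ∧
    (∀ j, Fval (d j) (fun I => algebraMap K L (a j I)) y = 0 ↔ j ∈ A) ∧
    (∀ w ∉ S, ∀ j, j ∉ A →
      w.1 (Fval (d j) (fun I => algebraMap K L (a j I)) y) = vmax w.1 y ^ d j) ∧
    (CertN κ d (fun j I => algebraMap K L (a j I)) b₁ N₁
      (C₂ * ((finrank K L : ℤ) + ramDeg κ L K + S.card)) y ∨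
      CertN κ d (fun j I => algebraMap K L (a j I)) b₂ N₂
      (C₂ * ((finrank K L : ℤ) + ramDeg κ L K + S.card)) y) ∧
    N * ((finrank K L : ℤ) + ramDeg κ L K + S.card) < height κ y}

/-- **The exceptional form of a stratum**, for the points with a curve of small height. -/
theorem exc_pairs {κ : Type u} {K : Type v} [Field κ] [IsAlgClosed κ] [CharZero κ] [Field K]
    [CharZero K] [Algebra κ K] (hK : IsFF κ K) {n p b₁ N₁ b₂ i : ℕ} {d : Fin p → ℕ}
    (hd : ∀ j, 1 ≤ d j) (hd' : n + 2 ≤ ∑ j, d j) {a : Fin p → (Fin (n + 1) →₀ ℕ) → K}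
    (ha : AlgebraicIndependent ℚ
      (fun s : {s : Fin p × (Fin (n + 1) →₀ ℕ) // s ∈ jexpo n d} => a s.1.1 s.1.2))
    (A : Finset (Fin p)) (hn : A.card + 1 ≤ n)
    (h1 : 2 ^ i * (2 * b₁) ≤ 3 ^ i * N₁ ∧ 28 * (p + 11) * 2 ^ i + 16 + p < n)
    (h2 : 11 * (p + 11) * (2 * b₂) + 351 * (p + 11) + 16 + p < n) (C₂ : ℕ) :
    ∃ (C : ℕ) (G : MvPolynomial (Fin (n + 1)) K), (∃ E, G.IsHomogeneous E) ∧
      (∃ z : Fin (n + 1) → AlgebraicClosure K, z ≠ 0 ∧
        (∀ j ∈ A, Fval (d j) (fun I => algebraMap K (AlgebraicClosure K) (a j I)) z = 0) ∧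
        aeval z G ≠ 0) ∧
      ∀ (L : IntermediateField K (AlgebraicClosure K)) [FiniteDimensional K L]
        (x : Fin (n + 1) → L) (S : Finset (Place κ L)),
        (∀ j, Fval (d j) (fun I => algebraMap K L (a j I)) x = 0 ↔ j ∈ A) →
        (∀ w ∉ S, ∀ j, j ∉ A →
          w.1 (Fval (d j) (fun I => algebraMap K L (a j I)) x) = vmax w.1 x ^ d j) →
        (CertN κ d (fun j I => algebraMap K L (a j I)) b₁ (N₁ + 1)
          (C₂ * ((finrank K L : ℤ) + ramDeg κ L K + S.card)) x ∨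
        CertN κ d (fun j I => algebraMap K L (a j I)) b₂ 1
          (C₂ * ((finrank K L : ℤ) + ramDeg κ L K + S.card)) x) →
        height κ x ≤ C * ((finrank K L : ℤ) + ramDeg κ L K + S.card) ∨ aeval x G = 0 := by
  classical
  -- the field of the coefficients
  obtain ⟨k₂, hk₂⟩ : ∃ k₂ : IntermediateField ℚ K, k₂ = IntermediateField.adjoin ℚ
      (Set.range (fun s : {s : Fin p × (Fin (n + 1) →₀ ℕ) // s ∈ jexpo n d} => a s.1.1 s.1.2)) :=
    ⟨_, rfl⟩
  have hk₂c : Countable k₂ := by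
    rw [hk₂]
    exact countable_adjoin _
  have hcoef : ∀ j, ∀ I ∈ expo (Fin (n + 1)) (d j), a j I ∈ k₂ := by
    intro j I hI
    rw [hk₂]
    exact IntermediateField.subset_adjoin _ _ ⟨⟨(j, I), mem_jexpo.2 hI⟩, rfl⟩
  obtain ⟨a₂, ha₂⟩ : ∃ a₂ : Fin p → (Fin (n + 1) →₀ ℕ) → k₂,
      ∀ j, ∀ I ∈ expo (Fin (n + 1)) (d j), algebraMap k₂ K (a₂ j I) = a j I := by
    refine ⟨fun j I => if h : I ∈ expo (Fin (n + 1)) (d j) then ⟨a j I, hcoef j I h⟩ else 0,
      fun j I hI => ?_⟩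
    simp only [dif_pos hI]
    rfl
  -- the forms of the stratum
  obtain ⟨r, hr⟩ : ∃ r, r + 2 + A.card = n + 1 := ⟨n - 1 - A.card, by omega⟩
  obtain ⟨e, he⟩ : ∃ e : Fin A.card ≃ A, e = A.equivFin.symm := ⟨_, rfl⟩
  have haA : AlgebraicIndependent ℚ (fun s : ↥(jexpo n fun i => d (e i)) =>
      a (e s.1.1) s.1.2) := by
    have hmem : ∀ s : ↥(jexpo n fun i => d (e i)), ((e s.1.1 : Fin p), s.1.2) ∈ jexpo n d :=
      fun s => by
        have h1 := mem_jexpo.1 s.2
        exact mem_jexpo.2 h1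
    have h1 : (fun s : ↥(jexpo n fun i => d (e i)) => a (e s.1.1) s.1.2) =
        (fun s : {s : Fin p × (Fin (n + 1) →₀ ℕ) // s ∈ jexpo n d} => a s.1.1 s.1.2) ∘
        (fun s : ↥(jexpo n fun i => d (e i)) => ⟨((e s.1.1 : Fin p), s.1.2), hmem s⟩) := rfl
    rw [h1]
    apply ha.comp
    rintro ⟨⟨s, I⟩, h⟩ ⟨⟨s', I'⟩, h'⟩ heq
    simp only [Subtype.mk.injEq, Prod.mk.injEq] at heq
    obtain ⟨h2, rfl⟩ := heq
    have h3 : s = s' := e.injective (Subtype.ext h2)
    subst h3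
    rfl
  obtain ⟨j, hj⟩ : ∃ j : Fin (r + 1) → Fin (n + 1), ∀ i, (j i).1 = i.1 + 1 :=
    ⟨fun i => ⟨i.1 + 1, by omega⟩, fun _ => rfl⟩
  have hmain := exists_formS (k := ℚ) (k₂ := k₂) (K := K) (Ω := AlgebraicClosure K) hr
    (d := fun i => d (e i)) (fun i => hd _) (a := fun i => a (e i)) haA hj
    (P := Cex κ (Ω := AlgebraicClosure K) d a A b₁ (N₁ + 1) b₂ 1 C₂) ?_ ?_
  · obtain ⟨C, G, hG1, ⟨z, hz0, hzF, hzG⟩, hG3⟩ := hmain
    refine ⟨C, G, hG1, ⟨z, hz0, fun j hj => ?_, hzG⟩, ?_⟩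
    · have h1 := hzF (e.symm ⟨j, hj⟩)
      rwa [Equiv.apply_symm_apply] at h1
    · intro L _ x S hA hS hcert
      by_contra hcon
      rw [not_or, not_le] at hcon
      apply hcon.2
      have h1 := hG3 (fun i => (x i : AlgebraicClosure K)) ⟨L, inferInstance, x, S, 1,
        one_ne_zero, fun i => (one_mul _).symm, hA, hS, hcert, hcon.1⟩
      have h2 : aeval (fun i => (x i : AlgebraicClosure K)) G =
          ((aeval x G : L) : AlgebraicClosure K) := by
        have h3 : (aeval (fun i => (x i : AlgebraicClosure K)) :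
            MvPolynomial (Fin (n + 1)) K →ₐ[K] AlgebraicClosure K) = L.val.comp (aeval x) := by
          refine MvPolynomial.algHom_ext fun i => ?_
          rw [AlgHom.comp_apply, aeval_X, aeval_X]
          rfl
        rw [h3]
        rfl
      rw [h2] at h1
      exact Subtype.ext h1
  · rintro N x ⟨L, hL, y, S, s, hs, hxs, h⟩ t ht
    refine ⟨L, hL, y, S, t * s, mul_ne_zero ht hs, fun i => ?_, h⟩
    show t * x i = _
    rw [hxs i, mul_assoc]
  · intro x hx hx0 hgen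
    choose L hLfin y S s hs hxs hA hS hcert hlarge using hx
    obtain ⟨R, rfl⟩ : ∃ R, n = R + 2 := ⟨n - 2, by omega⟩
    -- the normalised points
    have hy0 : ∀ N, y N 0 ≠ 0 := by
      intro N h0
      have h1 := hxs N 0
      rw [hx0, h0] at h1
      simp at h1
    have hyx : ∀ N i, ((((y N 0)⁻¹ * y N i : L N)) : AlgebraicClosure K) = x N i := by
      intro N i
      have h1 := hxs N 0
      rw [hx0] at h1
      have h2 : s N = ((y N 0 : L N) : AlgebraicClosure K)⁻¹ :=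
        eq_inv_of_mul_eq_one_left h1.symm
      rw [hxs N i, h2]
      rfl
    have hx1 : ∀ N, (y N 0)⁻¹ * y N 0 = 1 := fun N => inv_mul_cancel₀ (hy0 N)
    have hAx : ∀ N j, Fval (d j) (fun I => algebraMap K (L N) (a j I))
        (fun i => (y N 0)⁻¹ * y N i) = 0 ↔ j ∈ A := by
      intro N j
      rw [Fval_smul, mul_eq_zero_iff_left (pow_ne_zero _ (inv_ne_zero (hy0 N)))]
      exact hA N j
    have hSx : ∀ N, ∀ w : Place κ (L N), w ∉ S N → ∀ j, j ∉ A →
        w.1 (Fval (d j) (fun I => algebraMap K (L N) (a j I)) (fun i => (y N 0)⁻¹ * y N i)) =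
          vmax w.1 (fun i => (y N 0)⁻¹ * y N i) ^ d j := by
      intro N w hw j hj
      rw [Fval_smul, map_mul, map_pow, hS N w hw j hj, vmax_smul, mul_pow]
    have hlx : ∀ N : ℕ, N * ((finrank K (L N) : ℤ) + ramDeg κ (L N) K + (S N).card) <
        height κ (fun i => (y N 0)⁻¹ * y N i) := by
      intro N
      have := hLfin N
      have hff : IsFF κ (L N) := hK.of_finite
      rw [hff.height_smul (inv_ne_zero (hy0 N))]
      exact hlarge N
    have hcx : ∀ N (b N' : ℕ), CertN κ d (fun j I => algebraMap K (L N) (a j I)) b N'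
        (C₂ * ((finrank K (L N) : ℤ) + ramDeg κ (L N) K + (S N).card)) (y N) →
        CertN κ d (fun j I => algebraMap K (L N) (a j I)) b N'
        (C₂ * ((finrank K (L N) : ℤ) + ramDeg κ (L N) K + (S N).card))
          (fun i => (y N 0)⁻¹ * y N i) := by
      intro N b N' h
      refine CertN.of_smul (r := y N 0) (hy0 N) ?_
      have h3 : (fun i => y N 0 * ((y N 0)⁻¹ * y N i)) = y N := by
        funext i
        rw [mul_inv_cancel_left₀ (hy0 N)]
      rw [h3]
      exact h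
    -- the choice of a subsequence
    have hsub : ∀ φ : ℕ → ℕ, StrictMono φ → ∀ b N' : ℕ, (∀ N, CertN κ d
        (fun j I => algebraMap K (L (φ N)) (a j I)) b (N' + 1)
        (C₂ * ((finrank K (L (φ N)) : ℤ) + ramDeg κ (L (φ N)) K + (S (φ N)).card)) (y (φ N))) →
        ∀ low : Prop, (low → 11 * (p + 11) * (2 * b) + 351 * (p + 11) + 16 + p < R + 2) →
        (¬ low → 2 ^ i * (2 * b) ≤ 3 ^ i * N' ∧ 28 * (p + 11) * 2 ^ i + 16 + p < R + 2) →
        False := by
      intro φ hφ b N' hcφ low hlow hhigh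
      refine seq_false hK (C := C₂) (b := b) (N₁ := N') (i := i) hd hd' ha (k₂ := k₂) (a₂ := a₂)
        ha₂ (L := fun N => L (φ N)) (fun N => hLfin (φ N))
        (x := fun N i => (y (φ N) 0)⁻¹ * y (φ N) i) (fun N => hx1 (φ N)) (A := A) (r := r)
        (by omega) (fun N j => hAx (φ N) j) (j := j) (fun H hH => ?_) (S := fun N => S (φ N))
        (fun N w hw j hj => hSx (φ N) w hw j hj) (fun N => ?_) (fun N => hcx _ _ _ (hcφ N)) low
        hlow hhigh
      · obtain ⟨N₀, hN₀⟩ := hgen H hH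
        refine ⟨N₀, fun N hN => ?_⟩
        have h3 := hN₀ (φ N) (hN.le.trans (hφ.id_le N))
        convert h3 using 3
        funext i
        exact hyx (φ N) (j i)
      · refine lt_of_le_of_lt ?_ (hlx (φ N))
        refine mul_le_mul_of_nonneg_right (by exact_mod_cast hφ.id_le N) (by positivity)
    by_cases hfr : ∃ᶠ N in Filter.atTop, CertN κ d (fun j I => algebraMap K (L N) (a j I)) b₂ 1
        (C₂ * ((finrank K (L N) : ℤ) + ramDeg κ (L N) K + (S N).card)) (y N)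
    · obtain ⟨φ, hφ, hφ'⟩ := Filter.extraction_of_frequently_atTop hfr
      exact hsub φ hφ b₂ 0 hφ' True (fun _ => h2) (fun h => absurd trivial h)
    · rw [Filter.not_frequently] at hfr
      obtain ⟨φ, hφ, hφ'⟩ := Filter.extraction_of_eventually_atTop hfr
      exact hsub φ hφ b₁ N₁ (fun N => (hcert (φ N)).resolve_right (hφ' N)) False (fun h => h.elim)
        (fun _ => h1)

end Pool.Agent.Lib.MP_44a246_ntSP
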