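import Mathlib
import Pool.Agent.Lib.MP_44a246_ntSP.GH02
import Pool.Agent.Lib.MP_44a246_ntSP.LV02
import Pool.Agent.Lib.MP_44a246_ntSP.NP09

/-!
SHARP PAIRS (papers 667, 669): the output over the field of the point, for every point and every
finite set of places which contains the places where the point meets the hypersurfaces.
-/

namespace Pool.Agent.Lib.MP_44a246_ntSP

open Pool.Agent.Lib.MP_44a246_nt
open Pool.Agent.Lib.MP_44a246_ntL
open Pool.Agent.Lib.MP_44a246_ntS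
open Pool.Agent.Lib.MP_44a246_ntX
open Pool.Agent.Lib.MP_44a246_ntG
open Pool.Agent.Lib.MP_44a246_ntK
open Pool.Agent.Lib.MP_44a246_ntF
open Pool.Agent.Lib.MP_44a246_ntO
open Pool.Agent.Lib.MP_44a246_ntSH
open Pool.Agent.Lib.MP_44a246_ntI (SmallI)
open Pool.Agent.Lib.MP_44a246_ntR (genus)
open Pool.Agent.Lib.MP_e52354_nt
open WithZero Module Polynomial

universe u v w

/-- **The output over the field of the point.** -/
theorem levelN (p q : ℕ) (hp : 1 ≤ p) (hq : q = p * (4 * p + 1)) : ∃ n₀ : ℕ,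
    ∀ (n : ℕ) (d : Fin p → ℕ), n₀ ≤ n → (∀ j, 2 ≤ d j) → n + 2 ≤ ∑ j, d j →
    ∀ (κ : Type u) (K : Type v) [Field κ] [IsAlgClosed κ] [CharZero κ] [Field K] [CharZero K]
      [Algebra κ K] (_ : IsFF κ K) (_ : Cardinal.aleph0 ≤ Algebra.trdeg ℚ κ)
      (a : Fin p → (Fin (n + 1) →₀ ℕ) → K)
      (_ : AlgebraicIndependent ℚ
        (fun s : {s : Fin p × (Fin (n + 1) →₀ ℕ) // s ∈ jexpo n d} => a s.1.1 s.1.2)),
    ∃ C : ℕ, ∀ (L : Type w) [Field L] [Algebra K L] [FiniteDimensional K L]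
      [Algebra κ L] [IsScalarTower κ K L] (x : Fin (n + 1) → L), x ≠ 0 →
      ∀ S : Finset (Place κ L),
      (∀ w ∉ S, ∀ j, Fval (d j) (fun I => algebraMap K L (a j I)) x ≠ 0 →
        w.1 (Fval (d j) (fun I => algebraMap K L (a j I)) x) = vmax w.1 x ^ d j) →
      height κ x ≤ C * ((finrank K L : ℤ) + ramDeg κ L K + S.card) ∨
      CertN κ d (fun j I => algebraMap K L (a j I)) (1664 * n) (n / (4000 * q) + 1)
        (C * ((finrank K L : ℤ) + ramDeg κ L K + S.card)) x ∨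
      CertN κ d (fun j I => algebraMap K L (a j I)) (n / (400 * q)) 1
        (C * ((finrank K L : ℤ) + ramDeg κ L K + S.card)) x := by
  have hq1 : 1 ≤ q := by
    rw [hq]
    exact Nat.mul_pos hp (by omega)
  have hq5 : 5 * p ≤ q := by
    rw [hq]
    have : 5 ≤ 4 * p + 1 := by omega
    calc 5 * p = p * 5 := mul_comm _ _
      _ ≤ _ := Nat.mul_le_mul_left _ this
  obtain ⟨C₀, hC₀⟩ : ∃ C₀ : ℕ, C₀ = 2000 * q := ⟨_, rfl⟩
  obtain ⟨nh, C₈, hH⟩ := half_pairsN.{w, u} p C₀ (by omega) (by omega)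
  obtain ⟨ng, hG⟩ := gh_le_sec4.{w, u} p C₀ C₈ (by omega)
  refine ⟨nh + ng + 20000 * q + C₀ + 3, fun n d hn hd2 hd κ K _ _ _ _ _ _ hK htr a ha => ?_⟩
  -- a form of degree at least three
  obtain ⟨j₀, hj₀⟩ : ∃ j₀, 3 ≤ d j₀ := by
    by_contra hcon
    push Not at hcon
    have h1 : ∑ j, d j ≤ ∑ _j : Fin p, 2 := Finset.sum_le_sum fun j _ => by
      have := hcon j
      omega
    rw [Finset.sum_const, Finset.card_univ, Fintype.card_fin, smul_eq_mul] at h1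
    omega
  obtain ⟨C₂, hC₂⟩ := exists_datSC.{u, v, w} hK htr (n := n) (d := d) (j₀ := j₀) hj₀ ha
  obtain ⟨s, hs⟩ : ∃ s : ℕ, s = ∑ j, d j := ⟨_, rfl⟩
  obtain ⟨b, hb⟩ : ∃ b : ℕ, b = n / (400 * q) := ⟨_, rfl⟩
  have hb1 : 400 * q * b ≤ n := by
    rw [hb]
    exact Nat.mul_div_le n (400 * q)
  have hb2 : n < 400 * q * (b + 1) := by
    rw [hb, mul_add, mul_one]
    have := Nat.div_add_mod n (400 * q)
    have h2 := Nat.mod_lt n (show 0 < 400 * q by omega)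
    omega
  have hb6 : 6 ≤ b := by
    rw [hb, Nat.le_div_iff_mul_le (by omega)]
    omega
  have hbn : 400 * p * (b * (4 * p + 1)) ≤ n := by
    refine le_trans (le_of_eq ?_) hb1
    rw [hq]
    ring
  have hbC : 42 * (20 * n + 9 * C₀) ≤ 180 * (C₀ * b) := by
    have h1 : C₀ * b = 5 * (400 * q * b) := by
      rw [hC₀]
      ring
    have h2 : 400 * q * (b + 1) = 400 * q * b + 400 * q := by ring
    rw [h2] at hb2
    rw [h1]
    omega
  obtain ⟨ch, hch⟩ := hH n b d (by omega) hd2 hd hb6 hbn hbC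
  obtain ⟨cg, hcg⟩ : ∃ cg : ℕ, n + 2 ≤ ∑ j, d j → ∑ j, d j ≤ 2 * n → ∀ (κ : Type u) (L : Type w)
      [Field κ] [IsAlgClosed κ] [CharZero κ] [Field L] [CharZero L]
      [Algebra κ L], IsFF κ L → ∀ (X : DatSC κ (L := L) n d) (b : ℕ) (A : L[X][X]),
      (∀ j, CrvN (X.toDatC.blk j) b A) → b ≤ 1664 * n →
      (∀ Q : Submodule L (Fin (n + 1) → L), X.x ∈ Q →
        n * ((height κ X.x : ℝ) - ht κ Q) ≤ C₀ * height κ X.x * ((finrank L Q : ℝ) - 1)) →
      gh κ A * (n : ℤ) ^ 2 ≤ C₈ * height κ X.x →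
      ∀ τ : Place κ L → ℕ, (Function.support τ).Finite →
      (∀ (w : Place κ L) j, ∀ I ∈ expo (Fin (n + 1)) (d j), w.1 (X.a j I) ≤ exp (τ w : ℤ)) →
      ∀ S : Finset (Place κ L), (∀ w ∉ S, ∀ j, X.toDatC.v j ≠ 0 →
        vmax w.1 X.x ^ d j ≤ w.1 (X.toDatC.v j)) →
      cg * (X.toDatC.Δ + X.toDatC.R + ∑ᶠ w, (τ w : ℤ) + S.card + genus κ L + 1) <
        height κ X.x →
      gh κ A ≤ cg * (X.toDatC.Δ + X.toDatC.R + ∑ᶠ w, (τ w : ℤ) + genus κ L + 1) := by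
    by_cases h2n : ∑ j, d j ≤ 2 * n
    · obtain ⟨cg, hcg⟩ := hG n d (by omega) hd h2n
      refine ⟨cg, fun _ _ κ L _ _ _ _ _ _ h X b A h1 h2 h3 h4 τ h5 h6 S h7 h8 => ?_⟩
      exact (hcg κ L h X b A h1 h2 h3 h4 τ h5 h6 S h7 h8).1
    · exact ⟨0, fun _ h => absurd h h2n⟩
  -- the parts of the constant
  obtain ⟨c₁, hc₁⟩ : ∃ c₁ : ℕ, c₁ = ch * (2 * C₂ + 3) := ⟨_, rfl⟩
  obtain ⟨c₂, hc₂⟩ : ∃ c₂ : ℕ, c₂ = (9 * b + s + 6 * (n + 1)) * (2 * C₂ + 8) + b * C₂ := ⟨_, rfl⟩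
  obtain ⟨c₃, hc₃⟩ : ∃ c₃ : ℕ, c₃ = cg * (3 * C₂ + 3) := ⟨_, rfl⟩
  obtain ⟨c₄, hc₄⟩ : ∃ c₄ : ℕ, c₄ = (9 * (1664 * n) + s + 6 * (n + 1)) * (c₃ + C₂) +
    1664 * n * C₂ := ⟨_, rfl⟩
  obtain ⟨c₅, hc₅⟩ : ∃ c₅ : ℕ, c₅ = 3 * C₂ + 16 := ⟨_, rfl⟩
  obtain ⟨c₆, hc₆⟩ : ∃ c₆ : ℕ, c₆ = 2 * c₃ + C₂ := ⟨_, rfl⟩
  refine ⟨c₁ + c₂ + c₃ + c₄ + c₅ + c₆, ?_⟩
  intro L _ _ _ _ _ x hx S hF
  classical
  have hL : IsFF κ L := hK.of_finite
  have hchar : CharZero L := charZero_of_injective_algebraMap (algebraMap K L).injective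
  obtain ⟨X, t, τ, ht0, hXx, hXa, hh, hτ, hτa, hΔ, hXR, hτs, hg, hrow⟩ := hC₂ L x hx
  have hXv : ∀ j, X.toDatC.v j = t ^ d j * Fval (d j) (fun I => algebraMap K L (a j I)) x := by
    intro j
    show Fval (d j) (X.a j) X.x = _
    rw [hXx, hXa, Fval_smul]
  -- the places outside of `S`
  have hS : ∀ w ∉ S, ∀ j, X.toDatC.v j ≠ 0 → w.1 (X.toDatC.v j) = vmax w.1 X.x ^ d j := by
    intro w hw j hj
    have h1 : Fval (d j) (fun I => algebraMap K L (a j I)) x ≠ 0 := by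
      intro h0
      rw [hXv, h0, mul_zero] at hj
      exact hj rfl
    rw [hXv, hXx, map_mul, map_pow, hF w hw j h1, vmax_smul, mul_pow]
  obtain ⟨ε, hε⟩ : ∃ ε : Place κ L → ℕ, ε = fun w => if w ∈ S then 1 else 0 := ⟨_, rfl⟩
  have hεs : Function.support ε ⊆ (S : Set (Place κ L)) := by
    intro w hw
    rw [Function.mem_support, hε] at hw
    by_contra h0
    rw [Finset.mem_coe] at h0
    simp [h0] at hw
  have hεf : (Function.support ε).Finite := S.finite_toSet.subset hεs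
  have hεc : ∑ᶠ w, (ε w : ℤ) = S.card := by
    have h1 : Function.support (fun w => (ε w : ℤ)) ⊆ (S : Set (Place κ L)) := by
      intro w hw
      rw [Function.mem_support] at hw
      refine hεs ?_
      rw [Function.mem_support]
      intro h0
      rw [h0] at hw
      simp at hw
    rw [finsum_eq_sum_of_support_subset _ h1, hε]
    have h2 : ∀ w ∈ S, (((if w ∈ S then 1 else 0 : ℕ)) : ℤ) = 1 := by
      intro w hw
      simp [hw]
    rw [Finset.sum_congr rfl h2]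
    simp
  have hεv : ∀ w : Place κ L, (∀ j, X.toDatC.v j ≠ 0 →
      w.1 (X.toDatC.v j) = vmax w.1 X.x ^ d j) ∨ 1 ≤ ε w := by
    intro w
    by_cases hw : w ∈ S
    · right
      rw [hε]
      simp [hw]
    · exact Or.inl (hS w hw)
  obtain ⟨R, hRx, hRΔ, hRU, hRht⟩ := hrow ε hεf hεv
  obtain ⟨D, hD⟩ : ∃ D : ℤ, D = (finrank K L : ℤ) + ramDeg κ L K + S.card := ⟨_, rfl⟩
  have hf1 : (1 : ℤ) ≤ finrank K L := by exact_mod_cast Module.finrank_pos (R := K) (M := L)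
  have hr0 : (0 : ℤ) ≤ ramDeg κ L K := Int.natCast_nonneg _
  have hS0 : (0 : ℤ) ≤ S.card := Int.natCast_nonneg _
  have hD1 : 1 ≤ D := by rw [hD]; linarith
  have hfD : (finrank K L : ℤ) ≤ D := by rw [hD]; linarith
  have hrD : (ramDeg κ L K : ℤ) ≤ D := by rw [hD]; linarith
  have hSD : (S.card : ℤ) ≤ D := by rw [hD]; linarith
  have hC20 : (0 : ℤ) ≤ C₂ := Int.natCast_nonneg _
  have hΔD : X.toDatC.Δ ≤ C₂ * D := hΔ.trans (mul_le_mul_of_nonneg_left hfD hC20)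
  have hτD : ∑ᶠ w, (τ w : ℤ) ≤ C₂ * D := hτs.trans (mul_le_mul_of_nonneg_left hfD hC20)
  have hRD : R.Δ ≤ (C₂ + 1) * D := by
    refine hRΔ.trans ?_
    have := mul_le_mul_of_nonneg_left hfD hC20
    linarith
  have hgD : (genus κ L : ℤ) ≤ C₂ * D := by
    refine hg.trans (mul_le_mul_of_nonneg_left ?_ hC20)
    rw [hD]
    linarith
  have hXRD : X.toDatC.R ≤ D := by rw [hXR]; exact hrD
  rw [← hD, ← hb]
  rcases le_or_gt (height κ x) (((c₁ + c₂ + c₃ + c₄ + c₅ + c₆ : ℕ) : ℤ) * D) with hle | hgt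
  · exact Or.inl hle
  right
  rw [← hh] at hgt
  have hΔ0 := X.toDatC.Δ_nonneg
  have hR0 := X.toDatC.R_nonneg
  have hτ0 : 0 ≤ ∑ᶠ w, (τ w : ℤ) := finsum_nonneg fun w => Int.natCast_nonneg _
  have hg0 : (0 : ℤ) ≤ genus κ L := Int.natCast_nonneg _
  have hD0 : (0 : ℤ) ≤ D := by linarith
  have p1 : (0 : ℤ) ≤ (c₁ : ℤ) * D := mul_nonneg (Int.natCast_nonneg _) hD0
  have p2 : (0 : ℤ) ≤ (c₂ : ℤ) * D := mul_nonneg (Int.natCast_nonneg _) hD0
  have p3 : (0 : ℤ) ≤ (c₃ : ℤ) * D := mul_nonneg (Int.natCast_nonneg _) hD0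
  have p4 : (0 : ℤ) ≤ (c₄ : ℤ) * D := mul_nonneg (Int.natCast_nonneg _) hD0
  have p5 : (0 : ℤ) ≤ (c₅ : ℤ) * D := mul_nonneg (Int.natCast_nonneg _) hD0
  have p6 : (0 : ℤ) ≤ (c₆ : ℤ) * D := mul_nonneg (Int.natCast_nonneg _) hD0
  have hsum : (c₁ : ℤ) * D + (c₂ : ℤ) * D + (c₃ : ℤ) * D + (c₄ : ℤ) * D + (c₅ : ℤ) * D +
      (c₆ : ℤ) * D < height κ X.x := by
    refine lt_of_le_of_lt (le_of_eq ?_) hgt
    push_cast
    ring
  have hsum' : (((c₁ + c₂ + c₃ + c₄ + c₅ + c₆ : ℕ) : ℤ)) * D = (c₁ : ℤ) * D + (c₂ : ℤ) * D +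
      (c₃ : ℤ) * D + (c₄ : ℤ) * D + (c₅ : ℤ) * D + (c₆ : ℤ) * D := by
    push_cast
    ring
  rcases hch κ L hL X R hRx hRU ε hεf hεv hRht with h1 | ⟨j, h1⟩ | ⟨hdn, hsl, X', g, A, hX', hgn,
    hcrv, hgh⟩
  · -- the height is small
    exfalso
    have h2 : (ch : ℤ) * (X.toDatC.Δ + X.toDatC.R + R.Δ + ∑ᶠ w, (ε w : ℤ)) ≤ (c₁ : ℤ) * D := by
      rw [hεc, hc₁]
      have h3 : X.toDatC.Δ + X.toDatC.R + R.Δ + (S.card : ℤ) ≤ (2 * C₂ + 3) * D := by linarith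
      refine (mul_le_mul_of_nonneg_left h3 (Int.natCast_nonneg _)).trans (le_of_eq ?_)
      push_cast
      ring
    linarith
  · -- the curves of small degree
    right
    have b2 : (9 * (b : ℤ) + ((∑ j, d j : ℕ) : ℤ) + 6 * (n + 1)) *
        (2 * X.toDatC.Δ + 8 * X.toDatC.R) + b * ∑ᶠ w, (τ w : ℤ) < height κ X.x := by
      rw [← hs]
      have h2 : (9 * (b : ℤ) + (s : ℤ) + 6 * (n + 1)) * (2 * X.toDatC.Δ + 8 * X.toDatC.R) ≤
          (9 * (b : ℤ) + (s : ℤ) + 6 * (n + 1)) * ((2 * C₂ + 8) * D) :=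
        mul_le_mul_of_nonneg_left (by linarith) (by positivity)
      have h3 : (b : ℤ) * ∑ᶠ w, (τ w : ℤ) ≤ b * (C₂ * D) :=
        mul_le_mul_of_nonneg_left hτD (Int.natCast_nonneg _)
      have h4 : (9 * (b : ℤ) + (s : ℤ) + 6 * (n + 1)) * ((2 * C₂ + 8) * D) + b * (C₂ * D) =
          (c₂ : ℤ) * D := by
        rw [hc₂]
        push_cast
        ring
      linarith
    have h2 := certN_of_smallI hL X hτ hτa (by have := hd2 j; omega) h1 b2
    rw [hXa, hXx] at h2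
    refine CertN.mono le_rfl ?_ (CertN.of_smul ht0 h2)
    have h3 : 3 * X.toDatC.Δ + 16 * X.toDatC.R ≤ (c₅ : ℤ) * D := by
      rw [hc₅]
      push_cast
      linarith
    rw [hsum']
    linarith
  · -- the moving curve
    left
    obtain ⟨s', hs0, hs'⟩ := hX'.x
    have hX'x : X'.x = s' • X.x := hs'
    have hh' : height κ X'.x = height κ X.x := by
      rw [hs']
      exact hL.height_smul hs0
    have hΔ' : X'.toDatC.Δ = X.toDatC.Δ := by
      show ∑ᶠ w, (X'.δ w : ℤ) = ∑ᶠ w, (X.δ w : ℤ)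
      rw [hX'.δ]
    have hR' : X'.toDatC.R = X.toDatC.R := by
      show ∑ᶠ w, (X'.ρ w : ℤ) = ∑ᶠ w, (X.ρ w : ℤ)
      rw [hX'.ρ]
    have hv' : ∀ j, X'.toDatC.v j = s' ^ d j * X.toDatC.v j := by
      intro j
      show Fval (d j) (X'.a j) X'.x = s' ^ d j * Fval (d j) (X.a j) X.x
      rw [hs', hX'.a, Fval_smul]
    have hsl' : ∀ Q : Submodule L (Fin (n + 1) → L), X'.x ∈ Q →
        n * ((height κ X'.x : ℝ) - ht κ Q) ≤ C₀ * height κ X'.x * ((finrank L Q : ℝ) - 1) := by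
      intro Q hQ
      rw [hh']
      refine hsl Q ?_
      rw [hX'x] at hQ
      exact (Q.smul_mem_iff hs0).1 hQ
    have hτa' : ∀ (w : Place κ L) j, ∀ I ∈ expo (Fin (n + 1)) (d j),
        w.1 (X'.a j I) ≤ exp (τ w : ℤ) := by
      rw [hX'.a]
      exact hτa
    have hS' : ∀ w ∉ S, ∀ j, X'.toDatC.v j ≠ 0 → vmax w.1 X'.x ^ d j ≤ w.1 (X'.toDatC.v j) := by
      intro w hw j hj
      have h1 : X.toDatC.v j ≠ 0 := by
        intro h0
        rw [hv', h0, mul_zero] at hj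
        exact hj rfl
      rw [hv', hs', map_mul, map_pow, hS w hw j h1, vmax_smul, mul_pow]
    have h2n : ∑ j, d j ≤ 2 * n := by omega
    -- section 4
    have hD3 : X.toDatC.Δ + X.toDatC.R + ∑ᶠ w, (τ w : ℤ) + S.card + genus κ L + 1 ≤
        (3 * C₂ + 3) * D := by linarith
    have b3 : cg * (X'.toDatC.Δ + X'.toDatC.R + ∑ᶠ w, (τ w : ℤ) + S.card + genus κ L + 1) <
        height κ X'.x := by
      rw [hΔ', hR', hh']
      have h1 : (cg : ℤ) * (X.toDatC.Δ + X.toDatC.R + ∑ᶠ w, (τ w : ℤ) + S.card +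
          genus κ L + 1) ≤ (c₃ : ℤ) * D := by
        refine (mul_le_mul_of_nonneg_left hD3 (Int.natCast_nonneg _)).trans (le_of_eq ?_)
        rw [hc₃]
        push_cast
        ring
      linarith
    have hgA := hcg hd h2n κ L hL X' g A hcrv hgn hsl' (by rw [hh']; exact hgh) τ hτ hτa' S hS' b3
    have hgA' : gh κ A ≤ (c₃ : ℤ) * D := by
      rw [hΔ', hR'] at hgA
      refine hgA.trans ?_
      refine (mul_le_mul_of_nonneg_left (a := (cg : ℤ)) (c := (3 * C₂ + 3) * D) ?_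
        (Int.natCast_nonneg _)).trans (le_of_eq ?_)
      · linarith
      · rw [hc₃]
        push_cast
        ring
    have hsl2 : ∀ Q : Submodule L (Fin (n + 1) → L), X'.x ∈ Q → 2 * ht κ Q ≤ height κ X'.x →
        n / (4000 * q) + 1 ≤ finrank L Q := by
      intro Q hQ hQ2
      have hhp : (0 : ℝ) < height κ X'.x := by
        rw [hh']
        have : 0 < height κ X.x := by linarith
        exact_mod_cast this
      have h1 := hsl' Q hQ
      have h2 : (2 : ℝ) * ht κ Q ≤ height κ X'.x := by exact_mod_cast hQ2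
      have h3 : (n : ℝ) * height κ X'.x ≤ 2 * C₀ * ((finrank L Q : ℝ) - 1) * height κ X'.x := by
        have h4 : (n : ℝ) * height κ X'.x ≤ 2 * (n * ((height κ X'.x : ℝ) - ht κ Q)) := by
          have h5 : (n : ℝ) * (2 * ht κ Q) ≤ n * height κ X'.x :=
            mul_le_mul_of_nonneg_left h2 (by positivity)
          linarith
        linarith
      have h6 : (n : ℝ) ≤ 2 * C₀ * ((finrank L Q : ℝ) - 1) := le_of_mul_le_mul_right h3 hhp
      have h7 : 1 ≤ finrank L Q := by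
        have h0 : X'.x ≠ 0 := by
          intro h0
          have h8 := X'.h0
          rw [h0] at h8
          simp at h8
        exact one_le_finrank_aux h0 hQ
      have h8 : n ≤ 4000 * q * (finrank L Q - 1) := by
        have h9 : ((n : ℕ) : ℝ) ≤ ((4000 * q * (finrank L Q - 1) : ℕ) : ℝ) := by
          push_cast [Nat.cast_sub h7]
          have h10 : (C₀ : ℝ) = 2000 * q := by
            rw [hC₀]
            push_cast
            ring
          rw [h10] at h6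
          linarith
        exact_mod_cast h9
      have h9 : n / (4000 * q) ≤ finrank L Q - 1 := Nat.div_le_of_le_mul h8
      omega
    have b4 : (9 * ((1664 * n : ℕ) : ℤ) + ((∑ j, d j : ℕ) : ℤ) + 6 * (n + 1)) *
        ((c₃ : ℤ) * D + X'.toDatC.Δ) + ((1664 * n : ℕ) : ℤ) * ∑ᶠ w, (τ w : ℤ) <
        height κ X'.x := by
      rw [← hs, hΔ', hh']
      have h2 : (9 * ((1664 * n : ℕ) : ℤ) + (s : ℤ) + 6 * (n + 1)) *
          ((c₃ : ℤ) * D + X.toDatC.Δ) ≤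
          (9 * ((1664 * n : ℕ) : ℤ) + (s : ℤ) + 6 * (n + 1)) * ((c₃ + C₂) * D) :=
        mul_le_mul_of_nonneg_left (by linarith) (by positivity)
      have h3 : ((1664 * n : ℕ) : ℤ) * ∑ᶠ w, (τ w : ℤ) ≤ ((1664 * n : ℕ) : ℤ) * (C₂ * D) :=
        mul_le_mul_of_nonneg_left hτD (Int.natCast_nonneg _)
      have h4 : (9 * ((1664 * n : ℕ) : ℤ) + (s : ℤ) + 6 * (n + 1)) * ((c₃ + C₂) * D) +
          ((1664 * n : ℕ) : ℤ) * (C₂ * D) = (c₄ : ℤ) * D := by
        rw [hc₄]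
        push_cast
        ring
      linarith
    obtain ⟨j⟩ : Nonempty (Fin p) := ⟨⟨0, hp⟩⟩
    have h2 := certN_of_curve hL X' hτ hτa' hsl2 (hcrv j).toCrvG hgn hgA' b4
    rw [hX'.a, hXa, hΔ', hs'] at h2
    have h3 := CertN.of_smul hs0 h2
    rw [hXx] at h3
    refine CertN.mono le_rfl ?_ (CertN.of_smul ht0 h3)
    have h4 : 2 * ((c₃ : ℤ) * D) + X.toDatC.Δ ≤ (c₆ : ℤ) * D := by
      rw [hc₆]
      push_cast
      linarith
    rw [hsum']
    linarith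

end Pool.Agent.Lib.MP_44a246_ntSP
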