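import Mathlib
import Pool.Agent.Lib.MP_44a246_nt.Core
import Pool.Agent.Lib.MP_44a246_nt.Trdeg
import Pool.Agent.Lib.MP_44a246_ntJ.JD7
import Pool.Agent.Lib.MP_44a246_ntL.LFF
import Pool.Agent.Lib.MP_e52354_ntE.CommonZero

/-!
# Generic pairs of large total degree

If the sum of the degrees of the generic forms is at least `2 n + 2`, then the inequality with the
truncated counting function holds for all points, without an exceptional set.
-/

namespace Pool.Agent.Lib.MP_44a246_ntSP

open Pool.Agent.Lib.MP_44a246_nt Pool.Agent.Lib.MP_44a246_ntJ Pool.Agent.Lib.MP_44a246_ntL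
open Pool.Agent.Lib.MP_e52354_nt (mem_expo expo)
open Module MvPolynomial

universe u v w

/-- algebraically independent coefficients generate a field of maximal transcendence degree -/
theorem nearlyGeneric_of_indep {K : Type v} [Field K] [CharZero K] {n p : ℕ} {d : Fin p → ℕ}
    (F : Fin p → MvPolynomial (Fin (n + 1)) K)
    (hgen : AlgebraicIndependent ℚ
      (fun I : {I : Fin p × (Fin (n + 1) →₀ ℕ) // I.2.degree = d I.1} =>
        (F I.1.1).coeff I.1.2)) :
    NearlyGeneric ℚ 0 d F := by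
  classical
  let e : (Σ i, {I : Fin (n + 1) →₀ ℕ // I.degree = d i}) ≃
      {I : Fin p × (Fin (n + 1) →₀ ℕ) // I.2.degree = d I.1} :=
    { toFun := fun θ => ⟨(θ.1, θ.2.1), θ.2.2⟩
      invFun := fun I => ⟨I.1.1, ⟨I.1.2, I.2⟩⟩
      left_inv := fun θ => rfl
      right_inv := fun I => rfl }
  have h1 : AlgebraicIndependent ℚ
      (fun θ : Σ i, {I : Fin (n + 1) →₀ ℕ // I.degree = d i} => (F θ.1).coeff θ.2.1) :=
    (hgen.comp e e.injective)
  set E := IntermediateField.adjoin ℚ
    (Set.range fun θ : Σ i, {I : Fin (n + 1) →₀ ℕ // I.degree = d i} => (F θ.1).coeff θ.2.1)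
    with hE
  let q : (Σ i, {I : Fin (n + 1) →₀ ℕ // I.degree = d i}) → E := fun θ =>
    ⟨(F θ.1).coeff θ.2.1, IntermediateField.subset_adjoin _ _ ⟨θ, rfl⟩⟩
  have h2 : AlgebraicIndependent ℚ q := AlgebraicIndependent.of_comp E.val h1
  have hfin : Finite (Σ i, {I : Fin (n + 1) →₀ ℕ // I.degree = d i}) := by
    have h3 : ∀ i, Finite {I : Fin (n + 1) →₀ ℕ // I.degree = d i} := fun i =>
      Finite.of_equiv {I // I ∈ expo (Fin (n + 1)) (d i)}
        (Equiv.subtypeEquivRight fun I => mem_expo)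
    infer_instance
  have h3 := h2.lift_cardinalMk_le_trdeg
  unfold NearlyGeneric
  rw [Nat.cast_zero, add_zero]
  have h4 : Cardinal.lift.{v, 0} (Cardinal.mk (Σ i, {I : Fin (n + 1) →₀ ℕ // I.degree = d i})) =
      ((Nat.card (Σ i, {I : Fin (n + 1) →₀ ℕ // I.degree = d i}) : ℕ) : Cardinal.{v}) := by
    rw [← Nat.cast_card, Cardinal.lift_natCast]
  rw [h4, Cardinal.lift_id'.{0, v}] at h3
  exact h3

theorem pairs_large {κ : Type u} {K : Type v} [Field κ] [IsAlgClosed κ] [CharZero κ] [Field K]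
    [CharZero K] [Algebra κ K] {t : K} (ht : Transcendental κ t)
    (hfd : FiniteDimensional (IntermediateField.adjoin κ {t}) K)
    {n p : ℕ} {d : Fin p → ℕ} (hd : ∀ j, 1 ≤ d j) (hsum : 2 * n + 2 ≤ ∑ j, d j)
    (F : Fin p → MvPolynomial (Fin (n + 1)) K) (hF : ∀ j, (F j).IsHomogeneous (d j))
    (hgen : AlgebraicIndependent ℚ
      (fun I : {I : Fin p × (Fin (n + 1) →₀ ℕ) // I.2.degree = d I.1} =>
        (F I.1.1).coeff I.1.2))
    (S : Set (Place κ K)) (hS : S.Finite) (A : Finset (Fin p)) (hA : A.card ≤ n) :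
    ∃ G : MvPolynomial (Fin (n + 1)) K, (∃ e, G.IsHomogeneous e) ∧
      (∃ z : Fin (n + 1) → AlgebraicClosure K, z ≠ 0 ∧
        (∀ j ∈ A, MvPolynomial.aeval z (F j) = 0) ∧ MvPolynomial.aeval z G ≠ 0) ∧
      ∃ C : ℕ, ∀ (L : Type w) [Field L] [Algebra K L] [FiniteDimensional K L] [Algebra κ L]
        [IsScalarTower κ K L] (x : Fin (n + 1) → L), x ≠ 0 →
        (∀ j, MvPolynomial.aeval x (F j) = 0 ↔ j ∈ A) →
        height κ x ≤ C * ((finrank K L : ℤ) + ramDeg κ L K + truncCount κ F d S x) ∨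
          MvPolynomial.aeval x G = 0 := by
  classical
  refine ⟨1, ⟨0, isHomogeneous_one _ _⟩, ?_, ?_⟩
  · obtain ⟨z, hz0, hz⟩ := Pool.Agent.Lib.MP_e52354_ntE.exists_common_zero
      (k := AlgebraicClosure K) (τ := Fin (n + 1)) (q := A.card)
      (by rw [Nat.card_fin]; omega)
      (fun i => MvPolynomial.map (algebraMap K (AlgebraicClosure K)) (F (A.equivFin.symm i).1))
      (by
        intro i
        rw [eval_map]
        have h1 : (F (A.equivFin.symm i).1).coeff 0 = 0 := by
          refine (hF _).coeff_eq_zero ?_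
          have := hd (A.equivFin.symm i).1
          simp only [map_zero]
          omega
        have h2 : MvPolynomial.eval₂ (algebraMap K (AlgebraicClosure K)) 0
            (F (A.equivFin.symm i).1) = algebraMap K (AlgebraicClosure K)
              ((F (A.equivFin.symm i).1).coeff 0) := by
          have := MvPolynomial.eval₂_zero_apply (f := algebraMap K (AlgebraicClosure K))
            (σ := Fin (n + 1)) (p := F (A.equivFin.symm i).1)
          rw [this]
          rfl
        rw [h2, h1, map_zero])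
    refine ⟨z, hz0, fun j hj => ?_, by simp⟩
    have h1 := hz (A.equivFin ⟨j, hj⟩)
    rw [Equiv.symm_apply_apply, eval_map] at h1
    rw [aeval_def]
    exact h1
  · have hng := nearlyGeneric_of_indep F hgen
    obtain ⟨C, hC⟩ := main_Jr (k₀ := ℚ) (k := ℚ) ht d F hF hng S hS
    refine ⟨C + 1, ?_⟩
    intro L _ _ _ _ _ x hx hxA
    left
    have : CharZero L := charZero_of_injective_algebraMap (algebraMap K L).injective
    obtain ⟨-, h2⟩ := hC L x hx _ _ _ _ _ _ _ _ _ rfl rfl rfl rfl rfl rfl rfl rfl rfl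
    obtain ⟨-, h3⟩ := h2 1 le_rfl hd
    obtain ⟨h4, -⟩ := h3 n (trdeg_pointField_le hx)
    have hK : IsFF κ K := ⟨t, ht, hfd⟩
    have h5 : (0 : ℤ) ≤ height κ x := (hK.of_finite (L := L)).height_nonneg hx
    have h6 : (0 : ℝ) ≤ (height κ x : ℝ) := by exact_mod_cast h5
    have h7 : ((2 * n + 2 : ℕ) : ℝ) ≤ ((∑ j, d j : ℕ) : ℝ) := by exact_mod_cast hsum
    have h8 : (height κ x : ℝ) ≤ truncCount κ F d S x + ramDeg κ L K + C * finrank K L := by
      refine le_trans ?_ h4
      push_cast at h7 ⊢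
      have h9 : (0 : ℝ) ≤ (vanCard F x : ℝ) := Nat.cast_nonneg _
      nlinarith [mul_nonneg h9 h6]
    have h9 : height κ x ≤ truncCount κ F d S x + ramDeg κ L K + C * finrank K L := by
      exact_mod_cast h8
    refine h9.trans ?_
    push_cast
    nlinarith [mul_nonneg (Int.natCast_nonneg C) (Int.natCast_nonneg (ramDeg κ L K)),
      mul_nonneg (Int.natCast_nonneg C) (Int.natCast_nonneg (truncCount κ F d S x)),
      Int.natCast_nonneg (finrank K L)]

end Pool.Agent.Lib.MP_44a246_ntSP
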