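import Mathlib
import Pool.Agent.Lib.MP_44a246_ntPC.H3
import Pool.Agent.Lib.MP_44a246_ntSH.CW11

/-!
# Generic pairs: the two explicit cases of the theorem on pairs
-/

namespace Pool.Agent.Lib.MP_44a246_ntSP

open Pool.Agent.Lib.MP_44a246_nt
open Pool.Agent.Lib.MP_44a246_ntL
open Pool.Agent.Lib.MP_44a246_ntS
open Pool.Agent.Lib.MP_44a246_ntG
open Pool.Agent.Lib.MP_44a246_ntK
open Pool.Agent.Lib.MP_44a246_ntU
open Pool.Agent.Lib.MP_44a246_ntI
open Pool.Agent.Lib.MP_44a246_ntSH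
open Pool.Agent.Lib.MP_44a246_ntPC
open Pool.Agent.Lib.MP_e52354_nt
open MvPolynomial Module

universe u v w

/-- forms which define a set of small dimension do not all vanish on the intersection of a part of
the generic forms -/
theorem exists_not_onA {K : Type*} [Field K] [CharZero K] {n p m' : ℕ} {d : Fin p → ℕ}
    (hd : ∀ j, 1 ≤ d j) {F : Fin p → MvPolynomial (Fin (n + 1)) K}
    (hF : ∀ j, (F j).IsHomogeneous (d j))
    (ha : AlgebraicIndependent ℚ (fun s : {s : Fin p × (Fin (n + 1) →₀ ℕ) // s ∈ jexpo n d} =>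
      (F s.1.1).coeff s.1.2)) {A : Finset (Fin p)} (hA : m' + A.card ≤ n) (hA1 : A.card < n)
    {a : ℕ} {G : Fin a → MvPolynomial (Fin (n + 1)) K}
    (hG : ringKrullDim (MvPolynomial (Fin (n + 1)) K ⧸ Ideal.span (Set.range G)) ≤
      (m' : WithBot ℕ∞)) :
    ∃ i, ∃ z : Fin (n + 1) → AlgebraicClosure K, z ≠ 0 ∧ (∀ j ∈ A, aeval z (F j) = 0) ∧
      aeval z (G i) ≠ 0 := by
  classical
  obtain ⟨R, hR⟩ : ∃ R, R + 2 + A.card = n + 1 := ⟨n - 1 - A.card, by omega⟩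
  obtain ⟨ε, hε⟩ : ∃ ε : Fin A.card ≃ {x // x ∈ A}, ε = A.equivFin.symm := ⟨_, rfl⟩
  have hmem : ∀ s : {s : Fin A.card × (Fin (n + 1) →₀ ℕ) // s ∈ jexpo n (fun i => d (ε i).1)},
      ((ε s.1.1).1, s.1.2) ∈ jexpo n d := fun s => by
    have h1 := (mem_jexpo (d := fun i => d (ε i).1)).1 s.2
    exact mem_jexpo.2 h1
  obtain ⟨i, z, h1, h2, h3⟩ := exists_not_onP (k := ℚ) (d := fun i => d (ε i).1)
    (F := fun i => F (ε i).1) hR (fun j => hd _) (by omega) (fun j => hF _) (by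
      refine ha.comp (fun s : {s : Fin A.card × (Fin (n + 1) →₀ ℕ) //
        s ∈ jexpo n (fun i => d (ε i).1)} => ⟨((ε s.1.1).1, s.1.2), hmem s⟩) ?_
      intro s s' hss
      rw [Subtype.mk.injEq, Prod.mk.injEq] at hss
      exact Subtype.ext (Prod.ext (ε.injective (Subtype.ext hss.1)) hss.2)) hG
  refine ⟨i, z, h1, fun j hj => ?_, h3⟩
  have h4 := h2 (ε.symm ⟨j, hj⟩)
  simpa using h4

/-- **The height theorem for generic pairs**: the two cases of the theorem on pairs. -/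
theorem pairs_small {n p s : ℕ} {d : Fin p → ℕ} (hd1 : ∀ j, 1 ≤ d j)
    (hs : s = ∑ j, d j) (hsn : n + 2 ≤ s) {A : Finset (Fin p)} (hA : A.card < p)
    (hAn : A.card < n)
    (hc : (3 * n + 5 ≤ 2 * s + A.card ∧ p + 4 ≤ s + A.card ∧ (n + p + 3 ≤ s ∨
        2 * n + 3 ≤ s + A.card ∨ 3 * n + 6 ≤ 2 * s + A.card) ∧
        (p + 6) * (s - 1 + A.card) + 2 * p * (s - 1) < (s - 1 + A.card) ^ 2 + 9 + 5 * p) ∨
      ∃ σ D, 2 ≤ n ∧ 4 * p ≤ σ ∧ p + 4 ≤ σ + A.card ∧ 150 * σ ≤ D ∧ (∀ j, D ≤ d j) ∧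
        n + p ≤ p * D + A.card ∧ n + p + 75 * p * σ + 1 ≤ s + A.card)
    {κ : Type u} {K : Type v} [Field κ] [IsAlgClosed κ] [CharZero κ] [Field K] [CharZero K]
    [Algebra κ K] (htr : Cardinal.aleph0 ≤ Algebra.trdeg ℚ κ) {t : K} (ht : Transcendental κ t)
    (hfin : FiniteDimensional (IntermediateField.adjoin κ {t}) K)
    {F : Fin p → MvPolynomial (Fin (n + 1)) K} (hF : ∀ j, (F j).IsHomogeneous (d j))
    (hgen : AlgebraicIndependent ℚ
      (fun I : {I : Fin p × (Fin (n + 1) →₀ ℕ) // I.2.degree = d I.1} =>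
        (F I.1.1).coeff I.1.2)) {S : Set (Place κ K)} (hS : S.Finite) :
    ∃ G : MvPolynomial (Fin (n + 1)) K, (∃ e, G.IsHomogeneous e) ∧
      (∃ z : Fin (n + 1) → AlgebraicClosure K, z ≠ 0 ∧ (∀ j ∈ A, aeval z (F j) = 0) ∧
        aeval z G ≠ 0) ∧
      ∃ C : ℕ, ∀ (L : Type w) [Field L] [Algebra K L] [FiniteDimensional K L] [Algebra κ L]
        [IsScalarTower κ K L] (x : Fin (n + 1) → L), x ≠ 0 →
        (∀ j, aeval x (F j) = 0 ↔ j ∈ A) →
        height κ x ≤ C * ((finrank K L : ℤ) + ramDeg κ L K + truncCount κ F d S x) ∨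
          aeval x G = 0 := by
  classical
  have hcardA : A.card + (Aᶜ).card = p := by
    have := Finset.card_add_card_compl A
    rwa [Fintype.card_fin] at this
  obtain ⟨q, hq⟩ : ∃ q, q = (Aᶜ).card := ⟨_, rfl⟩
  obtain ⟨ε, -⟩ : ∃ ε : Fin A.card ≃ {x // x ∈ A}, ε = A.equivFin.symm := ⟨_, rfl⟩
  obtain ⟨η, -⟩ : ∃ η : Fin q ≃ {x // x ∈ Aᶜ}, True :=
    ⟨(Fintype.equivFinOfCardEq (by rw [Fintype.card_coe, hq])).symm, trivial⟩
  have hcard : ∀ B : Finset (Fin p), B.card = A.card + q → ∑ j ∈ B, d j = s := by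
    intro B hB
    have h1 : B = Finset.univ := by
      rw [← Finset.card_eq_iff_eq_univ, hB, Fintype.card_fin, hq, hcardA]
    rw [h1, hs]
  have hle : ∀ j, d j ≤ s := by
    intro j
    rw [hs]
    exact Finset.single_le_sum (f := d) (fun _ _ => Nat.zero_le _) (Finset.mem_univ j)
  have hη : ∀ l, (η l).1 ∉ A := fun l => Finset.mem_compl.1 (η l).2
  -- the parameters
  obtain ⟨b, σ, D, hD⟩ : ∃ b σ D : ℕ, (b = 0 ∧ 3 * n + 5 ≤ 2 * s + A.card ∧ p + 4 ≤ s + A.card ∧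
        (n + p + 3 ≤ s ∨ 2 * n + 3 ≤ s + A.card ∨ 3 * n + 6 ≤ 2 * s + A.card) ∧
        (p + 6) * (s - 1 + A.card) + 2 * p * (s - 1) < (s - 1 + A.card) ^ 2 + 9 + 5 * p) ∨
      (2 ≤ n ∧ 4 * p ≤ σ ∧ p + 4 ≤ σ + A.card ∧ 150 * σ ≤ D ∧ D ≤ 25 * σ * b ∧ (∀ j, D ≤ d j) ∧
        n + p ≤ p * D + A.card ∧ n + p + 75 * p * σ + 1 ≤ s + A.card) := by
    rcases hc with h | ⟨σ, D, h1, h2, h3, h4, h5, h6, h7⟩
    · exact ⟨0, 0, 0, Or.inl ⟨rfl, h⟩⟩
    · refine ⟨D, σ, D, Or.inr ⟨h1, h2, h3, h4, ?_, h5, h6, h7⟩⟩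
      have h8 : 1 ≤ 25 * σ := by omega
      calc D = 1 * D := (one_mul D).symm
        _ ≤ _ := Nat.mul_le_mul_right _ h8
  obtain ⟨a, G, hG1, hG2, C, hC⟩ := pair_mainRI.{u, v, w} htr ht (k := ℚ)
    (by rw [trdeg_eq_zero]; exact Cardinal.aleph0_pos) (n := n) (p := p) (q := q) (b := b)
    (B := 2) (D := s) (r := n) (ρ := A.card) (σ := σ) (D₀ := D) (c := 0) (s := 1)
    (m := s - 1) (m' := n - A.card) (d := d)
    (ι := {x // x ∈ A}) (e := fun i => d i.1) (f := fun i => X (Sum.inl i.1))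
    (E := fun l => d (η l).1) (g := fun l => X (Sum.inl (η l).1))
    (fun i => ⟨hle _, isWeightedHomogeneous_X _ _ _⟩)
    (fun i => ⟨hle _, isWeightedHomogeneous_X _ _ _⟩) (by
      refine (ringKrullDim_quotient_le _).trans ?_
      rw [dim_mvPolynomial]) (by omega) (by omega) (fun B hB => by
      rw [hcard B hB]
      omega) (by
      rcases hD with ⟨h0, h1, h2, h3, h4⟩ | ⟨h1, h2, h3, h4, h5, h6, h7, h8⟩
      · left
        refine ⟨h0, hd1, by omega, by omega, by omega, h4, le_rfl, fun B hB => ?_⟩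
        rw [hcard B hB]
        omega
      · right
        have h9 : A.card + q = p := by rw [hq, hcardA]
        rw [h9]
        refine ⟨h1, h2, by omega, h4, h5, h6, by omega, by omega, fun B hB => ?_⟩
        rw [hcard B (by omega)]
        omega) hS F hF (card_le_trdeg_of_indepP hgen)
  obtain ⟨i, hi⟩ := exists_not_onA hd1 hF (algInd_jexpo hgen) (A := A) (by omega) hAn hG2
  refine ⟨G i, hG1 i, hi, 1 + cPI p q b 2 s + C, ?_⟩
  intro L _ _ _ _ _ x hx hFx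
  have hcL : CharZero L := charZero_of_injective_algebraMap (algebraMap K L).injective
  obtain ⟨N, hN⟩ : ∃ N : ℕ, N = truncCount κ F d S x := ⟨_, rfl⟩
  have hN' : N = Set.ncard {w : Place κ L |
      (∀ v ∈ S, ¬ (w.1.comap (algebraMap K L)).IsEquiv v.1) ∧
      ∃ l, w.1 (aeval (Sum.elim (fun j => aeval x (F j)) x : Fin p ⊕ Fin (n + 1) → L)
        (X (Sum.inl (η l).1) : MvPolynomial (Fin p ⊕ Fin (n + 1)) ℚ)) <
          vmax w.1 x ^ d (η l).1} := by
    rw [hN]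
    unfold truncCount
    congr 1
    ext w
    simp only [Set.mem_ofPred_eq]
    refine and_congr_right fun _ => ⟨?_, ?_⟩
    · rintro ⟨j, hj0, hj⟩
      refine ⟨η.symm ⟨j, Finset.mem_compl.2 fun h => hj0 ((hFx j).2 h)⟩, ?_⟩
      rw [aeval_X, Sum.elim_inl, Equiv.apply_symm_apply]
      exact hj
    · rintro ⟨l, hl⟩
      rw [aeval_X, Sum.elim_inl] at hl
      exact ⟨(η l).1, fun h => hη l ((hFx _).1 h), hl⟩
  rcases hC L x hx (fun j => by
    rw [aeval_X, Sum.elim_inl]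
    exact (hFx _).2 j.2) (fun l => by
    rw [aeval_X, Sum.elim_inl]
    exact fun h => hη l ((hFx _).1 h)) (by
    obtain ⟨J, hJ⟩ : ∃ J : {x // x ∈ A} ⊕ Fin q → Fin p,
      J = Sum.elim (fun i => i.1) (fun l => (η l).1) := ⟨_, rfl⟩
    have hJi : Function.Injective J := by
      rw [hJ]
      rintro (i | i) (l | l) h
      · rw [Sum.elim_inl, Sum.elim_inl] at h
        rw [Subtype.ext h]
      · rw [Sum.elim_inl, Sum.elim_inr] at h
        exact absurd (h ▸ i.2) (hη l)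
      · rw [Sum.elim_inl, Sum.elim_inr] at h
        exact absurd (h ▸ l.2) (hη i)
      · rw [Sum.elim_inr, Sum.elim_inr] at h
        rw [η.injective (Subtype.ext h)]
    obtain ⟨I, hI⟩ : ∃ I : Fin (A.card + q) → {x // x ∈ A} ⊕ Fin q, Function.Injective I :=
      ⟨fun a => Sum.map ε id (finSumFinEquiv.symm a), fun a a' h =>
        finSumFinEquiv.symm.injective
          (Function.Injective.sumMap ε.injective Function.injective_id h)⟩
    refine ⟨I, J ∘ I, ?_⟩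
    have h1 : (Matrix.of fun a b : Fin (A.card + q) =>
        aeval (Sum.elim (fun j => aeval x (F j)) x :
        Fin p ⊕ Fin (n + 1) → L) (pderiv (Sum.inl ((J ∘ I) b))
          (Sum.elim (fun i : {x // x ∈ A} => (X (Sum.inl i.1) :
            MvPolynomial (Fin p ⊕ Fin (n + 1)) ℚ)) (fun l => X (Sum.inl (η l).1)) (I a)))) = 1 := by
      ext a b
      have h2 : ∀ y, Sum.elim (fun i : {x // x ∈ A} => (X (Sum.inl i.1) :
          MvPolynomial (Fin p ⊕ Fin (n + 1)) ℚ)) (fun l => X (Sum.inl (η l).1)) y =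
          X (Sum.inl (J y)) := by
        rintro (y | y)
        · rw [hJ]
          rfl
        · rw [hJ]
          rfl
      rw [Matrix.of_apply, h2, Function.comp_apply]
      by_cases hab : a = b
      · subst hab
        rw [pderiv_X_self, map_one, Matrix.one_apply_eq]
      · rw [pderiv_X_of_ne (fun h => hab (hI (hJi (Sum.inl_injective h)))), map_zero,
          Matrix.one_apply_ne hab]
    rw [h1, Matrix.det_one]
    exact one_ne_zero) N hN' with h | h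
  · left
    rw [← hN]
    obtain ⟨c₀, hc₀⟩ : ∃ c₀ : ℕ, c₀ = cPI p q b 2 s := ⟨_, rfl⟩
    rw [← hc₀] at h ⊢
    have hf0 : (0 : ℤ) ≤ finrank K L := Int.natCast_nonneg _
    have hR0 : (0 : ℤ) ≤ ramDeg κ L K := Int.natCast_nonneg _
    have hN0 : (0 : ℤ) ≤ N := Int.natCast_nonneg _
    have e1 : (0 : ℤ) ≤ C * (finrank K L : ℤ) := by positivity
    have e2 : (0 : ℤ) ≤ C * (ramDeg κ L K : ℤ) := by positivity
    have e3 : (0 : ℤ) ≤ C * (N : ℤ) := by positivity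
    have e4 : (0 : ℤ) ≤ c₀ * (finrank K L : ℤ) := by positivity
    have e5 : (0 : ℤ) ≤ c₀ * (ramDeg κ L K : ℤ) := by positivity
    have e6 : (0 : ℤ) ≤ c₀ * (N : ℤ) := by positivity
    have e7 : ((1 + c₀ + C : ℕ) : ℤ) * ((finrank K L : ℤ) + ramDeg κ L K + N) =
        (finrank K L : ℤ) + ramDeg κ L K + N + c₀ * (finrank K L : ℤ) + c₀ * (ramDeg κ L K : ℤ) +
          c₀ * N + C * (finrank K L : ℤ) + C * (ramDeg κ L K : ℤ) + C * N := by
      push_cast
      ring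
    rw [e7]
    rcases h with h1 | ⟨-, h1⟩ | ⟨-, h1⟩
    · rw [Nat.cast_one, one_mul] at h1
      linarith
    · push_cast at h1
      linarith
    · rw [mul_add] at h1
      linarith
  · exact Or.inr (h.1 i)

end Pool.Agent.Lib.MP_44a246_ntSP
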