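import Mathlib
import Pool.Agent.Lib.MP_44a246_ntSP.FIN01
import Pool.Agent.Lib.MP_44a246_ntSP.FIN02

/-!
# Sharp pairs: all but finitely many types
-/

namespace Pool.Agent.Lib.MP_44a246_ntSP

open Pool.Agent.Lib.MP_44a246_nt
open Pool.Agent.Lib.MP_44a246_ntS
open Pool.Agent.Lib.MP_44a246_ntG
open MvPolynomial Module

universe u v w

/-- **The height theorem for pairs**, for all but finitely many types. -/
theorem pairs_final (p : ℕ) : ∃ E : Finset (ℕ × (Fin p → ℕ)),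
    (∀ q ∈ E, ∑ j, q.2 j ≤ 2 * q.1 + 1) ∧
    ∀ (n : ℕ) (d : Fin p → ℕ), (∀ j, 2 ≤ d j) → n + 2 ≤ ∑ j, d j → (n, d) ∉ E →
    ∀ (κ : Type u) (K : Type v) [Field κ] [IsAlgClosed κ] [CharZero κ] [Field K] [CharZero K]
      [Algebra κ K] (_ : Cardinal.aleph0 ≤ Algebra.trdeg ℚ κ) (t : K) (_ : Transcendental κ t)
      (_ : FiniteDimensional (IntermediateField.adjoin κ {t}) K)
      (F : Fin p → MvPolynomial (Fin (n + 1)) K) (_ : ∀ j, (F j).IsHomogeneous (d j))
      (_ : AlgebraicIndependent ℚ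
        (fun I : {I : Fin p × (Fin (n + 1) →₀ ℕ) // I.2.degree = d I.1} =>
          (F I.1.1).coeff I.1.2))
      (S : Set (Place κ K)) (_ : S.Finite) (A : Finset (Fin p)) (_ : A.card ≤ n),
    ∃ G : MvPolynomial (Fin (n + 1)) K, (∃ e, G.IsHomogeneous e) ∧
      (∃ z : Fin (n + 1) → AlgebraicClosure K, z ≠ 0 ∧ (∀ j ∈ A, aeval z (F j) = 0) ∧
        aeval z G ≠ 0) ∧
      ∃ C : ℕ, ∀ (L : Type w) [Field L] [Algebra K L] [FiniteDimensional K L] [Algebra κ L]
        [IsScalarTower κ K L] (x : Fin (n + 1) → L), x ≠ 0 →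
        (∀ j, aeval x (F j) = 0 ↔ j ∈ A) →
        height κ x ≤ C * ((finrank K L : ℤ) + ramDeg κ L K + truncCount κ F d S x) ∨
          aeval x G = 0 := by
  classical
  obtain ⟨n₀, hmain⟩ := pairs_main.{u, v, w} p
  refine ⟨((Finset.range n₀) ×ˢ (Fintype.piFinset fun _ : Fin p => Finset.range (2 * n₀ + 2))).filter
    fun q => ∑ j, q.2 j ≤ 2 * q.1 + 1, fun q hq => (Finset.mem_filter.1 hq).2,
    fun n d hd2 hd hE κ K _ _ _ _ _ _ htr t ht hfin F hF hgen S hS A hA => ?_⟩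
  rcases le_or_gt n₀ n with h0 | h0
  · exact hmain n d h0 hd2 hd κ K htr t ht hfin F hF hgen S hS A
  rcases le_or_gt (∑ j, d j) (2 * n + 1) with h1 | h1
  · refine absurd ?_ hE
    rw [Finset.mem_filter, Finset.mem_product, Finset.mem_range, Fintype.mem_piFinset]
    refine ⟨⟨h0, fun j => ?_⟩, h1⟩
    rw [Finset.mem_range]
    have h2 : d j ≤ ∑ j, d j := Finset.single_le_sum (f := d) (fun _ _ => Nat.zero_le _)
      (Finset.mem_univ j)
    show d j < 2 * n₀ + 2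
    omega
  · exact pairs_large.{u, v, w} ht hfin (fun j => le_trans (by norm_num) (hd2 j)) (by omega) F hF
      hgen S hS A hA

end Pool.Agent.Lib.MP_44a246_ntSP
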