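import Mathlib
import Pool.Agent.Lib.MP_44a246_ntSP.FIN03
import Pool.Agent.Lib.MP_44a246_ntSP.FIN04

/-!
# Sharp pairs: all but finitely many types, with explicit conditions on the exceptions
-/

namespace Pool.Agent.Lib.MP_44a246_ntSP

open Pool.Agent.Lib.MP_44a246_nt
open Pool.Agent.Lib.MP_44a246_ntS
open Pool.Agent.Lib.MP_44a246_ntG
open Pool.Agent.Lib.MP_44a246_ntSH
open MvPolynomial Module

universe u v w

/-- the quadratic condition -/
theorem quad_cond {p s a : ℕ} (h : 3 * p + 6 ≤ s + a) (hs : 1 ≤ s) :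
    (p + 6) * (s - 1 + a) + 2 * p * (s - 1) < (s - 1 + a) ^ 2 + 9 + 5 * p := by
  obtain ⟨y, hy⟩ : ∃ y, s - 1 + a = 3 * p + 5 + y := ⟨s + a - (3 * p + 6), by omega⟩
  have h1 : 2 * p * (s - 1) ≤ 2 * p * (3 * p + 5 + y) := Nat.mul_le_mul_left _ (by omega)
  rw [hy]
  nlinarith [Nat.zero_le (y * y), Nat.zero_le (p * y), sq_nonneg ((y : ℤ) - 1), Nat.zero_le y,
    mul_self_nonneg ((y : ℤ) - 1)]

/-- the conditions on an exceptional type -/
def Exc (p n : ℕ) (d : Fin p → ℕ) (A : Finset (Fin p)) : Prop :=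
  ∑ j, d j ≤ 2 * n + 1 ∧
  (2 * ∑ j, d j + A.card ≤ 3 * n + 5 ∨ ∑ j, d j + A.card ≤ 3 * p + 5) ∧
  (∑ j, d j + A.card ≤ n + p + 300 * p ^ 2 + 75 ∨
    ∃ j, d j < 600 * p ∨ p * d j + A.card < n + p) ∧
  (p = 1 → ∑ j, d j ≤ n + 376 ∧ (2 * ∑ j, d j ≤ 3 * n + 4 ∨ ∑ j, d j ≤ 8)) ∧
  (A = Finset.univ → (2 * ∑ j, d j + p ≤ 3 * n + 5 ∨ ∑ j, d j ≤ p + 7) ∧
    (∑ j, d j ≤ n + 300 * p ^ 2 ∨ ∃ j, d j < 600 * p ∨ p * d j < n) ∧
    (p = 1 → ∑ j, d j ≤ n + 300 ∧ (2 * ∑ j, d j ≤ 3 * n + 3 ∨ ∑ j, d j ≤ 6)))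

/-- if the conditions on the exceptional types are violated, then one of the explicit cases of the
theorem on pairs applies -/
theorem cond_of_not_exc {p n s : ℕ} {d : Fin p → ℕ} {A : Finset (Fin p)} (hs : s = ∑ j, d j)
    (hd2 : ∀ j, 2 ≤ d j) (hsn : n + 2 ≤ s) (hs2 : s ≤ 2 * n + 1) (hA : A.card < p)
    (h : ¬ ((2 * s + A.card ≤ 3 * n + 5 ∨ s + A.card ≤ 3 * p + 5) ∧
      (s + A.card ≤ n + p + 300 * p ^ 2 + 75 ∨ ∃ j, d j < 600 * p ∨ p * d j + A.card < n + p) ∧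
      (p = 1 → s ≤ n + 376 ∧ (2 * s ≤ 3 * n + 4 ∨ s ≤ 8)))) :
    (3 * n + 5 ≤ 2 * s + A.card ∧ p + 4 ≤ s + A.card ∧ (n + p + 3 ≤ s ∨
        2 * n + 3 ≤ s + A.card ∨ 3 * n + 6 ≤ 2 * s + A.card) ∧
        (p + 6) * (s - 1 + A.card) + 2 * p * (s - 1) < (s - 1 + A.card) ^ 2 + 9 + 5 * p) ∨
      ∃ σ D, 2 ≤ n ∧ 4 * p ≤ σ ∧ p + 4 ≤ σ + A.card ∧ 150 * σ ≤ D ∧ (∀ j, D ≤ d j) ∧
        n + p ≤ p * D + A.card ∧ n + p + 75 * p * σ + 1 ≤ s + A.card := by
  classical
  have hp : 0 < p := by omega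
  obtain ⟨j₀, -, hj₀⟩ := Finset.exists_min_image Finset.univ d ⟨(⟨0, hp⟩ : Fin p),
    Finset.mem_univ _⟩
  have h2p : 2 * p ≤ s := by
    rw [hs]
    calc 2 * p = ∑ _j : Fin p, 2 := by
          rw [Finset.sum_const, Finset.card_univ, Fintype.card_fin, smul_eq_mul, mul_comm]
      _ ≤ _ := Finset.sum_le_sum fun j _ => hd2 j
  rcases Nat.lt_or_ge p 2 with hp2 | hp2
  · -- one form
    have hp1 : p = 1 := by omega
    have hA0 : A.card = 0 := by omega
    have hds : ∀ j, d j = s := by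
      intro j
      subst hp1
      rw [hs, Fin.sum_univ_one, Subsingleton.elim j 0]
    have hI : (3 * n + 5 ≤ 2 * s ∧ 9 ≤ s) → (3 * n + 5 ≤ 2 * s + A.card ∧ p + 4 ≤ s + A.card ∧
        (n + p + 3 ≤ s ∨ 2 * n + 3 ≤ s + A.card ∨ 3 * n + 6 ≤ 2 * s + A.card) ∧
        (p + 6) * (s - 1 + A.card) + 2 * p * (s - 1) < (s - 1 + A.card) ^ 2 + 9 + 5 * p) :=
      fun h1 => ⟨by omega, by omega, by omega, quad_cond (by omega) (by omega)⟩
    have hII : n + 377 ≤ s → 750 ≤ s → ∃ σ D, 2 ≤ n ∧ 4 * p ≤ σ ∧ p + 4 ≤ σ + A.card ∧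
        150 * σ ≤ D ∧ (∀ j, D ≤ d j) ∧
        n + p ≤ p * D + A.card ∧ n + p + 75 * p * σ + 1 ≤ s + A.card := by
      intro h1 h2
      have e1 : p * s = s := by rw [hp1, one_mul]
      exact ⟨5, s, by omega, by omega, by omega, by omega, fun j => (hds j).ge, by omega,
        by omega⟩
    by_cases h1 : n + 377 ≤ s
    · by_cases h2 : 750 ≤ s
      · exact Or.inr (hII h1 h2)
      · exact Or.inl (hI ⟨by omega, by omega⟩)
    · left
      refine hI ?_
      by_contra h2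
      apply h
      have e1 : 300 * p ^ 2 = 300 := by rw [hp1]; norm_num
      exact ⟨by omega, Or.inl (by omega), fun _ => ⟨by omega, by omega⟩⟩
  · by_cases hE2 : 2 * s + A.card ≤ 3 * n + 5 ∨ s + A.card ≤ 3 * p + 5
    · right
      have hE3 : ¬ (s + A.card ≤ n + p + 300 * p ^ 2 + 75 ∨
          ∃ j, d j < 600 * p ∨ p * d j + A.card < n + p) := fun h1 =>
        h ⟨hE2, h1, fun h2 => by omega⟩
      push Not at hE3
      obtain ⟨h1, h2⟩ := hE3
      refine ⟨4 * p, d j₀, by omega, le_rfl, by omega, ?_, fun j => hj₀ j (Finset.mem_univ j),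
        (h2 j₀).2, ?_⟩
      · have := (h2 j₀).1
        omega
      · have h3 : 75 * p * (4 * p) = 300 * p ^ 2 := by ring
        rw [h3]
        omega
    · left
      push Not at hE2
      exact ⟨by omega, by omega, by omega, quad_cond (by omega) (by omega)⟩

/-- **The height theorem for generic pairs**, for all but finitely many types; the exceptional
types satisfy `Exc`. -/
theorem pairs_finalE (p : ℕ) : ∃ E : Finset (ℕ × (Fin p → ℕ) × Finset (Fin p)),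
    (∀ q ∈ E, Exc p q.1 q.2.1 q.2.2) ∧
    ∀ (n : ℕ) (d : Fin p → ℕ) (A : Finset (Fin p)), (∀ j, 2 ≤ d j) → n + 2 ≤ ∑ j, d j →
      A.card < n → (n, d, A) ∉ E →
    ∀ (κ : Type u) (K : Type v) [Field κ] [IsAlgClosed κ] [CharZero κ] [Field K] [CharZero K]
      [Algebra κ K] (_ : Cardinal.aleph0 ≤ Algebra.trdeg ℚ κ) (t : K) (_ : Transcendental κ t)
      (_ : FiniteDimensional (IntermediateField.adjoin κ {t}) K)
      (F : Fin p → MvPolynomial (Fin (n + 1)) K) (_ : ∀ j, (F j).IsHomogeneous (d j))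
      (_ : AlgebraicIndependent ℚ
        (fun I : {I : Fin p × (Fin (n + 1) →₀ ℕ) // I.2.degree = d I.1} =>
          (F I.1.1).coeff I.1.2))
      (S : Set (Place κ K)) (_ : S.Finite),
    ∃ G : MvPolynomial (Fin (n + 1)) K, (∃ e, G.IsHomogeneous e) ∧
      (∃ z : Fin (n + 1) → AlgebraicClosure K, z ≠ 0 ∧ (∀ j ∈ A, aeval z (F j) = 0) ∧
        aeval z G ≠ 0) ∧
      ∃ C : ℕ, ∀ (L : Type w) [Field L] [Algebra K L] [FiniteDimensional K L] [Algebra κ L]
        [IsScalarTower κ K L] (x : Fin (n + 1) → L), x ≠ 0 →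
        (∀ j, aeval x (F j) = 0 ↔ j ∈ A) →
        height κ x ≤ C * ((finrank K L : ℤ) + ramDeg κ L K + truncCount κ F d S x) ∨
          aeval x G = 0 := by
  classical
  obtain ⟨E', -, hE'⟩ := pairs_final.{u, v, w} p
  obtain ⟨E'', hE''1, hE''⟩ := sharp_finalP.{u, v, w} p
  refine ⟨(E' ×ˢ (Finset.univ : Finset (Finset (Fin p)))).image
    (fun q => (q.1.1, q.1.2, q.2)) |>.filter fun q => Exc p q.1 q.2.1 q.2.2,
    fun q hq => (Finset.mem_filter.1 hq).2, ?_⟩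
  intro n d A hd2 hd hA hE κ K _ _ _ _ _ _ htr t ht hfin F hF hgen S hS
  have hd1 : ∀ j, 1 ≤ d j := fun j => le_trans (by norm_num) (hd2 j)
  by_cases h1 : (n, d) ∈ E'
  swap
  · exact hE' n d hd2 hd h1 κ K htr t ht hfin F hF hgen S hS A (by omega)
  have h2 : ¬ Exc p n d A := by
    intro h
    apply hE
    rw [Finset.mem_filter]
    refine ⟨?_, h⟩
    rw [Finset.mem_image]
    exact ⟨((n, d), A), by
      rw [Finset.mem_product]
      exact ⟨h1, Finset.mem_univ _⟩, rfl⟩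
  rcases Nat.lt_or_ge (2 * n + 1) (∑ j, d j) with hs2 | hs2
  · exact pairs_large.{u, v, w} ht hfin hd1 (by omega) F hF hgen S hS A (by omega)
  have hAp : A.card ≤ p := by
    have := Finset.card_le_univ A
    rwa [Fintype.card_fin] at this
  by_cases hAu : A = Finset.univ
  · -- points of the complete intersection
    subst hAu
    rw [Finset.card_univ, Fintype.card_fin] at hA
    have h3 : (n, d) ∉ E'' := by
      intro h
      obtain ⟨e1, e2, e3⟩ := hE''1 _ h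
      apply h2
      unfold Exc
      rw [Finset.card_univ, Fintype.card_fin]
      simp only at e1 e2 e3
      have e4 : 2 * ∑ j, d j + p ≤ 3 * n + 5 ∨ ∑ j, d j + p ≤ 3 * p + 5 := by
        clear e2
        omega
      refine ⟨hs2, e4, ?_, fun hp1 => ?_, fun _ => ⟨e1, e2, e3⟩⟩
      · rcases e2 with e2 | ⟨j, e2 | e2⟩
        · left
          omega
        · exact Or.inr ⟨j, Or.inl e2⟩
        · right
          exact ⟨j, Or.inr (by omega)⟩
      · have e5 := e3 hp1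
        clear e2
        omega
    obtain ⟨G, hG1, ⟨z, hz0, hz1, hz2⟩, C, hC⟩ := hE'' n d (by omega) hd2 hd h3 κ K htr t ht hfin F
      hF hgen
    refine ⟨G, hG1, ⟨z, hz0, fun j _ => hz1 j, hz2⟩, C, ?_⟩
    intro L _ _ _ _ _ x hx hFx
    rcases hC L x hx (fun j => (hFx j).2 (Finset.mem_univ j)) with h | h
    · left
      refine h.trans ?_
      have e1 : (0 : ℤ) ≤ C * (truncCount κ F d S x : ℤ) := by positivity
      have e2 : (C : ℤ) * ((finrank K L : ℤ) + ramDeg κ L K + truncCount κ F d S x) =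
          C * ((finrank K L : ℤ) + ramDeg κ L K) + C * (truncCount κ F d S x : ℤ) := by ring
      rw [e2]
      linarith
    · exact Or.inr h
  · have hAp' : A.card < p := by
      refine lt_of_le_of_ne hAp fun h => hAu ?_
      rw [← Finset.card_eq_iff_eq_univ, h, Fintype.card_fin]
    refine pairs_small.{u, v, w} hd1 rfl hd hAp' hA ?_ htr ht hfin hF hgen hS
    refine cond_of_not_exc rfl hd2 hd hs2 hAp' fun h => h2 ?_
    exact ⟨hs2, h.1, h.2.1, h.2.2, fun h3 => absurd h3 hAu⟩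

end Pool.Agent.Lib.MP_44a246_ntSP
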