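import Mathlib
import Pool.Agent.Lib.MP_44a246_ntSH.CB02
import Pool.Agent.Lib.MP_44a246_ntSP.Hcon

/-!
# The conormal lemma with the hypotheses of the count (SHARP PAIRS, paper 667, section 1)

Same interface as `card_le_ZF` (`MP_44a246_ntSH/CB02`): the constant field `κ` is algebraically
closed, the coordinates `γ` have at most the poles of `X'`, their span has dimension at least `N + 1`
and `2 ^ i * height X' ≤ 3 ^ i * N`.
-/

set_option autoImplicit false

namespace Pool.Agent.Lib.MP_44a246_ntSP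

open Module Polynomial WithZero
open Pool.Agent.Lib.MP_e52354_nt
open Pool.Agent.Lib.MP_44a246_nt
open Pool.Agent.Lib.MP_44a246_ntL
open Pool.Agent.Lib.MP_44a246_ntR
open Pool.Agent.Lib.MP_44a246_ntS
open Pool.Agent.Lib.MP_44a246_ntF
open Pool.Agent.Lib.MP_44a246_ntO
open Pool.Agent.Lib.MP_44a246_ntW
open Pool.Agent.Lib.MP_44a246_ntE
open Pool.Agent.Lib.MP_44a246_ntSH

section

variable {κ M : Type*} [Field κ] [IsAlgClosed κ] [CharZero κ] [Field M] [Algebra κ M]

omit [IsAlgClosed κ] [CharZero κ] in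
/-- the field generated by `X, Y` over `κ` is generated by `Y` over `κ (X)` -/
private theorem hc_gen [Algebra (RatFunc κ) M] [IsScalarTower κ (RatFunc κ) M] {X Y : M}
    (hX : tL κ M = X) (hgen : IntermediateField.adjoin κ {X, Y} = ⊤) :
    IntermediateField.adjoin (RatFunc κ) {Y} = ⊤ := by
  rw [eq_top_iff]
  intro x _
  have h1 : x ∈ IntermediateField.adjoin κ {X, Y} := by
    rw [hgen]
    exact IntermediateField.mem_top
  have h2 : IntermediateField.adjoin κ {X, Y} ≤
      (IntermediateField.adjoin (RatFunc κ) {Y}).restrictScalars κ := by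
    rw [IntermediateField.adjoin_le_iff]
    rintro y (rfl | hy)
    · change _ ∈ IntermediateField.adjoin (RatFunc κ) {Y}
      rw [← hX]
      exact (IntermediateField.adjoin (RatFunc κ) {Y}).algebraMap_mem _
    · rw [Set.mem_singleton_iff] at hy
      subst hy
      exact IntermediateField.mem_adjoin_simple_self _ _
  exact h2 h1

omit [IsAlgClosed κ] [CharZero κ] in
private theorem hc_vmax (v : Place κ M) {n : ℕ} (γ : Fin (n + 1) → M) (j : Fin (n + 1)) :
    v.1 (γ j) ≤ vmax v.1 γ :=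
  Finset.le_sup (f := fun i => v.1 (γ i)) (Finset.mem_univ j)

omit [IsAlgClosed κ] [CharZero κ] in
private theorem hc_pow_le {P : Place κ M →₀ ℤ} {W : Submodule κ M} (hW : W ≤ rr P) (k : ℕ) :
    W ^ k ≤ rr (k • P) := by
  induction k with
  | zero =>
    rw [pow_zero, Submodule.one_le]
    intro v
    rw [map_one, zero_nsmul, Finsupp.zero_apply, exp_zero]
  | succ k ih =>
    rw [pow_succ, Submodule.mul_le]
    intro a ha b hb v
    have h1 := ih ha v
    have h2 := hW hb v
    rw [map_mul, succ_nsmul, Finsupp.add_apply, exp_add]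
    exact mul_le_mul' h1 h2

/-- **The conormal lemma**, in the interface of `card_le_ZF`. -/
theorem hcon_of_max (hM : IsFF κ M) {A : κ[X][X]} (hA : 2 ≤ A.natDegree) {n : ℕ}
    {B : Fin (n + 1) → κ[X][X]} {X' Y : M}
    (hψ : ∀ G : κ[X][X], ev (algebraMap κ M) X' Y G = 0 ↔ A ∣ G) (hX : Transcendental κ X')
    (hgen : IntermediateField.adjoin κ {X', Y} = ⊤) {γ : Fin (n + 1) → M}
    (hγ : ∀ j, ev (algebraMap κ M) X' Y (B j) = ev (algebraMap κ M) X' Y (derivative A) * γ j)
    (hmax : ∀ w : Place κ M, vmax w.1 γ ≤ max 1 (w.1 X'))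
    {ξ : Fin 3 → Fin (n + 1) → κ}
    (h0 : ∑ j, algebraMap κ M (ξ 0 j) * γ j = 1) (h1 : ∑ j, algebraMap κ M (ξ 1 j) * γ j = X')
    (h2 : ∑ j, algebraMap κ M (ξ 2 j) * γ j = Y)
    {T : Type*} [Fintype T] {D : T → Derivation ℤ κ κ} (hDξ : ∀ t i j, D t (ξ i j) = 0)
    {N i b' : ℕ} (hN : N + 1 ≤ finrank κ (Submodule.span κ (Set.range γ)))
    (hb : height κ ![1, X'] ≤ b') (hi : 2 ^ i * b' ≤ 3 ^ i * N) {F : T → κ}
    (hF : F ∉ ZF A B D) :
    ∃ f ∈ VI A B (8 * 2 ^ i), (fun K => dF D F (f K)) ∉ VI A B (8 * 2 ^ i) := by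
  classical
  refine with_sep hM hX ?_
  intro iA t1 iR t2 iI t3 fd hXf
  have htower : IsScalarTower κ (RatFunc κ) M := Pool.Agent.Lib.MP_44a246_ntSP.tower_ratFunc
  have htL : tL κ M = X' := by rw [tL_eq, hXf]
  have hmm : (finrank (RatFunc κ) M : ℤ) = height κ ![1, X'] := by
    rw [finrank_eq_height κ M, htL]
  obtain ⟨P, hP⟩ := exists_pole κ M
  obtain ⟨W, hW⟩ : ∃ W : Submodule κ M, W = Submodule.span κ (Set.range γ) := ⟨_, rfl⟩
  have hWP : W ≤ rr P := by
    rw [hW, Submodule.span_le]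
    rintro _ ⟨j, rfl⟩ v
    refine ((hc_vmax v γ j).trans (hmax v)).trans (max_le ?_ ?_)
    · rw [← exp_zero, exp_le_exp]
      exact hP.nonneg v
    · refine le_exp_log.trans ?_
      rw [exp_le_exp, hP v, htL]
      exact le_max_right _ _
  have hgen' := hc_gen htL hgen
  have hWf : FiniteDimensional κ W := by
    rw [hW]
    exact FiniteDimensional.span_of_finite _ (Set.finite_range γ)
  have hsumW : ∀ c : Fin (n + 1) → κ, ∑ j, algebraMap κ M (c j) * γ j ∈ W := by
    intro c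
    rw [hW]
    refine Submodule.sum_mem _ fun j _ => ?_
    rw [← Algebra.smul_def]
    exact Submodule.smul_mem _ _ (Submodule.subset_span ⟨j, rfl⟩)
  have h1W : (1 : M) ∈ W := h0 ▸ hsumW _
  have htW : tL κ M ∈ W := by
    rw [htL]
    exact h1 ▸ hsumW _
  have hYW : Y ∈ W := h2 ▸ hsumW _
  obtain ⟨s, hs⟩ : ∃ s, finrank κ W = s + 1 := ⟨finrank κ W - 1, by
    have : N + 1 ≤ finrank κ W := hW ▸ hN
    omega⟩
  have hNs : N ≤ s := by
    have : N + 1 ≤ finrank κ W := hW ▸ hN
    omega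
  have hmb : finrank (RatFunc κ) M ≤ b' := by
    have h1 : (finrank (RatFunc κ) M : ℤ) ≤ b' := by rw [hmm]; exact hb
    exact_mod_cast h1
  have hi' : 2 ^ i * finrank (RatFunc κ) M ≤ 3 ^ i * s :=
    (Nat.mul_le_mul_left _ hmb).trans (hi.trans (Nat.mul_le_mul_left _ hNs))
  obtain ⟨f, hf, hfj⟩ := exists_adapted_growth hP h1W htW hYW hWP hgen' hs hi'
  -- the growth
  have hgrow : Submodule.span (RatFunc κ) (Set.range γ) ^ (2 ^ i) = ⊤ := by
    have h3 : Submodule.span (RatFunc κ) (Set.range f) = ⊤ :=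
      hf.span_eq_top_of_card_eq_finrank' (by rw [Fintype.card_fin])
    rw [eq_top_iff, ← h3, Submodule.span_le]
    rintro _ ⟨l, rfl⟩
    have h4 : f l ∈ W ^ (2 ^ i) := hfj l
    have h5 : W ^ (2 ^ i) ≤ (Submodule.span (RatFunc κ) (Set.range γ) ^ (2 ^ i)).restrictScalars κ := by
      rw [hW, Submodule.span_pow, Submodule.span_pow, Submodule.span_le]
      exact Submodule.subset_span
    exact h5 h4
  -- the dimension
  have hdim : finrank κ ↥(Submodule.span κ (Set.range γ) ^ (8 * 2 ^ i)) ≤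
      8 * 2 ^ i * finrank (RatFunc κ) M + 1 := by
    have hdeg : divDeg ((8 * 2 ^ i) • P) = (8 * 2 ^ i : ℕ) * finrank (RatFunc κ) M := by
      have h3 : ∀ m : ℕ, divDeg (m • P) = m * finrank (RatFunc κ) M := by
        intro m
        induction m with
        | zero => simp [divDeg]
        | succ m ih =>
          rw [succ_nsmul, divDeg_add, ih, hP.deg]
          push_cast
          ring
      exact h3 _
    have hnn : (0 : ℤ) ≤ ((8 * 2 ^ i : ℕ) : ℤ) * (finrank (RatFunc κ) M : ℤ) := by positivity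
    have h3 := finrank_rr_le_deg hM (D := (8 * 2 ^ i) • P) (by rw [hdeg]; linarith)
    have hfd : FiniteDimensional κ (rr ((8 * 2 ^ i) • P)) := finite_rr hM _
    have h4 : finrank κ ↥(W ^ (8 * 2 ^ i)) ≤ finrank κ (rr ((8 * 2 ^ i) • P)) :=
      Submodule.finrank_mono (hc_pow_le hWP _)
    rw [hdeg] at h3
    rw [← hW]
    have h5 : ((finrank κ ↥(W ^ (8 * 2 ^ i)) : ℕ) : ℤ) ≤
        ((8 * 2 ^ i * finrank (RatFunc κ) M + 1 : ℕ) : ℤ) := by
      refine (Int.ofNat_le.2 h4).trans (h3.trans (le_of_eq ?_))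
      push_cast
      ring
    exact_mod_cast h5
  -- the function field
  have hev : ∀ G : κ[X][X], aeval Y G = 0 ↔ A ∣ G := by
    intro G
    rw [← hψ, ← ev_aeval, hXf]
  have hfd : FiniteDimensional (IntermediateField.adjoin κ {X'}) M := finite_over_adjoin hM hX
  have halg : Algebra.IsAlgebraic (IntermediateField.adjoin κ {X'}) M := inferInstance
  have hY : ¬ A ∣ derivative A := by
    intro h3
    have h4 : derivative A ≠ 0 := by
      intro h5
      have h6 := derivative_eq_zero.1 h5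
      omega
    exact absurd (natDegree_le_of_dvd h3 h4) (not_le.2 (natDegree_derivative_lt (by omega)))
  have hrel : ∀ (c : Fin (n + 1) → κ) (Q : κ[X][X]),
      ev (algebraMap κ M) X' Y Q = ∑ j, algebraMap κ M (c j) * γ j →
      A ∣ ∑ j, C (C (c j)) * B j - Q * derivative A := by
    intro c Q hQ
    rw [← hψ, map_sub, map_mul, map_sum, hQ, sub_eq_zero, Finset.sum_mul]
    refine Finset.sum_congr rfl fun j _ => ?_
    rw [map_mul, ev_C_C, hγ j]
    ring
  have r0 : A ∣ ∑ j, C (C (ξ 0 j)) * B j - derivative A := by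
    have h3 := hrel (ξ 0) 1 (by rw [map_one, h0])
    rwa [one_mul] at h3
  have r1 : A ∣ ∑ j, C (C (ξ 1 j)) * B j - C X * derivative A :=
    hrel (ξ 1) (C X) (by rw [ev_C_X, h1])
  refine hcon_curve (γ := γ) hev (by rw [hXf]; exact hX) (by rw [hXf]; exact halg) hY r0 r1
    (fun j => ?_) Nat.one_le_two_pow hgrow hdim (fun t j => hDξ t 0 j) (fun t j => hDξ t 1 j) hF
  rw [← ev_aeval, ← ev_aeval, hXf, hγ j, mul_comm]

end

end Pool.Agent.Lib.MP_44a246_ntSP
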